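import Pool.Agent.K1H99.FCC.Sup

/-!
# Lower bounds for the normalised energy by finitely many vectors
-/

set_option autoImplicit false

open Matrix

namespace Pool.Agent.K1H99.FCC

lemma rv_neg (n : Fin 3 → ℤ) : rv (-n) = -rv n := by
  funext i
  simp [rv]

lemma qf_neg (p : Fin 6 → ℝ) (n : Fin 3 → ℤ) : qf p (rv (-n)) = qf p (rv n) := by
  rw [rv_neg]
  unfold qf
  simp only [Pi.neg_apply]
  ring

lemma af_neg (p : Fin 6 → ℝ) (n : Fin 3 → ℤ) : af p (rv (-n)) = af p (rv n) := by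
  rw [rv_neg]
  unfold af
  simp only [Pi.neg_apply]
  ring

/-- signed vectors -/
def sgv {m : ℕ} (X : Fin m → Fin 3 → ℤ) (s : Fin m × Bool) : Fin 3 → ℤ :=
  if s.2 then X s.1 else -X s.1

/-- a symmetric nonnegative summable family is bounded below by twice the sum over vectors which are
distinct up to sign -/
lemma two_sum_le {m : ℕ} (X : Fin m → Fin 3 → ℤ) (h0 : ∀ s, sgv X s ≠ 0)
    (hi : Function.Injective (sgv X)) (f : (Fin 3 → ℤ) → ℝ) (hf : ∀ n, f (-n) = f n)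
    (hn : ∀ n : N0, 0 ≤ f n.1) (hs : Summable fun n : N0 => f n.1) :
    2 * ∑ i, f (X i) ≤ ∑' n : N0, f n.1 := by
  have hi' : Function.Injective (fun s => (⟨sgv X s, h0 s⟩ : N0)) := by
    intro a b hab
    exact hi (congrArg Subtype.val hab)
  have h1 := hs.sum_le_tsum (Finset.univ.map ⟨_, hi'⟩) (fun i _ => hn i)
  refine le_trans (le_of_eq ?_) h1
  rw [Finset.sum_map, Fintype.sum_prod_type, Finset.mul_sum]
  refine Finset.sum_congr rfl fun i _ => ?_
  simp only [Function.Embedding.coeFn_mk, Fintype.sum_bool, sgv, if_true, Bool.false_eq_true,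
    if_false, hf]
  ring

/-- the nine direct vectors -/
def Xv : Fin 9 → Fin 3 → ℤ :=
  ![![1, 0, 0], ![0, 1, 0], ![0, 0, 1], ![1, 1, 0], ![1, 0, 1], ![0, 1, 1], ![1, 1, 1],
    ![1, -1, 0], ![1, 1, 2]]

/-- the nine dual vectors -/
def Yv : Fin 9 → Fin 3 → ℤ :=
  ![![1, 0, 0], ![0, 1, 0], ![0, 0, 1], ![1, -1, 0], ![1, 0, -1], ![0, 1, -1], ![1, 1, -1],
    ![1, -1, 1], ![-1, 1, 1]]

lemma Xv0 : ∀ s, sgv Xv s ≠ 0 := by decide
lemma Yv0 : ∀ s, sgv Yv s ≠ 0 := by decide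
lemma Xvi : Function.Injective (sgv Xv) := by decide
lemma Yvi : Function.Injective (sgv Yv) := by decide

lemma lam_ge {p : Fin 6 → ℝ} (h : PD p) :
    3 / 2 + 2 * ∑ i, I (-(3 / 2)) (Real.pi * (af p (rv (Yv i)) / rad p ^ 2)) +
      2 * ∑ i, I 1 (Real.pi * (qf p (rv (Xv i)) / rad p)) ≤ Lam p := by
  have h1 := two_sum_le Yv Yv0 Yvi (fun n => I (-(3 / 2)) (Real.pi * (af p (rv n) / rad p ^ 2)))
    (fun n => by simp only [af_neg]) (fun n => I_nonneg _ _) (lam_summable h _).1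
  have h2 := two_sum_le Xv Xv0 Xvi (fun n => I 1 (Real.pi * (qf p (rv n) / rad p)))
    (fun n => by simp only [qf_neg]) (fun n => I_nonneg _ _) (lam_summable h _).2
  unfold Lam
  linarith

end Pool.Agent.K1H99.FCC
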