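import Pool.Agent.K1H99.FCC.Sel
import Pool.Agent.K1H99.FCC.Snd

/-!
# From forms to lattices
-/

set_option autoImplicit false

open Matrix

namespace Pool.Agent.K1H99.FCC

lemma rv_mulVec (U : Matrix (Fin 3) (Fin 3) ℤ) (n : Fin 3 → ℤ) :
    rv (U.mulVec n) = (rm U).mulVec (rv n) := by
  funext i
  unfold rv rm
  simp [Matrix.mulVec, dotProduct]

lemma nsq_mul_rm (A : Matrix (Fin 3) (Fin 3) ℝ) (U : Matrix (Fin 3) (Fin 3) ℤ) (n : Fin 3 → ℤ) :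
    nsq (A * rm U) (rv n) = nsq A (rv (U.mulVec n)) := by
  unfold nsq
  rw [rv_mulVec, Matrix.mulVec_mulVec]

/-- unimodular matrices act on the nonzero integral vectors -/
noncomputable def uact (U : Matrix (Fin 3) (Fin 3) ℤ) (hU : IsUnit U.det) : N0 ≃ N0 where
  toFun n := ⟨U.mulVec n.1, fun h => n.2 (by
    have h1 : U⁻¹.mulVec (U.mulVec n.1) = 0 := by rw [h, Matrix.mulVec_zero]
    rwa [Matrix.mulVec_mulVec, Matrix.nonsing_inv_mul _ hU, Matrix.one_mulVec] at h1)⟩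
  invFun n := ⟨U⁻¹.mulVec n.1, fun h => n.2 (by
    have h1 : U.mulVec (U⁻¹.mulVec n.1) = 0 := by rw [h, Matrix.mulVec_zero]
    rwa [Matrix.mulVec_mulVec, Matrix.mul_nonsing_inv _ hU, Matrix.one_mulVec] at h1)⟩
  left_inv n := by
    apply Subtype.ext
    show U⁻¹.mulVec (U.mulVec n.1) = n.1
    rw [Matrix.mulVec_mulVec, Matrix.nonsing_inv_mul _ hU, Matrix.one_mulVec]
  right_inv n := by
    apply Subtype.ext
    show U.mulVec (U⁻¹.mulVec n.1) = n.1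
    rw [Matrix.mulVec_mulVec, Matrix.mul_nonsing_inv _ hU, Matrix.one_mulVec]

lemma sum_rm (A : Matrix (Fin 3) (Fin 3) ℝ) (U : Matrix (Fin 3) (Fin 3) ℤ) (hU : IsUnit U.det) :
    ∑' n : N0, (nsq (A * rm U) (rv n.1) ^ 2)⁻¹ = ∑' n : N0, (nsq A (rv n.1) ^ 2)⁻¹ := by
  rw [← (uact U hU).tsum_eq fun n : N0 => (nsq A (rv n.1) ^ 2)⁻¹]
  exact tsum_congr fun n => by rw [nsq_mul_rm]; rfl

/-- the energy of a lattice is determined by the parameters of any of its bases -/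
lemma rep_energy {A : Matrix (Fin 3) (Fin 3) ℝ} (hA : A.det ≠ 0) {p : Fin 6 → ℝ} (h : Rep A p) :
    PD p ∧ dt p = A.det ^ 2 ∧
      rad p ^ 2 * ∑' n : N0, (nsq A (rv n.1) ^ 2)⁻¹ = Real.pi ^ 2 * Lam p := by
  obtain ⟨U, hU, e⟩ := h
  have hd : (A * rm U).det ^ 2 = A.det ^ 2 := by
    rw [Matrix.det_mul, rm_det, mul_pow]
    rcases Int.isUnit_iff.1 hU with h | h <;> rw [h] <;> norm_num
  have hd0 : (A * rm U).det ≠ 0 := by
    intro h0
    rw [h0] at hd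
    have : A.det ^ 2 = 0 := by rw [← hd]; norm_num
    exact hA (pow_eq_zero_iff (two_ne_zero) |>.1 this)
  refine ⟨⟨_, e, hd0⟩, ?_, ?_⟩
  · rw [← det_sq e, hd]
  · rw [← sum_rm A U hU]
    exact energy_eq e hd0

/-- the basis of the face-centred cubic lattice -/
def Cm : Matrix (Fin 3) (Fin 3) ℝ := !![1, 1, -1; 1, -1, 0; 0, 0, 1]

lemma Cm_gram : Cmᵀ * Cm = Qm Fp := by
  unfold Cm Qm Fp
  ext i j
  fin_cases i <;> fin_cases j <;> simp [Matrix.mul_apply, Fin.sum_univ_three] <;> norm_num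

lemma Cm_det : Cm.det = -2 := by
  unfold Cm
  rw [Matrix.det_fin_three]
  simp
  norm_num

/-- the parametrisation of the face-centred cubic lattice -/
def cpar : N0 ≃ {x : Fin 3 → ℤ // x ≠ 0 ∧ Even (x 0 + x 1 + x 2)} where
  toFun n := ⟨![n.1 0 + n.1 1 - n.1 2, n.1 0 - n.1 1, n.1 2], by
    refine ⟨fun h => n.2 ?_, ⟨n.1 0, ?_⟩⟩
    · have h0 := congrFun h 0
      have h1 := congrFun h 1
      have h2 := congrFun h 2
      simp at h0 h1 h2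
      funext i
      fin_cases i
      · show n.1 0 = 0
        omega
      · show n.1 1 = 0
        omega
      · show n.1 2 = 0
        omega
    · simp
      ring⟩
  invFun x := ⟨![(x.1 0 + x.1 1 + x.1 2) / 2, (x.1 0 - x.1 1 + x.1 2) / 2, x.1 2], by
    intro h
    obtain ⟨k, hk⟩ := x.2.2
    have h0 := congrFun h 0
    have h1 := congrFun h 1
    have h2 := congrFun h 2
    simp at h0 h1 h2
    apply x.2.1
    funext i
    fin_cases i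
    · show x.1 0 = 0
      omega
    · show x.1 1 = 0
      omega
    · show x.1 2 = 0
      omega⟩
  left_inv n := by
    apply Subtype.ext
    funext i
    fin_cases i
    · show (n.1 0 + n.1 1 - n.1 2 + (n.1 0 - n.1 1) + n.1 2) / 2 = n.1 0
      omega
    · show (n.1 0 + n.1 1 - n.1 2 - (n.1 0 - n.1 1) + n.1 2) / 2 = n.1 1
      omega
    · rfl
  right_inv x := by
    obtain ⟨k, hk⟩ := x.2.2
    apply Subtype.ext
    funext i
    fin_cases i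
    · show (x.1 0 + x.1 1 + x.1 2) / 2 + (x.1 0 - x.1 1 + x.1 2) / 2 - x.1 2 = x.1 0
      omega
    · show (x.1 0 + x.1 1 + x.1 2) / 2 - (x.1 0 - x.1 1 + x.1 2) / 2 = x.1 1
      omega
    · rfl

/-- the lattice statement, given the inequality for reduced forms -/
theorem main_of
    (H : ∀ s1 d1 s2 d2 s3 d3 : ℝ, s2 ≤ s1 → s3 ≤ s2 → 0 ≤ d1 → d1 ≤ s1 → 0 ≤ d2 → d2 ≤ s2 →
      d3 ≤ s3 → -d3 ≤ s3 → PD (sd s1 d1 s2 d2 s3 d3) → Lam Fp ≤ Lam (sd s1 d1 s2 d2 s3 d3))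
    (V : ℝ) (hV : 0 < V) (A : Matrix (Fin 3) (Fin 3) ℝ) (hA : |A.det| = V) :
      (∑' x : {x : Fin 3 → ℤ // x ≠ 0 ∧ Even (x 0 + x 1 + x 2)},
          ((∑ i : Fin 3, ((V / 2) ^ ((1 : ℝ) / 3) * ((x.1 i : ℤ) : ℝ)) ^ 2) ^ 2)⁻¹)
        ≤ ∑' n : {n : Fin 3 → ℤ // n ≠ 0},
          ((∑ i : Fin 3, ((A.mulVec (fun j => ((n.1 j : ℤ) : ℝ))) i) ^ 2) ^ 2)⁻¹ := by
  have hA0 : A.det ≠ 0 := by
    intro h
    rw [h, abs_zero] at hA
    linarith
  obtain ⟨s1, d1, s2, d2, s3, d3, hrep, c1, c2, c3, c4, c5, c6, c7, c8⟩ := exists_reduced A hA0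
  obtain ⟨hpd, hdt, hen⟩ := rep_energy hA0 hrep
  have hle := H s1 d1 s2 d2 s3 d3 c1 c2 c3 c4 c5 c6 c7 c8 hpd
  set p := sd s1 d1 s2 d2 s3 d3 with hp
  have hF := energy_eq Cm_gram (by rw [Cm_det]; norm_num)
  have hFd : dt Fp = 4 := by
    rw [← det_sq Cm_gram, Cm_det]
    norm_num
  set t : ℝ := (V / 2) ^ ((1 : ℝ) / 3) with ht
  have ht0 : 0 < t := Real.rpow_pos_of_pos (by positivity) _
  have ht3 : t ^ 3 = V / 2 := by
    rw [ht, ← Real.rpow_natCast, ← Real.rpow_mul (by positivity)]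
    norm_num
  have hrp : 0 < rad p := rad_pos (dt_pos hpd)
  have hrF : 0 < rad Fp := rad_pos (by rw [hFd]; norm_num)
  have hrp3 := rad_cube (dt_pos hpd).le
  have hrF3 := rad_cube (p := Fp) (by rw [hFd]; norm_num)
  have hr : rad p = t ^ 2 * rad Fp := by
    refine (pow_left_inj₀ hrp.le (by positivity) (three_ne_zero)).1 ?_
    rw [hrp3, hdt, mul_pow, hrF3, hFd, ← sq_abs, hA]
    have : (t ^ 2) ^ 3 = (t ^ 3) ^ 2 := by ring
    rw [this, ht3]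
    ring
  have hL : (∑' x : {x : Fin 3 → ℤ // x ≠ 0 ∧ Even (x 0 + x 1 + x 2)},
      ((∑ i : Fin 3, (t * ((x.1 i : ℤ) : ℝ)) ^ 2) ^ 2)⁻¹) =
      (t ^ 4)⁻¹ * ∑' n : N0, (nsq Cm (rv n.1) ^ 2)⁻¹ := by
    rw [← cpar.tsum_eq, ← tsum_mul_left]
    refine tsum_congr fun n => ?_
    rw [← mul_inv]
    congr 1
    unfold nsq Cm rv cpar
    simp [Fin.sum_univ_three, Matrix.mulVec, dotProduct]
    ring
  rw [hL]
  have hR : (∑' n : {n : Fin 3 → ℤ // n ≠ 0},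
      ((∑ i : Fin 3, ((A.mulVec (fun j => ((n.1 j : ℤ) : ℝ))) i) ^ 2) ^ 2)⁻¹) =
      ∑' n : N0, (nsq A (rv n.1) ^ 2)⁻¹ := rfl
  rw [hR]
  have e1 : ∑' n : N0, (nsq Cm (rv n.1) ^ 2)⁻¹ = Real.pi ^ 2 * Lam Fp / rad Fp ^ 2 := by
    rw [eq_div_iff (by positivity), mul_comm]
    exact hF
  have e2 : ∑' n : N0, (nsq A (rv n.1) ^ 2)⁻¹ = Real.pi ^ 2 * Lam p / rad p ^ 2 := by
    rw [eq_div_iff (by positivity), mul_comm]
    exact hen
  rw [e1, e2, hr]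
  have e3 : (t ^ 4)⁻¹ * (Real.pi ^ 2 * Lam Fp / rad Fp ^ 2) =
      Real.pi ^ 2 * Lam Fp / (t ^ 2 * rad Fp) ^ 2 := by
    field_simp
  rw [e3]
  gcongr

end Pool.Agent.K1H99.FCC
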