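import Pool.Agent.K1H99.FCC.Inc

/-!
# Two-sided rational bounds for `∫_1^∞ t^{-1/2} e^{-a t} dt`
-/

set_option autoImplicit false

open MeasureTheory Filter Topology Set

namespace Pool.Agent.K1H99.FCC

/-- the general comparison: `F t = -t^{1/2} e^{-a t} R (a t)` -/
lemma cf_core {R R' : ℝ → ℝ} {a : ℝ} (ha : 0 < a)
    (hR : ∀ x, a ≤ x → HasDerivAt R (R' x) x)
    (hb : ∀ x, a ≤ x → 0 ≤ R x ∧ R x ≤ 1 / a)
    (hpos : ∀ x, a ≤ x → 0 ≤ -(R x / 2 - x * R x + x * R' x)) :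
    IntegrableOn (fun t : ℝ => t ^ (-(1 / 2) : ℝ) * Real.exp (-(a * t)) *
      (-(R (a * t) / 2 - (a * t) * R (a * t) + (a * t) * R' (a * t)))) (Ioi 1) ∧
    ∫ t in Ioi (1:ℝ), t ^ (-(1 / 2) : ℝ) * Real.exp (-(a * t)) *
      (-(R (a * t) / 2 - (a * t) * R (a * t) + (a * t) * R' (a * t))) = Real.exp (-a) * R a := by
  have hat : ∀ t : ℝ, 1 ≤ t → a ≤ a * t := fun t ht => by nlinarith
  have hd0 : ∀ t : ℝ, 1 ≤ t → HasDerivAt (fun t : ℝ => -(t ^ (1 / 2 : ℝ) * Real.exp (-(a * t)) *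
      R (a * t))) (t ^ (-(1 / 2) : ℝ) * Real.exp (-(a * t)) *
      (-(R (a * t) / 2 - (a * t) * R (a * t) + (a * t) * R' (a * t)))) t := by
    intro t ht
    have ht0 : 0 < t := by linarith
    have h1 := Real.hasDerivAt_rpow_const (x := t) (p := (1 / 2 : ℝ)) (Or.inl ht0.ne')
    have h2 : HasDerivAt (fun t : ℝ => Real.exp (-(a * t))) (Real.exp (-(a * t)) * (-(a * 1))) t :=
      (((hasDerivAt_id t).const_mul a).neg).exp
    have h3 : HasDerivAt (fun t : ℝ => R (a * t)) (R' (a * t) * (a * 1)) t :=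
      (hR (a * t) (hat t ht)).comp t ((hasDerivAt_id t).const_mul a)
    refine ((h1.mul h2).mul h3).neg.congr_deriv ?_
    rw [show (1 / 2 : ℝ) - 1 = -(1 / 2) by norm_num]
    have h4 : t ^ (1 / 2 : ℝ) = t * t ^ (-(1 / 2) : ℝ) := by
      rw [show (1 / 2 : ℝ) = 1 + (-(1 / 2)) by norm_num, Real.rpow_add ht0, Real.rpow_one]
      norm_num
    rw [Pi.mul_apply, h4]
    ring
  have hc : ContinuousWithinAt (fun t : ℝ => -(t ^ (1 / 2 : ℝ) * Real.exp (-(a * t)) *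
      R (a * t))) (Ici 1) 1 := (hd0 1 le_rfl).continuousAt.continuousWithinAt
  have hlim : Tendsto (fun t : ℝ => -(t ^ (1 / 2 : ℝ) * Real.exp (-(a * t)) *
      R (a * t))) atTop (𝓝 0) := by
    have h := (tendsto_rpow_mul_exp_neg_mul_atTop_nhds_zero (1 / 2) a ha).mul_const (1 / a)
    rw [zero_mul] at h
    rw [← neg_zero]
    refine Tendsto.neg ?_
    refine squeeze_zero' ?_ ?_ h
    · filter_upwards [eventually_ge_atTop (1:ℝ)] with t ht
      have := (hb (a * t) (hat t ht)).1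
      positivity
    · filter_upwards [eventually_ge_atTop (1:ℝ)] with t ht
      have := (hb (a * t) (hat t ht)).2
      rw [neg_mul]
      exact mul_le_mul_of_nonneg_left this (by positivity)
  have hp : ∀ t ∈ Ioi (1:ℝ), 0 ≤ t ^ (-(1 / 2) : ℝ) * Real.exp (-(a * t)) *
      (-(R (a * t) / 2 - (a * t) * R (a * t) + (a * t) * R' (a * t))) := by
    intro t ht
    have ht1 : (1:ℝ) ≤ t := le_of_lt ht
    have h1 := hpos (a * t) (hat t ht1)
    positivity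
  refine ⟨integrableOn_Ioi_deriv_of_nonneg hc (fun t ht => hd0 t (le_of_lt ht)) hp hlim, ?_⟩
  rw [integral_Ioi_of_hasDerivAt_of_nonneg hc (fun t ht => hd0 t (le_of_lt ht)) hp hlim]
  simp

/-- upper bound -/
noncomputable def K9 (a : ℝ) : ℝ :=
  (16 * a ^ 4 + 280 * a ^ 3 + 1380 * a ^ 2 + 1950 * a + 384) /
    (16 * a ^ 5 + 288 * a ^ 4 + 1512 * a ^ 3 + 2520 * a ^ 2 + 945 * a)

/-- lower bound -/
noncomputable def K10 (a : ℝ) : ℝ :=
  (32 * a ^ 4 + 704 * a ^ 3 + 4704 * a ^ 2 + 10560 * a + 5790) /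
    (32 * a ^ 5 + 720 * a ^ 4 + 5040 * a ^ 3 + 12600 * a ^ 2 + 9450 * a + 945)

lemma E_le {a : ℝ} (ha : 0 < a) : I (-(1 / 2)) a ≤ Real.exp (-a) * K9 a := by
  set R' : ℝ → ℝ := fun x => ((64 * x ^ 3 + 840 * x ^ 2 + 2760 * x + 1950) *
    (16 * x ^ 5 + 288 * x ^ 4 + 1512 * x ^ 3 + 2520 * x ^ 2 + 945 * x) -
    (16 * x ^ 4 + 280 * x ^ 3 + 1380 * x ^ 2 + 1950 * x + 384) *
    (80 * x ^ 4 + 1152 * x ^ 3 + 4536 * x ^ 2 + 5040 * x + 945)) /
    (16 * x ^ 5 + 288 * x ^ 4 + 1512 * x ^ 3 + 2520 * x ^ 2 + 945 * x) ^ 2 with hR'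
  have hQ : ∀ x : ℝ, 0 < x →
      0 < 16 * x ^ 5 + 288 * x ^ 4 + 1512 * x ^ 3 + 2520 * x ^ 2 + 945 * x := by
    intro x hx
    positivity
  have hR : ∀ x, a ≤ x → HasDerivAt K9 (R' x) x := by
    intro x hx
    have hx0 : 0 < x := lt_of_lt_of_le ha hx
    have h1 : HasDerivAt (fun a : ℝ => 16 * a ^ 4 + 280 * a ^ 3 + 1380 * a ^ 2 + 1950 * a + 384)
        (64 * x ^ 3 + 840 * x ^ 2 + 2760 * x + 1950) x := by
      refine (((((hasDerivAt_pow 4 x).const_mul 16).add ((hasDerivAt_pow 3 x).const_mul 280)).add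
        ((hasDerivAt_pow 2 x).const_mul 1380)).add ((hasDerivAt_id x).const_mul 1950)).add_const
        384 |>.congr_deriv ?_
      norm_num
      ring
    have h2 : HasDerivAt (fun a : ℝ => 16 * a ^ 5 + 288 * a ^ 4 + 1512 * a ^ 3 + 2520 * a ^ 2 +
        945 * a) (80 * x ^ 4 + 1152 * x ^ 3 + 4536 * x ^ 2 + 5040 * x + 945) x := by
      refine (((((hasDerivAt_pow 5 x).const_mul 16).add ((hasDerivAt_pow 4 x).const_mul 288)).add
        ((hasDerivAt_pow 3 x).const_mul 1512)).add ((hasDerivAt_pow 2 x).const_mul 2520)).add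
        ((hasDerivAt_id x).const_mul 945) |>.congr_deriv ?_
      norm_num
      ring
    exact h1.div h2 (hQ x hx0).ne'
  have hw : ∀ x, 0 < x → -(K9 x / 2 - x * K9 x + x * R' x) =
      1 + 181440 * x / (16 * x ^ 5 + 288 * x ^ 4 + 1512 * x ^ 3 + 2520 * x ^ 2 + 945 * x) ^ 2 := by
    intro x hx
    have hq := (hQ x hx).ne'
    rw [hR']
    unfold K9
    field_simp
    ring
  have hle : ∀ x, a ≤ x → 1 ≤ -(K9 x / 2 - x * K9 x + x * R' x) := by
    intro x hx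
    have hx0 : 0 < x := lt_of_lt_of_le ha hx
    rw [hw x hx0]
    have : 0 ≤ 181440 * x / (16 * x ^ 5 + 288 * x ^ 4 + 1512 * x ^ 3 + 2520 * x ^ 2 + 945 * x) ^ 2 :=
      by positivity
    linarith
  have hb : ∀ x, a ≤ x → 0 ≤ K9 x ∧ K9 x ≤ 1 / a := by
    intro x hx
    have hx0 : 0 < x := lt_of_lt_of_le ha hx
    refine ⟨?_, ?_⟩
    · unfold K9
      positivity
    · refine le_trans ?_ (one_div_le_one_div_of_le ha hx)
      unfold K9
      rw [div_le_div_iff₀ (hQ x hx0) hx0]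
      nlinarith [pow_pos hx0 2, pow_pos hx0 3, pow_pos hx0 4]
  obtain ⟨hi, he⟩ := cf_core ha hR hb (fun x hx => le_trans zero_le_one (hle x hx))
  rw [← he]
  unfold I
  refine setIntegral_mono_on (integrable_I _ ha) hi measurableSet_Ioi fun t ht => ?_
  have ht1 : (1:ℝ) ≤ t := le_of_lt ht
  have h1 := hle (a * t) (by nlinarith)
  have h2 : 0 ≤ t ^ (-(1 / 2) : ℝ) * Real.exp (-(a * t)) := by positivity
  nlinarith

lemma E_ge {a : ℝ} (ha : 1 ≤ a) : Real.exp (-a) * K10 a ≤ I (-(1 / 2)) a := by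
  have ha0 : 0 < a := by linarith
  set R' : ℝ → ℝ := fun x => ((128 * x ^ 3 + 2112 * x ^ 2 + 9408 * x + 10560) *
    (32 * x ^ 5 + 720 * x ^ 4 + 5040 * x ^ 3 + 12600 * x ^ 2 + 9450 * x + 945) -
    (32 * x ^ 4 + 704 * x ^ 3 + 4704 * x ^ 2 + 10560 * x + 5790) *
    (160 * x ^ 4 + 2880 * x ^ 3 + 15120 * x ^ 2 + 25200 * x + 9450)) /
    (32 * x ^ 5 + 720 * x ^ 4 + 5040 * x ^ 3 + 12600 * x ^ 2 + 9450 * x + 945) ^ 2 with hR'
  have hQ : ∀ x : ℝ, 0 < x →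
      0 < 32 * x ^ 5 + 720 * x ^ 4 + 5040 * x ^ 3 + 12600 * x ^ 2 + 9450 * x + 945 := by
    intro x hx
    positivity
  have hR : ∀ x, a ≤ x → HasDerivAt K10 (R' x) x := by
    intro x hx
    have hx0 : 0 < x := lt_of_lt_of_le ha0 hx
    have h1 : HasDerivAt (fun a : ℝ => 32 * a ^ 4 + 704 * a ^ 3 + 4704 * a ^ 2 + 10560 * a + 5790)
        (128 * x ^ 3 + 2112 * x ^ 2 + 9408 * x + 10560) x := by
      refine (((((hasDerivAt_pow 4 x).const_mul 32).add ((hasDerivAt_pow 3 x).const_mul 704)).add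
        ((hasDerivAt_pow 2 x).const_mul 4704)).add ((hasDerivAt_id x).const_mul 10560)).add_const
        5790 |>.congr_deriv ?_
      norm_num
      ring
    have h2 : HasDerivAt (fun a : ℝ => 32 * a ^ 5 + 720 * a ^ 4 + 5040 * a ^ 3 + 12600 * a ^ 2 +
        9450 * a + 945) (160 * x ^ 4 + 2880 * x ^ 3 + 15120 * x ^ 2 + 25200 * x + 9450) x := by
      refine ((((((hasDerivAt_pow 5 x).const_mul 32).add ((hasDerivAt_pow 4 x).const_mul 720)).add
        ((hasDerivAt_pow 3 x).const_mul 5040)).add ((hasDerivAt_pow 2 x).const_mul 12600)).add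
        ((hasDerivAt_id x).const_mul 9450)).add_const 945 |>.congr_deriv ?_
      norm_num
      ring
    exact h1.div h2 (hQ x hx0).ne'
  have hw : ∀ x, 0 < x → -(K10 x / 2 - x * K10 x + x * R' x) =
      1 - 3628800 / (32 * x ^ 5 + 720 * x ^ 4 + 5040 * x ^ 3 + 12600 * x ^ 2 + 9450 * x + 945) ^ 2 := by
    intro x hx
    have hq := (hQ x hx).ne'
    rw [hR']
    unfold K10
    field_simp
    ring
  have hle : ∀ x, a ≤ x → -(K10 x / 2 - x * K10 x + x * R' x) ≤ 1 := by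
    intro x hx
    have hx0 : 0 < x := lt_of_lt_of_le ha0 hx
    rw [hw x hx0]
    have : 0 ≤ 3628800 / (32 * x ^ 5 + 720 * x ^ 4 + 5040 * x ^ 3 + 12600 * x ^ 2 + 9450 * x +
      945) ^ 2 := by positivity
    linarith
  have hge : ∀ x, a ≤ x → 0 ≤ -(K10 x / 2 - x * K10 x + x * R' x) := by
    intro x hx
    have hx0 : 0 < x := lt_of_lt_of_le ha0 hx
    have hx1 : 1 ≤ x := ha.trans hx
    rw [hw x hx0, sub_nonneg, div_le_one (by positivity)]
    have h1 : (9450:ℝ) ≤ 32 * x ^ 5 + 720 * x ^ 4 + 5040 * x ^ 3 + 12600 * x ^ 2 + 9450 * x + 945 := by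
      have : 0 ≤ 32 * x ^ 5 + 720 * x ^ 4 + 5040 * x ^ 3 + 12600 * x ^ 2 := by positivity
      linarith
    nlinarith
  have hb : ∀ x, a ≤ x → 0 ≤ K10 x ∧ K10 x ≤ 1 / a := by
    intro x hx
    have hx0 : 0 < x := lt_of_lt_of_le ha0 hx
    refine ⟨?_, ?_⟩
    · unfold K10
      positivity
    · refine le_trans ?_ (one_div_le_one_div_of_le ha0 hx)
      unfold K10
      rw [div_le_div_iff₀ (hQ x hx0) hx0]
      nlinarith [pow_pos hx0 2, pow_pos hx0 3, pow_pos hx0 4]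
  obtain ⟨hi, he⟩ := cf_core ha0 hR hb hge
  rw [← he]
  unfold I
  refine setIntegral_mono_on hi (integrable_I _ ha0) measurableSet_Ioi fun t ht => ?_
  have ht1 : (1:ℝ) ≤ t := le_of_lt ht
  have h1 := hle (a * t) (by nlinarith)
  have h2 : 0 ≤ t ^ (-(1 / 2) : ℝ) * Real.exp (-(a * t)) := by positivity
  nlinarith

end Pool.Agent.K1H99.FCC
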