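import Mathlib

/-!
# The certificate checker (simplex bisection in the cone of Selling parameters)
-/

set_option autoImplicit false

namespace Pool.Agent.K1H99.FCC

/-- a vertex: Selling parameters and a lower bound for the cube root of the determinant -/
structure W where
  a : Nat
  b : Nat
  c : Nat
  d : Nat
  e : Nat
  f : Nat
  g : Nat

/-- evaluates the argument first -/
def frc {α : Type} (n : Nat) (k : Nat → α) : α :=
  Nat.rec (motive := fun _ => α) (k 0) (fun m _ => k (Nat.succ m)) n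

/-- evaluates the argument first, and returns `0` if it is `0` -/
def frz (n : Nat) (k : Nat → Nat) : Nat :=
  Nat.rec (motive := fun _ => Nat) 0 (fun m _ => k (Nat.succ m)) n

/-- the determinant -/
def detN (a b c d e f : Nat) : Nat :=
  (Nat.add (Nat.mul (Nat.mul a b) (Nat.add c (Nat.add e f))) (Nat.add (Nat.mul (Nat.mul a c) (Nat.add d f)) (Nat.add (Nat.mul (Nat.mul a d) (Nat.add e f)) (Nat.add (Nat.mul (Nat.mul a e) f) (Nat.add (Nat.mul (Nat.mul b c) (Nat.add d e)) (Nat.add (Nat.mul (Nat.mul b d) (Nat.add e f)) (Nat.add (Nat.mul (Nat.mul b e) f) (Nat.add (Nat.mul (Nat.mul c d) (Nat.add e f)) (Nat.mul (Nat.mul c e) f)))))))))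

/-- Newton steps for the cube root, from above -/
def newt : Nat → Nat → Nat → Nat
  | 0, _, x => x
  | k + 1, D, x => frc (Nat.div (Nat.add (Nat.mul 2 x) (Nat.div D (Nat.mul x x))) 3) fun y =>
      bif Nat.ble x y then x else newt k D y

/-- a lower bound for the cube root -/
def cbr (D x : Nat) : Nat :=
  frc (newt 60 D x) fun y =>
    bif (Nat.ble (Nat.mul (Nat.mul y y) y) D) then y else
      bif (Nat.ble (Nat.mul (Nat.mul (Nat.sub y 1) (Nat.sub y 1)) (Nat.sub y 1)) D) then (Nat.sub y 1) else 0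

/-- the midpoint of two vertices, passed to a continuation which is called with the midpoint only if
it is integral -/
def mid (v w : W) (k : W → Nat) : Nat :=
  frc (Nat.add v.a w.a) fun a => frc (Nat.add v.b w.b) fun b => frc (Nat.add v.c w.c) fun c =>
  frc (Nat.add v.d w.d) fun d => frc (Nat.add v.e w.e) fun e => frc (Nat.add v.f w.f) fun f =>
  bif Nat.beq (Nat.mod a 2) 0 && Nat.beq (Nat.mod b 2) 0 && Nat.beq (Nat.mod c 2) 0 &&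
    Nat.beq (Nat.mod d 2) 0 && Nat.beq (Nat.mod e 2) 0 && Nat.beq (Nat.mod f 2) 0 then
    frc (Nat.div a 2) fun a => frc (Nat.div b 2) fun b => frc (Nat.div c 2) fun c =>
    frc (Nat.div d 2) fun d => frc (Nat.div e 2) fun e => frc (Nat.div f 2) fun f =>
    frc (detN a b c d e f) fun D =>
    frc (cbr D (Nat.div (Nat.mul 2 (Nat.add a (Nat.add b (Nat.add c (Nat.add d (Nat.add e f)))))) 3)) fun g => k ⟨a, b, c, d, e, f, g⟩
  else 0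

/-- table entry -/
def tb (T j : Nat) : Nat := (Nat.mod (Nat.shiftRight T (Nat.mul 40 j)) 1099511627776)

/-- the index of the tangent point near `32 π q / r`, clipped below, for the direct vectors -/
def idx (q r : Nat) : Nat := (Nat.sub (Nat.div (Nat.add (Nat.mul q 100531) (Nat.mul 500 r)) (Nat.mul 1000 r)) 64)

/-- tables: `G` lines and `H` lines -/
structure Tab where
  ag : Nat
  bg : Nat
  ah : Nat
  bh : Nat

/-- the data of a tangent bound at the centre -/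
def cen (T : Tab) (v : W) (k : Nat → Nat → Nat → Nat → Nat → Nat → Nat → Nat → Nat → Nat → Nat → Nat → Nat → Nat → Bool) : Bool :=
  frc (idx (Nat.add v.a (Nat.add v.d v.e)) v.g) fun j0 =>
  frc (idx (Nat.add v.b (Nat.add v.d v.f)) v.g) fun j1 =>
  frc (idx (Nat.add v.c (Nat.add v.e v.f)) v.g) fun j2 =>
  frc (idx (Nat.add v.a (Nat.add v.b (Nat.add v.e v.f))) v.g) fun j3 =>
  frc (idx (Nat.add v.a (Nat.add v.c (Nat.add v.d v.f))) v.g) fun j4 =>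
  frc (idx (Nat.add v.b (Nat.add v.c (Nat.add v.d v.e))) v.g) fun j5 =>
  frc (idx (Nat.add v.a (Nat.add v.b v.c)) v.g) fun j6 =>
  frc (idx (Nat.add v.a (Nat.add v.b (Nat.add (Nat.mul 4 v.d) (Nat.add v.e v.f)))) v.g) fun j7 =>
  frc (idx (Nat.add v.a (Nat.add v.b (Nat.add (Nat.mul 4 v.c) (Nat.add v.e v.f)))) v.g) fun j8 =>
  frc (Nat.add (Nat.mul v.b v.c) (Nat.add (Nat.mul v.b v.f) (Nat.mul v.c v.f))) fun m0 =>
  frc (Nat.add (Nat.mul v.a v.c) (Nat.add (Nat.mul v.a v.e) (Nat.mul v.c v.e))) fun m1 =>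
  frc (Nat.add (Nat.mul v.a v.b) (Nat.add (Nat.mul v.a v.d) (Nat.mul v.b v.d))) fun m2 =>
  frc (Nat.mul v.c v.d) fun m3 =>
  frc (Nat.mul v.b v.e) fun m4 =>
  frc (Nat.mul v.a v.f) fun m5 =>
  frc (Nat.add (Nat.mul v.d v.e) (Nat.add (Nat.mul v.d v.f) (Nat.mul v.e v.f))) fun m6 =>
  frc (Nat.mul v.g v.g) fun rr =>
  frc (idx (Nat.add m0 (Nat.add m3 (Nat.add m4 m6))) rr) fun k0 =>
  frc (idx (Nat.add m1 (Nat.add m3 (Nat.add m5 m6))) rr) fun k1 =>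
  frc (idx (Nat.add m2 (Nat.add m4 (Nat.add m5 m6))) rr) fun k2 =>
  frc (idx (Nat.add m0 (Nat.add m1 (Nat.add m4 m5))) rr) fun k3 =>
  frc (idx (Nat.add m0 (Nat.add m2 (Nat.add m3 m5))) rr) fun k4 =>
  frc (idx (Nat.add m1 (Nat.add m2 (Nat.add m3 m4))) rr) fun k5 =>
  frc (idx (Nat.add m0 (Nat.add m1 (Nat.add m2 (Nat.add (Nat.mul 4 m3) m6)))) rr) fun k6 =>
  frc (idx (Nat.add m0 (Nat.add m1 (Nat.add m2 (Nat.add (Nat.mul 4 m4) m6)))) rr) fun k7 =>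
  frc (idx (Nat.add m0 (Nat.add m1 (Nat.add m2 (Nat.add (Nat.mul 4 m5) m6)))) rr) fun k8 =>
  frc (tb T.bg j0) fun u0 =>
  frc (tb T.bg j1) fun u1 =>
  frc (tb T.bg j2) fun u2 =>
  frc (tb T.bg j3) fun u3 =>
  frc (tb T.bg j4) fun u4 =>
  frc (tb T.bg j5) fun u5 =>
  frc (tb T.bg j6) fun u6 =>
  frc (tb T.bg j7) fun u7 =>
  frc (tb T.bg j8) fun u8 =>
  frc (tb T.bh k0) fun w0 =>
  frc (tb T.bh k1) fun w1 =>
  frc (tb T.bh k2) fun w2 =>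
  frc (tb T.bh k3) fun w3 =>
  frc (tb T.bh k4) fun w4 =>
  frc (tb T.bh k5) fun w5 =>
  frc (tb T.bh k6) fun w6 =>
  frc (tb T.bh k7) fun w7 =>
  frc (tb T.bh k8) fun w8 =>
  frc (Nat.add 6442450944 (Nat.mul 2 (Nat.add (tb T.ag j0) (Nat.add (tb T.ag j1) (Nat.add (tb T.ag j2) (Nat.add (tb T.ag j3) (Nat.add (tb T.ag j4) (Nat.add (tb T.ag j5) (Nat.add (tb T.ag j6) (Nat.add (tb T.ag j7) (Nat.add (tb T.ag j8) (Nat.add (tb T.ah k0) (Nat.add (tb T.ah k1) (Nat.add (tb T.ah k2) (Nat.add (tb T.ah k3) (Nat.add (tb T.ah k4) (Nat.add (tb T.ah k5) (Nat.add (tb T.ah k6) (Nat.add (tb T.ah k7) (tb T.ah k8)))))))))))))))))))) fun A =>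
  frc (Nat.mul 2 (Nat.add u0 (Nat.add u3 (Nat.add u4 (Nat.add u6 (Nat.add u7 u8)))))) fun B0 =>
  frc (Nat.mul 2 (Nat.add u1 (Nat.add u3 (Nat.add u5 (Nat.add u6 (Nat.add u7 u8)))))) fun B1 =>
  frc (Nat.mul 2 (Nat.add u2 (Nat.add u4 (Nat.add u5 (Nat.add u6 (Nat.mul 4 u8)))))) fun B2 =>
  frc (Nat.mul 2 (Nat.add u0 (Nat.add u1 (Nat.add u4 (Nat.add u5 (Nat.mul 4 u7)))))) fun B3 =>
  frc (Nat.mul 2 (Nat.add u0 (Nat.add u2 (Nat.add u3 (Nat.add u5 (Nat.add u7 u8)))))) fun B4 =>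
  frc (Nat.mul 2 (Nat.add u1 (Nat.add u2 (Nat.add u3 (Nat.add u4 (Nat.add u7 u8)))))) fun B5 =>
  frc (Nat.mul 2 (Nat.add w0 (Nat.add w3 (Nat.add w4 (Nat.add w6 (Nat.add w7 w8)))))) fun c0 =>
  frc (Nat.mul 2 (Nat.add w1 (Nat.add w3 (Nat.add w5 (Nat.add w6 (Nat.add w7 w8)))))) fun c1 =>
  frc (Nat.mul 2 (Nat.add w2 (Nat.add w4 (Nat.add w5 (Nat.add w6 (Nat.add w7 w8)))))) fun c2 =>
  frc (Nat.mul 2 (Nat.add w0 (Nat.add w1 (Nat.add w4 (Nat.add w5 (Nat.mul 4 w6)))))) fun c3 =>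
  frc (Nat.mul 2 (Nat.add w0 (Nat.add w2 (Nat.add w3 (Nat.add w5 (Nat.mul 4 w7)))))) fun c4 =>
  frc (Nat.mul 2 (Nat.add w1 (Nat.add w2 (Nat.add w3 (Nat.add w4 (Nat.mul 4 w8)))))) fun c5 =>
  frc (Nat.mul 2 (Nat.add w0 (Nat.add w1 (Nat.add w2 (Nat.add w6 (Nat.add w7 w8)))))) fun c6 =>
  k A B0 B1 B2 B3 B4 B5 c0 c1 c2 c3 c4 c5 c6

/-- pair tests of one vertex against a list -/
def pairs (aa gw U0 U1 U2 U3 U4 U5 bj : Nat) : List W → Bool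
  | [] => true
  | v :: l => (Nat.ble (Nat.mul 3141593 (Nat.add (Nat.mul v.a U0) (Nat.add (Nat.mul v.b U1) (Nat.add (Nat.mul v.c U2) (Nat.add (Nat.mul v.d U3) (Nat.add (Nat.mul v.e U4) (Nat.add (Nat.mul v.f U5) (Nat.mul bj v.g)))))))) (Nat.mul (Nat.mul (Nat.mul 2000000 aa) v.g) gw)) &&
      pairs aa gw U0 U1 U2 U3 U4 U5 bj l

/-- all pair tests of the vertex `w` against the vertices in `l` -/
def row (aa B0 B1 B2 B3 B4 B5 c0 c1 c2 c3 c4 c5 c6 : Nat) (w : W) (l : List W) : Bool :=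
  frc (Nat.add (Nat.mul B0 w.g) (Nat.add (Nat.mul c2 w.b) (Nat.add (Nat.mul c1 w.c) (Nat.add (Nat.mul c2 w.d) (Nat.add (Nat.mul c1 w.e) (Nat.mul c5 w.f)))))) fun U0 =>
  frc (Nat.add (Nat.mul B1 w.g) (Nat.add (Nat.mul c2 w.a) (Nat.add (Nat.mul c0 w.c) (Nat.add (Nat.mul c2 w.d) (Nat.add (Nat.mul c4 w.e) (Nat.mul c0 w.f)))))) fun U1 =>
  frc (Nat.add (Nat.mul B2 w.g) (Nat.add (Nat.mul c1 w.a) (Nat.add (Nat.mul c0 w.b) (Nat.add (Nat.mul c3 w.d) (Nat.add (Nat.mul c1 w.e) (Nat.mul c0 w.f)))))) fun U2 =>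
  frc (Nat.add (Nat.mul B3 w.g) (Nat.add (Nat.mul c2 w.a) (Nat.add (Nat.mul c2 w.b) (Nat.add (Nat.mul c3 w.c) (Nat.add (Nat.mul c6 w.e) (Nat.mul c6 w.f)))))) fun U3 =>
  frc (Nat.add (Nat.mul B4 w.g) (Nat.add (Nat.mul c1 w.a) (Nat.add (Nat.mul c4 w.b) (Nat.add (Nat.mul c1 w.c) (Nat.add (Nat.mul c6 w.d) (Nat.mul c6 w.f)))))) fun U4 =>
  frc (Nat.add (Nat.mul B5 w.g) (Nat.add (Nat.mul c5 w.a) (Nat.add (Nat.mul c0 w.b) (Nat.add (Nat.mul c0 w.c) (Nat.add (Nat.mul c6 w.d) (Nat.mul c6 w.e)))))) fun U5 =>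
  frc (Nat.add (Nat.mul B0 w.a) (Nat.add (Nat.mul B1 w.b) (Nat.add (Nat.mul B2 w.c) (Nat.add (Nat.mul B3 w.d) (Nat.add (Nat.mul B4 w.e) (Nat.mul B5 w.f)))))) fun bj => pairs aa w.g U0 U1 U2 U3 U4 U5 bj l

/-- sum of the vertices -/
def ctr (v0 v1 v2 v3 v4 v5 : W) (k : W → Bool) : Bool :=
  frc (Nat.add v0.a (Nat.add v1.a (Nat.add v2.a (Nat.add v3.a (Nat.add v4.a v5.a))))) fun a =>
  frc (Nat.add v0.b (Nat.add v1.b (Nat.add v2.b (Nat.add v3.b (Nat.add v4.b v5.b))))) fun b =>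
  frc (Nat.add v0.c (Nat.add v1.c (Nat.add v2.c (Nat.add v3.c (Nat.add v4.c v5.c))))) fun c =>
  frc (Nat.add v0.d (Nat.add v1.d (Nat.add v2.d (Nat.add v3.d (Nat.add v4.d v5.d))))) fun d =>
  frc (Nat.add v0.e (Nat.add v1.e (Nat.add v2.e (Nat.add v3.e (Nat.add v4.e v5.e))))) fun e =>
  frc (Nat.add v0.f (Nat.add v1.f (Nat.add v2.f (Nat.add v3.f (Nat.add v4.f v5.f))))) fun f =>
  frc (Nat.add v0.g (Nat.add v1.g (Nat.add v2.g (Nat.add v3.g (Nat.add v4.g v5.g))))) fun g =>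
  k ⟨a, b, c, d, e, f, g⟩

/-- the test of type A -/
def leafA (T : Tab) (v0 v1 v2 v3 v4 v5 : W) : Bool :=
  ctr v0 v1 v2 v3 v4 v5 fun v =>
    Nat.ble 1 v0.g && Nat.ble 1 v1.g && Nat.ble 1 v2.g && Nat.ble 1 v3.g && Nat.ble 1 v4.g &&
      Nat.ble 1 v5.g && cen T v fun A B0 B1 B2 B3 B4 B5 c0 c1 c2 c3 c4 c5 c6 =>
      frc (Nat.sub A 6946293558) fun aa =>
        Nat.ble 1 aa &&
        row aa B0 B1 B2 B3 B4 B5 c0 c1 c2 c3 c4 c5 c6 v0 [v0] &&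
        row aa B0 B1 B2 B3 B4 B5 c0 c1 c2 c3 c4 c5 c6 v1 [v0, v1] &&
        row aa B0 B1 B2 B3 B4 B5 c0 c1 c2 c3 c4 c5 c6 v2 [v0, v1, v2] &&
        row aa B0 B1 B2 B3 B4 B5 c0 c1 c2 c3 c4 c5 c6 v3 [v0, v1, v2, v3] &&
        row aa B0 B1 B2 B3 B4 B5 c0 c1 c2 c3 c4 c5 c6 v4 [v0, v1, v2, v3, v4] &&
        row aa B0 B1 B2 B3 B4 B5 c0 c1 c2 c3 c4 c5 c6 v5 [v0, v1, v2, v3, v4, v5]

/-- the vertex lies in the local region: `t = 12 T` -/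
def inC (v : W) : Bool :=
  frc (Nat.add (Nat.mul 3 (Nat.add v.a (Nat.add v.b (Nat.add v.e v.f)))) (Nat.mul 4 (Nat.add v.c v.d))) fun t =>
    (Nat.ble (Nat.mul 4000 (Nat.add v.c v.d)) (Nat.mul 70 t)) &&
    (Nat.ble (Nat.mul 4000 (Nat.mul 2 v.d)) (Nat.add (Nat.mul 70 t) (Nat.mul 4000 v.c))) && (Nat.ble (Nat.mul 4000 v.c) (Nat.add (Nat.mul 70 t) (Nat.mul 4000 (Nat.mul 2 v.d)))) &&
    (Nat.ble (Nat.mul 4000 (Nat.mul 2 v.c)) (Nat.add (Nat.mul 70 t) (Nat.mul 4000 v.d))) && (Nat.ble (Nat.mul 4000 v.d) (Nat.add (Nat.mul 70 t) (Nat.mul 4000 (Nat.mul 2 v.c)))) &&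
    (Nat.ble (Nat.mul 3000 (Nat.add v.a v.e)) (Nat.add (Nat.mul 45 t) (Nat.mul 3000 (Nat.add v.b v.f)))) && (Nat.ble (Nat.mul 3000 (Nat.add v.b v.f)) (Nat.add (Nat.mul 45 t) (Nat.mul 3000 (Nat.add v.a v.e)))) &&
    (Nat.ble (Nat.mul 3000 (Nat.add v.a v.b)) (Nat.add (Nat.mul 45 t) (Nat.mul 3000 (Nat.add v.e v.f)))) && (Nat.ble (Nat.mul 3000 (Nat.add v.e v.f)) (Nat.add (Nat.mul 45 t) (Nat.mul 3000 (Nat.add v.a v.b)))) &&
    (Nat.ble (Nat.mul 3000 (Nat.add v.a v.f)) (Nat.add (Nat.mul 45 t) (Nat.mul 3000 (Nat.add v.b v.e)))) && (Nat.ble (Nat.mul 3000 (Nat.add v.b v.e)) (Nat.add (Nat.mul 45 t) (Nat.mul 3000 (Nat.add v.a v.f))))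

/-- the test of type C -/
def leafC (v0 v1 v2 v3 v4 v5 : W) : Bool :=
  inC v0 && inC v1 && inC v2 && inC v3 && inC v4 && inC v5

/-- the value of the cut `s` -/
def cutv (s : Nat) (v : W) : Nat :=
  match s with
  | 0 => (Nat.add v.a (Nat.add v.d v.e))
  | 1 => (Nat.add v.b (Nat.add v.d v.f))
  | 2 => (Nat.add v.c (Nat.add v.e v.f))
  | 3 => (Nat.add v.a (Nat.add v.b (Nat.add v.e v.f)))
  | 4 => (Nat.add v.a (Nat.add v.c (Nat.add v.d v.f)))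
  | 5 => (Nat.add v.b (Nat.add v.c (Nat.add v.d v.e)))
  | _ => (Nat.add v.a (Nat.add v.b v.c))

/-- triple tests of two vertices against a list: `q_v q_w q_x ≤ κ D(v,w,x)` -/
def trip (s n0 n1 n2 n3 n4 n5 n6 qq : Nat) : List W → Bool
  | [] => true
  | x :: l => (Nat.ble (Nat.mul (Nat.mul 60000 qq) (cutv s x)) (Nat.mul 4134 (Nat.add (Nat.mul n0 (cutv 0 x)) (Nat.add (Nat.mul n1 (cutv 1 x)) (Nat.add (Nat.mul n2 (cutv 2 x)) (Nat.add (Nat.mul n3 (cutv 3 x)) (Nat.add (Nat.mul n4 (cutv 4 x)) (Nat.add (Nat.mul n5 (cutv 5 x)) (Nat.mul n6 (cutv 6 x)))))))))) &&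
      trip s n0 n1 n2 n3 n4 n5 n6 qq l

/-- triple tests of two vertices against a list -/
def trow (s : Nat) (v w : W) (l : List W) : Bool :=
  frc (Nat.add (Nat.mul v.b w.c) (Nat.add (Nat.mul v.c w.b) (Nat.add (Nat.mul v.b w.f) (Nat.add (Nat.mul v.f w.b) (Nat.add (Nat.mul v.c w.f) (Nat.mul v.f w.c)))))) fun n0 =>
  frc (Nat.add (Nat.mul v.a w.c) (Nat.add (Nat.mul v.c w.a) (Nat.add (Nat.mul v.a w.e) (Nat.add (Nat.mul v.e w.a) (Nat.add (Nat.mul v.c w.e) (Nat.mul v.e w.c)))))) fun n1 =>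
  frc (Nat.add (Nat.mul v.a w.b) (Nat.add (Nat.mul v.b w.a) (Nat.add (Nat.mul v.a w.d) (Nat.add (Nat.mul v.d w.a) (Nat.add (Nat.mul v.b w.d) (Nat.mul v.d w.b)))))) fun n2 =>
  frc (Nat.add (Nat.mul v.c w.d) (Nat.mul v.d w.c)) fun n3 =>
  frc (Nat.add (Nat.mul v.b w.e) (Nat.mul v.e w.b)) fun n4 =>
  frc (Nat.add (Nat.mul v.a w.f) (Nat.mul v.f w.a)) fun n5 =>
  frc (Nat.add (Nat.mul v.d w.e) (Nat.add (Nat.mul v.e w.d) (Nat.add (Nat.mul v.d w.f) (Nat.add (Nat.mul v.f w.d) (Nat.add (Nat.mul v.e w.f) (Nat.mul v.f w.e)))))) fun n6 =>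
  frc (Nat.mul (cutv s v) (cutv s w)) fun qq => trip s n0 n1 n2 n3 n4 n5 n6 qq l

/-- the test of type B -/
def leafB (s : Nat) (v0 v1 v2 v3 v4 v5 : W) : Bool :=
  trow s v0 v0 [v0, v1, v2, v3, v4, v5] &&
  trow s v0 v1 [v1, v2, v3, v4, v5] &&
  trow s v0 v2 [v2, v3, v4, v5] &&
  trow s v0 v3 [v3, v4, v5] &&
  trow s v0 v4 [v4, v5] &&
  trow s v0 v5 [v5] &&
  trow s v1 v1 [v1, v2, v3, v4, v5] &&
  trow s v1 v2 [v2, v3, v4, v5] &&
  trow s v1 v3 [v3, v4, v5] &&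
  trow s v1 v4 [v4, v5] &&
  trow s v1 v5 [v5] &&
  trow s v2 v2 [v2, v3, v4, v5] &&
  trow s v2 v3 [v3, v4, v5] &&
  trow s v2 v4 [v4, v5] &&
  trow s v2 v5 [v5] &&
  trow s v3 v3 [v3, v4, v5] &&
  trow s v3 v4 [v4, v5] &&
  trow s v3 v5 [v5] &&
  trow s v4 v4 [v4, v5] &&
  trow s v4 v5 [v5] &&
  trow s v5 v5 [v5]

/-- the checker: reads base-32 digits, returns the remaining code or `0` -/
def go (T : Tab) : Nat → W → W → W → W → W → W → Nat → Nat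
  | 0, _, _, _, _, _, _, _ => 0
  | n + 1, v0, v1, v2, v3, v4, v5, code =>
    frc (Nat.mod code 32) fun dg => frc (Nat.div code 32) fun rest =>
    match dg with
    | 0 => mid v0 v1 fun m => frz (go T n m v1 v2 v3 v4 v5 rest) fun r => go T n v0 m v2 v3 v4 v5 r
    | 1 => mid v0 v2 fun m => frz (go T n m v1 v2 v3 v4 v5 rest) fun r => go T n v0 v1 m v3 v4 v5 r
    | 2 => mid v0 v3 fun m => frz (go T n m v1 v2 v3 v4 v5 rest) fun r => go T n v0 v1 v2 m v4 v5 r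
    | 3 => mid v0 v4 fun m => frz (go T n m v1 v2 v3 v4 v5 rest) fun r => go T n v0 v1 v2 v3 m v5 r
    | 4 => mid v0 v5 fun m => frz (go T n m v1 v2 v3 v4 v5 rest) fun r => go T n v0 v1 v2 v3 v4 m r
    | 5 => mid v1 v2 fun m => frz (go T n v0 m v2 v3 v4 v5 rest) fun r => go T n v0 v1 m v3 v4 v5 r
    | 6 => mid v1 v3 fun m => frz (go T n v0 m v2 v3 v4 v5 rest) fun r => go T n v0 v1 v2 m v4 v5 r
    | 7 => mid v1 v4 fun m => frz (go T n v0 m v2 v3 v4 v5 rest) fun r => go T n v0 v1 v2 v3 m v5 r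
    | 8 => mid v1 v5 fun m => frz (go T n v0 m v2 v3 v4 v5 rest) fun r => go T n v0 v1 v2 v3 v4 m r
    | 9 => mid v2 v3 fun m => frz (go T n v0 v1 m v3 v4 v5 rest) fun r => go T n v0 v1 v2 m v4 v5 r
    | 10 => mid v2 v4 fun m => frz (go T n v0 v1 m v3 v4 v5 rest) fun r => go T n v0 v1 v2 v3 m v5 r
    | 11 => mid v2 v5 fun m => frz (go T n v0 v1 m v3 v4 v5 rest) fun r => go T n v0 v1 v2 v3 v4 m r
    | 12 => mid v3 v4 fun m => frz (go T n v0 v1 v2 m v4 v5 rest) fun r => go T n v0 v1 v2 v3 m v5 r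
    | 13 => mid v3 v5 fun m => frz (go T n v0 v1 v2 m v4 v5 rest) fun r => go T n v0 v1 v2 v3 v4 m r
    | 14 => mid v4 v5 fun m => frz (go T n v0 v1 v2 v3 m v5 rest) fun r => go T n v0 v1 v2 v3 v4 m r
    | 15 => bif leafA T v0 v1 v2 v3 v4 v5 then rest else 0
    | 16 => bif leafB 0 v0 v1 v2 v3 v4 v5 then rest else 0
    | 17 => bif leafB 1 v0 v1 v2 v3 v4 v5 then rest else 0
    | 18 => bif leafB 2 v0 v1 v2 v3 v4 v5 then rest else 0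
    | 19 => bif leafB 3 v0 v1 v2 v3 v4 v5 then rest else 0
    | 20 => bif leafB 4 v0 v1 v2 v3 v4 v5 then rest else 0
    | 21 => bif leafB 5 v0 v1 v2 v3 v4 v5 then rest else 0
    | 22 => bif leafB 6 v0 v1 v2 v3 v4 v5 then rest else 0
    | 23 => bif leafC v0 v1 v2 v3 v4 v5 then rest else 0
    | _ => 0

end Pool.Agent.K1H99.FCC
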