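import Mathlib

/-!
# The real inequality behind the local minimality of the face-centred cubic form
-/

set_option autoImplicit false

namespace Pool.Agent.K1H99.FCC

lemma prod3_bound {a b c η : ℝ} (h : a + b + c = 0) (ha : |a| ≤ η) (hb : |b| ≤ η)
    (hc : |c| ≤ η) : |a * b * c| ≤ η * (a ^ 2 + b ^ 2 + c ^ 2) / 6 := by
  have hη : 0 ≤ η := le_trans (abs_nonneg a) ha
  have key : ∀ x y z : ℝ, x + y + z = 0 → |z| ≤ η → 0 ≤ x * y →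
      |x * y * z| ≤ η * (x ^ 2 + y ^ 2 + z ^ 2) / 6 := by
    intro x y z h hz hxy
    rw [abs_mul, abs_of_nonneg hxy]
    have h1 : x * y * |z| ≤ x * y * η := mul_le_mul_of_nonneg_left hz hxy
    have h2 : z = -(x + y) := by linarith
    have h3 : 6 * (x * y) ≤ x ^ 2 + y ^ 2 + z ^ 2 := by
      rw [h2]
      nlinarith [sq_nonneg (x - y)]
    nlinarith
  rcases le_total 0 a with x | x <;> rcases le_total 0 b with y | y <;>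
    rcases le_total 0 c with z | z
  · exact key a b c h hc (mul_nonneg x y)
  · exact key a b c h hc (mul_nonneg x y)
  · have := key a c b (by linarith) hb (mul_nonneg x z)
    rwa [mul_right_comm, add_right_comm (a ^ 2)] at this
  · have := key b c a (by linarith) ha (mul_nonneg_of_nonpos_of_nonpos y z)
    rw [show b * c * a = a * b * c by ring,
      show b ^ 2 + c ^ 2 + a ^ 2 = a ^ 2 + b ^ 2 + c ^ 2 by ring] at this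
    exact this
  · have := key b c a (by linarith) ha (mul_nonneg y z)
    rw [show b * c * a = a * b * c by ring,
      show b ^ 2 + c ^ 2 + a ^ 2 = a ^ 2 + b ^ 2 + c ^ 2 by ring] at this
    exact this
  · have := key a c b (by linarith) hb (mul_nonneg_of_nonpos_of_nonpos x z)
    rwa [mul_right_comm, add_right_comm (a ^ 2)] at this
  · exact key a b c h hc (mul_nonneg_of_nonpos_of_nonpos x y)
  · exact key a b c h hc (mul_nonneg_of_nonpos_of_nonpos x y)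

lemma prod3_bound' {a b c η : ℝ} (ha : |a| ≤ η) (hb : |b| ≤ η)
    (hc : |c| ≤ η) : |a * b * c| ≤ η * (a ^ 2 + b ^ 2 + c ^ 2) / 3 := by
  have hη : 0 ≤ η := le_trans (abs_nonneg a) ha
  have key : ∀ x y z : ℝ, |z| ≤ η → |x * y * z| ≤ η * (x ^ 2 + y ^ 2) / 2 := by
    intro x y z hz
    rw [abs_mul]
    have h1 : |x * y| * |z| ≤ |x * y| * η := mul_le_mul_of_nonneg_left hz (abs_nonneg _)
    have h2 : |x * y| ≤ (x ^ 2 + y ^ 2) / 2 := by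
      rw [abs_le]
      constructor <;> nlinarith [sq_nonneg (x - y), sq_nonneg (x + y)]
    nlinarith
  have k1 := key a b c hc
  have k2 := key a c b hb
  have k3 := key b c a ha
  rw [show a * c * b = a * b * c by ring] at k2
  rw [show b * c * a = a * b * c by ring] at k3
  linarith

lemma sq_le_of_abs {a η : ℝ} (h : |a| ≤ η) : a ^ 2 ≤ η ^ 2 := by
  rw [← sq_abs]
  exact pow_le_pow_left₀ (abs_nonneg a) h 2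

lemma mul_sq_bound {a b η : ℝ} (h : |a| ≤ η) : |a * b ^ 2| ≤ η * b ^ 2 := by
  rw [abs_mul, abs_of_nonneg (sq_nonneg b)]
  exact mul_le_mul_of_nonneg_right h (sq_nonneg b)

lemma rho_bounds {ρ x : ℝ} (hρ : 0 < ρ) (x0 : 0 ≤ x) (x2 : x ≤ 15 / 1000)
    (h : ρ ^ 3 * (1 - x) = 1) : x / 3 ≤ ρ - 1 ∧ ρ - 1 ≤ x / 3 + 24 / 100 * x ^ 2 := by
  constructor
  · by_contra hc
    push Not at hc
    have h1 : ρ < 1 + x / 3 := by linarith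
    have h2 : ρ ^ 3 < (1 + x / 3) ^ 3 := pow_lt_pow_left₀ h1 hρ.le three_ne_zero
    have h3 : (1 + x / 3) ^ 3 * (1 - x) ≤ 1 := by
      have : (1 + x / 3) ^ 3 * (1 - x) = 1 - x ^ 2 * (2 / 3 + x * (8 / 27) + x ^ 2 / 27) := by ring
      rw [this]
      have : 0 ≤ x ^ 2 * (2 / 3 + x * (8 / 27) + x ^ 2 / 27) := by positivity
      linarith
    have h4 : ρ ^ 3 * (1 - x) < (1 + x / 3) ^ 3 * (1 - x) := mul_lt_mul_of_pos_right h2 (by linarith)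
    linarith
  · by_contra hc
    push Not at hc
    have h1 : 1 + (x / 3 + 24 / 100 * x ^ 2) < ρ := by linarith
    have h2 : (1 + (x / 3 + 24 / 100 * x ^ 2)) ^ 3 < ρ ^ 3 :=
      pow_lt_pow_left₀ h1 (by positivity) three_ne_zero
    have h3 : 1 ≤ (1 + (x / 3 + 24 / 100 * x ^ 2)) ^ 3 * (1 - x) := by
      have e : (1 + (x / 3 + 24 / 100 * x ^ 2)) ^ 3 * (1 - x) = 1 + x ^ 2 * (4 / 75 -
          x * ((43 / 75 - 1 / 27) + (12 / 25 + 1 / 27 - 158 / 625) * x + 122 / 625 * x ^ 2 +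
            684 / 15625 * x ^ 3 + 216 / 15625 * x ^ 4)) := by ring
      have hb : (43 / 75 - 1 / 27) + (12 / 25 + 1 / 27 - 158 / 625) * x + 122 / 625 * x ^ 2 +
            684 / 15625 * x ^ 3 + 216 / 15625 * x ^ 4 ≤ 2 := by
        have q2 : x ^ 2 ≤ 1 := pow_le_one₀ x0 (by linarith)
        have q3 : x ^ 3 ≤ 1 := pow_le_one₀ x0 (by linarith)
        have q4 : x ^ 4 ≤ 1 := pow_le_one₀ x0 (by linarith)
        linarith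
      rw [e]
      have hc : x * ((43 / 75 - 1 / 27) + (12 / 25 + 1 / 27 - 158 / 625) * x + 122 / 625 * x ^ 2 +
            684 / 15625 * x ^ 3 + 216 / 15625 * x ^ 4) ≤ 4 / 75 := by
        calc _ ≤ x * 2 := mul_le_mul_of_nonneg_left hb x0
          _ ≤ 4 / 75 := by linarith
      have : 0 ≤ x ^ 2 * (4 / 75 -
          x * ((43 / 75 - 1 / 27) + (12 / 25 + 1 / 27 - 158 / 625) * x + 122 / 625 * x ^ 2 +
            684 / 15625 * x ^ 3 + 216 / 15625 * x ^ 4)) := mul_nonneg (sq_nonneg x) (by linarith)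
      linarith
    have h4 : (1 + (x / 3 + 24 / 100 * x ^ 2)) ^ 3 * (1 - x) < ρ ^ 3 * (1 - x) :=
      mul_lt_mul_of_pos_right h2 (by linarith)
    linarith

lemma dir_eq {d1 d2 d3 w1 w2 w3 ρ g2 g3 : ℝ} (hd : d1 + d2 + d3 = 0) :
    2 * ((g2 * (ρ * (1 - d1 / 2 + w1) - 1) ^ 2 - g3 * (ρ * (1 - d1 / 2 + w1) - 1) ^ 3) +
      (g2 * (ρ * (1 - d1 / 2 - w1) - 1) ^ 2 - g3 * (ρ * (1 - d1 / 2 - w1) - 1) ^ 3) +
      (g2 * (ρ * (1 - d2 / 2 + w2) - 1) ^ 2 - g3 * (ρ * (1 - d2 / 2 + w2) - 1) ^ 3) +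
      (g2 * (ρ * (1 - d2 / 2 - w2) - 1) ^ 2 - g3 * (ρ * (1 - d2 / 2 - w2) - 1) ^ 3) +
      (g2 * (ρ * (1 - d3 / 2 + w3) - 1) ^ 2 - g3 * (ρ * (1 - d3 / 2 + w3) - 1) ^ 3) +
      (g2 * (ρ * (1 - d3 / 2 - w3) - 1) ^ 2 - g3 * (ρ * (1 - d3 / 2 - w3) - 1) ^ 3)) =
      g2 * (12 * (ρ - 1) ^ 2 + ρ ^ 2 * ((d1 ^ 2 + d2 ^ 2 + d3 ^ 2) +
        4 * (w1 ^ 2 + w2 ^ 2 + w3 ^ 2))) -
      g3 * (12 * (ρ - 1) ^ 3 + 3 * (ρ - 1) * (ρ ^ 2 * ((d1 ^ 2 + d2 ^ 2 + d3 ^ 2) +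
        4 * (w1 ^ 2 + w2 ^ 2 + w3 ^ 2)))) +
      g3 * (ρ ^ 3 * (3 / 2 * (d1 * d2 * d3) + 6 * (d1 * w1 ^ 2 + d2 * w2 ^ 2 + d3 * w3 ^ 2))) := by
  have hd3 : d3 = -(d1 + d2) := by linarith
  rw [hd3]
  ring

/-- lower bound for one term of the dual shell -/
lemma dual_term {h2 h3 v : ℝ} (hh2 : 185 / 10000 ≤ h2) (hh3 : h3 ≤ 38 / 1000) (hh3' : 0 ≤ h3)
    (hv : v ≤ 85 / 1000) : 1527 / 100000 * v ^ 2 ≤ h2 * v ^ 2 - h3 * v ^ 3 := by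
  have h1 : h3 * v ≤ 38 / 1000 * (85 / 1000) := by
    rcases le_total 0 v with h | h
    · exact mul_le_mul hh3 hv h (by norm_num)
    · have := mul_nonneg hh3' (neg_nonneg.2 h)
      linarith
  have h2' : 1527 / 100000 ≤ h2 - h3 * v := by linarith
  have h3' := mul_le_mul_of_nonneg_right h2' (sq_nonneg v)
  linarith

lemma dual_sum {ρ a b c s K : ℝ} (hρ : 1 ≤ ρ) (hs : a + b + c = -s) (h : K ≤ a ^ 2 + b ^ 2 + c ^ 2) :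
    K - s ^ 2 / 3 ≤ (ρ ^ 2 * (1 + a) - 1) ^ 2 + (ρ ^ 2 * (1 + b) - 1) ^ 2 +
      (ρ ^ 2 * (1 + c) - 1) ^ 2 := by
  have hc : c = -s - a - b := by linarith
  have e : (ρ ^ 2 * (1 + a) - 1) ^ 2 + (ρ ^ 2 * (1 + b) - 1) ^ 2 + (ρ ^ 2 * (1 + c) - 1) ^ 2 =
      ρ ^ 4 * (a ^ 2 + b ^ 2 + c ^ 2 - s ^ 2 / 3) + 3 * ((ρ ^ 2 - 1) - ρ ^ 2 * s / 3) ^ 2 := by
    rw [hc]
    ring
  have h0 : 0 ≤ a ^ 2 + b ^ 2 + c ^ 2 - s ^ 2 / 3 := by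
    rw [hc]
    nlinarith [sq_nonneg (a - b), sq_nonneg (a + s / 3), sq_nonneg (b + s / 3),
      sq_nonneg (a + b + 2 * s / 3)]
  have h1 : 1 ≤ ρ ^ 4 := one_le_pow₀ hρ
  have h2 := mul_le_mul_of_nonneg_right h1 h0
  rw [e]
  nlinarith [sq_nonneg ((ρ ^ 2 - 1) - ρ ^ 2 * s / 3)]

lemma dual_h {d1 d2 d3 w1 w2 w3 : ℝ} (hd : d1 + d2 + d3 = 0) :
    (-d1 + d2 * d3 - w1 ^ 2) + (-d2 + d1 * d3 - w2 ^ 2) + (-d3 + d1 * d2 - w3 ^ 2) =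
      -((d1 ^ 2 + d2 ^ 2 + d3 ^ 2) / 2 + (w1 ^ 2 + w2 ^ 2 + w3 ^ 2)) ∧
    (d1 ^ 2 + d2 ^ 2 + d3 ^ 2) - 6 * (d1 * d2 * d3) + 2 * (d1 * w1 ^ 2 + d2 * w2 ^ 2 + d3 * w3 ^ 2)
      ≤ (-d1 + d2 * d3 - w1 ^ 2) ^ 2 + (-d2 + d1 * d3 - w2 ^ 2) ^ 2 +
        (-d3 + d1 * d2 - w3 ^ 2) ^ 2 := by
  have hd3 : d3 = -(d1 + d2) := by linarith
  constructor
  · rw [hd3]
    ring
  · nlinarith [sq_nonneg (d2 * d3 - w1 ^ 2), sq_nonneg (d1 * d3 - w2 ^ 2),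
      sq_nonneg (d1 * d2 - w3 ^ 2)]

lemma det_eq {d1 d2 d3 w1 w2 w3 : ℝ} (hd : d1 + d2 + d3 = 0) :
    (1 + d1) * (1 + d2) * (1 + d3) + 2 * (w1 * w2 * w3) - (1 + d1) * w1 ^ 2 -
      (1 + d2) * w2 ^ 2 - (1 + d3) * w3 ^ 2 = 1 - ((d1 ^ 2 + d2 ^ 2 + d3 ^ 2) / 2 +
      (w1 ^ 2 + w2 ^ 2 + w3 ^ 2) - (d1 * d2 * d3 + 2 * (w1 * w2 * w3) -
      (d1 * w1 ^ 2 + d2 * w2 ^ 2 + d3 * w3 ^ 2))) := by
  have hd3 : d3 = -(d1 + d2) := by linarith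
  rw [hd3]
  ring

/-- the upper bound for one relative deviation in the dual shell -/
lemma dual_v {a b c w ρ : ℝ} (ha : |a| ≤ 7 / 100) (hb : |b| ≤ 7 / 100) (hc : |c| ≤ 7 / 100)
    (hd : a + b + c = 0) (h1 : 1 ≤ ρ) (h2 : ρ ≤ 1005 / 1000) :
    ρ ^ 2 * (1 - a + b * c - w ^ 2) - 1 ≤ 85 / 1000 := by
  have h3 : 1 - a + b * c - w ^ 2 ≤ 1 + 7 / 100 + (7 / 200) ^ 2 := by
    rw [abs_le] at ha
    have e : b = -a - c := by linarith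
    have : b * c ≤ (a / 2) ^ 2 := by
      rw [e]
      nlinarith [sq_nonneg (c + a / 2)]
    nlinarith [sq_nonneg w]
  have h4 : ρ ^ 2 ≤ (1005 / 1000) ^ 2 := pow_le_pow_left₀ (by linarith) h2 2
  have h5 : 0 < ρ ^ 2 := by positivity
  nlinarith

/-- the final linear estimate -/
lemma fin_est {D W e3 V ε ρ g2 g3 G H s S2 : ℝ} (D0 : 0 ≤ D) (W0 : 0 ≤ W)
    (D1 : D ≤ 147 / 10000) (W1 : W ≤ 6075 / 1000000) (hs : s = D / 2 + W)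
    (k1 : |e3| ≤ 7 / 100 * D / 6) (k3 : |V| ≤ 7 / 100 * W) (hρ : ρ = 1 + ε) (ε0 : 0 ≤ ε)
    (ε3 : ε ≤ 1725 / 10000 * D + 371 / 1000 * W) (ε4 : ε ≤ 5 / 1000) (ε5 : s / 6 ≤ ε)
    (hg2 : 844 / 10000 ≤ g2) (hg3 : g3 ≤ 163 / 1000) (hg3' : 0 ≤ g3) (hG : G ≤ 378 / 1000)
    (hG' : 0 ≤ G) (hH : H ≤ 21 / 100) (hH' : 0 ≤ H)
    (hS : D - 6 * e3 + 2 * V - s ^ 2 / 3 ≤ S2) :
    (ρ - 1) * G + (ρ ^ 2 * (1 - s / 3) - 1) * H ≤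
      (g2 * (12 * (ρ - 1) ^ 2 + ρ ^ 2 * (D + 4 * W)) -
        g3 * (12 * (ρ - 1) ^ 3 + 3 * (ρ - 1) * (ρ ^ 2 * (D + 4 * W))) +
        g3 * (ρ ^ 3 * (3 / 2 * e3 + 6 * V))) + 2 * (1527 / 100000 * S2) := by
  have hε : ρ - 1 = ε := by linarith
  rw [hε]
  rw [abs_le] at k1 k3
  have r2 : ρ ^ 2 ≤ 10101 / 10000 := by rw [hρ]; nlinarith
  have r2' : 1 ≤ ρ ^ 2 := by rw [hρ]; nlinarith
  have r3 : ρ ^ 3 ≤ 102 / 100 := by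
    have : ρ ≤ 1005 / 1000 := by linarith
    calc ρ ^ 3 ≤ (1005 / 1000) ^ 3 := pow_le_pow_left₀ (by linarith) this 3
      _ ≤ 102 / 100 := by norm_num
  have r3' : 0 < ρ ^ 3 := by rw [hρ]; positivity
  have Y0 : 0 ≤ D + 4 * W := by linarith
  -- cost
  have cG : ε * G ≤ ε * (378 / 1000) := mul_le_mul_of_nonneg_left hG ε0
  have s0 : 0 ≤ s := by rw [hs]; positivity
  have s1 : s ≤ 15 / 1000 := by rw [hs]; linarith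
  have cH : (ρ ^ 2 * (1 - s / 3) - 1) * H ≤ (2 * ε + ε ^ 2 - s / 3) * (21 / 100) := by
    have h1 : ρ ^ 2 * (1 - s / 3) - 1 ≤ 2 * ε + ε ^ 2 - s / 3 := by
      have : ρ ^ 2 = 1 + 2 * ε + ε ^ 2 := by rw [hρ]; ring
      nlinarith
    have h2 : 0 ≤ 2 * ε + ε ^ 2 - s / 3 := by nlinarith [sq_nonneg ε]
    calc _ ≤ (2 * ε + ε ^ 2 - s / 3) * H := mul_le_mul_of_nonneg_right h1 hH'
      _ ≤ _ := mul_le_mul_of_nonneg_left hH h2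
  have cost : ε * G + (ρ ^ 2 * (1 - s / 3) - 1) * H ≤ 1029 / 10000 * D + 2265 / 10000 * W := by
    have h1 : ε ^ 2 ≤ 5 / 1000 * ε := by nlinarith
    rw [hs] at cH ⊢
    linarith
  refine cost.trans ?_
  clear cost cH cG hG hH hG' hH' ε5 ε3 D1
  -- gain
  have R0 : 0 ≤ ρ ^ 2 * (D + 4 * W) := by positivity
  have g6 : D + 4 * W ≤ ρ ^ 2 * (D + 4 * W) := by nlinarith
  have E0 : 0 ≤ ε ^ 2 := sq_nonneg ε
  have g7 : -(163 / 1000 * (102 / 100) * (7 / 400 * D + 42 / 100 * W)) ≤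
      g3 * (ρ ^ 3 * (3 / 2 * e3 + 6 * V)) := by
    have h1 : -(7 / 400 * D + 42 / 100 * W) ≤ 3 / 2 * e3 + 6 * V := by linarith
    have h2 : 0 ≤ 7 / 400 * D + 42 / 100 * W := by positivity
    have h3 : g3 * ρ ^ 3 ≤ 163 / 1000 * (102 / 100) := mul_le_mul hg3 r3 r3'.le (by norm_num)
    have h4 : 0 ≤ g3 * ρ ^ 3 := by positivity
    calc -(163 / 1000 * (102 / 100) * (7 / 400 * D + 42 / 100 * W))
        ≤ -(g3 * ρ ^ 3 * (7 / 400 * D + 42 / 100 * W)) :=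
          neg_le_neg (mul_le_mul_of_nonneg_right h3 h2)
      _ = g3 * ρ ^ 3 * (-(7 / 400 * D + 42 / 100 * W)) := by ring
      _ ≤ g3 * ρ ^ 3 * (3 / 2 * e3 + 6 * V) := mul_le_mul_of_nonneg_left h1 h4
      _ = _ := by ring
  have g8 : s ^ 2 / 3 ≤ 5 / 1000 * s := by
    have : s ≤ 15 / 1000 := s1
    nlinarith
  generalize g3 * (ρ ^ 3 * (3 / 2 * e3 + 6 * V)) = T3 at *
  generalize s ^ 2 / 3 = S3 at *
  clear r2 r2' r3 r3'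
  generalize ρ ^ 2 * (D + 4 * W) = R at *
  have g1 : 844 / 10000 * (12 * ε ^ 2 + R) ≤ g2 * (12 * ε ^ 2 + R) :=
    mul_le_mul_of_nonneg_right hg2 (by positivity)
  have g2' : g3 * (12 * ε ^ 3 + 3 * ε * R) ≤ 163 / 1000 * (12 * ε ^ 3 + 3 * ε * R) :=
    mul_le_mul_of_nonneg_right hg3 (by positivity)
  have g4 : 12 * ε ^ 3 ≤ 12 * ε ^ 2 * (5 / 1000) := by nlinarith
  have g5 : 3 * ε * R ≤ 15 / 1000 * R := by nlinarith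
  clear hg2 hg3 hg3'
  generalize g2 * (12 * ε ^ 2 + R) = T1 at *
  generalize g3 * (12 * ε ^ 3 + 3 * ε * R) = T2 at *
  generalize 12 * ε ^ 3 = X3 at *
  generalize 3 * ε * R = X4 at *
  generalize ε ^ 2 = X2 at *
  linarith [k1.1, k1.2, k3.1, k3.2]

/-- The main inequality: `d` and `w` are the diagonal and off-diagonal parts of a traceless
perturbation, `ρ³` is the inverse of the determinant. -/
theorem core {d1 d2 d3 w1 w2 w3 ρ g2 g3 h2 h3 G H : ℝ} (hd : d1 + d2 + d3 = 0)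
    (b1 : |d1| ≤ 7 / 100) (b2 : |d2| ≤ 7 / 100) (b3 : |d3| ≤ 7 / 100)
    (c1 : |w1| ≤ 45 / 1000) (c2 : |w2| ≤ 45 / 1000) (c3 : |w3| ≤ 45 / 1000) (hρ : 0 < ρ)
    (hΔ : ρ ^ 3 * ((1 + d1) * (1 + d2) * (1 + d3) + 2 * (w1 * w2 * w3) - (1 + d1) * w1 ^ 2 -
      (1 + d2) * w2 ^ 2 - (1 + d3) * w3 ^ 2) = 1)
    (hg2 : 844 / 10000 ≤ g2) (hg3 : g3 ≤ 163 / 1000) (hg3' : 0 ≤ g3)
    (hh2 : 185 / 10000 ≤ h2) (hh3 : h3 ≤ 38 / 1000) (hh3' : 0 ≤ h3) (hG : G ≤ 378 / 1000)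
    (hG' : 0 ≤ G) (hH : H ≤ 21 / 100) (hH' : 0 ≤ H) :
    (ρ - 1) * G + (ρ ^ 2 * (1 - ((d1 ^ 2 + d2 ^ 2 + d3 ^ 2) / 2 + (w1 ^ 2 + w2 ^ 2 + w3 ^ 2)) / 3)
      - 1) * H ≤
    2 * ((g2 * (ρ * (1 - d1 / 2 + w1) - 1) ^ 2 - g3 * (ρ * (1 - d1 / 2 + w1) - 1) ^ 3) +
      (g2 * (ρ * (1 - d1 / 2 - w1) - 1) ^ 2 - g3 * (ρ * (1 - d1 / 2 - w1) - 1) ^ 3) +
      (g2 * (ρ * (1 - d2 / 2 + w2) - 1) ^ 2 - g3 * (ρ * (1 - d2 / 2 + w2) - 1) ^ 3) +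
      (g2 * (ρ * (1 - d2 / 2 - w2) - 1) ^ 2 - g3 * (ρ * (1 - d2 / 2 - w2) - 1) ^ 3) +
      (g2 * (ρ * (1 - d3 / 2 + w3) - 1) ^ 2 - g3 * (ρ * (1 - d3 / 2 + w3) - 1) ^ 3) +
      (g2 * (ρ * (1 - d3 / 2 - w3) - 1) ^ 2 - g3 * (ρ * (1 - d3 / 2 - w3) - 1) ^ 3)) +
    2 * ((h2 * (ρ ^ 2 * (1 - d1 + d2 * d3 - w1 ^ 2) - 1) ^ 2 -
        h3 * (ρ ^ 2 * (1 - d1 + d2 * d3 - w1 ^ 2) - 1) ^ 3) +
      (h2 * (ρ ^ 2 * (1 - d2 + d1 * d3 - w2 ^ 2) - 1) ^ 2 -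
        h3 * (ρ ^ 2 * (1 - d2 + d1 * d3 - w2 ^ 2) - 1) ^ 3) +
      (h2 * (ρ ^ 2 * (1 - d3 + d1 * d2 - w3 ^ 2) - 1) ^ 2 -
        h3 * (ρ ^ 2 * (1 - d3 + d1 * d2 - w3 ^ 2) - 1) ^ 3)) := by
  rw [dir_eq hd]
  rw [det_eq hd] at hΔ
  have k1 := prod3_bound hd b1 b2 b3
  have k2 := prod3_bound' c1 c2 c3
  have k3 : |d1 * w1 ^ 2 + d2 * w2 ^ 2 + d3 * w3 ^ 2| ≤ 7 / 100 * (w1 ^ 2 + w2 ^ 2 + w3 ^ 2) := by
    have v1 := mul_sq_bound (b := w1) b1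
    have v2 := mul_sq_bound (b := w2) b2
    have v3 := mul_sq_bound (b := w3) b3
    have := abs_add_three (d1 * w1 ^ 2) (d2 * w2 ^ 2) (d3 * w3 ^ 2)
    linarith
  obtain ⟨hh, hK⟩ := dual_h (w1 := w1) (w2 := w2) (w3 := w3) hd
  have D0 : 0 ≤ d1 ^ 2 + d2 ^ 2 + d3 ^ 2 := by positivity
  have W0 : 0 ≤ w1 ^ 2 + w2 ^ 2 + w3 ^ 2 := by positivity
  have D1 : d1 ^ 2 + d2 ^ 2 + d3 ^ 2 ≤ 147 / 10000 := by
    linarith [sq_le_of_abs b1, sq_le_of_abs b2, sq_le_of_abs b3]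
  have W1 : w1 ^ 2 + w2 ^ 2 + w3 ^ 2 ≤ 6075 / 1000000 := by
    linarith [sq_le_of_abs c1, sq_le_of_abs c2, sq_le_of_abs c3]
  -- bounds for ρ
  have hx : ∃ x, x = (d1 ^ 2 + d2 ^ 2 + d3 ^ 2) / 2 + (w1 ^ 2 + w2 ^ 2 + w3 ^ 2) -
      (d1 * d2 * d3 + 2 * (w1 * w2 * w3) - (d1 * w1 ^ 2 + d2 * w2 ^ 2 + d3 * w3 ^ 2)) := ⟨_, rfl⟩
  obtain ⟨x, hx⟩ := hx
  rw [← hx] at hΔ
  have V1 : ∀ ε, ε = ρ - 1 → 0 ≤ ε ∧ ε ≤ 1725 / 10000 * (d1 ^ 2 + d2 ^ 2 + d3 ^ 2) +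
      371 / 1000 * (w1 ^ 2 + w2 ^ 2 + w3 ^ 2) ∧ ε ≤ 5 / 1000 ∧
      ((d1 ^ 2 + d2 ^ 2 + d3 ^ 2) / 2 + (w1 ^ 2 + w2 ^ 2 + w3 ^ 2)) / 6 ≤ ε := by
    intro ε hε
    clear hh hK
    generalize d1 ^ 2 + d2 ^ 2 + d3 ^ 2 = D at *
    generalize w1 ^ 2 + w2 ^ 2 + w3 ^ 2 = W at *
    generalize d1 * w1 ^ 2 + d2 * w2 ^ 2 + d3 * w3 ^ 2 = V at *
    generalize d1 * d2 * d3 = e3 at *
    generalize w1 * w2 * w3 = P at *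
    rw [abs_le] at k1 k2 k3
    have x0 : 0 ≤ x := by rw [hx]; linarith [k1.1, k1.2, k2.1, k2.2, k3.1, k3.2]
    have x3 : x ≤ D / 2 + W + (7 / 600 * D + 1 / 10 * W) := by
      rw [hx]; linarith [k1.1, k1.2, k2.1, k2.2, k3.1, k3.2]
    have x4 : D / 2 + W - (7 / 600 * D + 1 / 10 * W) ≤ x := by
      rw [hx]; linarith [k1.1, k1.2, k2.1, k2.2, k3.1, k3.2]
    have x2 : x ≤ 15 / 1000 := by linarith
    obtain ⟨ε1, ε2⟩ := rho_bounds hρ x0 x2 hΔ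
    rw [← hε] at ε1 ε2
    have hx2 : 24 / 100 * x ^ 2 ≤ 36 / 10000 * x := by nlinarith
    clear hΔ hx k1 k2 k3
    refine ⟨by linarith, by linarith, by linarith, by linarith⟩
  obtain ⟨ε0, ε3, ε4, ε5⟩ := V1 (ρ - 1) rfl
  have hρ1 : 1 ≤ ρ := by linarith
  have hρ2 : ρ ≤ 1005 / 1000 := by linarith
  have t1 := dual_term hh2 hh3 hh3' (dual_v (w := w1) b1 b2 b3 hd hρ1 hρ2)
  have t2 := dual_term hh2 hh3 hh3' (dual_v (w := w2) b2 b1 b3 (by linarith) hρ1 hρ2)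
  have t3 := dual_term hh2 hh3 hh3' (dual_v (w := w3) b3 b1 b2 (by linarith) hρ1 hρ2)
  have hS := dual_sum hρ1 hh hK
  have r1 : ∀ y : ℝ, 1 + (-d1 + d2 * d3 - w1 ^ 2) = 1 - d1 + d2 * d3 - w1 ^ 2 := fun _ => by ring
  have hfin := fin_est D0 W0 D1 W1 rfl k1 k3 (by ring : ρ = 1 + (ρ - 1)) ε0 ε3 ε4 ε5 hg2 hg3 hg3'
    hG hG' hH hH' hS
  rw [show 1 + (-d1 + d2 * d3 - w1 ^ 2) = 1 - d1 + d2 * d3 - w1 ^ 2 by ring,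
    show 1 + (-d2 + d1 * d3 - w2 ^ 2) = 1 - d2 + d1 * d3 - w2 ^ 2 by ring,
    show 1 + (-d3 + d1 * d2 - w3 ^ 2) = 1 - d3 + d1 * d2 - w3 ^ 2 by ring] at hfin
  clear hS hh hK r1 k1 k2 k3 hΔ hx D1 W1 V1
  generalize ρ ^ 2 * (1 - d1 + d2 * d3 - w1 ^ 2) - 1 = v1 at *
  generalize ρ ^ 2 * (1 - d2 + d1 * d3 - w2 ^ 2) - 1 = v2 at *
  generalize ρ ^ 2 * (1 - d3 + d1 * d2 - w3 ^ 2) - 1 = v3 at *
  refine hfin.trans ?_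
  have : 2 * (1527 / 100000 * (v1 ^ 2 + v2 ^ 2 + v3 ^ 2)) ≤ 2 * (h2 * v1 ^ 2 - h3 * v1 ^ 3 +
    (h2 * v2 ^ 2 - h3 * v2 ^ 3) + (h2 * v3 ^ 2 - h3 * v3 ^ 3)) := by linarith
  exact add_le_add le_rfl this

end Pool.Agent.K1H99.FCC
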