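import Mathlib

/-!
# The functions `I r a = ∫_1^∞ t^r e^{-a t} dt`
-/

set_option autoImplicit false

open MeasureTheory Filter Topology Set

namespace Pool.Agent.K1H99.FCC

/-- `I r a = ∫_1^∞ t^r e^{-a t} dt` -/
noncomputable def I (r a : ℝ) : ℝ := ∫ t in Ioi (1 : ℝ), t ^ r * Real.exp (-(a * t))

lemma integrable_I (r : ℝ) {a : ℝ} (ha : 0 < a) :
    IntegrableOn (fun t : ℝ => t ^ r * Real.exp (-(a * t))) (Ioi 1) := by
  have h1 : IntegrableOn (fun t : ℝ => t ^ (max r 0) * Real.exp (-(a * t))) (Ioi 0) := by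
    have h := integrableOn_rpow_mul_exp_neg_mul_rpow (p := 1) (s := max r 0) (b := a)
      (by linarith [le_max_right r 0]) one_pos ha
    refine h.congr_fun (fun t _ => ?_) measurableSet_Ioi
    simp only [Real.rpow_one, neg_mul]
  have h2 : IntegrableOn (fun t : ℝ => t ^ (max r 0) * Real.exp (-(a * t))) (Ioi 1) :=
    h1.mono_set (Ioi_subset_Ioi zero_le_one)
  refine Integrable.mono' h2 ?_ ?_
  · refine AEStronglyMeasurable.mul ?_ ?_
    · exact (Measurable.pow_const measurable_id r).aestronglyMeasurable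
    · exact (Real.measurable_exp.comp (measurable_const.mul measurable_id).neg).aestronglyMeasurable
  · refine (ae_restrict_iff' measurableSet_Ioi).2 (ae_of_all _ fun t ht => ?_)
    have ht1 : (1:ℝ) ≤ t := le_of_lt ht
    rw [Real.norm_of_nonneg (by positivity)]
    refine mul_le_mul_of_nonneg_right ?_ (Real.exp_pos _).le
    exact Real.rpow_le_rpow_of_exponent_le ht1 (le_max_left _ _)

lemma I_nonneg (r a : ℝ) : 0 ≤ I r a := by
  unfold I
  refine setIntegral_nonneg measurableSet_Ioi fun t ht => ?_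
  have : (0:ℝ) < t := lt_trans one_pos ht
  positivity

/-- integration by parts -/
lemma I_rec (r : ℝ) {a : ℝ} (ha : 0 < a) : a * I r a = Real.exp (-a) + r * I (r - 1) a := by
  have hd : ∀ t ∈ Ioi (1:ℝ), HasDerivAt (fun t : ℝ => -(t ^ r * Real.exp (-(a * t))))
      (a * (t ^ r * Real.exp (-(a * t))) - r * (t ^ (r - 1) * Real.exp (-(a * t)))) t := by
    intro t ht
    have ht0 : t ≠ 0 := (lt_trans one_pos ht).ne'
    have h1 := Real.hasDerivAt_rpow_const (x := t) (p := r) (Or.inl ht0)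
    have h2 : HasDerivAt (fun t : ℝ => Real.exp (-(a * t))) (Real.exp (-(a * t)) * (-(a * 1))) t :=
      (((hasDerivAt_id t).const_mul a).neg).exp
    refine (h1.mul h2).neg.congr_deriv ?_
    ring
  have hc : ContinuousWithinAt (fun t : ℝ => -(t ^ r * Real.exp (-(a * t)))) (Ici 1) 1 := by
    refine ContinuousAt.continuousWithinAt ?_
    refine ContinuousAt.neg (ContinuousAt.mul ?_ ?_)
    · exact Real.continuousAt_rpow_const _ _ (Or.inl one_ne_zero)
    · fun_prop
  have hi : IntegrableOn (fun t : ℝ => a * (t ^ r * Real.exp (-(a * t))) -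
      r * (t ^ (r - 1) * Real.exp (-(a * t)))) (Ioi 1) :=
    ((integrable_I r ha).const_mul a).sub ((integrable_I (r - 1) ha).const_mul r)
  have hlim : Tendsto (fun t : ℝ => -(t ^ r * Real.exp (-(a * t)))) atTop (𝓝 0) := by
    have h := tendsto_rpow_mul_exp_neg_mul_atTop_nhds_zero r a ha
    have h2 := h.neg
    simp only [neg_zero] at h2
    refine h2.congr fun t => ?_
    simp only [neg_mul]
  have h := integral_Ioi_of_hasDerivAt_of_tendsto hc hd hi hlim
  rw [integral_sub ((integrable_I r ha).const_mul a) ((integrable_I (r - 1) ha).const_mul r),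
    integral_const_mul, integral_const_mul] at h
  simp only [Real.one_rpow, mul_one, one_mul] at h
  unfold I
  linarith

lemma exp_t1 (z : ℝ) : 1 - z ≤ Real.exp (-z) := by
  have := Real.add_one_le_exp (-z)
  linarith

/-- third order lower bound -/
lemma exp_t3 (z : ℝ) : 1 - z + z ^ 2 / 2 - z ^ 3 / 6 ≤ Real.exp (-z) := by
  -- f z = exp (-z) - (...) has f'' = exp(-z) - (1 - z) ≥ 0 and f 0 = f' 0 = 0
  have h2 : ∀ x : ℝ, HasDerivAt (fun z : ℝ => Real.exp (-z) - (1 - z + z ^ 2 / 2 - z ^ 3 / 6))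
      (-Real.exp (-x) - (-1 + x - x ^ 2 / 2)) x := by
    intro x
    have e1 : HasDerivAt (fun z : ℝ => Real.exp (-z)) (Real.exp (-x) * (-1)) x :=
      ((hasDerivAt_id x).neg).exp
    have e2 : HasDerivAt (fun z : ℝ => 1 - z + z ^ 2 / 2 - z ^ 3 / 6)
        (-1 + (2 * x) / 2 - (3 * x ^ 2) / 6) x := by
      have h1 := (hasDerivAt_id x).const_sub 1
      have h2 := ((hasDerivAt_pow 2 x).div_const 2)
      have h3 := ((hasDerivAt_pow 3 x).div_const 6)
      refine ((h1.add h2).sub h3).congr_deriv ?_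
      norm_num
    refine (e1.sub e2).congr_deriv ?_
    ring
  have h3 : ∀ x : ℝ, HasDerivAt (fun x : ℝ => -Real.exp (-x) - (-1 + x - x ^ 2 / 2))
      (Real.exp (-x) - (1 - x)) x := by
    intro x
    have e1 : HasDerivAt (fun z : ℝ => Real.exp (-z)) (Real.exp (-x) * (-1)) x :=
      ((hasDerivAt_id x).neg).exp
    have e2 : HasDerivAt (fun z : ℝ => -1 + z - z ^ 2 / 2) (1 - (2 * x) / 2) x := by
      have h1 := (hasDerivAt_id x).const_add (-1)
      have h2 := ((hasDerivAt_pow 2 x).div_const 2)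
      refine (h1.sub h2).congr_deriv ?_
      norm_num
    refine (e1.neg.sub e2).congr_deriv ?_
    ring
  have hmono : Monotone (fun x : ℝ => -Real.exp (-x) - (-1 + x - x ^ 2 / 2)) := by
    refine monotone_of_hasDerivAt_nonneg h3 fun x => ?_
    have := exp_t1 x
    simp only [Pi.zero_apply]
    linarith
  have hz : (-Real.exp (-(0:ℝ)) - (-1 + 0 - 0 ^ 2 / 2)) = 0 := by norm_num
  rcases le_total 0 z with h | h
  · have hm : MonotoneOn (fun z : ℝ => Real.exp (-z) - (1 - z + z ^ 2 / 2 - z ^ 3 / 6)) (Ici 0) := by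
      refine monotoneOn_of_deriv_nonneg (convex_Ici 0)
        (fun x _ => (h2 x).continuousAt.continuousWithinAt)
        (fun x _ => (h2 x).differentiableAt.differentiableWithinAt) fun x hx => ?_
      rw [(h2 x).deriv]
      rw [interior_Ici] at hx
      have := hmono (le_of_lt hx)
      simp only at this
      rw [hz] at this
      exact this
    have := hm (Set.mem_Ici.2 (le_refl (0:ℝ))) h h
    norm_num at this
    linarith
  · have hm : AntitoneOn (fun z : ℝ => Real.exp (-z) - (1 - z + z ^ 2 / 2 - z ^ 3 / 6)) (Iic 0) := by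
      refine antitoneOn_of_deriv_nonpos (convex_Iic 0)
        (fun x _ => (h2 x).continuousAt.continuousWithinAt)
        (fun x _ => (h2 x).differentiableAt.differentiableWithinAt) fun x hx => ?_
      rw [(h2 x).deriv]
      rw [interior_Iic] at hx
      have := hmono (le_of_lt hx)
      simp only at this
      rw [hz] at this
      exact this
    have := hm h (Set.mem_Iic.2 (le_refl (0:ℝ))) h
    norm_num at this
    linarith

/-- the tangent line bound -/
lemma I_tangent (r : ℝ) {a a0 : ℝ} (ha : 0 < a) (ha0 : 0 < a0) :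
    I r a0 - (a - a0) * I (r + 1) a0 ≤ I r a := by
  unfold I
  rw [← integral_const_mul, ← integral_sub (integrable_I r ha0)
    ((integrable_I (r + 1) ha0).const_mul _)]
  refine setIntegral_mono_on ((integrable_I r ha0).sub ((integrable_I (r + 1) ha0).const_mul _))
    (integrable_I r ha) measurableSet_Ioi fun t ht => ?_
  have ht0 : (0:ℝ) < t := lt_trans one_pos ht
  rw [Real.rpow_add ht0, Real.rpow_one]
  have h1 := exp_t1 ((a - a0) * t)
  have h2 : Real.exp (-(a * t)) = Real.exp (-(a0 * t)) * Real.exp (-((a - a0) * t)) := by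
    rw [← Real.exp_add]
    congr 1
    ring
  rw [h2]
  have h3 : 0 < t ^ r * Real.exp (-(a0 * t)) := by positivity
  calc t ^ r * Real.exp (-(a0 * t)) - (a - a0) * (t ^ r * t * Real.exp (-(a0 * t)))
      = t ^ r * Real.exp (-(a0 * t)) * (1 - (a - a0) * t) := by ring
    _ ≤ t ^ r * Real.exp (-(a0 * t)) * Real.exp (-((a - a0) * t)) :=
        mul_le_mul_of_nonneg_left h1 h3.le
    _ = _ := by ring

/-- the third order bound -/
lemma I_taylor3 (r : ℝ) {a a0 : ℝ} (ha : 0 < a) (ha0 : 0 < a0) :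
    I r a0 - (a - a0) * I (r + 1) a0 + (a - a0) ^ 2 / 2 * I (r + 2) a0 -
      (a - a0) ^ 3 / 6 * I (r + 3) a0 ≤ I r a := by
  have i0 := integrable_I r ha0
  have i1 := (integrable_I (r + 1) ha0).const_mul (a - a0)
  have i2 := (integrable_I (r + 2) ha0).const_mul ((a - a0) ^ 2 / 2)
  have i3 := (integrable_I (r + 3) ha0).const_mul ((a - a0) ^ 3 / 6)
  have i01 : Integrable (fun t : ℝ => t ^ r * Real.exp (-(a0 * t)) -
    (a - a0) * (t ^ (r + 1) * Real.exp (-(a0 * t)))) (volume.restrict (Ioi 1)) := i0.sub i1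
  have i012 : Integrable (fun t : ℝ => t ^ r * Real.exp (-(a0 * t)) -
    (a - a0) * (t ^ (r + 1) * Real.exp (-(a0 * t))) +
    (a - a0) ^ 2 / 2 * (t ^ (r + 2) * Real.exp (-(a0 * t)))) (volume.restrict (Ioi 1)) :=
    i01.add i2
  unfold I
  rw [← integral_const_mul, ← integral_const_mul, ← integral_const_mul, ← integral_sub i0 i1,
    ← integral_add i01 i2, ← integral_sub i012 i3]
  refine setIntegral_mono_on (i012.sub i3)
    (integrable_I r ha) measurableSet_Ioi fun t ht => ?_
  have ht0 : (0:ℝ) < t := lt_trans one_pos ht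
  rw [Real.rpow_add ht0, Real.rpow_one, Real.rpow_add ht0, Real.rpow_add ht0]
  have e2 : t ^ (2:ℝ) = t ^ 2 := by norm_cast
  have e3 : t ^ (3:ℝ) = t ^ 3 := by norm_cast
  rw [e2, e3]
  have h1 := exp_t3 ((a - a0) * t)
  have h2 : Real.exp (-(a * t)) = Real.exp (-(a0 * t)) * Real.exp (-((a - a0) * t)) := by
    rw [← Real.exp_add]
    congr 1
    ring
  rw [h2]
  have h3 : 0 < t ^ r * Real.exp (-(a0 * t)) := by positivity
  have h4 := mul_le_mul_of_nonneg_left h1 h3.le
  linarith

/-- decay -/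
lemma I_decay (r : ℝ) {a m : ℝ} (hm : 0 < m) (h : m ≤ a) :
    I r a ≤ Real.exp (-(a - m)) * I r m := by
  unfold I
  rw [← integral_const_mul]
  refine setIntegral_mono_on (integrable_I r (hm.trans_le h)) ((integrable_I r hm).const_mul _)
    measurableSet_Ioi fun t ht => ?_
  have ht0 : (0:ℝ) < t := lt_trans one_pos ht
  have ht1 : (1:ℝ) ≤ t := le_of_lt ht
  have h2 : Real.exp (-(a * t)) = Real.exp (-((a - m) * t)) * Real.exp (-(m * t)) := by
    rw [← Real.exp_add]
    congr 1
    ring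
  rw [h2]
  have h3 : Real.exp (-((a - m) * t)) ≤ Real.exp (-(a - m)) := by
    rw [Real.exp_le_exp]
    nlinarith
  calc t ^ r * (Real.exp (-((a - m) * t)) * Real.exp (-(m * t)))
      = Real.exp (-((a - m) * t)) * (t ^ r * Real.exp (-(m * t))) := by ring
    _ ≤ Real.exp (-(a - m)) * (t ^ r * Real.exp (-(m * t))) :=
        mul_le_mul_of_nonneg_right h3 (by positivity)

lemma I_anti (r : ℝ) {a m : ℝ} (hm : 0 < m) (h : m ≤ a) : I r a ≤ I r m := by
  refine (I_decay r hm h).trans ?_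
  have h1 : Real.exp (-(a - m)) ≤ 1 := Real.exp_le_one_iff.2 (by linarith)
  have h2 := I_nonneg r m
  nlinarith

lemma I_zero {a : ℝ} (ha : 0 < a) : I 0 a = Real.exp (-a) / a := by
  have h := I_rec 0 ha
  rw [zero_mul, add_zero] at h
  rw [eq_div_iff ha.ne']
  linarith

lemma I_one {a : ℝ} (ha : 0 < a) : I 1 a = Real.exp (-a) * (1 / a + 1 / a ^ 2) := by
  have h := I_rec 1 ha
  rw [sub_self, I_zero ha] at h
  field_simp at h ⊢
  linarith

lemma I_two {a : ℝ} (ha : 0 < a) : I 2 a = Real.exp (-a) * (1 / a + 2 / a ^ 2 + 2 / a ^ 3) := by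
  have h := I_rec 2 ha
  rw [show (2:ℝ) - 1 = 1 by norm_num, I_one ha] at h
  field_simp at h ⊢
  linarith

lemma I_three {a : ℝ} (ha : 0 < a) :
    I 3 a = Real.exp (-a) * (1 / a + 3 / a ^ 2 + 6 / a ^ 3 + 6 / a ^ 4) := by
  have h := I_rec 3 ha
  rw [show (3:ℝ) - 1 = 2 by norm_num, I_two ha] at h
  field_simp at h ⊢
  linarith

lemma I_four {a : ℝ} (ha : 0 < a) :
    I 4 a = Real.exp (-a) * (1 / a + 4 / a ^ 2 + 12 / a ^ 3 + 24 / a ^ 4 + 24 / a ^ 5) := by
  have h := I_rec 4 ha
  rw [show (4:ℝ) - 1 = 3 by norm_num, I_three ha] at h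
  field_simp at h ⊢
  linarith

lemma I_mthree {a : ℝ} (ha : 0 < a) :
    I (-(3 / 2)) a = 2 * Real.exp (-a) - 2 * a * I (-(1 / 2)) a := by
  have h := I_rec (-(1 / 2)) ha
  rw [show -(1 / 2 : ℝ) - 1 = -(3 / 2) by norm_num] at h
  linarith

lemma I_half {a : ℝ} (ha : 0 < a) :
    I (1 / 2) a = (Real.exp (-a) + 1 / 2 * I (-(1 / 2)) a) / a := by
  have h := I_rec (1 / 2) ha
  rw [show (1 / 2 : ℝ) - 1 = -(1 / 2) by norm_num] at h
  rw [eq_div_iff ha.ne']
  linarith

lemma I_threehalf {a : ℝ} (ha : 0 < a) :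
    I (3 / 2) a = (Real.exp (-a) + 3 / 2 * I (1 / 2) a) / a := by
  have h := I_rec (3 / 2) ha
  rw [show (3 / 2 : ℝ) - 1 = 1 / 2 by norm_num] at h
  rw [eq_div_iff ha.ne']
  linarith

end Pool.Agent.K1H99.FCC
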