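import Pool.Agent.K1H99.FCC.Poi
import Pool.Agent.K1H99.FCC.Inc

/-!
# The Epstein zeta function of a ternary form of determinant one at `s = 2`
-/

set_option autoImplicit false

open MeasureTheory Matrix Filter Topology Set
open scoped ENNReal

namespace Pool.Agent.K1H99.FCC

/-- nonzero integral vectors -/
abbrev N0 : Type := {n : Fin 3 → ℤ // n ≠ 0}

lemma norm_rv_ge (n : N0) : 1 ≤ ‖rv n.1‖ := by
  obtain ⟨i, hi⟩ : ∃ i, n.1 i ≠ 0 := by
    by_contra h
    push Not at h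
    exact n.2 (funext h)
  refine le_trans ?_ (norm_le_pi_norm (rv n.1) i)
  unfold rv
  rw [Real.norm_eq_abs]
  have h1 : (1 : ℤ) ≤ |n.1 i| := Int.one_le_abs hi
  exact_mod_cast h1

lemma nsq_lower {A B : Matrix (Fin 3) (Fin 3) ℝ} (hBA : Bᵀ * A = 1) :
    ∃ c : ℝ, 0 < c ∧ ∀ n : N0, c ≤ nsq A (rv n.1) := by
  obtain ⟨c, hc, h⟩ := nsq_ge hBA
  refine ⟨c, hc, fun n => le_trans ?_ (h (rv n.1))⟩
  have h1 := norm_rv_ge n
  have h2 : 1 ≤ ‖rv n.1‖ ^ 2 := by nlinarith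
  nlinarith

lemma lint0 {b : ℝ} (hb : 0 < b) :
    ∫⁻ t in Ioi (0:ℝ), ENNReal.ofReal (t * Real.exp (-(Real.pi * t) * b)) =
      ENNReal.ofReal (((Real.pi * b) ^ 2)⁻¹) := by
  have hr : 0 < Real.pi * b := mul_pos Real.pi_pos hb
  have e : ∀ t : ℝ, t * Real.exp (-(Real.pi * t) * b) =
      t ^ ((2:ℝ) - 1) * Real.exp (-((Real.pi * b) * t)) := by
    intro t
    rw [show (2:ℝ) - 1 = 1 by norm_num, Real.rpow_one]
    congr 2
    ring
  simp_rw [e]
  have hi : IntegrableOn (fun t : ℝ => t ^ ((2:ℝ) - 1) * Real.exp (-((Real.pi * b) * t))) (Ioi 0) := by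
    have h := integrableOn_rpow_mul_exp_neg_mul_rpow (p := 1) (s := (2:ℝ) - 1) (b := Real.pi * b)
      (by norm_num) one_pos hr
    refine h.congr_fun (fun t _ => ?_) measurableSet_Ioi
    simp only [Real.rpow_one, neg_mul]
  rw [← ofReal_integral_eq_lintegral_ofReal hi]
  · rw [Real.integral_rpow_mul_exp_neg_mul_Ioi two_pos hr, Real.Gamma_two, mul_one]
    congr 1
    rw [one_div, Real.inv_rpow hr.le]
    norm_cast
  · refine (ae_restrict_iff' measurableSet_Ioi).2 (ae_of_all _ fun t ht => ?_)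
    have : (0:ℝ) < t := ht
    simp only [Pi.zero_apply]
    positivity

lemma lint1 {b : ℝ} (hb : 0 < b) :
    ∫⁻ t in Ioi (1:ℝ), ENNReal.ofReal (t * Real.exp (-(Real.pi * t) * b)) =
      ENNReal.ofReal (I 1 (Real.pi * b)) := by
  have hr : 0 < Real.pi * b := mul_pos Real.pi_pos hb
  have e : ∀ t : ℝ, t * Real.exp (-(Real.pi * t) * b) =
      t ^ (1:ℝ) * Real.exp (-((Real.pi * b) * t)) := by
    intro t
    rw [Real.rpow_one]
    congr 2
    ring
  simp_rw [e]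
  unfold I
  rw [ofReal_integral_eq_lintegral_ofReal (integrable_I 1 hr)]
  refine (ae_restrict_iff' measurableSet_Ioi).2 (ae_of_all _ fun t ht => ?_)
  have : (0:ℝ) < t := lt_trans one_pos ht
  simp only [Pi.zero_apply]
  positivity

lemma lint2 {b : ℝ} (hb : 0 < b) :
    ∫⁻ t in Ioc (0:ℝ) 1, ENNReal.ofReal (t ^ (-(1 / 2) : ℝ) * Real.exp (-(Real.pi / t) * b)) =
      ENNReal.ofReal (I (-(3 / 2)) (Real.pi * b)) := by
  have hr : 0 < Real.pi * b := mul_pos Real.pi_pos hb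
  have h1 : ∫⁻ t in Ioc (0:ℝ) 1, ENNReal.ofReal (t ^ (-(1 / 2) : ℝ) *
      Real.exp (-(Real.pi / t) * b)) = ∫⁻ t in Ioo (0:ℝ) 1,
      ENNReal.ofReal (t ^ (-(1 / 2) : ℝ) * Real.exp (-(Real.pi / t) * b)) := by
    rw [Measure.restrict_congr_set Ioo_ae_eq_Ioc]
  have h2 : (fun s : ℝ => s⁻¹) '' Ioi 1 = Ioo 0 1 := by
    ext x
    simp only [mem_image, mem_Ioi, mem_Ioo]
    constructor
    · rintro ⟨s, hs, rfl⟩
      exact ⟨by positivity, inv_lt_one_of_one_lt₀ hs⟩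
    · rintro ⟨h0, h1⟩
      exact ⟨x⁻¹, (one_lt_inv₀ h0).2 h1, inv_inv x⟩
  rw [h1, ← h2, lintegral_image_eq_lintegral_abs_deriv_mul (f := fun s : ℝ => s⁻¹)
    (f' := fun s : ℝ => -(s ^ 2)⁻¹) measurableSet_Ioi ?_ ?_]
  · unfold I
    rw [ofReal_integral_eq_lintegral_ofReal (integrable_I (-(3 / 2)) hr)]
    · refine setLIntegral_congr_fun measurableSet_Ioi fun s hs => ?_
      have hs0 : (0:ℝ) < s := lt_trans one_pos hs
      rw [← ENNReal.ofReal_mul (abs_nonneg _)]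
      congr 1
      rw [abs_neg, abs_of_pos (by positivity), Real.inv_rpow hs0.le, ← Real.rpow_neg hs0.le]
      have e1 : s ^ (-(3 / 2) : ℝ) = (s ^ 2)⁻¹ * s ^ (- -(1 / 2) : ℝ) := by
        have : (s ^ 2)⁻¹ = s ^ (-2 : ℝ) := by
          rw [Real.rpow_neg hs0.le]
          norm_cast
        rw [this, ← Real.rpow_add hs0]
        norm_num
      rw [e1, div_inv_eq_mul]
      have e2 : -(Real.pi * s) * b = -((Real.pi * b) * s) := by ring
      rw [e2]
      ring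
    · refine (ae_restrict_iff' measurableSet_Ioi).2 (ae_of_all _ fun t ht => ?_)
      have : (0:ℝ) < t := lt_trans one_pos ht
      simp only [Pi.zero_apply]
      positivity
  · intro s hs
    have hs0 : s ≠ 0 := (lt_trans one_pos hs).ne'
    exact (hasDerivAt_inv hs0).hasDerivWithinAt
  · exact inv_injective.injOn

lemma lint3 : ∫⁻ t in Ioc (0:ℝ) 1, ENNReal.ofReal (t ^ (-(1 / 2) : ℝ) - t) =
    ENNReal.ofReal (3 / 2) := by
  have hi1 : IntervalIntegrable (fun t : ℝ => t ^ (-(1 / 2) : ℝ)) volume 0 1 :=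
    intervalIntegral.intervalIntegrable_rpow' (by norm_num)
  have hi2 : IntervalIntegrable (fun t : ℝ => t) volume 0 1 := continuous_id.intervalIntegrable _ _
  have hi : IntegrableOn (fun t : ℝ => t ^ (-(1 / 2) : ℝ) - t) (Ioc 0 1) := by
    have := hi1.sub hi2
    rwa [intervalIntegrable_iff_integrableOn_Ioc_of_le zero_le_one] at this
  rw [← ofReal_integral_eq_lintegral_ofReal hi]
  · congr 1
    rw [← intervalIntegral.integral_of_le zero_le_one, intervalIntegral.integral_sub hi1 hi2,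
      integral_rpow (Or.inl (by norm_num)), integral_id]
    norm_num
  · refine (ae_restrict_iff' measurableSet_Ioc).2 (ae_of_all _ fun t ht => ?_)
    simp only [Pi.zero_apply]
    have h1 : (1:ℝ) ≤ t ^ (-(1 / 2) : ℝ) := Real.one_le_rpow_of_pos_of_le_one_of_nonpos ht.1 ht.2
      (by norm_num)
    linarith [ht.2]

lemma tsum_N0 (f : (Fin 3 → ℤ) → ℝ≥0∞) : ∑' n, f n = f 0 + ∑' n : N0, f n.1 := by
  rw [ENNReal.tsum_eq_add_tsum_ite 0]
  congr 1
  have h : ∑' n : N0, f n.1 = ∑' n, Set.indicator {n : Fin 3 → ℤ | n ≠ 0} f n :=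
    tsum_subtype {n : Fin 3 → ℤ | n ≠ 0} f
  rw [h]
  refine tsum_congr fun n => ?_
  by_cases hn : n = 0
  · simp [hn]
  · rw [if_neg hn, Set.indicator_of_mem]
    exact hn

lemma nsq_zero (A : Matrix (Fin 3) (Fin 3) ℝ) : nsq A (rv 0) = 0 := by
  unfold nsq rv
  simp [Matrix.mulVec, dotProduct]

lemma theta_enn {A B : Matrix (Fin 3) (Fin 3) ℝ} (hBA : Bᵀ * A = 1) (hdet : |A.det| = 1)
    {t : ℝ} (ht : t ∈ Ioc (0:ℝ) 1) :
    ∑' n : N0, ENNReal.ofReal (t * Real.exp (-(Real.pi * t) * nsq A (rv n.1))) =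
      ENNReal.ofReal (t ^ (-(1 / 2) : ℝ) - t) +
      ∑' k : N0, ENNReal.ofReal (t ^ (-(1 / 2) : ℝ) *
        Real.exp (-(Real.pi / t) * nsq B (rv k.1))) := by
  have ht0 : 0 < t := ht.1
  have hAB : Aᵀ * B = 1 := by
    have := congrArg Matrix.transpose hBA
    rwa [Matrix.transpose_mul, Matrix.transpose_transpose, Matrix.transpose_one] at this
  have h := theta_fe hBA ht0
  rw [hdet, inv_one, one_mul] at h
  have sA := summable_gauss hBA (c := Real.pi * t) (by positivity)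
  have sB := summable_gauss hAB (c := Real.pi / t) (div_pos Real.pi_pos ht0)
  have h1 := congrArg ENNReal.ofReal h
  rw [ENNReal.ofReal_mul (by positivity), ENNReal.ofReal_tsum_of_nonneg
    (fun _ => (Real.exp_pos _).le) sA, ENNReal.ofReal_tsum_of_nonneg
    (fun _ => (Real.exp_pos _).le) sB, tsum_N0, tsum_N0, nsq_zero, nsq_zero, mul_zero,
    mul_zero, Real.exp_zero, ENNReal.ofReal_one] at h1
  have h2 : ENNReal.ofReal t * (1 + ∑' n : N0, ENNReal.ofReal
      (Real.exp (-(Real.pi * t) * nsq A (rv n.1)))) = ENNReal.ofReal (t ^ (-(1 / 2) : ℝ)) *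
      (1 + ∑' k : N0, ENNReal.ofReal (Real.exp (-(Real.pi / t) * nsq B (rv k.1)))) := by
    rw [h1, ← mul_assoc, ← ENNReal.ofReal_mul ht0.le]
    congr 2
    have : t * t ^ (-(3 / 2) : ℝ) = t ^ (1 + -(3 / 2) : ℝ) := by
      rw [Real.rpow_add ht0, Real.rpow_one]
    rw [this]
    norm_num
  have h3 : (t:ℝ) ≤ t ^ (-(1 / 2) : ℝ) := ht.2.trans
    (Real.one_le_rpow_of_pos_of_le_one_of_nonpos ht.1 ht.2 (by norm_num))
  have h4 : ENNReal.ofReal (t ^ (-(1 / 2) : ℝ)) =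
      ENNReal.ofReal t + ENNReal.ofReal (t ^ (-(1 / 2) : ℝ) - t) := by
    rw [← ENNReal.ofReal_add ht0.le (by linarith)]
    congr 1
    ring
  rw [mul_add, mul_add, mul_one, mul_one] at h2
  nth_rewrite 1 [h4] at h2
  rw [add_assoc, ENNReal.add_right_inj ENNReal.ofReal_ne_top] at h2
  simp_rw [ENNReal.ofReal_mul ht0.le]
  rw [ENNReal.tsum_mul_left, h2]
  congr 1
  rw [← ENNReal.tsum_mul_left]
  refine tsum_congr fun k => ?_
  rw [ENNReal.ofReal_mul (by positivity)]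

/-- **Ewald's formula**, extended reals -/
theorem ewald_enn {A B : Matrix (Fin 3) (Fin 3) ℝ} (hBA : Bᵀ * A = 1) (hdet : |A.det| = 1) :
    ∑' n : N0, ENNReal.ofReal ((nsq A (rv n.1) ^ 2)⁻¹) = ENNReal.ofReal (Real.pi ^ 2) *
      (ENNReal.ofReal (3 / 2) + ∑' k : N0, ENNReal.ofReal (I (-(3 / 2)) (Real.pi * nsq B (rv k.1))) +
        ∑' n : N0, ENNReal.ofReal (I 1 (Real.pi * nsq A (rv n.1)))) := by
  have hAB : Aᵀ * B = 1 := by
    have := congrArg Matrix.transpose hBA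
    rwa [Matrix.transpose_mul, Matrix.transpose_transpose, Matrix.transpose_one] at this
  obtain ⟨cA, hcA, hA⟩ := nsq_lower hBA
  obtain ⟨cB, hcB, hB⟩ := nsq_lower hAB
  have hApos : ∀ n : N0, 0 < nsq A (rv n.1) := fun n => lt_of_lt_of_le hcA (hA n)
  have hBpos : ∀ n : N0, 0 < nsq B (rv n.1) := fun n => lt_of_lt_of_le hcB (hB n)
  have h1 : ∀ n : N0, ENNReal.ofReal ((nsq A (rv n.1) ^ 2)⁻¹) = ENNReal.ofReal (Real.pi ^ 2) *
      ∫⁻ t in Ioi (0:ℝ), ENNReal.ofReal (t * Real.exp (-(Real.pi * t) * nsq A (rv n.1))) := by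
    intro n
    rw [lint0 (hApos n), ← ENNReal.ofReal_mul (by positivity)]
    congr 1
    have := (hApos n).ne'
    have hpi := Real.pi_ne_zero
    field_simp
  simp_rw [h1]
  rw [ENNReal.tsum_mul_left]
  congr 1
  have hm : ∀ n : N0, Measurable fun t : ℝ =>
      ENNReal.ofReal (t * Real.exp (-(Real.pi * t) * nsq A (rv n.1))) := by
    intro n
    fun_prop
  rw [← lintegral_tsum (fun n => (hm n).aemeasurable), ← Ioc_union_Ioi_eq_Ioi
    (zero_le_one (α := ℝ)), lintegral_union measurableSet_Ioi (Ioc_disjoint_Ioi le_rfl)]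
  congr 1
  · rw [setLIntegral_congr_fun measurableSet_Ioc (fun t ht => theta_enn hBA hdet ht),
      lintegral_add_left (by fun_prop), lint3, lintegral_tsum]
    · congr 1
      exact tsum_congr fun k => lint2 (hBpos k)
    · intro k
      fun_prop
  · rw [lintegral_tsum (fun n => (hm n).aemeasurable)]
    exact tsum_congr fun n => lint1 (hApos n)

lemma summable_I (r : ℝ) {A B : Matrix (Fin 3) (Fin 3) ℝ} (hBA : Bᵀ * A = 1) :
    Summable fun n : N0 => I r (Real.pi * nsq A (rv n.1)) := by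
  obtain ⟨cA, hcA, hA⟩ := nsq_lower hBA
  have hm : 0 < Real.pi * cA := mul_pos Real.pi_pos hcA
  have h1 := (summable_gauss hBA (c := Real.pi) Real.pi_pos)
  have h2 : Summable fun n : N0 => Real.exp (-Real.pi * nsq A (rv n.1)) :=
    h1.subtype {n : Fin 3 → ℤ | n ≠ 0}
  refine Summable.of_nonneg_of_le (fun n => I_nonneg _ _) (fun n => ?_)
    (h2.mul_left (Real.exp (Real.pi * cA) * I r (Real.pi * cA)))
  refine (I_decay r hm (mul_le_mul_of_nonneg_left (hA n) Real.pi_pos.le)).trans (le_of_eq ?_)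
  have : Real.exp (-(Real.pi * nsq A (rv n.1) - Real.pi * cA)) =
      Real.exp (Real.pi * cA) * Real.exp (-Real.pi * nsq A (rv n.1)) := by
    rw [← Real.exp_add]
    congr 1
    ring
  rw [this]
  ring

/-- **Ewald's formula** -/
theorem ewald {A B : Matrix (Fin 3) (Fin 3) ℝ} (hBA : Bᵀ * A = 1) (hdet : |A.det| = 1) :
    Summable (fun n : N0 => (nsq A (rv n.1) ^ 2)⁻¹) ∧
    ∑' n : N0, (nsq A (rv n.1) ^ 2)⁻¹ = Real.pi ^ 2 *
      (3 / 2 + ∑' k : N0, I (-(3 / 2)) (Real.pi * nsq B (rv k.1)) +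
        ∑' n : N0, I 1 (Real.pi * nsq A (rv n.1))) := by
  have hAB : Aᵀ * B = 1 := by
    have := congrArg Matrix.transpose hBA
    rwa [Matrix.transpose_mul, Matrix.transpose_transpose, Matrix.transpose_one] at this
  have h := ewald_enn hBA hdet
  have s1 := summable_I (-(3 / 2)) hAB
  have s2 := summable_I 1 hBA
  rw [← ENNReal.ofReal_tsum_of_nonneg (fun _ => I_nonneg _ _) s1,
    ← ENNReal.ofReal_tsum_of_nonneg (fun _ => I_nonneg _ _) s2,
    ← ENNReal.ofReal_add (by norm_num) (tsum_nonneg fun _ => I_nonneg _ _),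
    ← ENNReal.ofReal_add (add_nonneg (by norm_num) (tsum_nonneg fun _ => I_nonneg _ _))
      (tsum_nonneg fun _ => I_nonneg _ _), ← ENNReal.ofReal_mul (by positivity)] at h
  have hnn : ∀ n : N0, 0 ≤ (nsq A (rv n.1) ^ 2)⁻¹ := fun n => by positivity
  have hs : Summable (fun n : N0 => (nsq A (rv n.1) ^ 2)⁻¹) := by
    have h2 : ∑' n : N0, ENNReal.ofReal ((nsq A (rv n.1) ^ 2)⁻¹) ≠ ⊤ := by
      rw [h]
      exact ENNReal.ofReal_ne_top
    have h3 := ENNReal.summable_toReal h2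
    refine h3.congr fun n => ?_
    rw [ENNReal.toReal_ofReal (hnn n)]
  refine ⟨hs, ?_⟩
  rw [← ENNReal.ofReal_tsum_of_nonneg hnn hs] at h
  refine (ENNReal.ofReal_eq_ofReal_iff (tsum_nonneg hnn) ?_).1 h
  have h5 : 0 ≤ ∑' k : N0, I (-(3 / 2)) (Real.pi * nsq B (rv k.1)) :=
    tsum_nonneg fun _ => I_nonneg _ _
  have h6 : 0 ≤ ∑' k : N0, I 1 (Real.pi * nsq A (rv k.1)) := tsum_nonneg fun _ => I_nonneg _ _
  positivity

end Pool.Agent.K1H99.FCC
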