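import Pool.Agent.K1H99.FCC.Ewald

/-!
# Ternary forms in Selling parameters and their normalised energy
-/

set_option autoImplicit false

open MeasureTheory Matrix Filter Topology Set

namespace Pool.Agent.K1H99.FCC

/-- the Gram matrix with Selling parameters `p = (p01, p02, p03, p12, p13, p23)` -/
def Qm (p : Fin 6 → ℝ) : Matrix (Fin 3) (Fin 3) ℝ :=
  !![p 0 + p 3 + p 4, -p 3, -p 4; -p 3, p 1 + p 3 + p 5, -p 5; -p 4, -p 5, p 2 + p 4 + p 5]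

/-- the form -/
def qf (p : Fin 6 → ℝ) (x : Fin 3 → ℝ) : ℝ :=
  p 0 * x 0 ^ 2 + p 1 * x 1 ^ 2 + p 2 * x 2 ^ 2 + p 3 * (x 0 - x 1) ^ 2 + p 4 * (x 0 - x 2) ^ 2 +
    p 5 * (x 1 - x 2) ^ 2

/-- the adjugate form -/
def af (p : Fin 6 → ℝ) (y : Fin 3 → ℝ) : ℝ :=
  (p 1 * p 2 + p 1 * p 5 + p 2 * p 5) * y 0 ^ 2 + (p 0 * p 2 + p 0 * p 4 + p 2 * p 4) * y 1 ^ 2 +
    (p 0 * p 1 + p 0 * p 3 + p 1 * p 3) * y 2 ^ 2 + p 2 * p 3 * (y 0 + y 1) ^ 2 +
    p 1 * p 4 * (y 0 + y 2) ^ 2 + p 0 * p 5 * (y 1 + y 2) ^ 2 +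
    (p 3 * p 4 + p 3 * p 5 + p 4 * p 5) * (y 0 + y 1 + y 2) ^ 2

/-- the determinant -/
def dt (p : Fin 6 → ℝ) : ℝ :=
  p 0 * p 1 * (p 2 + p 4 + p 5) + p 0 * p 2 * (p 3 + p 5) + p 0 * p 3 * (p 4 + p 5) +
    p 0 * p 4 * p 5 + p 1 * p 2 * (p 3 + p 4) + p 1 * p 3 * (p 4 + p 5) + p 1 * p 4 * p 5 +
    p 2 * p 3 * (p 4 + p 5) + p 2 * p 4 * p 5

lemma dt_eq (p : Fin 6 → ℝ) : (Qm p).det = dt p := by
  unfold Qm dt
  rw [Matrix.det_fin_three]
  simp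
  ring

/-- positive definite, with a square root -/
def PD (p : Fin 6 → ℝ) : Prop := ∃ A : Matrix (Fin 3) (Fin 3) ℝ, Aᵀ * A = Qm p ∧ A.det ≠ 0

lemma nsq_eq_dot (A : Matrix (Fin 3) (Fin 3) ℝ) (x : Fin 3 → ℝ) :
    nsq A x = x ⬝ᵥ ((Aᵀ * A).mulVec x) := by
  rw [← Matrix.mulVec_mulVec, Matrix.dotProduct_mulVec, Matrix.vecMul_transpose]
  unfold nsq dotProduct
  exact Finset.sum_congr rfl fun i _ => by ring

lemma nsq_eq {A : Matrix (Fin 3) (Fin 3) ℝ} {p : Fin 6 → ℝ} (h : Aᵀ * A = Qm p)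
    (x : Fin 3 → ℝ) : nsq A x = qf p x := by
  rw [nsq_eq_dot, h]
  unfold Qm qf
  simp [Matrix.mulVec, dotProduct, Fin.sum_univ_three]
  ring

lemma det_sq {A : Matrix (Fin 3) (Fin 3) ℝ} {p : Fin 6 → ℝ} (h : Aᵀ * A = Qm p) :
    A.det ^ 2 = dt p := by
  rw [← dt_eq, ← h, Matrix.det_mul, Matrix.det_transpose, sq]

lemma dt_pos {p : Fin 6 → ℝ} (h : PD p) : 0 < dt p := by
  obtain ⟨A, hA, hd⟩ := h
  rw [← det_sq hA]
  positivity

lemma nsq_dual {A B : Matrix (Fin 3) (Fin 3) ℝ} {p : Fin 6 → ℝ} (h : Aᵀ * A = Qm p)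
    (hBA : Bᵀ * A = 1) (y : Fin 3 → ℝ) : nsq B y * dt p = af p y := by
  have hAB : A * Bᵀ = 1 := mul_eq_one_comm.1 hBA
  have h2 : Bᵀ * B * Qm p = 1 := by
    rw [← h, Matrix.mul_assoc, ← Matrix.mul_assoc B Aᵀ A]
    have : B * Aᵀ = 1 := by
      have := congrArg Matrix.transpose hAB
      rwa [Matrix.transpose_mul, Matrix.transpose_transpose, Matrix.transpose_one] at this
    rw [this, Matrix.one_mul, hBA]
  have h3 : (Qm p).adjugate = dt p • (Bᵀ * B) := by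
    have h4 : (Bᵀ * B) * (Qm p * (Qm p).adjugate) = (Qm p).adjugate := by
      rw [← Matrix.mul_assoc, h2, Matrix.one_mul]
    rw [Matrix.mul_adjugate, dt_eq, Matrix.mul_smul, Matrix.mul_one] at h4
    exact h4.symm
  have h5 : nsq B y * dt p = y ⬝ᵥ ((Qm p).adjugate.mulVec y) := by
    rw [nsq_eq_dot, h3, Matrix.smul_mulVec, dotProduct_smul, smul_eq_mul]
    ring
  rw [h5]
  unfold Qm af
  rw [Matrix.adjugate_fin_three_of]
  simp [Matrix.mulVec, dotProduct, Fin.sum_univ_three]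
  ring

/-- the normalised radius -/
noncomputable def rad (p : Fin 6 → ℝ) : ℝ := dt p ^ (1 / 3 : ℝ)

lemma rad_pos {p : Fin 6 → ℝ} (h : 0 < dt p) : 0 < rad p := Real.rpow_pos_of_pos h _

lemma rad_cube {p : Fin 6 → ℝ} (h : 0 ≤ dt p) : rad p ^ 3 = dt p := by
  unfold rad
  rw [← Real.rpow_natCast, ← Real.rpow_mul h]
  norm_num

/-- the normalised energy -/
noncomputable def Lam (p : Fin 6 → ℝ) : ℝ :=
  3 / 2 + ∑' k : N0, I (-(3 / 2)) (Real.pi * (af p (rv k.1) / rad p ^ 2)) +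
    ∑' n : N0, I 1 (Real.pi * (qf p (rv n.1) / rad p))

lemma normalise {p : Fin 6 → ℝ} {A : Matrix (Fin 3) (Fin 3) ℝ} (h : Aᵀ * A = Qm p)
    (hd : A.det ≠ 0) : ∃ A' B' : Matrix (Fin 3) (Fin 3) ℝ, B'ᵀ * A' = 1 ∧ |A'.det| = 1 ∧
      (∀ x, nsq A' x = qf p x / rad p) ∧ ∀ y, nsq B' y = af p y / rad p ^ 2 := by
  have hp : 0 < dt p := dt_pos ⟨A, h, hd⟩
  have hr := rad_pos hp
  have hr3 := rad_cube hp.le
  set s : ℝ := Real.sqrt (rad p) with hs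
  have hs0 : 0 < s := Real.sqrt_pos.2 hr
  have hs2 : s ^ 2 = rad p := Real.sq_sqrt hr.le
  have hu : IsUnit A.det := isUnit_iff_ne_zero.2 hd
  set B : Matrix (Fin 3) (Fin 3) ℝ := (A⁻¹)ᵀ with hB
  have hBA : Bᵀ * A = 1 := by
    rw [hB, Matrix.transpose_transpose, Matrix.nonsing_inv_mul _ hu]
  have nsm : ∀ (M : Matrix (Fin 3) (Fin 3) ℝ) (c : ℝ) (x : Fin 3 → ℝ),
      nsq (c • M) x = c ^ 2 * nsq M x := by
    intro M c x
    unfold nsq
    rw [Finset.mul_sum]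
    refine Finset.sum_congr rfl fun i _ => ?_
    rw [Matrix.smul_mulVec, Pi.smul_apply, smul_eq_mul]
    ring
  refine ⟨s⁻¹ • A, s • B, ?_, ?_, fun x => ?_, fun y => ?_⟩
  · rw [Matrix.transpose_smul, Matrix.smul_mul, Matrix.mul_smul, smul_smul, mul_inv_cancel₀ hs0.ne',
      one_smul, hBA]
  · rw [Matrix.det_smul, Fintype.card_fin, abs_mul, abs_of_pos (by positivity)]
    have h1 : |A.det| ^ 2 = (s ^ 3) ^ 2 := by
      rw [sq_abs, det_sq h, ← hr3, ← hs2]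
      ring
    have h2 : |A.det| = s ^ 3 := by
      exact (pow_left_inj₀ (abs_nonneg _) (by positivity) two_ne_zero).1 h1
    rw [h2, inv_pow]
    exact inv_mul_cancel₀ (by positivity)
  · rw [nsm, nsq_eq h, inv_pow, hs2]
    field_simp
  · have h1 := nsq_dual h hBA y
    rw [nsm, hs2, eq_div_iff (by positivity), ← h1, ← hr3]
    ring

lemma lam_summable {p : Fin 6 → ℝ} (h : PD p) (r : ℝ) :
    (Summable fun k : N0 => I r (Real.pi * (af p (rv k.1) / rad p ^ 2))) ∧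
    Summable fun n : N0 => I r (Real.pi * (qf p (rv n.1) / rad p)) := by
  obtain ⟨A, hA, hd⟩ := h
  obtain ⟨A', B', h1, h2, h3, h4⟩ := normalise hA hd
  have h5 : A'ᵀ * B' = 1 := by
    have := congrArg Matrix.transpose h1
    rwa [Matrix.transpose_mul, Matrix.transpose_transpose, Matrix.transpose_one] at this
  refine ⟨?_, ?_⟩
  · refine (summable_I r h5).congr fun k => ?_
    rw [h4]
  · refine (summable_I r h1).congr fun k => ?_
    rw [h3]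

lemma lam_pos {p : Fin 6 → ℝ} (h : PD p) (n : N0) :
    0 < Real.pi * (qf p (rv n.1) / rad p) ∧ 0 < Real.pi * (af p (rv n.1) / rad p ^ 2) := by
  obtain ⟨A, hA, hd⟩ := h
  obtain ⟨A', B', h1, h2, h3, h4⟩ := normalise hA hd
  have h5 : A'ᵀ * B' = 1 := by
    have := congrArg Matrix.transpose h1
    rwa [Matrix.transpose_mul, Matrix.transpose_transpose, Matrix.transpose_one] at this
  obtain ⟨c, hc, hA'⟩ := nsq_lower h1
  obtain ⟨c', hc', hB'⟩ := nsq_lower h5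
  rw [← h3, ← h4]
  exact ⟨mul_pos Real.pi_pos (hc.trans_le (hA' n)), mul_pos Real.pi_pos (hc'.trans_le (hB' n))⟩

/-- the energy of a lattice in terms of the normalised energy of its form -/
theorem energy_eq {p : Fin 6 → ℝ} {A : Matrix (Fin 3) (Fin 3) ℝ} (h : Aᵀ * A = Qm p)
    (hd : A.det ≠ 0) :
    rad p ^ 2 * ∑' n : N0, (nsq A (rv n.1) ^ 2)⁻¹ = Real.pi ^ 2 * Lam p := by
  have hp : 0 < dt p := dt_pos ⟨A, h, hd⟩
  have hr := rad_pos hp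
  obtain ⟨A', B', h1, h2, h3, h4⟩ := normalise h hd
  have h5 := (ewald h1 h2).2
  simp_rw [h3, h4] at h5
  unfold Lam
  rw [← h5, ← tsum_mul_left]
  refine tsum_congr fun n => ?_
  rw [nsq_eq h, div_pow, inv_div]
  ring

end Pool.Agent.K1H99.FCC
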