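import Pool.Agent.K1H99.FCC.TabL

/-!
# Tools for assembling the certificates
-/

set_option autoImplicit false

namespace Pool.Agent.K1H99.FCC

/-- the face-centred cubic form has small energy -/
def HF : Prop := Lam Fp ≤ 161731 / 100000

/-- the energy inequality holds in the local region -/
def HL : Prop := ∀ p : Fin 6 → ℝ, (∀ i, 0 ≤ p i) → PD p → Loc p → Lam Fp ≤ Lam p

/-- boolean test for `Val` -/
def val (w : W) : Bool := Nat.ble (w.g * w.g * w.g) (detN w.a w.b w.c w.d w.e w.f)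

lemma val_spec {w : W} (h : val w = true) : Val w := Nat.le_of_ble_eq_true h

lemma good_of (hF : HF) (hL : HL) (v0 v1 v2 v3 v4 v5 : W) (code : Nat) (h0 : val v0 = true)
    (h1 : val v1 = true) (h2 : val v2 = true) (h3 : val v3 = true) (h4 : val v4 = true)
    (h5 : val v5 = true) (h : go tab 40 v0 v1 v2 v3 v4 v5 code = 1) :
    Good ![v0, v1, v2, v3, v4, v5] :=
  go_sound tab (leafA_sound tab tab_ok hF) (leafB_sound hF) (leafC_sound hL) 40 _ _ _ _ _ _ code
    (val_spec h0) (val_spec h1) (val_spec h2) (val_spec h3) (val_spec h4) (val_spec h5)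
    (by rw [h]; norm_num)

/-- `m` is the midpoint -/
def isMid (v w m : W) : Bool := Nat.beq (2 * m.a) (v.a + w.a) && Nat.beq (2 * m.b) (v.b + w.b) &&
  Nat.beq (2 * m.c) (v.c + w.c) && Nat.beq (2 * m.d) (v.d + w.d) && Nat.beq (2 * m.e) (v.e + w.e) &&
  Nat.beq (2 * m.f) (v.f + w.f)

lemma isMid_spec {v w m : W} (h : isMid v w m = true) : (2:ℝ) • wv m = wv v + wv w := by
  unfold isMid at h
  simp only [Bool.and_eq_true] at h
  obtain ⟨⟨⟨⟨⟨ha, hb⟩, hc⟩, hd⟩, he⟩, hf⟩ := h
  have ra : (2:ℝ) * m.a = v.a + w.a := by exact_mod_cast Nat.eq_of_beq_eq_true ha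
  have rb : (2:ℝ) * m.b = v.b + w.b := by exact_mod_cast Nat.eq_of_beq_eq_true hb
  have rc : (2:ℝ) * m.c = v.c + w.c := by exact_mod_cast Nat.eq_of_beq_eq_true hc
  have rd : (2:ℝ) * m.d = v.d + w.d := by exact_mod_cast Nat.eq_of_beq_eq_true hd
  have re : (2:ℝ) * m.e = v.e + w.e := by exact_mod_cast Nat.eq_of_beq_eq_true he
  have rf : (2:ℝ) * m.f = v.f + w.f := by exact_mod_cast Nat.eq_of_beq_eq_true hf
  funext i
  fin_cases i
  · exact ra
  · exact rb
  · exact rc
  · exact rd
  · exact re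
  · exact rf

lemma split01 {v0 v1 v2 v3 v4 v5 m : W} (hm : isMid v0 v1 m = true)
    (h1 : Good ![m, v1, v2, v3, v4, v5]) (h2 : Good ![v0, m, v2, v3, v4, v5]) :
    Good ![v0, v1, v2, v3, v4, v5] := by
  refine good_split _ 0 1 (by decide) m (isMid_spec hm) ?_ ?_
  · have e3 : Function.update ![v0, v1, v2, v3, v4, v5] 0 m = ![m, v1, v2, v3, v4, v5] := by
      funext t
      fin_cases t <;> rfl
    rw [e3]
    exact h1
  · have e3 : Function.update ![v0, v1, v2, v3, v4, v5] 1 m = ![v0, m, v2, v3, v4, v5] := by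
      funext t
      fin_cases t <;> rfl
    rw [e3]
    exact h2

lemma split02 {v0 v1 v2 v3 v4 v5 m : W} (hm : isMid v0 v2 m = true)
    (h1 : Good ![m, v1, v2, v3, v4, v5]) (h2 : Good ![v0, v1, m, v3, v4, v5]) :
    Good ![v0, v1, v2, v3, v4, v5] := by
  refine good_split _ 0 2 (by decide) m (isMid_spec hm) ?_ ?_
  · have e3 : Function.update ![v0, v1, v2, v3, v4, v5] 0 m = ![m, v1, v2, v3, v4, v5] := by
      funext t
      fin_cases t <;> rfl
    rw [e3]
    exact h1
  · have e3 : Function.update ![v0, v1, v2, v3, v4, v5] 2 m = ![v0, v1, m, v3, v4, v5] := by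
      funext t
      fin_cases t <;> rfl
    rw [e3]
    exact h2

lemma split03 {v0 v1 v2 v3 v4 v5 m : W} (hm : isMid v0 v3 m = true)
    (h1 : Good ![m, v1, v2, v3, v4, v5]) (h2 : Good ![v0, v1, v2, m, v4, v5]) :
    Good ![v0, v1, v2, v3, v4, v5] := by
  refine good_split _ 0 3 (by decide) m (isMid_spec hm) ?_ ?_
  · have e3 : Function.update ![v0, v1, v2, v3, v4, v5] 0 m = ![m, v1, v2, v3, v4, v5] := by
      funext t
      fin_cases t <;> rfl
    rw [e3]
    exact h1
  · have e3 : Function.update ![v0, v1, v2, v3, v4, v5] 3 m = ![v0, v1, v2, m, v4, v5] := by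
      funext t
      fin_cases t <;> rfl
    rw [e3]
    exact h2

lemma split04 {v0 v1 v2 v3 v4 v5 m : W} (hm : isMid v0 v4 m = true)
    (h1 : Good ![m, v1, v2, v3, v4, v5]) (h2 : Good ![v0, v1, v2, v3, m, v5]) :
    Good ![v0, v1, v2, v3, v4, v5] := by
  refine good_split _ 0 4 (by decide) m (isMid_spec hm) ?_ ?_
  · have e3 : Function.update ![v0, v1, v2, v3, v4, v5] 0 m = ![m, v1, v2, v3, v4, v5] := by
      funext t
      fin_cases t <;> rfl
    rw [e3]
    exact h1
  · have e3 : Function.update ![v0, v1, v2, v3, v4, v5] 4 m = ![v0, v1, v2, v3, m, v5] := by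
      funext t
      fin_cases t <;> rfl
    rw [e3]
    exact h2

lemma split05 {v0 v1 v2 v3 v4 v5 m : W} (hm : isMid v0 v5 m = true)
    (h1 : Good ![m, v1, v2, v3, v4, v5]) (h2 : Good ![v0, v1, v2, v3, v4, m]) :
    Good ![v0, v1, v2, v3, v4, v5] := by
  refine good_split _ 0 5 (by decide) m (isMid_spec hm) ?_ ?_
  · have e3 : Function.update ![v0, v1, v2, v3, v4, v5] 0 m = ![m, v1, v2, v3, v4, v5] := by
      funext t
      fin_cases t <;> rfl
    rw [e3]
    exact h1
  · have e3 : Function.update ![v0, v1, v2, v3, v4, v5] 5 m = ![v0, v1, v2, v3, v4, m] := by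
      funext t
      fin_cases t <;> rfl
    rw [e3]
    exact h2

lemma split12 {v0 v1 v2 v3 v4 v5 m : W} (hm : isMid v1 v2 m = true)
    (h1 : Good ![v0, m, v2, v3, v4, v5]) (h2 : Good ![v0, v1, m, v3, v4, v5]) :
    Good ![v0, v1, v2, v3, v4, v5] := by
  refine good_split _ 1 2 (by decide) m (isMid_spec hm) ?_ ?_
  · have e3 : Function.update ![v0, v1, v2, v3, v4, v5] 1 m = ![v0, m, v2, v3, v4, v5] := by
      funext t
      fin_cases t <;> rfl
    rw [e3]
    exact h1
  · have e3 : Function.update ![v0, v1, v2, v3, v4, v5] 2 m = ![v0, v1, m, v3, v4, v5] := by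
      funext t
      fin_cases t <;> rfl
    rw [e3]
    exact h2

lemma split13 {v0 v1 v2 v3 v4 v5 m : W} (hm : isMid v1 v3 m = true)
    (h1 : Good ![v0, m, v2, v3, v4, v5]) (h2 : Good ![v0, v1, v2, m, v4, v5]) :
    Good ![v0, v1, v2, v3, v4, v5] := by
  refine good_split _ 1 3 (by decide) m (isMid_spec hm) ?_ ?_
  · have e3 : Function.update ![v0, v1, v2, v3, v4, v5] 1 m = ![v0, m, v2, v3, v4, v5] := by
      funext t
      fin_cases t <;> rfl
    rw [e3]
    exact h1
  · have e3 : Function.update ![v0, v1, v2, v3, v4, v5] 3 m = ![v0, v1, v2, m, v4, v5] := by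
      funext t
      fin_cases t <;> rfl
    rw [e3]
    exact h2

lemma split14 {v0 v1 v2 v3 v4 v5 m : W} (hm : isMid v1 v4 m = true)
    (h1 : Good ![v0, m, v2, v3, v4, v5]) (h2 : Good ![v0, v1, v2, v3, m, v5]) :
    Good ![v0, v1, v2, v3, v4, v5] := by
  refine good_split _ 1 4 (by decide) m (isMid_spec hm) ?_ ?_
  · have e3 : Function.update ![v0, v1, v2, v3, v4, v5] 1 m = ![v0, m, v2, v3, v4, v5] := by
      funext t
      fin_cases t <;> rfl
    rw [e3]
    exact h1
  · have e3 : Function.update ![v0, v1, v2, v3, v4, v5] 4 m = ![v0, v1, v2, v3, m, v5] := by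
      funext t
      fin_cases t <;> rfl
    rw [e3]
    exact h2

lemma split15 {v0 v1 v2 v3 v4 v5 m : W} (hm : isMid v1 v5 m = true)
    (h1 : Good ![v0, m, v2, v3, v4, v5]) (h2 : Good ![v0, v1, v2, v3, v4, m]) :
    Good ![v0, v1, v2, v3, v4, v5] := by
  refine good_split _ 1 5 (by decide) m (isMid_spec hm) ?_ ?_
  · have e3 : Function.update ![v0, v1, v2, v3, v4, v5] 1 m = ![v0, m, v2, v3, v4, v5] := by
      funext t
      fin_cases t <;> rfl
    rw [e3]
    exact h1
  · have e3 : Function.update ![v0, v1, v2, v3, v4, v5] 5 m = ![v0, v1, v2, v3, v4, m] := by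
      funext t
      fin_cases t <;> rfl
    rw [e3]
    exact h2

lemma split23 {v0 v1 v2 v3 v4 v5 m : W} (hm : isMid v2 v3 m = true)
    (h1 : Good ![v0, v1, m, v3, v4, v5]) (h2 : Good ![v0, v1, v2, m, v4, v5]) :
    Good ![v0, v1, v2, v3, v4, v5] := by
  refine good_split _ 2 3 (by decide) m (isMid_spec hm) ?_ ?_
  · have e3 : Function.update ![v0, v1, v2, v3, v4, v5] 2 m = ![v0, v1, m, v3, v4, v5] := by
      funext t
      fin_cases t <;> rfl
    rw [e3]
    exact h1
  · have e3 : Function.update ![v0, v1, v2, v3, v4, v5] 3 m = ![v0, v1, v2, m, v4, v5] := by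
      funext t
      fin_cases t <;> rfl
    rw [e3]
    exact h2

lemma split24 {v0 v1 v2 v3 v4 v5 m : W} (hm : isMid v2 v4 m = true)
    (h1 : Good ![v0, v1, m, v3, v4, v5]) (h2 : Good ![v0, v1, v2, v3, m, v5]) :
    Good ![v0, v1, v2, v3, v4, v5] := by
  refine good_split _ 2 4 (by decide) m (isMid_spec hm) ?_ ?_
  · have e3 : Function.update ![v0, v1, v2, v3, v4, v5] 2 m = ![v0, v1, m, v3, v4, v5] := by
      funext t
      fin_cases t <;> rfl
    rw [e3]
    exact h1
  · have e3 : Function.update ![v0, v1, v2, v3, v4, v5] 4 m = ![v0, v1, v2, v3, m, v5] := by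
      funext t
      fin_cases t <;> rfl
    rw [e3]
    exact h2

lemma split25 {v0 v1 v2 v3 v4 v5 m : W} (hm : isMid v2 v5 m = true)
    (h1 : Good ![v0, v1, m, v3, v4, v5]) (h2 : Good ![v0, v1, v2, v3, v4, m]) :
    Good ![v0, v1, v2, v3, v4, v5] := by
  refine good_split _ 2 5 (by decide) m (isMid_spec hm) ?_ ?_
  · have e3 : Function.update ![v0, v1, v2, v3, v4, v5] 2 m = ![v0, v1, m, v3, v4, v5] := by
      funext t
      fin_cases t <;> rfl
    rw [e3]
    exact h1
  · have e3 : Function.update ![v0, v1, v2, v3, v4, v5] 5 m = ![v0, v1, v2, v3, v4, m] := by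
      funext t
      fin_cases t <;> rfl
    rw [e3]
    exact h2

lemma split34 {v0 v1 v2 v3 v4 v5 m : W} (hm : isMid v3 v4 m = true)
    (h1 : Good ![v0, v1, v2, m, v4, v5]) (h2 : Good ![v0, v1, v2, v3, m, v5]) :
    Good ![v0, v1, v2, v3, v4, v5] := by
  refine good_split _ 3 4 (by decide) m (isMid_spec hm) ?_ ?_
  · have e3 : Function.update ![v0, v1, v2, v3, v4, v5] 3 m = ![v0, v1, v2, m, v4, v5] := by
      funext t
      fin_cases t <;> rfl
    rw [e3]
    exact h1
  · have e3 : Function.update ![v0, v1, v2, v3, v4, v5] 4 m = ![v0, v1, v2, v3, m, v5] := by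
      funext t
      fin_cases t <;> rfl
    rw [e3]
    exact h2

lemma split35 {v0 v1 v2 v3 v4 v5 m : W} (hm : isMid v3 v5 m = true)
    (h1 : Good ![v0, v1, v2, m, v4, v5]) (h2 : Good ![v0, v1, v2, v3, v4, m]) :
    Good ![v0, v1, v2, v3, v4, v5] := by
  refine good_split _ 3 5 (by decide) m (isMid_spec hm) ?_ ?_
  · have e3 : Function.update ![v0, v1, v2, v3, v4, v5] 3 m = ![v0, v1, v2, m, v4, v5] := by
      funext t
      fin_cases t <;> rfl
    rw [e3]
    exact h1
  · have e3 : Function.update ![v0, v1, v2, v3, v4, v5] 5 m = ![v0, v1, v2, v3, v4, m] := by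
      funext t
      fin_cases t <;> rfl
    rw [e3]
    exact h2

lemma split45 {v0 v1 v2 v3 v4 v5 m : W} (hm : isMid v4 v5 m = true)
    (h1 : Good ![v0, v1, v2, v3, m, v5]) (h2 : Good ![v0, v1, v2, v3, v4, m]) :
    Good ![v0, v1, v2, v3, v4, v5] := by
  refine good_split _ 4 5 (by decide) m (isMid_spec hm) ?_ ?_
  · have e3 : Function.update ![v0, v1, v2, v3, v4, v5] 4 m = ![v0, v1, v2, v3, m, v5] := by
      funext t
      fin_cases t <;> rfl
    rw [e3]
    exact h1
  · have e3 : Function.update ![v0, v1, v2, v3, v4, v5] 5 m = ![v0, v1, v2, v3, v4, m] := by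
      funext t
      fin_cases t <;> rfl
    rw [e3]
    exact h2

end Pool.Agent.K1H99.FCC
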