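import Pool.Agent.K1H99.FCC.Shell
import Pool.Agent.K1H99.FCC.Gd

/-!
# The energy and the moments of the face-centred cubic lattice
-/

set_option autoImplicit false

open Matrix MeasureTheory Set

namespace Pool.Agent.K1H99.FCC

/-- integral cubic coordinates -/
def JG (n : N0) : ℤ × ℤ × ℤ := (n.1 0 + n.1 1 - n.1 2, n.1 0 - n.1 1, n.1 2)

/-- integral dual cubic coordinates -/
def JH (n : N0) : ℤ × ℤ × ℤ := (n.1 0 + n.1 1, n.1 0 - n.1 1, n.1 0 + n.1 1 + 2 * n.1 2)

lemma JG_inj : Function.Injective JG := by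
  intro a b h
  unfold JG at h
  simp only [Prod.mk.injEq] at h
  obtain ⟨h1, h2, h3⟩ := h
  apply Subtype.ext
  funext i
  fin_cases i
  · show a.1 0 = b.1 0
    omega
  · show a.1 1 = b.1 1
    omega
  · exact h3

lemma JH_inj : Function.Injective JH := by
  intro a b h
  unfold JH at h
  simp only [Prod.mk.injEq] at h
  obtain ⟨h1, h2, h3⟩ := h
  apply Subtype.ext
  funext i
  fin_cases i
  · show a.1 0 = b.1 0
    omega
  · show a.1 1 = b.1 1
    omega
  · show a.1 2 = b.1 2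
    omega

lemma nz_JG (n : N0) : (nz (JG n) : ℝ) = cc n 0 ^ 2 + cc n 1 ^ 2 + cc n 2 ^ 2 := by
  rw [nz_cast]
  unfold JG cc
  simp
  ring

lemma nz_JH (n : N0) : (nz (JH n) : ℝ) = ee n 0 ^ 2 + ee n 1 ^ 2 + ee n 2 ^ 2 := by
  rw [nz_cast]
  unfold JH ee
  simp
  ring

lemma nz_JG_ne (n : N0) : nz (JG n) ≠ 0 := by
  intro h
  have h1 := a0_pos n
  rw [← nz_JG, h] at h1
  simp at h1

lemma nz_JH_ne (n : N0) : nz (JH n) ≠ 0 := by
  intro h
  have h1 := b0_pos n
  rw [← nz_JH, h] at h1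
  simp at h1

lemma JG_mem (n : N0) (h : nz (JG n) < 10) : JG n ∈ SG := by
  unfold SG
  rw [Finset.mem_filter]
  refine ⟨mem_box (by omega), ?_, nz_JG_ne n, h⟩
  unfold JG
  simp only
  omega

lemma JH_mem (n : N0) (h : nz (JH n) < 16) : JH n ∈ SH := by
  unfold SH
  rw [Finset.mem_filter]
  refine ⟨mem_box h, ?_, ?_, nz_JH_ne n, h⟩
  · unfold JH
    simp only
    omega
  · unfold JH
    simp only
    omega

lemma sum_SG (f : ℕ → ℝ) : ∑ c ∈ SG, f (nz c) = 12 * f 2 + 6 * f 4 + 24 * f 6 + 12 * f 8 := by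
  rw [sum_by_value SG 10 (fun c hc => by
    unfold SG at hc
    rw [Finset.mem_filter] at hc
    exact hc.2.2.2)]
  rw [Finset.sum_congr rfl fun m hm => by rw [SG_card m (Finset.mem_range.1 hm)]]
  simp [Finset.sum_range_succ]

lemma sum_SH (f : ℕ → ℝ) : ∑ c ∈ SH, f (nz c) =
    8 * f 3 + 6 * f 4 + 12 * f 8 + 24 * f 11 + 8 * f 12 := by
  rw [sum_by_value SH 16 (fun c hc => by
    unfold SH at hc
    rw [Finset.mem_filter] at hc
    exact hc.2.2.2.2)]
  rw [Finset.sum_congr rfl fun m hm => by rw [SH_card m (Finset.mem_range.1 hm)]]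
  simp [Finset.sum_range_succ]

lemma I_le_zero {r a : ℝ} (hr : r ≤ 0) (ha : 0 < a) : I r a ≤ Real.exp (-a) / a := by
  rw [← I_zero ha]
  unfold I
  refine setIntegral_mono_on (integrable_I r ha) (integrable_I 0 ha) measurableSet_Ioi
    fun t ht => ?_
  have h1 : (1:ℝ) ≤ t := le_of_lt ht
  refine mul_le_mul_of_nonneg_right ?_ (Real.exp_pos _).le
  exact Real.rpow_le_rpow_of_exponent_le h1 hr

/-! the two theta constants -/

lemma th1 : (1 + 2 * (Real.exp (-(1 / 2)) * (1 - Real.exp (-(1 / 2)) ^ 2)⁻¹)) ^ 3 ≤ 249 / 10 := by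
  have h := H1
  have h0 := Real.exp_pos (-(1 / 2))
  have h1 : Real.exp (-(1 / 2)) * (1 - Real.exp (-(1 / 2)) ^ 2)⁻¹ ≤ 9597 / 10000 := by
    have h2 : Real.exp (-(1 / 2)) ^ 2 ≤ (60654 / 100000) ^ 2 := pow_le_pow_left₀ h0.le h 2
    have h3 : 0 < 1 - Real.exp (-(1 / 2)) ^ 2 := by linarith
    rw [← div_eq_mul_inv, div_le_iff₀ h3]
    linarith
  have h4 : 0 ≤ Real.exp (-(1 / 2)) * (1 - Real.exp (-(1 / 2)) ^ 2)⁻¹ := by
    have h2 : Real.exp (-(1 / 2)) ^ 2 ≤ (60654 / 100000) ^ 2 := pow_le_pow_left₀ h0.le h 2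
    have h3 : 0 < 1 - Real.exp (-(1 / 2)) ^ 2 := by linarith
    positivity
  calc _ ≤ (1 + 2 * (9597 / 10000 : ℝ)) ^ 3 := pow_le_pow_left₀ (by linarith) (by linarith) 3
    _ ≤ 249 / 10 := by norm_num

lemma th2 : (1 + 2 * (Real.exp (-(1 / 4)) * (1 - Real.exp (-(1 / 4)) ^ 2)⁻¹)) ^ 3 ≤ 122 := by
  have h := H2
  have h0 := Real.exp_pos (-(1 / 4))
  have h2 : Real.exp (-(1 / 4)) ^ 2 ≤ (77881 / 100000) ^ 2 := pow_le_pow_left₀ h0.le h 2
  have h3 : 0 < 1 - Real.exp (-(1 / 4)) ^ 2 := by linarith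
  have h1 : Real.exp (-(1 / 4)) * (1 - Real.exp (-(1 / 4)) ^ 2)⁻¹ ≤ 19796 / 10000 := by
    rw [← div_eq_mul_inv, div_le_iff₀ h3]
    linarith
  have h4 : 0 ≤ Real.exp (-(1 / 4)) * (1 - Real.exp (-(1 / 4)) ^ 2)⁻¹ := by positivity
  calc _ ≤ (1 + 2 * (19796 / 10000 : ℝ)) ^ 3 := pow_le_pow_left₀ (by linarith) (by linarith) 3
    _ ≤ 122 := by norm_num

/-! tails -/

lemma tailG {m : ℕ} (hm : 10 ≤ m) : Real.exp (-(al * m)) ≤ 4 / 10000000 * Real.exp (-(1 / 2) * m) := by
  have hm' : (10:ℝ) ≤ m := by exact_mod_cast hm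
  have h1 := al_bounds.1
  have e : Real.exp (-(al * m)) = Real.exp (-((al - 1 / 2) * m)) * Real.exp (-(1 / 2) * m) := by
    rw [← Real.exp_add]
    congr 1
    ring
  rw [e]
  refine mul_le_mul_of_nonneg_right ?_ (Real.exp_pos _).le
  refine le_trans (Real.exp_le_exp.2 ?_) T1
  nlinarith

lemma tailH {m : ℕ} (hm : 16 ≤ m) :
    Real.exp (-(be * m)) ≤ 12 / 100000000 * Real.exp (-(1 / 4) * m) := by
  have hm' : (16:ℝ) ≤ m := by exact_mod_cast hm
  have h1 := be_bounds.1
  have e : Real.exp (-(be * m)) = Real.exp (-((be - 1 / 4) * m)) * Real.exp (-(1 / 4) * m) := by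
    rw [← Real.exp_add]
    congr 1
    ring
  rw [e]
  refine mul_le_mul_of_nonneg_right ?_ (Real.exp_pos _).le
  refine le_trans (Real.exp_le_exp.2 ?_) T2
  nlinarith

/-! values -/

lemma i1_le {a x c : ℝ} (hx : 0 < x) (h : x ≤ a) (he : Real.exp (-x) ≤ c) :
    I 1 a ≤ c * (1 / x + 1 / x ^ 2) := by
  refine (I_anti 1 hx h).trans ?_
  rw [I_one hx]
  exact mul_le_mul_of_nonneg_right he (by positivity)

lemma gg_le {a x c : ℝ} (hx : 0 < x) (h : x ≤ a) (he : Real.exp (-x) ≤ c) :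
    Real.exp (-a) + 2 * I 1 a ≤ c * (1 + 2 / x + 2 / x ^ 2) := by
  have h1 := i1_le hx h he
  have h2 : Real.exp (-a) ≤ c := (Real.exp_le_exp.2 (by linarith)).trans he
  have e : c * (1 + 2 / x + 2 / x ^ 2) = c + 2 * (c * (1 / x + 1 / x ^ 2)) := by ring
  rw [e]
  linarith

lemma jj_le {b x c : ℝ} (hx : 1 ≤ x) (h : x ≤ b) (he : Real.exp (-x) ≤ c)
    (hn : 0 ≤ 1 - x * K10 x) : I (-(3 / 2)) b ≤ 2 * c * (1 - x * K10 x) := by
  have hx0 : 0 < x := by linarith
  refine (I_anti _ hx0 h).trans ?_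
  rw [I_mthree hx0]
  have h1 := E_ge hx
  have h2 := mul_le_mul_of_nonneg_left h1 hx0.le
  have h3 := mul_le_mul_of_nonneg_right he hn
  nlinarith

lemma hh_le {b x y c : ℝ} (hx : 0 < x) (h : x ≤ b) (hy : b ≤ y) (he : Real.exp (-x) ≤ c) :
    b * I (-(1 / 2)) b ≤ y * (c * K9 x) := by
  have h1 := (I_anti (-(1 / 2)) hx h).trans (E_le hx)
  have h2 : Real.exp (-x) * K9 x ≤ c * K9 x := mul_le_mul_of_nonneg_right he (by
    unfold K9
    positivity)
  have h3 := I_nonneg (-(1 / 2)) b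
  exact mul_le_mul hy (h1.trans h2) h3 (by linarith)

lemma LamF_direct : ∑' n : N0, I 1 (Real.pi * (qf Fp (rv n.1) / rad Fp)) ≤ 7285592 / 100000000 := by
  have hs := (lam_summable PD_Fp 1).2
  have e : ∀ n : N0, I 1 (Real.pi * (qf Fp (rv n.1) / rad Fp)) =
      (fun m : ℕ => I 1 (al * m)) (nz (JG n)) := by
    intro n
    simp only [a0_eq, nz_JG]
  simp_rw [e] at hs ⊢
  have h := shell JG JG_inj SG 10 JG_mem (fun m : ℕ => I 1 (al * m)) (fun m => I_nonneg _ _) hs
    (K := 22 / 1000000000) (μ := 1 / 2) (by norm_num) (by norm_num) (by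
      intro m hm
      have hm' : (10:ℝ) ≤ m := by exact_mod_cast hm
      have h1 := al_bounds.1
      have h2 : (19790793 / 1000000 : ℝ) ≤ al * m := by nlinarith
      have h3 : 0 < al * m := by linarith
      rw [I_one h3]
      have h4 : 1 / (al * m) ≤ 1 / (19790793 / 1000000) :=
        one_div_le_one_div_of_le (by norm_num) h2
      have h5 : 1 / (al * m) + 1 / (al * m) ^ 2 ≤ 532 / 10000 := by
        have h6 : 1 / (al * m) ≤ 5053 / 100000 := h4.trans (by norm_num)
        have h7 : 0 < 1 / (al * m) := by positivity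
        have h8 : 1 / (al * m) ^ 2 = (1 / (al * m)) ^ 2 := by rw [_root_.one_div_pow]
        rw [h8]
        nlinarith
      calc Real.exp (-(al * m)) * (1 / (al * m) + 1 / (al * m) ^ 2)
          ≤ (4 / 10000000 * Real.exp (-(1 / 2) * m)) * (532 / 10000) :=
            mul_le_mul (tailG hm) h5 (by positivity) (by positivity)
        _ ≤ 22 / 1000000000 * Real.exp (-(1 / 2) * m) := by
            have := Real.exp_pos (-(1 / 2) * (m:ℝ))
            linarith)
  refine h.trans ?_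
  have hsg := sum_SG (fun m : ℕ => I 1 (al * m))
  rw [hsg]
  have h1 := al_bounds.1
  have v2 := i1_le (a := al * ((2:ℕ):ℝ)) (x := 39581586 / 10000000) (by norm_num)
    (by push_cast; linarith) E2
  have v4 := i1_le (a := al * ((4:ℕ):ℝ)) (x := 79163172 / 10000000) (by norm_num)
    (by push_cast; linarith) E4
  have v6 := i1_le (a := al * ((6:ℕ):ℝ)) (x := 118744758 / 10000000) (by norm_num)
    (by push_cast; linarith) E6
  have v8 := i1_le (a := al * ((8:ℕ):ℝ)) (x := 158326344 / 10000000) (by norm_num)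
    (by push_cast; linarith) E8
  have t := th1
  norm_num at v2 v4 v6 v8 ⊢
  norm_num at t
  linarith

lemma LamF_dual : ∑' n : N0, I (-(3 / 2)) (Real.pi * (af Fp (rv n.1) / rad Fp ^ 2)) ≤
    4445000 / 100000000 := by
  have hs := (lam_summable PD_Fp (-(3 / 2))).1
  have e : ∀ n : N0, I (-(3 / 2)) (Real.pi * (af Fp (rv n.1) / rad Fp ^ 2)) =
      (fun m : ℕ => I (-(3 / 2)) (be * m)) (nz (JH n)) := by
    intro n
    simp only [b0_eq, nz_JH]
  simp_rw [e] at hs ⊢
  have h := shell JH JH_inj SH 16 JH_mem (fun m : ℕ => I (-(3 / 2)) (be * m))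
    (fun m => I_nonneg _ _) hs
    (K := 61 / 10000000000) (μ := 1 / 4) (by norm_num) (by norm_num) (by
      intro m hm
      have hm' : (16:ℝ) ≤ m := by exact_mod_cast hm
      have h1 := be_bounds.1
      have h2 : (199 / 10 : ℝ) ≤ be * m := by nlinarith
      have h3 : 0 < be * m := by linarith
      refine (I_le_zero (by norm_num) h3).trans ?_
      have h4 : 1 / (be * m) ≤ 1 / (199 / 10) := one_div_le_one_div_of_le (by norm_num) h2
      rw [div_eq_mul_one_div]
      calc Real.exp (-(be * m)) * (1 / (be * m))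
          ≤ (12 / 100000000 * Real.exp (-(1 / 4) * m)) * (1 / (199 / 10)) :=
            mul_le_mul (tailH hm) h4 (by positivity) (by positivity)
        _ ≤ 61 / 10000000000 * Real.exp (-(1 / 4) * m) := by
            have := Real.exp_pos (-(1 / 4) * (m:ℝ))
            linarith)
  refine h.trans ?_
  have hsg := sum_SH (fun m : ℕ => I (-(3 / 2)) (be * m))
  rw [hsg]
  have h1 := be_bounds.1
  have v3 := jj_le (b := be * ((3:ℕ):ℝ)) (x := 37402254 / 10000000) (by norm_num)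
    (by push_cast; linarith) F3 (by unfold K10; norm_num)
  have v4 := jj_le (b := be * ((4:ℕ):ℝ)) (x := 49869672 / 10000000) (by norm_num)
    (by push_cast; linarith) F4 (by unfold K10; norm_num)
  have v8 := jj_le (b := be * ((8:ℕ):ℝ)) (x := 99739344 / 10000000) (by norm_num)
    (by push_cast; linarith) F8 (by unfold K10; norm_num)
  have v11 := jj_le (b := be * ((11:ℕ):ℝ)) (x := 137141598 / 10000000) (by norm_num)
    (by push_cast; linarith) F11 (by unfold K10; norm_num)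
  have v12 := jj_le (b := be * ((12:ℕ):ℝ)) (x := 149609016 / 10000000) (by norm_num)
    (by push_cast; linarith) F12 (by unfold K10; norm_num)
  have t := th2
  unfold K10 at v3 v4 v8 v11 v12
  norm_num at v3 v4 v8 v11 v12 ⊢
  norm_num at t
  linarith

theorem hF : HF := by
  unfold HF Lam
  have h1 := LamF_direct
  have h2 := LamF_dual
  linarith

lemma GG_le : GG ≤ 378 / 1000 := by
  have hs := GG_summable
  have e : ∀ n : N0, (al * I 2 (al * (cc n 0 ^ 2 + cc n 1 ^ 2 + cc n 2 ^ 2))) *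
      (cc n 0 ^ 2 + cc n 1 ^ 2 + cc n 2 ^ 2) =
      (fun m : ℕ => Real.exp (-(al * m)) + 2 * I 1 (al * m)) (nz (JG n)) := by
    intro n
    rw [GG_term, a0_eq]
    simp only [nz_JG]
  unfold GG
  simp_rw [e] at hs ⊢
  have h := shell JG JG_inj SG 10 JG_mem (fun m : ℕ => Real.exp (-(al * m)) + 2 * I 1 (al * m))
    (fun m => add_nonneg (Real.exp_pos _).le (mul_nonneg (by norm_num) (I_nonneg _ _))) hs
    (K := 45 / 100000000) (μ := 1 / 2) (by norm_num) (by norm_num) (by
      intro m hm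
      have hm' : (10:ℝ) ≤ m := by exact_mod_cast hm
      have h1 := al_bounds.1
      have h2 : (19790793 / 1000000 : ℝ) ≤ al * m := by nlinarith
      have h3 : 0 < al * m := by linarith
      rw [I_one h3]
      have h4 : 1 / (al * m) ≤ 1 / (19790793 / 1000000) :=
        one_div_le_one_div_of_le (by norm_num) h2
      have h5 : 1 / (al * m) + 1 / (al * m) ^ 2 ≤ 532 / 10000 := by
        have h6 : 1 / (al * m) ≤ 5053 / 100000 := h4.trans (by norm_num)
        have h7 : 0 < 1 / (al * m) := by positivity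
        have h8 : 1 / (al * m) ^ 2 = (1 / (al * m)) ^ 2 := by rw [_root_.one_div_pow]
        rw [h8]
        nlinarith
      have h9 : Real.exp (-(al * m)) * (1 / (al * m) + 1 / (al * m) ^ 2) ≤
          Real.exp (-(al * m)) * (532 / 10000) := mul_le_mul_of_nonneg_left h5 (Real.exp_pos _).le
      have h10 := tailG hm
      have h11 := Real.exp_pos (-(1 / 2) * (m:ℝ))
      linarith)
  refine h.trans ?_
  have hsg := sum_SG (fun m : ℕ => Real.exp (-(al * m)) + 2 * I 1 (al * m))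
  rw [hsg]
  have h1 := al_bounds.1
  have v2 := gg_le (a := al * ((2:ℕ):ℝ)) (x := 39581586 / 10000000) (by norm_num)
    (by push_cast; linarith) E2
  have v4 := gg_le (a := al * ((4:ℕ):ℝ)) (x := 79163172 / 10000000) (by norm_num)
    (by push_cast; linarith) E4
  have v6 := gg_le (a := al * ((6:ℕ):ℝ)) (x := 118744758 / 10000000) (by norm_num)
    (by push_cast; linarith) E6
  have v8 := gg_le (a := al * ((8:ℕ):ℝ)) (x := 158326344 / 10000000) (by norm_num)
    (by push_cast; linarith) E8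
  have t := th1
  norm_num at v2 v4 v6 v8 ⊢
  norm_num at t
  linarith

lemma HH_le : HH ≤ 21 / 100 := by
  have hs := HH_summable
  have e : ∀ n : N0, (be * I (-(1 / 2)) (be * (ee n 0 ^ 2 + ee n 1 ^ 2 + ee n 2 ^ 2))) *
      (ee n 0 ^ 2 + ee n 1 ^ 2 + ee n 2 ^ 2) =
      (fun m : ℕ => be * m * I (-(1 / 2)) (be * m)) (nz (JH n)) := by
    intro n
    simp only [nz_JH]
    ring
  unfold HH
  simp_rw [e] at hs ⊢
  have hle : ∀ m : ℕ, 1 ≤ m → be * m * I (-(1 / 2)) (be * m) ≤ Real.exp (-(be * m)) := by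
    intro m hm
    have hm' : (1:ℝ) ≤ m := by exact_mod_cast hm
    have h1 := be_bounds.1
    have h2 : (1 : ℝ) ≤ be * m := by nlinarith
    have h3 := (half_bounds h2).2
    rw [le_div_iff₀ (by linarith)] at h3
    linarith
  have h := shell JH JH_inj SH 16 JH_mem (fun m : ℕ => be * m * I (-(1 / 2)) (be * m))
    (fun m => mul_nonneg (mul_nonneg be_pos.le (Nat.cast_nonneg m)) (I_nonneg _ _)) hs
    (K := 12 / 100000000) (μ := 1 / 4) (by norm_num) (by norm_num) (by
      intro m hm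
      exact (hle m (by omega)).trans (tailH hm))
  refine h.trans ?_
  have hsg := sum_SH (fun m : ℕ => be * m * I (-(1 / 2)) (be * m))
  rw [hsg]
  obtain ⟨h1, h2⟩ := be_bounds
  have v3 := hh_le (b := be * ((3:ℕ):ℝ)) (x := 37402254 / 10000000) (y := 37402257 / 10000000)
    (by norm_num) (by push_cast; linarith) (by push_cast; linarith) F3
  have v4 := hh_le (b := be * ((4:ℕ):ℝ)) (x := 49869672 / 10000000) (y := 49869676 / 10000000)
    (by norm_num) (by push_cast; linarith) (by push_cast; linarith) F4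
  have v8 : be * ((8:ℕ):ℝ) * I (-(1 / 2)) (be * ((8:ℕ):ℝ)) ≤ 4660 / 100000000 :=
    (hle 8 (by norm_num)).trans ((Real.exp_le_exp.2 (by push_cast; linarith)).trans F8)
  have v11 : be * ((11:ℕ):ℝ) * I (-(1 / 2)) (be * ((11:ℕ):ℝ)) ≤ 111 / 100000000 :=
    (hle 11 (by norm_num)).trans ((Real.exp_le_exp.2 (by push_cast; linarith)).trans F11)
  have v12 : be * ((12:ℕ):ℝ) * I (-(1 / 2)) (be * ((12:ℕ):ℝ)) ≤ 32 / 100000000 :=
    (hle 12 (by norm_num)).trans ((Real.exp_le_exp.2 (by push_cast; linarith)).trans F12)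
  have t := th2
  unfold K9 at v3 v4
  norm_num at v3 v4 v8 v11 v12 ⊢
  norm_num at t
  linarith

theorem numer : Numer := ⟨kg2_ge, kg3_le, kh2_ge, kh3_le, GG_le, HH_le⟩

theorem hL : HL := fun p hp hPD hL => local_min numer p hp hPD hL

end Pool.Agent.K1H99.FCC
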