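import Pool.Agent.K1H99.FCC.Sym
import Pool.Agent.K1H99.FCC.Core

/-!
# Local minimality of the face-centred cubic form
-/

set_option autoImplicit false

open Matrix

namespace Pool.Agent.K1H99.FCC

/-- the parameters of the form with matrix `1 + U` in cubic coordinates -/
def pp (d1 d2 d3 w1 w2 w3 : ℝ) : Fin 6 → ℝ :=
  ![1 + d1 + w1 + w2 + w3, 1 + d1 - w1 + w2 - w3, d3 - d1, d2 - d1, 1 + d1 - w1 - w2 + w3,
    1 + d1 + w1 - w2 - w3]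

/-- cubic coordinates -/
def cc (n : N0) : Fin 3 → ℝ := ![(n.1 0 : ℝ) + n.1 1 - n.1 2, (n.1 0 : ℝ) - n.1 1, (n.1 2 : ℝ)]

/-- dual cubic coordinates -/
def ee (n : N0) : Fin 3 → ℝ :=
  ![(n.1 0 : ℝ) + n.1 1, (n.1 0 : ℝ) - n.1 1, (n.1 0 : ℝ) + n.1 1 + 2 * n.1 2]

lemma qf_pp (d1 d2 d3 w1 w2 w3 : ℝ) (n : N0) : qf (pp d1 d2 d3 w1 w2 w3) (rv n.1) =
    (1 + d1) * cc n 0 ^ 2 + (1 + d2) * cc n 1 ^ 2 + (1 + d3) * cc n 2 ^ 2 +
      2 * w3 * cc n 0 * cc n 1 + 2 * w2 * cc n 0 * cc n 2 + 2 * w1 * cc n 1 * cc n 2 := by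
  unfold qf pp rv cc
  simp
  ring

lemma af_pp (d1 d2 d3 w1 w2 w3 : ℝ) (n : N0) : af (pp d1 d2 d3 w1 w2 w3) (rv n.1) =
    ((1 + d2) * (1 + d3) - w1 ^ 2) * ee n 0 ^ 2 + ((1 + d1) * (1 + d3) - w2 ^ 2) * ee n 1 ^ 2 +
      ((1 + d1) * (1 + d2) - w3 ^ 2) * ee n 2 ^ 2 +
      2 * (w1 * w2 - w3 * (1 + d3)) * ee n 0 * ee n 1 +
      2 * (w1 * w3 - w2 * (1 + d2)) * ee n 0 * ee n 2 +
      2 * (w2 * w3 - w1 * (1 + d1)) * ee n 1 * ee n 2 := by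
  unfold af pp rv ee
  simp
  ring

lemma dt_pp (d1 d2 d3 w1 w2 w3 : ℝ) : dt (pp d1 d2 d3 w1 w2 w3) =
    4 * ((1 + d1) * (1 + d2) * (1 + d3) + 2 * (w1 * w2 * w3) - (1 + d1) * w1 ^ 2 -
      (1 + d2) * w2 ^ 2 - (1 + d3) * w3 ^ 2) := by
  unfold dt pp
  simp
  ring

lemma Fp_eq : Fp = pp 0 0 0 0 0 0 := by
  unfold Fp pp
  funext i
  fin_cases i <;> simp

lemma qf_Fp (n : N0) : qf Fp (rv n.1) = cc n 0 ^ 2 + cc n 1 ^ 2 + cc n 2 ^ 2 := by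
  rw [Fp_eq, qf_pp]
  ring

lemma af_Fp (n : N0) : af Fp (rv n.1) = ee n 0 ^ 2 + ee n 1 ^ 2 + ee n 2 ^ 2 := by
  rw [Fp_eq, af_pp]
  ring

lemma PD_Fp : PD Fp := ⟨Cm, Cm_gram, by rw [Cm_det]; norm_num⟩

lemma rad_Fp : rad Fp ^ 3 = 4 := by
  rw [rad_cube (dt_pos PD_Fp).le, Fp_eq, dt_pp]
  norm_num

lemma rad_Fp_pos : 0 < rad Fp := rad_pos (dt_pos PD_Fp)

/-- direct constant -/
noncomputable def al : ℝ := Real.pi / rad Fp

/-- dual constant -/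
noncomputable def be : ℝ := Real.pi / rad Fp ^ 2

lemma al_pos : 0 < al := div_pos Real.pi_pos rad_Fp_pos

lemma be_pos : 0 < be := div_pos Real.pi_pos (pow_pos rad_Fp_pos 2)

/-- the direct moment -/
noncomputable def GG : ℝ := ∑' n : N0, (al * I 2 (al * (cc n 0 ^ 2 + cc n 1 ^ 2 + cc n 2 ^ 2))) *
  (cc n 0 ^ 2 + cc n 1 ^ 2 + cc n 2 ^ 2)

/-- the dual moment -/
noncomputable def HH : ℝ :=
  ∑' n : N0, (be * I (-(1 / 2)) (be * (ee n 0 ^ 2 + ee n 1 ^ 2 + ee n 2 ^ 2))) *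
    (ee n 0 ^ 2 + ee n 1 ^ 2 + ee n 2 ^ 2)

/-! symmetries -/

/-- direct symmetries -/
def M1 : Matrix (Fin 3) (Fin 3) ℤ := !![1, 0, -1; 0, 1, -1; 0, 0, -1]
/-- direct symmetries -/
def M2 : Matrix (Fin 3) (Fin 3) ℤ := !![0, -1, 1; -1, 0, 1; 0, 0, 1]
/-- direct symmetries -/
def M3 : Matrix (Fin 3) (Fin 3) ℤ := !![1, 0, 0; 1, 0, -1; 1, 1, -1]
/-- dual symmetries -/
def M4 : Matrix (Fin 3) (Fin 3) ℤ := !![1, 0, 0; 0, 1, 0; -1, -1, -1]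
/-- dual symmetries -/
def M5 : Matrix (Fin 3) (Fin 3) ℤ := !![0, -1, 0; -1, 0, 0; 1, 1, 1]
/-- dual symmetries -/
def M6 : Matrix (Fin 3) (Fin 3) ℤ := !![1, 0, 1; 0, -1, -1; 0, 1, 0]

lemma M1u : IsUnit M1.det := by decide
lemma M2u : IsUnit M2.det := by decide
lemma M3u : IsUnit M3.det := by decide
lemma M4u : IsUnit M4.det := by decide
lemma M5u : IsUnit M5.det := by decide
lemma M6u : IsUnit M6.det := by decide

lemma uact_val (U : Matrix (Fin 3) (Fin 3) ℤ) (hU : IsUnit U.det) (n : N0) :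
    (uact U hU n).1 = U.mulVec n.1 := rfl

lemma cc1 (n : N0) : cc (uact M1 M1u n) = ![cc n 0, cc n 1, -cc n 2] := by
  unfold cc
  rw [uact_val]
  unfold M1
  funext i
  fin_cases i <;> simp [Matrix.mulVec, dotProduct, Fin.sum_univ_three] <;> ring

lemma cc2 (n : N0) : cc (uact M2 M2u n) = ![-cc n 0, cc n 1, cc n 2] := by
  unfold cc
  rw [uact_val]
  unfold M2
  funext i
  fin_cases i <;> simp [Matrix.mulVec, dotProduct, Fin.sum_univ_three] <;> ring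

lemma cc3 (n : N0) : cc (uact M3 M3u n) = ![cc n 1, cc n 2, cc n 0] := by
  unfold cc
  rw [uact_val]
  unfold M3
  funext i
  fin_cases i <;> simp [Matrix.mulVec, dotProduct, Fin.sum_univ_three] <;> ring

lemma ee1 (n : N0) : ee (uact M4 M4u n) = ![ee n 0, ee n 1, -ee n 2] := by
  unfold ee
  rw [uact_val]
  unfold M4
  funext i
  fin_cases i <;> simp [Matrix.mulVec, dotProduct, Fin.sum_univ_three] <;> ring

lemma ee2 (n : N0) : ee (uact M5 M5u n) = ![-ee n 0, ee n 1, ee n 2] := by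
  unfold ee
  rw [uact_val]
  unfold M5
  funext i
  fin_cases i <;> simp [Matrix.mulVec, dotProduct, Fin.sum_univ_three] <;> ring

lemma ee3 (n : N0) : ee (uact M6 M6u n) = ![ee n 1, ee n 2, ee n 0] := by
  unfold ee
  rw [uact_val]
  unfold M6
  funext i
  fin_cases i <;> simp [Matrix.mulVec, dotProduct, Fin.sum_univ_three] <;> ring

end Pool.Agent.K1H99.FCC
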