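import Pool.Agent.K1H99.FCC.Snd

/-!
# Soundness of the leaves of type C
-/

set_option autoImplicit false

open Matrix

namespace Pool.Agent.K1H99.FCC

/-- the linear functionals describing the local region -/
def Lc : Fin 11 → Fin 6 → ℝ :=
  ![![210, 210, -3720, -3720, 210, 210],
    ![210, 210, 4280, -7720, 210, 210],
    ![210, 210, -3720, 8280, 210, 210],
    ![210, 210, -7720, 4280, 210, 210],
    ![210, 210, 8280, -3720, 210, 210],
    ![-2865, 3135, 180, 180, -2865, 3135],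
    ![3135, -2865, 180, 180, 3135, -2865],
    ![-2865, -2865, 180, 180, 3135, 3135],
    ![3135, 3135, 180, 180, -2865, -2865],
    ![-2865, 3135, 180, 180, 3135, -2865],
    ![3135, -2865, 180, 180, -2865, 3135]]

/-- the local region -/
def Loc (p : Fin 6 → ℝ) : Prop := ∀ r, 0 ≤ ∑ k, Lc r k * p k

lemma loc_sum (l : Fin 6 → ℝ) (v : Fin 6 → Fin 6 → ℝ) (hl : ∀ i, 0 ≤ l i) (hv : ∀ i, Loc (v i)) :
    Loc (∑ i, l i • v i) := by
  intro r
  have e : ∑ k, Lc r k * (∑ i, l i • v i) k = ∑ i, l i * ∑ k, Lc r k * v i k := by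
    simp only [Finset.sum_apply, Pi.smul_apply, smul_eq_mul, Finset.mul_sum]
    rw [Finset.sum_comm]
    refine Finset.sum_congr rfl fun i _ => Finset.sum_congr rfl fun k _ => ?_
    ring
  rw [e]
  exact Finset.sum_nonneg fun i _ => mul_nonneg (hl i) (hv i r)

lemma inC_spec {v : W} (h : inC v = true) : Loc (wv v) := by
  unfold inC at h
  simp only [frc_eq, Bool.and_eq_true, Nat.add_eq, Nat.mul_eq] at h
  obtain ⟨⟨⟨⟨⟨⟨⟨⟨⟨⟨h0, h1⟩, h2⟩, h3⟩, h4⟩, h5⟩, h6⟩, h7⟩, h8⟩, h9⟩, h10⟩ := h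
  have h0 := Nat.le_of_ble_eq_true h0
  have h1 := Nat.le_of_ble_eq_true h1
  have h2 := Nat.le_of_ble_eq_true h2
  have h3 := Nat.le_of_ble_eq_true h3
  have h4 := Nat.le_of_ble_eq_true h4
  have h5 := Nat.le_of_ble_eq_true h5
  have h6 := Nat.le_of_ble_eq_true h6
  have h7 := Nat.le_of_ble_eq_true h7
  have h8 := Nat.le_of_ble_eq_true h8
  have h9 := Nat.le_of_ble_eq_true h9
  have h10 := Nat.le_of_ble_eq_true h10
  rify at h0 h1 h2 h3 h4 h5 h6 h7 h8 h9 h10
  intro r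
  fin_cases r <;> simp only [Lc, wv, Fin.sum_univ_six, Fin.isValue, Fin.zero_eta, Fin.mk_one,
    Fin.reduceFinMk, Matrix.cons_val_zero, Matrix.cons_val_one, Matrix.cons_val] <;> linarith

lemma leafC_sound (hloc : ∀ p : Fin 6 → ℝ, (∀ i, 0 ≤ p i) → PD p → Loc p → Lam Fp ≤ Lam p)
    (v0 v1 v2 v3 v4 v5 : W) (h : leafC v0 v1 v2 v3 v4 v5 = true) :
    Good ![v0, v1, v2, v3, v4, v5] := by
  unfold leafC at h
  simp only [Bool.and_eq_true] at h
  obtain ⟨⟨⟨⟨⟨h0, h1⟩, h2⟩, h3⟩, h4⟩, h5⟩ := h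
  intro l hl hp
  refine hloc _ (fun k => ?_) hp ?_
  · simp only [Finset.sum_apply, Pi.smul_apply, smul_eq_mul]
    refine Finset.sum_nonneg fun i _ => mul_nonneg (hl i) ?_
    unfold wv
    fin_cases k <;> exact Nat.cast_nonneg _
  · refine loc_sum l _ hl fun i => ?_
    fin_cases i
    · exact inC_spec h0
    · exact inC_spec h1
    · exact inC_spec h2
    · exact inC_spec h3
    · exact inC_spec h4
    · exact inC_spec h5

end Pool.Agent.K1H99.FCC
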