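import Pool.Agent.K1H99.FCC.LocL
import Pool.Agent.K1H99.FCC.SndC

/-!
# Local minimality of the face-centred cubic form: the analytic part
-/

set_option autoImplicit false

open Matrix

namespace Pool.Agent.K1H99.FCC

lemma a0_eq (n : N0) : Real.pi * (qf Fp (rv n.1) / rad Fp) =
    al * (cc n 0 ^ 2 + cc n 1 ^ 2 + cc n 2 ^ 2) := by
  rw [qf_Fp]
  unfold al
  ring

lemma b0_eq (n : N0) : Real.pi * (af Fp (rv n.1) / rad Fp ^ 2) =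
    be * (ee n 0 ^ 2 + ee n 1 ^ 2 + ee n 2 ^ 2) := by
  rw [af_Fp]
  unfold be
  ring

lemma a0_pos (n : N0) : 0 < al * (cc n 0 ^ 2 + cc n 1 ^ 2 + cc n 2 ^ 2) := by
  rw [← a0_eq]
  exact (lam_pos PD_Fp n).1

lemma b0_pos (n : N0) : 0 < be * (ee n 0 ^ 2 + ee n 1 ^ 2 + ee n 2 ^ 2) := by
  rw [← b0_eq]
  exact (lam_pos PD_Fp n).2

lemma GG_term (n : N0) : (al * I 2 (al * (cc n 0 ^ 2 + cc n 1 ^ 2 + cc n 2 ^ 2))) *
    (cc n 0 ^ 2 + cc n 1 ^ 2 + cc n 2 ^ 2) =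
    Real.exp (-(Real.pi * (qf Fp (rv n.1) / rad Fp))) +
      2 * I 1 (Real.pi * (qf Fp (rv n.1) / rad Fp)) := by
  have h := I_rec 2 (a0_pos n)
  rw [show (2:ℝ) - 1 = 1 by norm_num] at h
  rw [a0_eq]
  linarith

lemma HH_term (n : N0) : (be * I (-(1 / 2)) (be * (ee n 0 ^ 2 + ee n 1 ^ 2 + ee n 2 ^ 2))) *
    (ee n 0 ^ 2 + ee n 1 ^ 2 + ee n 2 ^ 2) =
    Real.exp (-(Real.pi * (af Fp (rv n.1) / rad Fp ^ 2))) -
      1 / 2 * I (-(3 / 2)) (Real.pi * (af Fp (rv n.1) / rad Fp ^ 2)) := by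
  have h := I_rec (-(1 / 2)) (b0_pos n)
  rw [show -(1 / 2 : ℝ) - 1 = -(3 / 2) by norm_num] at h
  rw [b0_eq]
  linarith

lemma GG_summable : Summable fun n : N0 =>
    (al * I 2 (al * (cc n 0 ^ 2 + cc n 1 ^ 2 + cc n 2 ^ 2))) *
    (cc n 0 ^ 2 + cc n 1 ^ 2 + cc n 2 ^ 2) := by
  simp_rw [GG_term]
  exact (exp_summable PD_Fp).2.add ((lam_summable PD_Fp 1).2.mul_left 2)

lemma HH_summable : Summable fun n : N0 =>
    (be * I (-(1 / 2)) (be * (ee n 0 ^ 2 + ee n 1 ^ 2 + ee n 2 ^ 2))) *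
    (ee n 0 ^ 2 + ee n 1 ^ 2 + ee n 2 ^ 2) := by
  simp_rw [HH_term]
  exact (exp_summable PD_Fp).1.sub ((lam_summable PD_Fp (-(3 / 2))).1.mul_left (1 / 2))

/-- the vectors of the first direct shell -/
def X12 : Fin 6 → Fin 3 → ℤ :=
  ![![1, 0, 1], ![0, -1, -1], ![1, 1, 1], ![0, 0, -1], ![1, 0, 0], ![0, 1, 0]]

/-- the vectors of the second dual shell -/
def Y6 : Fin 3 → Fin 3 → ℤ := ![![1, 1, -1], ![1, -1, 0], ![0, 0, 1]]

lemma X12_0 : ∀ s, sgv X12 s ≠ 0 := by decide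
lemma X12_i : Function.Injective (sgv X12) := by decide
lemma Y6_0 : ∀ s, sgv Y6 s ≠ 0 := by decide
lemma Y6_i : Function.Injective (sgv Y6) := by decide

/-- `g2` -/
noncomputable def kg2 : ℝ := (2 * al) ^ 2 / 2 * I 3 (2 * al)
/-- `g3` -/
noncomputable def kg3 : ℝ := (2 * al) ^ 3 / 6 * I 4 (2 * al)
/-- `h2` -/
noncomputable def kh2 : ℝ := (4 * be) ^ 2 / 2 * I (1 / 2) (4 * be)
/-- `h3` -/
noncomputable def kh3 : ℝ := (4 * be) ^ 3 / 6 * I (3 / 2) (4 * be)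

/-- the direct sum near the face-centred cubic form -/
lemma direct_ge {d1 d2 d3 w1 w2 w3 : ℝ} (hd : d1 + d2 + d3 = 0)
    (hp : PD (pp d1 d2 d3 w1 w2 w3)) {ρ : ℝ} (hρ : ρ = rad Fp / rad (pp d1 d2 d3 w1 w2 w3)) :
    ∑' n : N0, I 1 (Real.pi * (qf Fp (rv n.1) / rad Fp)) - (ρ - 1) * GG +
      2 * ((kg2 * (ρ * (1 - d1 / 2 + w1) - 1) ^ 2 - kg3 * (ρ * (1 - d1 / 2 + w1) - 1) ^ 3) +
      (kg2 * (ρ * (1 - d1 / 2 - w1) - 1) ^ 2 - kg3 * (ρ * (1 - d1 / 2 - w1) - 1) ^ 3) +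
      (kg2 * (ρ * (1 - d2 / 2 + w2) - 1) ^ 2 - kg3 * (ρ * (1 - d2 / 2 + w2) - 1) ^ 3) +
      (kg2 * (ρ * (1 - d2 / 2 - w2) - 1) ^ 2 - kg3 * (ρ * (1 - d2 / 2 - w2) - 1) ^ 3) +
      (kg2 * (ρ * (1 - d3 / 2 + w3) - 1) ^ 2 - kg3 * (ρ * (1 - d3 / 2 + w3) - 1) ^ 3) +
      (kg2 * (ρ * (1 - d3 / 2 - w3) - 1) ^ 2 - kg3 * (ρ * (1 - d3 / 2 - w3) - 1) ^ 3)) ≤
    ∑' n : N0, I 1 (Real.pi * (qf (pp d1 d2 d3 w1 w2 w3) (rv n.1) /
      rad (pp d1 d2 d3 w1 w2 w3))) := by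
  set p := pp d1 d2 d3 w1 w2 w3 with hpdef
  have hr : 0 < rad p := rad_pos (dt_pos hp)
  have hF := rad_Fp_pos
  have hρ0 : 0 < ρ := by rw [hρ]; positivity
  have ha : ∀ n : N0, Real.pi * (qf p (rv n.1) / rad p) = al * ρ * qf p (rv n.1) := by
    intro n
    rw [hρ]
    unfold al
    field_simp
  have hsym := sym_sum (c := cc) (φ := fun x => al * I 2 (al * x)) (uact M1 M1u) (uact M2 M2u)
    (uact M3 M3u) cc1 cc2 cc3 (fun n => mul_nonneg al_pos.le (I_nonneg _ _)) GG_summable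
    (ρ * (1 + d1) - 1) (ρ * (1 + d2) - 1) (ρ * (1 + d3) - 1) (ρ * w3) (ρ * w2) (ρ * w1)
  have hterm : ∀ n : N0, (al * I 2 (al * (cc n 0 ^ 2 + cc n 1 ^ 2 + cc n 2 ^ 2))) *
      ((ρ * (1 + d1) - 1) * cc n 0 ^ 2 + (ρ * (1 + d2) - 1) * cc n 1 ^ 2 +
      (ρ * (1 + d3) - 1) * cc n 2 ^ 2 + 2 * (ρ * w3) * cc n 0 * cc n 1 +
      2 * (ρ * w2) * cc n 0 * cc n 2 + 2 * (ρ * w1) * cc n 1 * cc n 2) =
      (Real.pi * (qf p (rv n.1) / rad p) - Real.pi * (qf Fp (rv n.1) / rad Fp)) *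
        I 2 (Real.pi * (qf Fp (rv n.1) / rad Fp)) := by
    intro n
    rw [ha, a0_eq, hpdef, qf_pp]
    ring
  simp only [hterm] at hsym
  obtain ⟨hs3, he3⟩ := hsym
  have he3' : ∑' n : N0, (Real.pi * (qf p (rv n.1) / rad p) -
      Real.pi * (qf Fp (rv n.1) / rad Fp)) * I 2 (Real.pi * (qf Fp (rv n.1) / rad Fp)) =
      (ρ - 1) * GG := by
    rw [he3]
    have : (ρ * (1 + d1) - 1 + (ρ * (1 + d2) - 1) + (ρ * (1 + d3) - 1)) / 3 = ρ - 1 := by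
      have : d3 = -(d1 + d2) := by linarith
      rw [this]
      ring
    rw [this]
    rfl
  have hs1 := (lam_summable hp 1).2
  have hs2 := (lam_summable PD_Fp 1).2
  set f : (Fin 3 → ℤ) → ℝ := fun m => I 1 (Real.pi * (qf p (rv m) / rad p)) -
    I 1 (Real.pi * (qf Fp (rv m) / rad Fp)) + (Real.pi * (qf p (rv m) / rad p) -
      Real.pi * (qf Fp (rv m) / rad Fp)) * I 2 (Real.pi * (qf Fp (rv m) / rad Fp)) with hf
  have hfs : HasSum (fun n : N0 => f n.1) (∑' n : N0, I 1 (Real.pi * (qf p (rv n.1) / rad p)) -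
      ∑' n : N0, I 1 (Real.pi * (qf Fp (rv n.1) / rad Fp)) + (ρ - 1) * GG) := by
    rw [← he3']
    exact (hs1.hasSum.sub hs2.hasSum).add hs3.hasSum
  have hf0 : ∀ n : N0, 0 ≤ f n.1 := by
    intro n
    have h := I_tangent 1 (lam_pos hp n).1 (lam_pos PD_Fp n).1
    rw [show (1:ℝ) + 1 = 2 by norm_num] at h
    simp only [hf]
    linarith
  have hfe : ∀ m, f (-m) = f m := by
    intro m
    simp only [hf, qf_neg]
  have h2 := two_sum_le X12 X12_0 X12_i f hfe hf0 hfs.summable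
  rw [hfs.tsum_eq] at h2
  -- the terms
  have key : ∀ (i : Fin 6) (q : ℝ), al * ρ * qf p (rv (X12 i)) = 2 * al * (ρ * q) →
      Real.pi * (qf Fp (rv (X12 i)) / rad Fp) = 2 * al →
      kg2 * (ρ * q - 1) ^ 2 - kg3 * (ρ * q - 1) ^ 3 ≤ f (X12 i) := by
    intro i q hq h0
    have hn : X12 i ≠ 0 := X12_0 (i, true)
    have hpos := (lam_pos hp ⟨X12 i, hn⟩).1
    have hpos0 := (lam_pos PD_Fp ⟨X12 i, hn⟩).1
    have ha' := ha ⟨X12 i, hn⟩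
    simp only at hpos hpos0 ha'
    have h := I_taylor3 1 hpos hpos0
    rw [show (1:ℝ) + 1 = 2 by norm_num, show (1:ℝ) + 2 = 3 by norm_num,
      show (1:ℝ) + 3 = 4 by norm_num] at h
    simp only [hf]
    rw [h0, ha', hq] at h ⊢
    unfold kg2 kg3
    have e1 : (2 * al * (ρ * q) - 2 * al) ^ 2 / 2 * I 3 (2 * al) =
        (2 * al) ^ 2 / 2 * I 3 (2 * al) * (ρ * q - 1) ^ 2 := by ring
    have e2 : (2 * al * (ρ * q) - 2 * al) ^ 3 / 6 * I 4 (2 * al) =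
        (2 * al) ^ 3 / 6 * I 4 (2 * al) * (ρ * q - 1) ^ 3 := by ring
    rw [e1, e2] at h
    linarith
  have hd3 : d3 = -(d1 + d2) := by linarith
  have z : ∀ i : Fin 6, ∀ c0 c1 c2 : ℝ, (∀ q : Fin 6 → ℝ, qf q (rv (X12 i)) =
      q 0 * rv (X12 i) 0 ^ 2 + q 1 * rv (X12 i) 1 ^ 2 + q 2 * rv (X12 i) 2 ^ 2 +
      q 3 * (rv (X12 i) 0 - rv (X12 i) 1) ^ 2 + q 4 * (rv (X12 i) 0 - rv (X12 i) 2) ^ 2 +
      q 5 * (rv (X12 i) 1 - rv (X12 i) 2) ^ 2) := fun _ _ _ _ _ => rfl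
  have hal : ∀ x : ℝ, x = 2 → Real.pi * (x / rad Fp) = 2 * al := by
    intro x hx
    rw [hx]
    unfold al
    ring
  have k0 := key 0 (1 - d1 / 2 + w1) (by rw [z 0 0 0 0, hpdef]; unfold pp rv X12; rw [hd3]; simp; ring)
    (hal _ (by rw [z 0 0 0 0]; unfold Fp rv X12; simp; try norm_num))
  have k1 := key 1 (1 - d1 / 2 - w1) (by rw [z 1 0 0 0, hpdef]; unfold pp rv X12; rw [hd3]; simp; ring)
    (hal _ (by rw [z 1 0 0 0]; unfold Fp rv X12; simp; try norm_num))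
  have k2 := key 2 (1 - d2 / 2 + w2) (by rw [z 2 0 0 0, hpdef]; unfold pp rv X12; rw [hd3]; simp; ring)
    (hal _ (by rw [z 2 0 0 0]; unfold Fp rv X12; simp; try norm_num))
  have k3 := key 3 (1 - d2 / 2 - w2) (by rw [z 3 0 0 0, hpdef]; unfold pp rv X12; rw [hd3]; simp; ring)
    (hal _ (by rw [z 3 0 0 0]; unfold Fp rv X12; simp; try norm_num))
  have k4 := key 4 (1 - d3 / 2 + w3) (by rw [z 4 0 0 0, hpdef]; unfold pp rv X12; rw [hd3]; simp; ring)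
    (hal _ (by rw [z 4 0 0 0]; unfold Fp rv X12; simp; try norm_num))
  have k5 := key 5 (1 - d3 / 2 - w3) (by rw [z 5 0 0 0, hpdef]; unfold pp rv X12; rw [hd3]; simp; ring)
    (hal _ (by rw [z 5 0 0 0]; unfold Fp rv X12; simp; try norm_num))
  rw [Fin.sum_univ_six] at h2
  linarith

/-- the dual sum near the face-centred cubic form -/
lemma dual_ge {d1 d2 d3 w1 w2 w3 : ℝ} (hd : d1 + d2 + d3 = 0)
    (hp : PD (pp d1 d2 d3 w1 w2 w3)) {ρ : ℝ} (hρ : ρ = rad Fp / rad (pp d1 d2 d3 w1 w2 w3)) :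
    ∑' n : N0, I (-(3 / 2)) (Real.pi * (af Fp (rv n.1) / rad Fp ^ 2)) -
      (ρ ^ 2 * (1 - ((d1 ^ 2 + d2 ^ 2 + d3 ^ 2) / 2 + (w1 ^ 2 + w2 ^ 2 + w3 ^ 2)) / 3) - 1) * HH +
      2 * ((kh2 * (ρ ^ 2 * (1 - d1 + d2 * d3 - w1 ^ 2) - 1) ^ 2 -
        kh3 * (ρ ^ 2 * (1 - d1 + d2 * d3 - w1 ^ 2) - 1) ^ 3) +
      (kh2 * (ρ ^ 2 * (1 - d2 + d1 * d3 - w2 ^ 2) - 1) ^ 2 -
        kh3 * (ρ ^ 2 * (1 - d2 + d1 * d3 - w2 ^ 2) - 1) ^ 3) +
      (kh2 * (ρ ^ 2 * (1 - d3 + d1 * d2 - w3 ^ 2) - 1) ^ 2 -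
        kh3 * (ρ ^ 2 * (1 - d3 + d1 * d2 - w3 ^ 2) - 1) ^ 3)) ≤
    ∑' n : N0, I (-(3 / 2)) (Real.pi * (af (pp d1 d2 d3 w1 w2 w3) (rv n.1) /
      rad (pp d1 d2 d3 w1 w2 w3) ^ 2)) := by
  set p := pp d1 d2 d3 w1 w2 w3 with hpdef
  have hr : 0 < rad p := rad_pos (dt_pos hp)
  have hF := rad_Fp_pos
  have hρ0 : 0 < ρ := by rw [hρ]; positivity
  have ha : ∀ n : N0, Real.pi * (af p (rv n.1) / rad p ^ 2) = be * ρ ^ 2 * af p (rv n.1) := by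
    intro n
    rw [hρ]
    unfold be
    field_simp
  have hsym := sym_sum (c := ee) (φ := fun x => be * I (-(1 / 2)) (be * x)) (uact M4 M4u)
    (uact M5 M5u) (uact M6 M6u) ee1 ee2 ee3 (fun n => mul_nonneg be_pos.le (I_nonneg _ _))
    HH_summable
    (ρ ^ 2 * ((1 + d2) * (1 + d3) - w1 ^ 2) - 1) (ρ ^ 2 * ((1 + d1) * (1 + d3) - w2 ^ 2) - 1)
    (ρ ^ 2 * ((1 + d1) * (1 + d2) - w3 ^ 2) - 1) (ρ ^ 2 * (w1 * w2 - w3 * (1 + d3)))
    (ρ ^ 2 * (w1 * w3 - w2 * (1 + d2))) (ρ ^ 2 * (w2 * w3 - w1 * (1 + d1)))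
  have hterm : ∀ n : N0, (be * I (-(1 / 2)) (be * (ee n 0 ^ 2 + ee n 1 ^ 2 + ee n 2 ^ 2))) *
      ((ρ ^ 2 * ((1 + d2) * (1 + d3) - w1 ^ 2) - 1) * ee n 0 ^ 2 +
      (ρ ^ 2 * ((1 + d1) * (1 + d3) - w2 ^ 2) - 1) * ee n 1 ^ 2 +
      (ρ ^ 2 * ((1 + d1) * (1 + d2) - w3 ^ 2) - 1) * ee n 2 ^ 2 +
      2 * (ρ ^ 2 * (w1 * w2 - w3 * (1 + d3))) * ee n 0 * ee n 1 +
      2 * (ρ ^ 2 * (w1 * w3 - w2 * (1 + d2))) * ee n 0 * ee n 2 +
      2 * (ρ ^ 2 * (w2 * w3 - w1 * (1 + d1))) * ee n 1 * ee n 2) =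
      (Real.pi * (af p (rv n.1) / rad p ^ 2) - Real.pi * (af Fp (rv n.1) / rad Fp ^ 2)) *
        I (-(1 / 2)) (Real.pi * (af Fp (rv n.1) / rad Fp ^ 2)) := by
    intro n
    rw [ha, b0_eq, hpdef, af_pp]
    ring
  simp only [hterm] at hsym
  obtain ⟨hs3, he3⟩ := hsym
  have he3' : ∑' n : N0, (Real.pi * (af p (rv n.1) / rad p ^ 2) -
      Real.pi * (af Fp (rv n.1) / rad Fp ^ 2)) *
        I (-(1 / 2)) (Real.pi * (af Fp (rv n.1) / rad Fp ^ 2)) =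
      (ρ ^ 2 * (1 - ((d1 ^ 2 + d2 ^ 2 + d3 ^ 2) / 2 + (w1 ^ 2 + w2 ^ 2 + w3 ^ 2)) / 3) - 1) *
        HH := by
    rw [he3]
    have : (ρ ^ 2 * ((1 + d2) * (1 + d3) - w1 ^ 2) - 1 + (ρ ^ 2 * ((1 + d1) * (1 + d3) - w2 ^ 2) -
        1) + (ρ ^ 2 * ((1 + d1) * (1 + d2) - w3 ^ 2) - 1)) / 3 =
        ρ ^ 2 * (1 - ((d1 ^ 2 + d2 ^ 2 + d3 ^ 2) / 2 + (w1 ^ 2 + w2 ^ 2 + w3 ^ 2)) / 3) - 1 := by
      have : d3 = -(d1 + d2) := by linarith
      rw [this]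
      ring
    rw [this]
    rfl
  have hs1 := (lam_summable hp (-(3 / 2))).1
  have hs2 := (lam_summable PD_Fp (-(3 / 2))).1
  set f : (Fin 3 → ℤ) → ℝ := fun m => I (-(3 / 2)) (Real.pi * (af p (rv m) / rad p ^ 2)) -
    I (-(3 / 2)) (Real.pi * (af Fp (rv m) / rad Fp ^ 2)) + (Real.pi * (af p (rv m) / rad p ^ 2) -
      Real.pi * (af Fp (rv m) / rad Fp ^ 2)) *
        I (-(1 / 2)) (Real.pi * (af Fp (rv m) / rad Fp ^ 2)) with hf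
  have hfs : HasSum (fun n : N0 => f n.1)
      (∑' n : N0, I (-(3 / 2)) (Real.pi * (af p (rv n.1) / rad p ^ 2)) -
      ∑' n : N0, I (-(3 / 2)) (Real.pi * (af Fp (rv n.1) / rad Fp ^ 2)) +
      (ρ ^ 2 * (1 - ((d1 ^ 2 + d2 ^ 2 + d3 ^ 2) / 2 + (w1 ^ 2 + w2 ^ 2 + w3 ^ 2)) / 3) - 1) *
        HH) := by
    rw [← he3']
    exact (hs1.hasSum.sub hs2.hasSum).add hs3.hasSum
  have hf0 : ∀ n : N0, 0 ≤ f n.1 := by
    intro n
    have h := I_tangent (-(3 / 2)) (lam_pos hp n).2 (lam_pos PD_Fp n).2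
    rw [show -(3 / 2 : ℝ) + 1 = -(1 / 2) by norm_num] at h
    simp only [hf]
    linarith
  have hfe : ∀ m, f (-m) = f m := by
    intro m
    simp only [hf, af_neg]
  have h2 := two_sum_le Y6 Y6_0 Y6_i f hfe hf0 hfs.summable
  rw [hfs.tsum_eq] at h2
  -- the terms
  have key : ∀ (i : Fin 3) (q : ℝ), be * ρ ^ 2 * af p (rv (Y6 i)) = 4 * be * (ρ ^ 2 * q) →
      Real.pi * (af Fp (rv (Y6 i)) / rad Fp ^ 2) = 4 * be →
      kh2 * (ρ ^ 2 * q - 1) ^ 2 - kh3 * (ρ ^ 2 * q - 1) ^ 3 ≤ f (Y6 i) := by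
    intro i q hq h0
    have hn : Y6 i ≠ 0 := Y6_0 (i, true)
    have hpos := (lam_pos hp ⟨Y6 i, hn⟩).2
    have hpos0 := (lam_pos PD_Fp ⟨Y6 i, hn⟩).2
    have ha' := ha ⟨Y6 i, hn⟩
    simp only at hpos hpos0 ha'
    have h := I_taylor3 (-(3 / 2)) hpos hpos0
    rw [show -(3 / 2 : ℝ) + 1 = -(1 / 2) by norm_num, show -(3 / 2 : ℝ) + 2 = 1 / 2 by norm_num,
      show -(3 / 2 : ℝ) + 3 = 3 / 2 by norm_num] at h
    simp only [hf]
    rw [h0, ha', hq] at h ⊢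
    unfold kh2 kh3
    have e1 : (4 * be * (ρ ^ 2 * q) - 4 * be) ^ 2 / 2 * I (1 / 2) (4 * be) =
        (4 * be) ^ 2 / 2 * I (1 / 2) (4 * be) * (ρ ^ 2 * q - 1) ^ 2 := by ring
    have e2 : (4 * be * (ρ ^ 2 * q) - 4 * be) ^ 3 / 6 * I (3 / 2) (4 * be) =
        (4 * be) ^ 3 / 6 * I (3 / 2) (4 * be) * (ρ ^ 2 * q - 1) ^ 3 := by ring
    rw [e1, e2] at h
    linarith
  have hd3 : d3 = -(d1 + d2) := by linarith
  have hal : ∀ x : ℝ, x = 4 → Real.pi * (x / rad Fp ^ 2) = 4 * be := by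
    intro x hx
    rw [hx]
    unfold be
    ring
  have k0 := key 0 (1 - d1 + d2 * d3 - w1 ^ 2)
    (by rw [hpdef]; unfold af pp rv Y6; rw [hd3]; simp; ring)
    (hal _ (by unfold af Fp rv Y6; simp; try norm_num))
  have k1 := key 1 (1 - d2 + d1 * d3 - w2 ^ 2)
    (by rw [hpdef]; unfold af pp rv Y6; rw [hd3]; simp; ring)
    (hal _ (by unfold af Fp rv Y6; simp; try norm_num))
  have k2 := key 2 (1 - d3 + d1 * d2 - w3 ^ 2)
    (by rw [hpdef]; unfold af pp rv Y6; rw [hd3]; simp; ring)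
    (hal _ (by unfold af Fp rv Y6; simp; try norm_num))
  rw [Fin.sum_univ_three] at h2
  linarith

/-- numerical facts about the face-centred cubic lattice -/
structure Numer : Prop where
  g2 : 844 / 10000 ≤ kg2
  g3 : kg3 ≤ 163 / 1000
  h2 : 185 / 10000 ≤ kh2
  h3 : kh3 ≤ 38 / 1000
  G : GG ≤ 378 / 1000
  H : HH ≤ 21 / 100

lemma kg3_nonneg : 0 ≤ kg3 := by
  unfold kg3
  have := al_pos
  have := I_nonneg 4 (2 * al)
  positivity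

lemma kh3_nonneg : 0 ≤ kh3 := by
  unfold kh3
  have := be_pos
  have := I_nonneg (3 / 2) (4 * be)
  positivity

lemma GG_nonneg : 0 ≤ GG := tsum_nonneg fun n => mul_nonneg (mul_nonneg al_pos.le (I_nonneg _ _))
  (by positivity)

lemma HH_nonneg : 0 ≤ HH := tsum_nonneg fun n => mul_nonneg (mul_nonneg be_pos.le (I_nonneg _ _))
  (by positivity)

/-- local minimality in cubic coordinates -/
theorem local_pp (N : Numer) {d1 d2 d3 w1 w2 w3 : ℝ} (hd : d1 + d2 + d3 = 0)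
    (b1 : |d1| ≤ 7 / 100) (b2 : |d2| ≤ 7 / 100) (b3 : |d3| ≤ 7 / 100)
    (c1 : |w1| ≤ 45 / 1000) (c2 : |w2| ≤ 45 / 1000) (c3 : |w3| ≤ 45 / 1000)
    (hp : PD (pp d1 d2 d3 w1 w2 w3)) : Lam Fp ≤ Lam (pp d1 d2 d3 w1 w2 w3) := by
  have hr : 0 < rad (pp d1 d2 d3 w1 w2 w3) := rad_pos (dt_pos hp)
  have hr3 := rad_cube (dt_pos hp).le
  rw [dt_pp] at hr3
  obtain ⟨ρ, hρ⟩ : ∃ ρ, ρ = rad Fp / rad (pp d1 d2 d3 w1 w2 w3) := ⟨_, rfl⟩
  have hρ0 : 0 < ρ := by rw [hρ]; exact div_pos rad_Fp_pos hr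
  have hΔ : ρ ^ 3 * ((1 + d1) * (1 + d2) * (1 + d3) + 2 * (w1 * w2 * w3) - (1 + d1) * w1 ^ 2 -
      (1 + d2) * w2 ^ 2 - (1 + d3) * w3 ^ 2) = 1 := by
    rw [hρ, div_pow, rad_Fp, hr3]
    have : (4:ℝ) * ((1 + d1) * (1 + d2) * (1 + d3) + 2 * (w1 * w2 * w3) - (1 + d1) * w1 ^ 2 -
      (1 + d2) * w2 ^ 2 - (1 + d3) * w3 ^ 2) ≠ 0 := by
      rw [← hr3]
      positivity
    rw [div_mul_eq_mul_div, div_eq_one_iff_eq this]
  have h1 := direct_ge hd hp hρ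
  have h2 := dual_ge hd hp hρ
  have h3 := core hd b1 b2 b3 c1 c2 c3 hρ0 hΔ N.g2 N.g3 kg3_nonneg N.h2 N.h3 kh3_nonneg N.G
    GG_nonneg N.H HH_nonneg
  unfold Lam
  linarith

lemma Lam_smul {c : ℝ} (hc : 0 < c) {p : Fin 6 → ℝ} (hp : ∀ i, 0 ≤ p i) :
    Lam (c • p) = Lam p := by
  have h1 : ∀ x, qf (c • p) x = c * qf p x := by
    intro x
    unfold qf
    simp only [Pi.smul_apply, smul_eq_mul]
    ring
  have h2 : ∀ x, af (c • p) x = c ^ 2 * af p x := by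
    intro x
    unfold af
    simp only [Pi.smul_apply, smul_eq_mul]
    ring
  unfold Lam
  simp only [h1, h2, rad_smul hc.le hp]
  have e1 : ∀ x, c * x / (c * rad p) = x / rad p := fun x => mul_div_mul_left _ _ hc.ne'
  have e2 : ∀ x, c ^ 2 * x / (c * rad p) ^ 2 = x / rad p ^ 2 := fun x => by
    rw [mul_pow, mul_div_mul_left _ _ (by positivity)]
  simp only [e1, e2]

/-- **Local minimality** -/
theorem local_min (N : Numer) (p : Fin 6 → ℝ) (hp : ∀ i, 0 ≤ p i) (hPD : PD p) (hL : Loc p) :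
    Lam Fp ≤ Lam p := by
  have hdt := dt_pos hPD
  set s : ℝ := 3 * (p 0 + p 1 + p 4 + p 5) + 4 * (p 2 + p 3) with hs
  have hs0 : 0 < s := by
    by_contra hc
    push Not at hc
    have := hp 0; have := hp 1; have := hp 2; have := hp 3; have := hp 4; have := hp 5
    have z0 : p 0 = 0 := by linarith
    have z1 : p 1 = 0 := by linarith
    have z2 : p 2 = 0 := by linarith
    have z3 : p 3 = 0 := by linarith
    have z4 : p 4 = 0 := by linarith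
    have z5 : p 5 = 0 := by linarith
    unfold dt at hdt
    rw [z0, z1, z2, z3, z4, z5] at hdt
    norm_num at hdt
  set d1 : ℝ := -4 * (p 2 + p 3) / s with hd1
  set d2 : ℝ := (8 * p 3 - 4 * p 2) / s with hd2
  set d3 : ℝ := (8 * p 2 - 4 * p 3) / s with hd3
  set w1 : ℝ := 3 * (p 0 - p 1 - p 4 + p 5) / s with hw1
  set w2 : ℝ := 3 * (p 0 + p 1 - p 4 - p 5) / s with hw2
  set w3 : ℝ := 3 * (p 0 - p 1 + p 4 - p 5) / s with hw3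
  have hd : d1 + d2 + d3 = 0 := by
    rw [hd1, hd2, hd3]
    field_simp
    ring
  have e : p = (s / 12) • pp d1 d2 d3 w1 w2 w3 := by
    have hne : s ≠ 0 := hs0.ne'
    funext i
    unfold pp
    fin_cases i <;> simp [hd1, hd2, hd3, hw1, hw2, hw3] <;> field_simp <;> (try rw [hs]) <;> ring
  have l := fun r => hL r
  have l0 := l 0
  have l1 := l 1
  have l2 := l 2
  have l3 := l 3
  have l4 := l 4
  have l5 := l 5
  have l6 := l 6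
  have l7 := l 7
  have l8 := l 8
  have l9 := l 9
  have l10 := l 10
  simp only [Lc, Fin.sum_univ_six, Matrix.cons_val] at l0 l1 l2 l3 l4 l5 l6 l7 l8 l9 l10
  have b1 : |d1| ≤ 7 / 100 := by
    rw [hd1, abs_div, abs_of_pos hs0, div_le_iff₀ hs0, abs_le]
    have := hp 2; have := hp 3
    constructor <;> linarith
  have b2 : |d2| ≤ 7 / 100 := by
    rw [hd2, abs_div, abs_of_pos hs0, div_le_iff₀ hs0, abs_le]
    constructor <;> linarith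
  have b3 : |d3| ≤ 7 / 100 := by
    rw [hd3, abs_div, abs_of_pos hs0, div_le_iff₀ hs0, abs_le]
    constructor <;> linarith
  have c1 : |w1| ≤ 45 / 1000 := by
    rw [hw1, abs_div, abs_of_pos hs0, div_le_iff₀ hs0, abs_le]
    constructor <;> linarith
  have c2 : |w2| ≤ 45 / 1000 := by
    rw [hw2, abs_div, abs_of_pos hs0, div_le_iff₀ hs0, abs_le]
    constructor <;> linarith
  have c3 : |w3| ≤ 45 / 1000 := by
    rw [hw3, abs_div, abs_of_pos hs0, div_le_iff₀ hs0, abs_le]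
    constructor <;> linarith
  have hq : ∀ i, 0 ≤ pp d1 d2 d3 w1 w2 w3 i := by
    intro i
    have h := hp i
    rw [e] at h
    simp only [Pi.smul_apply, smul_eq_mul] at h
    exact nonneg_of_mul_nonneg_right h (by positivity)
  have hqd : 0 < dt (pp d1 d2 d3 w1 w2 w3) := by
    rw [e, dt_smul] at hdt
    exact (mul_pos_iff_of_pos_left (by positivity)).1 hdt
  have h := local_pp N hd b1 b2 b3 c1 c2 c3 (pd_of_dt hq hqd)
  rw [e, Lam_smul (by positivity) hq]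
  exact h

end Pool.Agent.K1H99.FCC
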