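import Pool.Agent.K1H99.FCC.Roots
import Pool.Agent.K1H99.FCC.Fsum

/-!
# The face-centred cubic lattice minimises the energy
-/

set_option autoImplicit false

namespace Pool.Agent.K1H99.FCC

/-- **The face-centred cubic lattice minimises `∑ |q|⁻⁴`** among lattices of the same covolume. -/
theorem fcc_min (V : ℝ) (hV : 0 < V) (A : Matrix (Fin 3) (Fin 3) ℝ) (hA : |A.det| = V) :
      (∑' x : {x : Fin 3 → ℤ // x ≠ 0 ∧ Even (x 0 + x 1 + x 2)},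
          ((∑ i : Fin 3, ((V / 2) ^ ((1 : ℝ) / 3) * ((x.1 i : ℤ) : ℝ)) ^ 2) ^ 2)⁻¹)
        ≤ ∑' n : {n : Fin 3 → ℤ // n ≠ 0},
          ((∑ i : Fin 3, ((A.mulVec (fun j => ((n.1 j : ℤ) : ℝ))) i) ^ 2) ^ 2)⁻¹ := by
  refine main_of ?_ V hV A hA
  intro s1 d1 s2 d2 s3 d3 h12 h23 p1 h1 p2 h2 h3 h3' hp
  exact cone_all hF hL h12 h23 h3 h3' p1 h1 p2 h2 hp

end Pool.Agent.K1H99.FCC
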