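import Pool.Agent.K1H99.FCC.LocM

/-!
# Numerical constants of the face-centred cubic lattice
-/

set_option autoImplicit false

open Matrix

namespace Pool.Agent.K1H99.FCC

lemma rF_bounds : 15874010519 / 10000000000 ≤ rad Fp ∧ rad Fp ≤ 15874010520 / 10000000000 := by
  have h := rad_Fp
  have h0 := rad_Fp_pos
  constructor
  · by_contra hc
    push Not at hc
    have := pow_lt_pow_left₀ hc h0.le three_ne_zero
    rw [h] at this
    norm_num at this
  · by_contra hc
    push Not at hc
    have := pow_lt_pow_left₀ hc (by norm_num) three_ne_zero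
    rw [h] at this
    norm_num at this

lemma al_bounds : 19790793 / 10000000 ≤ al ∧ al ≤ 19790794 / 10000000 := by
  obtain ⟨h1, h2⟩ := rF_bounds
  have h0 := rad_Fp_pos
  have p1 := Real.pi_gt_d20
  have p2 := Real.pi_lt_d20
  unfold al
  constructor
  · rw [le_div_iff₀ h0]
    linarith
  · rw [div_le_iff₀ h0]
    linarith

lemma be_bounds : 12467418 / 10000000 ≤ be ∧ be ≤ 12467419 / 10000000 := by
  obtain ⟨h1, h2⟩ := rF_bounds
  have h0 := rad_Fp_pos
  have p1 := Real.pi_gt_d20
  have p2 := Real.pi_lt_d20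
  unfold be
  constructor
  · rw [le_div_iff₀ (by positivity)]
    have : rad Fp ^ 2 ≤ (15874010520 / 10000000000) ^ 2 := pow_le_pow_left₀ h0.le h2 2
    linarith
  · rw [div_le_iff₀ (by positivity)]
    have : (15874010519 / 10000000000) ^ 2 ≤ rad Fp ^ 2 := pow_le_pow_left₀ (by norm_num) h1 2
    linarith


/-- upper bound for `exp (-x)` -/
lemma expneg_le {x c s : ℝ} (hx : 0 ≤ x) (hs0 : 0 < s) (hs : s ≤ 1 + x / 16 + (x / 16) ^ 2 / 2 +
    (x / 16) ^ 3 / 6 + (x / 16) ^ 4 / 24 + (x / 16) ^ 5 / 120 + (x / 16) ^ 6 / 720 +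
    (x / 16) ^ 7 / 5040 + (x / 16) ^ 8 / 40320 + (x / 16) ^ 9 / 362880)
    (h : 1 ≤ c * s ^ 16) : Real.exp (-x) ≤ c := by
  have h1 := Real.sum_le_exp_of_nonneg (x := x / 16) (by positivity) 10
  simp only [Finset.sum_range_succ, Finset.sum_range_zero, Nat.factorial] at h1
  norm_num at h1
  have h2 : s ^ 16 ≤ Real.exp x := by
    have : Real.exp x = Real.exp (x / 16) ^ 16 := by
      rw [← Real.exp_nat_mul]
      congr 1
      push_cast
      ring
    rw [this]
    refine pow_le_pow_left₀ hs0.le ?_ 16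
    exact hs.trans h1
  have hc : 0 < c := by
    by_contra hc
    push Not at hc
    have : c * s ^ 16 ≤ 0 := mul_nonpos_of_nonpos_of_nonneg hc (by positivity)
    linarith
  rw [Real.exp_neg, inv_le_iff_one_le_mul₀ (Real.exp_pos x)]
  exact h.trans (mul_le_mul_of_nonneg_left h2 hc.le)

/-- lower bound for `exp (-x)` -/
lemma le_expneg {x c s : ℝ} (hx : 0 ≤ x) (hx' : x ≤ 16) (hc : 0 ≤ c)
    (hs : 1 + x / 16 + (x / 16) ^ 2 / 2 +
    (x / 16) ^ 3 / 6 + (x / 16) ^ 4 / 24 + (x / 16) ^ 5 / 120 + (x / 16) ^ 6 / 720 +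
    (x / 16) ^ 7 / 5040 + (x / 16) ^ 8 * 9 / (40320 * 8) ≤ s)
    (h : c * s ^ 16 ≤ 1) : c ≤ Real.exp (-x) := by
  have h1 := Real.exp_bound' (x := x / 16) (by positivity) (by linarith) (n := 8) (by norm_num)
  simp only [Finset.sum_range_succ, Finset.sum_range_zero, Nat.factorial] at h1
  norm_num at h1
  have h2 : Real.exp x ≤ s ^ 16 := by
    have : Real.exp x = Real.exp (x / 16) ^ 16 := by
      rw [← Real.exp_nat_mul]
      congr 1
      push_cast
      ring
    rw [this]
    refine pow_le_pow_left₀ (Real.exp_pos _).le (h1.trans (le_trans (le_of_eq ?_) hs)) 16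
    norm_num
  rw [Real.exp_neg, ← one_div, le_div_iff₀ (Real.exp_pos x)]
  exact (mul_le_mul_of_nonneg_left h2 hc).trans h

lemma E2 : Real.exp (-(39581586 / 10000000)) ≤ 1909826 / 100000000 :=
  expneg_le (s := 1280671964567 / 1000000000000) (by norm_num) (by norm_num) (by norm_num) (by norm_num)

lemma E4 : Real.exp (-(79163172 / 10000000)) ≤ 36475 / 100000000 :=
  expneg_le (s := 1640120680575 / 1000000000000) (by norm_num) (by norm_num) (by norm_num) (by norm_num)

lemma E6 : Real.exp (-(118744758 / 10000000)) ≤ 697 / 100000000 :=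
  expneg_le (s := 2100456559470 / 1000000000000) (by norm_num) (by norm_num) (by norm_num) (by norm_num)

lemma E8 : Real.exp (-(158326344 / 10000000)) ≤ 14 / 100000000 :=
  expneg_le (s := 2689995575308 / 1000000000000) (by norm_num) (by norm_num) (by norm_num) (by norm_num)

lemma F3 : Real.exp (-(37402254 / 10000000)) ≤ 2374875 / 100000000 :=
  expneg_le (s := 1263346417837 / 1000000000000) (by norm_num) (by norm_num) (by norm_num) (by norm_num)

lemma F4 : Real.exp (-(49869672 / 10000000)) ≤ 682634 / 100000000 :=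
  expneg_le (s := 1365725036646 / 1000000000000) (by norm_num) (by norm_num) (by norm_num) (by norm_num)

lemma F8 : Real.exp (-(99739344 / 10000000)) ≤ 4660 / 100000000 :=
  expneg_le (s := 1865204873140 / 1000000000000) (by norm_num) (by norm_num) (by norm_num) (by norm_num)

lemma F11 : Real.exp (-(137141598 / 10000000)) ≤ 111 / 100000000 :=
  expneg_le (s := 2356399834354 / 1000000000000) (by norm_num) (by norm_num) (by norm_num) (by norm_num)

lemma F12 : Real.exp (-(149609016 / 10000000)) ≤ 32 / 100000000 :=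
  expneg_le (s := 2547356843484 / 1000000000000) (by norm_num) (by norm_num) (by norm_num) (by norm_num)

lemma E2l : 19098 / 1000000 ≤ Real.exp (-(39581588 / 10000000)) :=
  le_expneg (s := 1280671980610 / 1000000000000) (by norm_num) (by norm_num) (by norm_num) (by norm_num) (by norm_num)

lemma F4l : 68263 / 10000000 ≤ Real.exp (-(49869676 / 10000000)) :=
  le_expneg (s := 1365725070989 / 1000000000000) (by norm_num) (by norm_num) (by norm_num) (by norm_num) (by norm_num)

lemma T1 : Real.exp (-(14790793 / 1000000)) ≤ 4 / 10000000 :=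
  expneg_le (s := 2520417363223 / 1000000000000) (by norm_num) (by norm_num) (by norm_num) (by norm_num)

lemma T2 : Real.exp (-(1594786 / 100000)) ≤ 12 / 100000000 :=
  expneg_le (s := 2709437752151 / 1000000000000) (by norm_num) (by norm_num) (by norm_num) (by norm_num)

lemma H1 : Real.exp (-(1 / 2)) ≤ 60654 / 100000 :=
  expneg_le (s := 1031743407499 / 1000000000000) (by norm_num) (by norm_num) (by norm_num) (by norm_num)

lemma H2 : Real.exp (-(1 / 4)) ≤ 77881 / 100000 :=
  expneg_le (s := 1015747708586 / 1000000000000) (by norm_num) (by norm_num) (by norm_num) (by norm_num)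

end Pool.Agent.K1H99.FCC
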