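import Pool.Agent.K1H99.FCC.Num1

/-!
# Bounds for the second and third order constants
-/

set_option autoImplicit false

open Matrix

namespace Pool.Agent.K1H99.FCC

lemma kg2_ge : 844 / 10000 ≤ kg2 := by
  obtain ⟨h1, h2⟩ := al_bounds
  unfold kg2
  set a := 2 * al with ha
  have a1 : 39581586 / 10000000 ≤ a := by linarith
  have a2 : a ≤ 39581588 / 10000000 := by linarith
  have a0 : 0 < a := by linarith
  rw [I_three a0]
  have e : a ^ 2 / 2 * (Real.exp (-a) * (1 / a + 3 / a ^ 2 + 6 / a ^ 3 + 6 / a ^ 4)) =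
      Real.exp (-a) * ((a + 3 + 6 * (1 / a) + 6 * (1 / a) ^ 2) / 2) := by
    field_simp
  rw [e]
  have h3 : 19098 / 1000000 ≤ Real.exp (-a) := E2l.trans (Real.exp_le_exp.2 (by linarith))
  have h4 : 1 / (39581588 / 10000000) ≤ 1 / a := one_div_le_one_div_of_le a0 a2
  have h5 : (8843 / 1000 : ℝ) / 2 ≤ (a + 3 + 6 * (1 / a) + 6 * (1 / a) ^ 2) / 2 := by
    have h6 : (252642 / 1000000 : ℝ) ≤ 1 / a := le_trans (by norm_num) h4
    nlinarith
  calc (844 / 10000 : ℝ) ≤ 19098 / 1000000 * ((8843 / 1000) / 2) := by norm_num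
    _ ≤ _ := mul_le_mul h3 h5 (by norm_num) (Real.exp_pos _).le

lemma kg3_le : kg3 ≤ 163 / 1000 := by
  obtain ⟨h1, h2⟩ := al_bounds
  unfold kg3
  set a := 2 * al with ha
  have a1 : 39581586 / 10000000 ≤ a := by linarith
  have a2 : a ≤ 39581588 / 10000000 := by linarith
  have a0 : 0 < a := by linarith
  rw [I_four a0]
  have e : a ^ 3 / 6 * (Real.exp (-a) * (1 / a + 4 / a ^ 2 + 12 / a ^ 3 + 24 / a ^ 4 +
      24 / a ^ 5)) = Real.exp (-a) * ((a ^ 2 + 4 * a + 12 + 24 * (1 / a) + 24 * (1 / a) ^ 2) / 6) := by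
    field_simp
  rw [e]
  have h3 : Real.exp (-a) ≤ 1909826 / 100000000 := (Real.exp_le_exp.2 (by linarith)).trans E2
  have h4 : 1 / a ≤ 1 / (39581586 / 10000000) := one_div_le_one_div_of_le (by norm_num) a1
  have h7 : 0 < 1 / a := by positivity
  have h5 : (a ^ 2 + 4 * a + 12 + 24 * (1 / a) + 24 * (1 / a) ^ 2) / 6 ≤ 5111 / 600 := by
    have h6 : 1 / a ≤ 252644 / 1000000 := h4.trans (by norm_num)
    nlinarith
  calc Real.exp (-a) * ((a ^ 2 + 4 * a + 12 + 24 * (1 / a) + 24 * (1 / a) ^ 2) / 6)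
      ≤ 1909826 / 100000000 * (5111 / 600) := mul_le_mul h3 h5 (by positivity) (by norm_num)
    _ ≤ 163 / 1000 := by norm_num

lemma half_bounds {b : ℝ} (hb : 1 ≤ b) : Real.exp (-b) * K10 b ≤ I (-(1 / 2)) b ∧
    I (-(1 / 2)) b ≤ Real.exp (-b) / b := by
  refine ⟨E_ge hb, ?_⟩
  have hb0 : 0 < b := by linarith
  have h := I_rec (-(1 / 2)) hb0
  have h2 := I_nonneg (-(1 / 2) - 1) b
  rw [le_div_iff₀ hb0]
  linarith

lemma kh2_ge : 185 / 10000 ≤ kh2 := by
  obtain ⟨h1, h2⟩ := be_bounds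
  unfold kh2
  set b := 4 * be with hbd
  have b1 : 49869672 / 10000000 ≤ b := by linarith
  have b2 : b ≤ 49869676 / 10000000 := by linarith
  have b0 : 0 < b := by linarith
  obtain ⟨h3, -⟩ := half_bounds (b := b) (by linarith)
  rw [I_half b0]
  have h4 : 68263 / 10000000 ≤ Real.exp (-b) := F4l.trans (Real.exp_le_exp.2 (by linarith))
  have h5 : (182 / 1000 : ℝ) ≤ K10 b := by
    unfold K10
    rw [le_div_iff₀ (by positivity)]
    have c2 : b ^ 2 ≤ (49869676 / 10000000) ^ 2 := pow_le_pow_left₀ b0.le b2 2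
    have c3 : b ^ 3 ≤ (49869676 / 10000000) ^ 3 := pow_le_pow_left₀ b0.le b2 3
    have c4 : b ^ 4 ≤ (49869676 / 10000000) ^ 4 := pow_le_pow_left₀ b0.le b2 4
    have c5 : b ^ 5 ≤ (49869676 / 10000000) ^ 5 := pow_le_pow_left₀ b0.le b2 5
    have d2 : (49869672 / 10000000) ^ 2 ≤ b ^ 2 := pow_le_pow_left₀ (by norm_num) b1 2
    have d3 : (49869672 / 10000000) ^ 3 ≤ b ^ 3 := pow_le_pow_left₀ (by norm_num) b1 3
    have d4 : (49869672 / 10000000) ^ 4 ≤ b ^ 4 := pow_le_pow_left₀ (by norm_num) b1 4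
    linarith
  have h6 : Real.exp (-b) * (182 / 1000) ≤ I (-(1 / 2)) b :=
    (mul_le_mul_of_nonneg_left h5 (Real.exp_pos _).le).trans h3
  have e : b ^ 2 / 2 * ((Real.exp (-b) + 1 / 2 * I (-(1 / 2)) b) / b) =
      b / 2 * (Real.exp (-b) + 1 / 2 * I (-(1 / 2)) b) := by
    field_simp
  rw [e]
  have h7 : (68263 / 10000000 : ℝ) * (1 + 91 / 1000) ≤
      Real.exp (-b) + 1 / 2 * I (-(1 / 2)) b := by linarith
  calc (185 / 10000 : ℝ) ≤ (49869672 / 10000000) / 2 * (68263 / 10000000 * (1 + 91 / 1000)) := by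
        norm_num
    _ ≤ _ := mul_le_mul (by linarith) h7 (by norm_num) (by positivity)

lemma kh3_le : kh3 ≤ 38 / 1000 := by
  obtain ⟨h1, h2⟩ := be_bounds
  unfold kh3
  set b := 4 * be with hbd
  have b1 : 49869672 / 10000000 ≤ b := by linarith
  have b2 : b ≤ 49869676 / 10000000 := by linarith
  have b0 : 0 < b := by linarith
  obtain ⟨-, h3⟩ := half_bounds (b := b) (by linarith)
  rw [I_threehalf b0, I_half b0]
  have h4 : Real.exp (-b) ≤ 682634 / 100000000 := (Real.exp_le_exp.2 (by linarith)).trans F4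
  have e : b ^ 3 / 6 * ((Real.exp (-b) + 3 / 2 * ((Real.exp (-b) + 1 / 2 * I (-(1 / 2)) b) / b)) /
      b) = b / 6 * (b * Real.exp (-b) + 3 / 2 * Real.exp (-b) + 3 / 4 * I (-(1 / 2)) b) := by
    field_simp
    ring
  rw [e]
  have h5 : 1 / b ≤ 1 / (49869672 / 10000000) := one_div_le_one_div_of_le (by norm_num) b1
  have h6 : I (-(1 / 2)) b ≤ 682634 / 100000000 * (1 / (49869672 / 10000000)) := by
    refine h3.trans ?_
    rw [div_eq_mul_one_div]
    exact mul_le_mul h4 h5 (by positivity) (by norm_num)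
  have h8 : b * Real.exp (-b) ≤ 49869676 / 10000000 * (682634 / 100000000) :=
    mul_le_mul b2 h4 (Real.exp_pos _).le (by norm_num)
  have h7 : b * Real.exp (-b) + 3 / 2 * Real.exp (-b) + 3 / 4 * I (-(1 / 2)) b ≤ 4534 / 100000 := by
    refine (add_le_add (add_le_add h8 (mul_le_mul_of_nonneg_left h4 (by norm_num)))
      (mul_le_mul_of_nonneg_left h6 (by norm_num))).trans ?_
    norm_num
  have h9 := I_nonneg (-(1 / 2)) b
  calc b / 6 * (b * Real.exp (-b) + 3 / 2 * Real.exp (-b) + 3 / 4 * I (-(1 / 2)) b)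
      ≤ (49869676 / 10000000) / 6 * (4534 / 100000) :=
        mul_le_mul (by linarith) h7 (by positivity) (by norm_num)
    _ ≤ 38 / 1000 := by norm_num

end Pool.Agent.K1H99.FCC
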