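import Pool.Agent.Y773.Pois

/-!
# The functional equation of the theta series of a ternary quadratic form
-/

set_option autoImplicit false

open MeasureTheory Matrix

namespace Pool.Agent.K1H99.FCC

/-- `|A x|²` -/
noncomputable def nsq (A : Matrix (Fin 3) (Fin 3) ℝ) (x : Fin 3 → ℝ) : ℝ :=
  ∑ i, (A.mulVec x) i ^ 2

/-- integral vectors as real vectors -/
def rv (n : Fin 3 → ℤ) : Fin 3 → ℝ := fun i => (n i : ℝ)

lemma nsq_nonneg (A : Matrix (Fin 3) (Fin 3) ℝ) (x : Fin 3 → ℝ) : 0 ≤ nsq A x :=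
  Finset.sum_nonneg fun _ _ => sq_nonneg _

lemma continuous_nsq (A : Matrix (Fin 3) (Fin 3) ℝ) : Continuous (nsq A) := by
  unfold nsq
  simp only [Matrix.mulVec, dotProduct]
  fun_prop

/-- ellipticity -/
lemma nsq_ge {A B : Matrix (Fin 3) (Fin 3) ℝ} (hBA : Bᵀ * A = 1) :
    ∃ c : ℝ, 0 < c ∧ ∀ x, c * ‖x‖ ^ 2 ≤ nsq A x := by
  set M : ℝ := ∑ i, ∑ j, |Bᵀ i j| + 1 with hM
  have hMpos : 0 < M := by positivity
  have hrow : ∀ i, ∑ j, |Bᵀ i j| ≤ M := by
    intro i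
    have h : ∑ j, |Bᵀ i j| ≤ ∑ i, ∑ j, |Bᵀ i j| :=
      Finset.single_le_sum (f := fun i => ∑ j, |Bᵀ i j|)
        (fun i _ => Finset.sum_nonneg fun j _ => abs_nonneg _) (Finset.mem_univ i)
    rw [hM]
    linarith
  refine ⟨1 / M ^ 2, by positivity, fun x => ?_⟩
  have hx : x = Bᵀ.mulVec (A.mulVec x) := by
    rw [Matrix.mulVec_mulVec, hBA, Matrix.one_mulVec]
  set y := A.mulVec x with hy
  have hyi : ∀ i, |y i| ≤ Real.sqrt (nsq A x) := by
    intro i
    apply Real.abs_le_sqrt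
    unfold nsq
    exact Finset.single_le_sum (f := fun i => (A.mulVec x) i ^ 2) (fun _ _ => sq_nonneg _)
      (Finset.mem_univ i)
  have h1 : ‖x‖ ≤ M * Real.sqrt (nsq A x) := by
    rw [pi_norm_le_iff_of_nonneg (by positivity)]
    intro i
    have hxi : x i = ∑ j, Bᵀ i j * y j := by
      conv_lhs => rw [hx]
      rfl
    rw [Real.norm_eq_abs, hxi]
    calc |∑ j, Bᵀ i j * y j| ≤ ∑ j, |Bᵀ i j * y j| := Finset.abs_sum_le_sum_abs _ _
      _ ≤ ∑ j, |Bᵀ i j| * Real.sqrt (nsq A x) := by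
          refine Finset.sum_le_sum fun j _ => ?_
          rw [abs_mul]
          exact mul_le_mul_of_nonneg_left (hyi j) (abs_nonneg _)
      _ = (∑ j, |Bᵀ i j|) * Real.sqrt (nsq A x) := by rw [Finset.sum_mul]
      _ ≤ M * Real.sqrt (nsq A x) := mul_le_mul_of_nonneg_right (hrow i) (Real.sqrt_nonneg _)
  have h2 : ‖x‖ ^ 2 ≤ M ^ 2 * nsq A x := by
    calc ‖x‖ ^ 2 ≤ (M * Real.sqrt (nsq A x)) ^ 2 := by
          gcongr
      _ = M ^ 2 * nsq A x := by rw [mul_pow, Real.sq_sqrt (nsq_nonneg _ _)]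
  rw [div_mul_eq_mul_div, one_mul, div_le_iff₀ (by positivity)]
  linarith

/-- the Gaussian -/
noncomputable def gau (A : Matrix (Fin 3) (Fin 3) ℝ) (t : ℝ) (x : Fin 3 → ℝ) : ℂ :=
  Complex.exp (((-(Real.pi * t) * nsq A x : ℝ)) : ℂ)

lemma gd_gau {A B : Matrix (Fin 3) (Fin 3) ℝ} (hBA : Bᵀ * A = 1) {t : ℝ} (ht : 0 < t) :
    Y773.GD (gau A t) := by
  obtain ⟨c, hc, h⟩ := nsq_ge hBA
  refine ⟨1, Real.pi * t * c, by positivity, fun z => ?_⟩
  unfold gau
  rw [Complex.norm_exp, Complex.ofReal_re, one_mul, Real.exp_le_exp]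
  have := h z
  have h2 : 0 < Real.pi * t := by positivity
  nlinarith

lemma continuous_gau (A : Matrix (Fin 3) (Fin 3) ℝ) (t : ℝ) : Continuous (gau A t) := by
  unfold gau
  exact Complex.continuous_exp.comp (Complex.continuous_ofReal.comp
    (continuous_const.mul (continuous_nsq A)))

/-- one-dimensional Gaussian integral -/
lemma one_dim {t : ℝ} (ht : 0 < t) (w : ℝ) :
    ∫ y : ℝ, Complex.exp (-2 * Real.pi * Complex.I * ((w * y : ℝ) : ℂ)) *
      Complex.exp (((-(Real.pi * t) * y ^ 2 : ℝ)) : ℂ) =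
      ((t ^ (-(1 / 2) : ℝ) * Real.exp (-(Real.pi / t) * w ^ 2) : ℝ) : ℂ) := by
  have h := integral_cexp_quadratic (b := ((-(Real.pi * t) : ℝ) : ℂ))
    (by rw [Complex.ofReal_re]; have := Real.pi_pos; nlinarith [mul_pos Real.pi_pos ht])
    (-2 * Real.pi * Complex.I * (w : ℂ)) 0
  have h1 : ∀ y : ℝ, Complex.exp (-2 * Real.pi * Complex.I * ((w * y : ℝ) : ℂ)) *
      Complex.exp (((-(Real.pi * t) * y ^ 2 : ℝ)) : ℂ) =
      Complex.exp (((-(Real.pi * t) : ℝ) : ℂ) * (y : ℂ) ^ 2 +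
        (-2 * Real.pi * Complex.I * (w : ℂ)) * (y : ℂ) + 0) := by
    intro y
    rw [← Complex.exp_add]
    congr 1
    push_cast
    ring
  simp_rw [h1]
  rw [h]
  have hpi : (Real.pi : ℂ) ≠ 0 := by exact_mod_cast Real.pi_ne_zero
  have htc : (t : ℂ) ≠ 0 := by exact_mod_cast ht.ne'
  rw [Complex.ofReal_mul]
  congr 1
  · rw [Complex.ofReal_cpow ht.le]
    have : (Real.pi : ℂ) / -((-(Real.pi * t) : ℝ) : ℂ) = ((t⁻¹ : ℝ) : ℂ) := by
      push_cast
      field_simp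
    rw [this]
    rw [show ((1 / 2 : ℂ)) = (((1 / 2 : ℝ)) : ℂ) by push_cast; ring,
      ← Complex.ofReal_cpow (by positivity), Real.inv_rpow ht.le, ← Real.rpow_neg ht.le,
      ← Complex.ofReal_cpow ht.le]
  · rw [Complex.ofReal_exp]
    congr 1
    push_cast
    field_simp
    rw [Complex.I_sq]
    ring

/-- three-dimensional Gaussian integral -/
lemma three_dim {t : ℝ} (ht : 0 < t) (w : Fin 3 → ℝ) :
    ∫ y : Fin 3 → ℝ, Complex.exp (-2 * Real.pi * Complex.I * ((∑ i, w i * y i : ℝ) : ℂ)) *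
      Complex.exp (((-(Real.pi * t) * ∑ i, y i ^ 2 : ℝ)) : ℂ) =
      ((t ^ (-(3 / 2) : ℝ) * Real.exp (-(Real.pi / t) * ∑ i, w i ^ 2) : ℝ) : ℂ) := by
  have h1 : ∀ y : Fin 3 → ℝ, Complex.exp (-2 * Real.pi * Complex.I * ((∑ i, w i * y i : ℝ) : ℂ)) *
      Complex.exp (((-(Real.pi * t) * ∑ i, y i ^ 2 : ℝ)) : ℂ) =
      ∏ i, (Complex.exp (-2 * Real.pi * Complex.I * ((w i * y i : ℝ) : ℂ)) *
        Complex.exp (((-(Real.pi * t) * y i ^ 2 : ℝ)) : ℂ)) := by
    intro y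
    simp only [Fin.sum_univ_three, Fin.prod_univ_three, ← Complex.exp_add]
    congr 1
    push_cast
    ring
  simp_rw [h1]
  rw [integral_fintype_prod_volume_eq_prod (fun i (y : ℝ) =>
    Complex.exp (-2 * Real.pi * Complex.I * ((w i * y : ℝ) : ℂ)) *
        Complex.exp (((-(Real.pi * t) * y ^ 2 : ℝ)) : ℂ))]
  simp only [one_dim ht]
  rw [← Complex.ofReal_prod]
  congr 1
  rw [Fin.prod_univ_three, Fin.sum_univ_three]
  have e1 : t ^ (-(3 / 2) : ℝ) = t ^ (-(1 / 2) : ℝ) * t ^ (-(1 / 2) : ℝ) * t ^ (-(1 / 2) : ℝ) := by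
    rw [← Real.rpow_add ht, ← Real.rpow_add ht]
    norm_num
  rw [e1, mul_add, mul_add, Real.exp_add, Real.exp_add]
  ring

/-- the Fourier transform of the Gaussian of a form -/
lemma ghat_gau {A B : Matrix (Fin 3) (Fin 3) ℝ} (hBA : Bᵀ * A = 1) {t : ℝ} (ht : 0 < t)
    (k : Fin 3 → ℤ) :
    Y773.ghat (gau A t) k =
      ((|A.det|⁻¹ * (t ^ (-(3 / 2) : ℝ) * Real.exp (-(Real.pi / t) * nsq B (rv k))) : ℝ) : ℂ) := by
  have hdet : A.det ≠ 0 := by
    intro h
    have := congrArg Matrix.det hBA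
    rw [Matrix.det_mul, h, mul_zero, Matrix.det_one] at this
    exact zero_ne_one this
  set f : (Fin 3 → ℝ) → ℂ := fun y =>
    Complex.exp (-2 * Real.pi * Complex.I * ((∑ i, (B.mulVec (rv k)) i * y i : ℝ) : ℂ)) *
      Complex.exp (((-(Real.pi * t) * ∑ i, y i ^ 2 : ℝ)) : ℂ) with hf
  have h1 : ∀ x : Fin 3 → ℝ, Y773.ech (-k) x * gau A t x = f (Matrix.toLin' A x) := by
    intro x
    rw [hf]
    simp only [Matrix.toLin'_apply]
    unfold Y773.ech gau nsq
    congr 2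
    have h2 : ∑ i, (B.mulVec (rv k)) i * (A.mulVec x) i = ∑ i, (k i : ℝ) * x i := by
      have h3 : (B.mulVec (rv k)) ⬝ᵥ (A.mulVec x) = (rv k) ⬝ᵥ x := by
        rw [Matrix.dotProduct_mulVec, ← Matrix.mulVec_transpose, Matrix.mulVec_mulVec]
        have : Aᵀ * B = 1 := by
          have := congrArg Matrix.transpose hBA
          rwa [Matrix.transpose_mul, Matrix.transpose_transpose, Matrix.transpose_one] at this
        rw [this, Matrix.one_mulVec]
      exact h3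
    rw [h2]
    have h4 : (∑ i, ((-k) i : ℤ) * x i : ℝ) = -∑ i, (k i : ℝ) * x i := by
      rw [← Finset.sum_neg_distrib]
      refine Finset.sum_congr rfl fun i _ => ?_
      simp
    rw [h4]
    push_cast
    ring
  unfold Y773.ghat
  simp_rw [h1]
  have hmap := Real.map_matrix_volume_pi_eq_smul_volume_pi hdet
  have hcont : Continuous (Matrix.toLin' A) := LinearMap.continuous_on_pi _
  have hfc : Continuous f := by
    rw [hf]
    fun_prop
  have h5 : ∫ x, f (Matrix.toLin' A x) = ∫ y, f y ∂(Measure.map (Matrix.toLin' A) volume) :=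
    (integral_map hcont.aemeasurable hfc.aestronglyMeasurable).symm
  rw [h5, hmap, integral_smul_measure, hf, three_dim ht]
  have h6 : (ENNReal.ofReal |A.det⁻¹|).toReal = |A.det|⁻¹ := by
    rw [ENNReal.toReal_ofReal (abs_nonneg _), abs_inv]
  rw [h6]
  unfold nsq
  simp only [Complex.real_smul]
  push_cast
  ring

/-- summability of the Gaussian series -/
lemma summable_gauss {A B : Matrix (Fin 3) (Fin 3) ℝ} (hBA : Bᵀ * A = 1) {c : ℝ} (hc : 0 < c) :
    Summable fun n : Fin 3 → ℤ => Real.exp (-c * nsq A (rv n)) := by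
  obtain ⟨c', hc', h⟩ := nsq_ge hBA
  refine Summable.of_nonneg_of_le (fun _ => (Real.exp_pos _).le) (fun n => ?_)
    (Y773.summable_exp_int (ι := Fin 3) (c := c * c') (by positivity))
  rw [Real.exp_le_exp]
  have h2 := mul_le_mul_of_nonneg_left (h (rv n)) hc.le
  have h3 : -c * nsq A (rv n) ≤ -(c * c') * ‖rv n‖ ^ 2 := by linarith
  exact h3

/-- **functional equation of the theta series** -/
theorem theta_fe {A B : Matrix (Fin 3) (Fin 3) ℝ} (hBA : Bᵀ * A = 1) {t : ℝ} (ht : 0 < t) :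
    ∑' n : Fin 3 → ℤ, Real.exp (-(Real.pi * t) * nsq A (rv n)) =
      |A.det|⁻¹ * (t ^ (-(3 / 2) : ℝ) *
        ∑' k : Fin 3 → ℤ, Real.exp (-(Real.pi / t) * nsq B (rv k))) := by
  have hAB : Aᵀ * B = 1 := by
    have := congrArg Matrix.transpose hBA
    rwa [Matrix.transpose_mul, Matrix.transpose_transpose, Matrix.transpose_one] at this
  have hsum : Summable (Y773.ghat (gau A t)) := by
    have h1 : Y773.ghat (gau A t) = fun k : Fin 3 → ℤ =>
      ((|A.det|⁻¹ * (t ^ (-(3 / 2) : ℝ) * Real.exp (-(Real.pi / t) * nsq B (rv k))) : ℝ) : ℂ) :=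
      funext fun k => ghat_gau hBA ht k
    rw [h1]
    refine Complex.summable_ofReal.2 (((summable_gauss hAB (c := Real.pi / t) ?_).mul_left _).mul_left
      _)
    exact div_pos Real.pi_pos ht
  have h := Y773.poisson (gd_gau hBA ht) (continuous_gau A t) hsum 0
  simp only [zero_add] at h
  have h2 : ∀ k : Fin 3 → ℤ, Y773.ghat (gau A t) k * Y773.ech k 0 =
      ((|A.det|⁻¹ * (t ^ (-(3 / 2) : ℝ) * Real.exp (-(Real.pi / t) * nsq B (rv k))) : ℝ) : ℂ) := by
    intro k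
    rw [ghat_gau hBA ht]
    unfold Y773.ech
    simp
  simp_rw [h2] at h
  unfold gau at h
  simp_rw [← Complex.ofReal_exp] at h
  rw [← Complex.ofReal_tsum, ← Complex.ofReal_tsum] at h
  have h3 := Complex.ofReal_injective h
  rw [tsum_mul_left, tsum_mul_left] at h3
  exact h3

end Pool.Agent.K1H99.FCC
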