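import Pool.Agent.K1H99.FCC.Cert.Top

/-!
# The energy inequality on the reduced cone
-/

set_option autoImplicit false

namespace Pool.Agent.K1H99.FCC


lemma root0 (hF : HF) (hL : HL) {s1 s2 s3 e d1 d2 : ℝ}
    (h0 : d1 ≤ s1) (h1 : s2 ≤ d1) (h2 : d2 ≤ s2) (h3 : s3 ≤ d2) (h4 : e ≤ s3) (h5 : 0 ≤ e)
    (hp : PD ![s1 + d1, s2 + d2, s3 + e, s3 - e, s2 - d2, s1 - d1]) :
    Lam Fp ≤ Lam ![s1 + d1, s2 + d2, s3 + e, s3 - e, s2 - d2, s1 - d1] := by
  have hg := ch0 hF hL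
  have hl : ∀ i, 0 ≤ (![(s1 - d1) / 1610612736, (d1 - s2) / 1610612736, (s2 - d2) / 805306368, (d2 - s3) / 805306368, (s3 - e) / 536870912, e / 536870912] : Fin 6 → ℝ) i := by
    intro i
    fin_cases i <;> simp only [Fin.zero_eta, Fin.mk_one, Fin.reduceFinMk, Matrix.cons_val] <;>
      first | exact div_nonneg (sub_nonneg.2 ‹_›) (by norm_num) | exact div_nonneg ‹_› (by norm_num)
  have he : ∑ i, (![(s1 - d1) / 1610612736, (d1 - s2) / 1610612736, (s2 - d2) / 805306368, (d2 - s3) / 805306368, (s3 - e) / 536870912, e / 536870912] : Fin 6 → ℝ) i • wv ((![⟨1610612736, 0, 0, 0, 0, 1610612736, 0⟩, ⟨3221225472, 0, 0, 0, 0, 0, 0⟩, ⟨1610612736, 805306368, 0, 0, 805306368, 0, 1014622444⟩, ⟨1610612736, 1610612736, 0, 0, 0, 0, 0⟩, ⟨1073741824, 1073741824, 536870912, 536870912, 0, 0, 1073741824⟩, ⟨1073741824, 1073741824, 1073741824, 0, 0, 0, 1073741824⟩] : Fin 6 → W) i) =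
      ![s1 + d1, s2 + d2, s3 + e, s3 - e, s2 - d2, s1 - d1] := by
    funext k
    fin_cases k <;> simp [Fin.sum_univ_six, wv] <;> ring
  have h := hg _ hl
  rw [he] at h
  exact h hp

lemma root1 (hF : HF) (hL : HL) {s1 s2 s3 e d1 d2 : ℝ}
    (h0 : d1 ≤ s1) (h1 : s2 ≤ d1) (h2 : d2 ≤ s2) (h3 : s3 ≤ d2) (h4 : e ≤ s3) (h5 : 0 ≤ e)
    (hp : PD ![s1 + d1, s2 + d2, s3 - e, s3 + e, s2 - d2, s1 - d1]) :
    Lam Fp ≤ Lam ![s1 + d1, s2 + d2, s3 - e, s3 + e, s2 - d2, s1 - d1] := by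
  have hg := ch1 hF hL
  have hl : ∀ i, 0 ≤ (![(s1 - d1) / 1610612736, (d1 - s2) / 1610612736, (s2 - d2) / 805306368, (d2 - s3) / 805306368, (s3 - e) / 536870912, e / 536870912] : Fin 6 → ℝ) i := by
    intro i
    fin_cases i <;> simp only [Fin.zero_eta, Fin.mk_one, Fin.reduceFinMk, Matrix.cons_val] <;>
      first | exact div_nonneg (sub_nonneg.2 ‹_›) (by norm_num) | exact div_nonneg ‹_› (by norm_num)
  have he : ∑ i, (![(s1 - d1) / 1610612736, (d1 - s2) / 1610612736, (s2 - d2) / 805306368, (d2 - s3) / 805306368, (s3 - e) / 536870912, e / 536870912] : Fin 6 → ℝ) i • wv ((![⟨1610612736, 0, 0, 0, 0, 1610612736, 0⟩, ⟨3221225472, 0, 0, 0, 0, 0, 0⟩, ⟨1610612736, 805306368, 0, 0, 805306368, 0, 1014622444⟩, ⟨1610612736, 1610612736, 0, 0, 0, 0, 0⟩, ⟨1073741824, 1073741824, 536870912, 536870912, 0, 0, 1073741824⟩, ⟨1073741824, 1073741824, 0, 1073741824, 0, 0, 0⟩] : Fin 6 → W) i) =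
      ![s1 + d1, s2 + d2, s3 - e, s3 + e, s2 - d2, s1 - d1] := by
    funext k
    fin_cases k <;> simp [Fin.sum_univ_six, wv] <;> ring
  have h := hg _ hl
  rw [he] at h
  exact h hp

lemma root2 (hF : HF) (hL : HL) {s1 s2 s3 e d1 d2 : ℝ}
    (h0 : s2 ≤ s1) (h1 : d1 ≤ s2) (h2 : d2 ≤ d1) (h3 : s3 ≤ d2) (h4 : e ≤ s3) (h5 : 0 ≤ e)
    (hp : PD ![s1 + d1, s2 + d2, s3 + e, s3 - e, s2 - d2, s1 - d1]) :
    Lam Fp ≤ Lam ![s1 + d1, s2 + d2, s3 + e, s3 - e, s2 - d2, s1 - d1] := by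
  have hg := tp2_2 hF hL
  have hl : ∀ i, 0 ≤ (![(s1 - s2) / 1610612736, (s2 - d1) / 805306368, (d1 - d2) / 805306368, (d2 - s3) / 805306368, (s3 - e) / 536870912, e / 536870912] : Fin 6 → ℝ) i := by
    intro i
    fin_cases i <;> simp only [Fin.zero_eta, Fin.mk_one, Fin.reduceFinMk, Matrix.cons_val] <;>
      first | exact div_nonneg (sub_nonneg.2 ‹_›) (by norm_num) | exact div_nonneg ‹_› (by norm_num)
  have he : ∑ i, (![(s1 - s2) / 1610612736, (s2 - d1) / 805306368, (d1 - d2) / 805306368, (d2 - s3) / 805306368, (s3 - e) / 536870912, e / 536870912] : Fin 6 → ℝ) i • wv ((![⟨1610612736, 0, 0, 0, 0, 1610612736, 0⟩, ⟨805306368, 805306368, 0, 0, 805306368, 805306368, 1278344175⟩, ⟨1610612736, 805306368, 0, 0, 805306368, 0, 1014622444⟩, ⟨1610612736, 1610612736, 0, 0, 0, 0, 0⟩, ⟨1073741824, 1073741824, 536870912, 536870912, 0, 0, 1073741824⟩, ⟨1073741824, 1073741824, 1073741824, 0, 0, 0, 1073741824⟩] : Fin 6 → W)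 i) =
      ![s1 + d1, s2 + d2, s3 + e, s3 - e, s2 - d2, s1 - d1] := by
    funext k
    fin_cases k <;> simp [Fin.sum_univ_six, wv] <;> ring
  have h := hg _ hl
  rw [he] at h
  exact h hp

lemma root3 (hF : HF) (hL : HL) {s1 s2 s3 e d1 d2 : ℝ}
    (h0 : s2 ≤ s1) (h1 : d1 ≤ s2) (h2 : d2 ≤ d1) (h3 : s3 ≤ d2) (h4 : e ≤ s3) (h5 : 0 ≤ e)
    (hp : PD ![s1 + d1, s2 + d2, s3 - e, s3 + e, s2 - d2, s1 - d1]) :
    Lam Fp ≤ Lam ![s1 + d1, s2 + d2, s3 - e, s3 + e, s2 - d2, s1 - d1] := by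
  have hg := tp3_1 hF hL
  have hl : ∀ i, 0 ≤ (![(s1 - s2) / 1610612736, (s2 - d1) / 805306368, (d1 - d2) / 805306368, (d2 - s3) / 805306368, (s3 - e) / 536870912, e / 536870912] : Fin 6 → ℝ) i := by
    intro i
    fin_cases i <;> simp only [Fin.zero_eta, Fin.mk_one, Fin.reduceFinMk, Matrix.cons_val] <;>
      first | exact div_nonneg (sub_nonneg.2 ‹_›) (by norm_num) | exact div_nonneg ‹_› (by norm_num)
  have he : ∑ i, (![(s1 - s2) / 1610612736, (s2 - d1) / 805306368, (d1 - d2) / 805306368, (d2 - s3) / 805306368, (s3 - e) / 536870912, e / 536870912] : Fin 6 → ℝ) i • wv ((![⟨1610612736, 0, 0, 0, 0, 1610612736, 0⟩, ⟨805306368, 805306368, 0, 0, 805306368, 805306368, 1278344175⟩, ⟨1610612736, 805306368, 0, 0, 805306368, 0, 1014622444⟩, ⟨1610612736, 1610612736, 0, 0, 0, 0, 0⟩, ⟨1073741824, 1073741824, 536870912, 536870912, 0, 0, 1073741824⟩, ⟨1073741824, 1073741824, 0, 1073741824, 0, 0, 0⟩] : Fin 6 → W) i) =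
      ![s1 + d1, s2 + d2, s3 - e, s3 + e, s2 - d2, s1 - d1] := by
    funext k
    fin_cases k <;> simp [Fin.sum_univ_six, wv] <;> ring
  have h := hg _ hl
  rw [he] at h
  exact h hp

lemma root4 (hF : HF) (hL : HL) {s1 s2 s3 e d1 d2 : ℝ}
    (h0 : s2 ≤ s1) (h1 : d2 ≤ s2) (h2 : d1 ≤ d2) (h3 : s3 ≤ d1) (h4 : e ≤ s3) (h5 : 0 ≤ e)
    (hp : PD ![s1 + d1, s2 + d2, s3 + e, s3 - e, s2 - d2, s1 - d1]) :
    Lam Fp ≤ Lam ![s1 + d1, s2 + d2, s3 + e, s3 - e, s2 - d2, s1 - d1] := by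
  have hg := tp4_1 hF hL
  have hl : ∀ i, 0 ≤ (![(s1 - s2) / 1610612736, (s2 - d2) / 805306368, (d2 - d1) / 805306368, (d1 - s3) / 805306368, (s3 - e) / 536870912, e / 536870912] : Fin 6 → ℝ) i := by
    intro i
    fin_cases i <;> simp only [Fin.zero_eta, Fin.mk_one, Fin.reduceFinMk, Matrix.cons_val] <;>
      first | exact div_nonneg (sub_nonneg.2 ‹_›) (by norm_num) | exact div_nonneg ‹_› (by norm_num)
  have he : ∑ i, (![(s1 - s2) / 1610612736, (s2 - d2) / 805306368, (d2 - d1) / 805306368, (d1 - s3) / 805306368, (s3 - e) / 536870912, e / 536870912] : Fin 6 → ℝ) i • wv ((![⟨1610612736, 0, 0, 0, 0, 1610612736, 0⟩, ⟨805306368, 805306368, 0, 0, 805306368, 805306368, 1278344175⟩, ⟨805306368, 1610612736, 0, 0, 0, 805306368, 1014622444⟩, ⟨1610612736, 1610612736, 0, 0, 0, 0, 0⟩, ⟨1073741824, 1073741824, 536870912, 536870912, 0, 0, 1073741824⟩, ⟨1073741824, 1073741824, 1073741824, 0, 0, 0, 1073741824⟩] : Fin 6 → W)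 i) =
      ![s1 + d1, s2 + d2, s3 + e, s3 - e, s2 - d2, s1 - d1] := by
    funext k
    fin_cases k <;> simp [Fin.sum_univ_six, wv] <;> ring
  have h := hg _ hl
  rw [he] at h
  exact h hp

lemma root5 (hF : HF) (hL : HL) {s1 s2 s3 e d1 d2 : ℝ}
    (h0 : s2 ≤ s1) (h1 : d2 ≤ s2) (h2 : d1 ≤ d2) (h3 : s3 ≤ d1) (h4 : e ≤ s3) (h5 : 0 ≤ e)
    (hp : PD ![s1 + d1, s2 + d2, s3 - e, s3 + e, s2 - d2, s1 - d1]) :
    Lam Fp ≤ Lam ![s1 + d1, s2 + d2, s3 - e, s3 + e, s2 - d2, s1 - d1] := by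
  have hg := tp5_0 hF hL
  have hl : ∀ i, 0 ≤ (![(s1 - s2) / 1610612736, (s2 - d2) / 805306368, (d2 - d1) / 805306368, (d1 - s3) / 805306368, (s3 - e) / 536870912, e / 536870912] : Fin 6 → ℝ) i := by
    intro i
    fin_cases i <;> simp only [Fin.zero_eta, Fin.mk_one, Fin.reduceFinMk, Matrix.cons_val] <;>
      first | exact div_nonneg (sub_nonneg.2 ‹_›) (by norm_num) | exact div_nonneg ‹_› (by norm_num)
  have he : ∑ i, (![(s1 - s2) / 1610612736, (s2 - d2) / 805306368, (d2 - d1) / 805306368, (d1 - s3) / 805306368, (s3 - e) / 536870912, e / 536870912] : Fin 6 → ℝ) i • wv ((![⟨1610612736, 0, 0, 0, 0, 1610612736, 0⟩, ⟨805306368, 805306368, 0, 0, 805306368, 805306368, 1278344175⟩, ⟨805306368, 1610612736, 0, 0, 0, 805306368, 1014622444⟩, ⟨1610612736, 1610612736, 0, 0, 0, 0, 0⟩, ⟨1073741824, 1073741824, 536870912, 536870912, 0, 0, 1073741824⟩, ⟨1073741824, 1073741824, 0, 1073741824, 0, 0, 0⟩] : Fin 6 → W) i) =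
      ![s1 + d1, s2 + d2, s3 - e, s3 + e, s2 - d2, s1 - d1] := by
    funext k
    fin_cases k <;> simp [Fin.sum_univ_six, wv] <;> ring
  have h := hg _ hl
  rw [he] at h
  exact h hp

lemma root6 (hF : HF) (hL : HL) {s1 s2 s3 e d1 d2 : ℝ}
    (h0 : s2 ≤ s1) (h1 : d2 ≤ s2) (h2 : s3 ≤ d2) (h3 : d1 ≤ s3) (h4 : e ≤ d1) (h5 : 0 ≤ e)
    (hp : PD ![s1 + d1, s2 + d2, s3 + e, s3 - e, s2 - d2, s1 - d1]) :
    Lam Fp ≤ Lam ![s1 + d1, s2 + d2, s3 + e, s3 - e, s2 - d2, s1 - d1] := by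
  have hg := tp6_1 hF hL
  have hl : ∀ i, 0 ≤ (![(s1 - s2) / 1610612736, (s2 - d2) / 805306368, (d2 - s3) / 805306368, (s3 - d1) / 536870912, (d1 - e) / 536870912, e / 536870912] : Fin 6 → ℝ) i := by
    intro i
    fin_cases i <;> simp only [Fin.zero_eta, Fin.mk_one, Fin.reduceFinMk, Matrix.cons_val] <;>
      first | exact div_nonneg (sub_nonneg.2 ‹_›) (by norm_num) | exact div_nonneg ‹_› (by norm_num)
  have he : ∑ i, (![(s1 - s2) / 1610612736, (s2 - d2) / 805306368, (d2 - s3) / 805306368, (s3 - d1) / 536870912, (d1 - e) / 536870912, e / 536870912] : Fin 6 → ℝ) i • wv ((![⟨1610612736, 0, 0, 0, 0, 1610612736, 0⟩, ⟨805306368, 805306368, 0, 0, 805306368, 805306368, 1278344175⟩, ⟨805306368, 1610612736, 0, 0, 0, 805306368, 1014622444⟩, ⟨536870912, 1073741824, 536870912, 536870912, 0, 536870912, 1229127558⟩, ⟨1073741824, 1073741824, 536870912, 536870912, 0, 0, 1073741824⟩, ⟨1073741824, 1073741824, 1073741824, 0,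 0, 0, 1073741824⟩] : Fin 6 → W) i) =
      ![s1 + d1, s2 + d2, s3 + e, s3 - e, s2 - d2, s1 - d1] := by
    funext k
    fin_cases k <;> simp [Fin.sum_univ_six, wv] <;> ring
  have h := hg _ hl
  rw [he] at h
  exact h hp

lemma root7 (hF : HF) (hL : HL) {s1 s2 s3 e d1 d2 : ℝ}
    (h0 : s2 ≤ s1) (h1 : d2 ≤ s2) (h2 : s3 ≤ d2) (h3 : d1 ≤ s3) (h4 : e ≤ d1) (h5 : 0 ≤ e)
    (hp : PD ![s1 + d1, s2 + d2, s3 - e, s3 + e, s2 - d2, s1 - d1]) :
    Lam Fp ≤ Lam ![s1 + d1, s2 + d2, s3 - e, s3 + e, s2 - d2, s1 - d1] := by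
  have hg := tp7_1 hF hL
  have hl : ∀ i, 0 ≤ (![(s1 - s2) / 1610612736, (s2 - d2) / 805306368, (d2 - s3) / 805306368, (s3 - d1) / 536870912, (d1 - e) / 536870912, e / 536870912] : Fin 6 → ℝ) i := by
    intro i
    fin_cases i <;> simp only [Fin.zero_eta, Fin.mk_one, Fin.reduceFinMk, Matrix.cons_val] <;>
      first | exact div_nonneg (sub_nonneg.2 ‹_›) (by norm_num) | exact div_nonneg ‹_› (by norm_num)
  have he : ∑ i, (![(s1 - s2) / 1610612736, (s2 - d2) / 805306368, (d2 - s3) / 805306368, (s3 - d1) / 536870912, (d1 - e) / 536870912, e / 536870912] : Fin 6 → ℝ) i • wv ((![⟨1610612736, 0, 0, 0, 0, 1610612736, 0⟩, ⟨805306368, 805306368, 0, 0, 805306368, 805306368, 1278344175⟩, ⟨805306368, 1610612736, 0, 0, 0, 805306368, 1014622444⟩, ⟨536870912, 1073741824, 536870912, 536870912, 0, 536870912, 1229127558⟩, ⟨1073741824, 1073741824, 536870912, 536870912, 0, 0, 1073741824⟩, ⟨1073741824, 1073741824, 0, 1073741824,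 0, 0, 0⟩] : Fin 6 → W) i) =
      ![s1 + d1, s2 + d2, s3 - e, s3 + e, s2 - d2, s1 - d1] := by
    funext k
    fin_cases k <;> simp [Fin.sum_univ_six, wv] <;> ring
  have h := hg _ hl
  rw [he] at h
  exact h hp

lemma root8 (hF : HF) (hL : HL) {s1 s2 s3 e d1 d2 : ℝ}
    (h0 : s2 ≤ s1) (h1 : d2 ≤ s2) (h2 : s3 ≤ d2) (h3 : e ≤ s3) (h4 : d1 ≤ e) (h5 : 0 ≤ d1)
    (hp : PD ![s1 + d1, s2 + d2, s3 + e, s3 - e, s2 - d2, s1 - d1]) :
    Lam Fp ≤ Lam ![s1 + d1, s2 + d2, s3 + e, s3 - e, s2 - d2, s1 - d1] := by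
  have hg := tp8_1 hF hL
  have hl : ∀ i, 0 ≤ (![(s1 - s2) / 1610612736, (s2 - d2) / 805306368, (d2 - s3) / 805306368, (s3 - e) / 536870912, (e - d1) / 536870912, d1 / 536870912] : Fin 6 → ℝ) i := by
    intro i
    fin_cases i <;> simp only [Fin.zero_eta, Fin.mk_one, Fin.reduceFinMk, Matrix.cons_val] <;>
      first | exact div_nonneg (sub_nonneg.2 ‹_›) (by norm_num) | exact div_nonneg ‹_› (by norm_num)
  have he : ∑ i, (![(s1 - s2) / 1610612736, (s2 - d2) / 805306368, (d2 - s3) / 805306368, (s3 - e) / 536870912, (e - d1) / 536870912, d1 / 536870912] : Fin 6 → ℝ) i • wv ((![⟨1610612736, 0, 0, 0, 0, 1610612736, 0⟩, ⟨805306368, 805306368, 0, 0, 805306368, 805306368, 1278344175⟩, ⟨805306368, 1610612736, 0, 0, 0, 805306368, 1014622444⟩, ⟨536870912, 1073741824, 536870912, 536870912, 0, 536870912, 1229127558⟩, ⟨536870912, 1073741824, 1073741824, 0, 0, 536870912, 1073741824⟩, ⟨1073741824, 1073741824, 1073741824, 0,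 0, 0, 1073741824⟩] : Fin 6 → W) i) =
      ![s1 + d1, s2 + d2, s3 + e, s3 - e, s2 - d2, s1 - d1] := by
    funext k
    fin_cases k <;> simp [Fin.sum_univ_six, wv] <;> ring
  have h := hg _ hl
  rw [he] at h
  exact h hp

lemma root9 (hF : HF) (hL : HL) {s1 s2 s3 e d1 d2 : ℝ}
    (h0 : s2 ≤ s1) (h1 : d2 ≤ s2) (h2 : s3 ≤ d2) (h3 : e ≤ s3) (h4 : d1 ≤ e) (h5 : 0 ≤ d1)
    (hp : PD ![s1 + d1, s2 + d2, s3 - e, s3 + e, s2 - d2, s1 - d1]) :
    Lam Fp ≤ Lam ![s1 + d1, s2 + d2, s3 - e, s3 + e, s2 - d2, s1 - d1] := by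
  have hg := tp9_1 hF hL
  have hl : ∀ i, 0 ≤ (![(s1 - s2) / 1610612736, (s2 - d2) / 805306368, (d2 - s3) / 805306368, (s3 - e) / 536870912, (e - d1) / 536870912, d1 / 536870912] : Fin 6 → ℝ) i := by
    intro i
    fin_cases i <;> simp only [Fin.zero_eta, Fin.mk_one, Fin.reduceFinMk, Matrix.cons_val] <;>
      first | exact div_nonneg (sub_nonneg.2 ‹_›) (by norm_num) | exact div_nonneg ‹_› (by norm_num)
  have he : ∑ i, (![(s1 - s2) / 1610612736, (s2 - d2) / 805306368, (d2 - s3) / 805306368, (s3 - e) / 536870912, (e - d1) / 536870912, d1 / 536870912] : Fin 6 → ℝ) i • wv ((![⟨1610612736, 0, 0, 0, 0, 1610612736, 0⟩, ⟨805306368, 805306368, 0, 0, 805306368, 805306368, 1278344175⟩, ⟨805306368, 1610612736, 0, 0, 0, 805306368, 1014622444⟩, ⟨536870912, 1073741824, 536870912, 536870912, 0, 536870912, 1229127558⟩, ⟨536870912, 1073741824, 0, 1073741824, 0, 536870912, 1073741824⟩, ⟨1073741824, 1073741824, 0, 1073741824,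 0, 0, 0⟩] : Fin 6 → W) i) =
      ![s1 + d1, s2 + d2, s3 - e, s3 + e, s2 - d2, s1 - d1] := by
    funext k
    fin_cases k <;> simp [Fin.sum_univ_six, wv] <;> ring
  have h := hg _ hl
  rw [he] at h
  exact h hp

lemma root10 (hF : HF) (hL : HL) {s1 s2 s3 e d1 d2 : ℝ}
    (h0 : d1 ≤ s1) (h1 : s2 ≤ d1) (h2 : s3 ≤ s2) (h3 : d2 ≤ s3) (h4 : e ≤ d2) (h5 : 0 ≤ e)
    (hp : PD ![s1 + d1, s2 + d2, s3 + e, s3 - e, s2 - d2, s1 - d1]) :
    Lam Fp ≤ Lam ![s1 + d1, s2 + d2, s3 + e, s3 - e, s2 - d2, s1 - d1] := by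
  have hg := ch26 hF hL
  have hl : ∀ i, 0 ≤ (![(s1 - d1) / 1610612736, (d1 - s2) / 1610612736, (s2 - s3) / 805306368, (s3 - d2) / 536870912, (d2 - e) / 536870912, e / 536870912] : Fin 6 → ℝ) i := by
    intro i
    fin_cases i <;> simp only [Fin.zero_eta, Fin.mk_one, Fin.reduceFinMk, Matrix.cons_val] <;>
      first | exact div_nonneg (sub_nonneg.2 ‹_›) (by norm_num) | exact div_nonneg ‹_› (by norm_num)
  have he : ∑ i, (![(s1 - d1) / 1610612736, (d1 - s2) / 1610612736, (s2 - s3) / 805306368, (s3 - d2) / 536870912, (d2 - e) / 536870912, e / 536870912] : Fin 6 → ℝ) i • wv ((![⟨1610612736, 0, 0, 0, 0, 1610612736, 0⟩, ⟨3221225472, 0, 0, 0, 0, 0, 0⟩, ⟨1610612736, 805306368, 0, 0, 805306368, 0, 1014622444⟩, ⟨1073741824, 536870912, 536870912, 536870912, 536870912, 0, 1229127558⟩, ⟨1073741824, 1073741824, 536870912, 536870912, 0, 0, 1073741824⟩, ⟨1073741824, 1073741824, 1073741824, 0, 0, 0, 1073741824⟩] : Fin 6 → W)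 i) =
      ![s1 + d1, s2 + d2, s3 + e, s3 - e, s2 - d2, s1 - d1] := by
    funext k
    fin_cases k <;> simp [Fin.sum_univ_six, wv] <;> ring
  have h := hg _ hl
  rw [he] at h
  exact h hp

lemma root11 (hF : HF) (hL : HL) {s1 s2 s3 e d1 d2 : ℝ}
    (h0 : d1 ≤ s1) (h1 : s2 ≤ d1) (h2 : s3 ≤ s2) (h3 : d2 ≤ s3) (h4 : e ≤ d2) (h5 : 0 ≤ e)
    (hp : PD ![s1 + d1, s2 + d2, s3 - e, s3 + e, s2 - d2, s1 - d1]) :
    Lam Fp ≤ Lam ![s1 + d1, s2 + d2, s3 - e, s3 + e, s2 - d2, s1 - d1] := by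
  have hg := ch27 hF hL
  have hl : ∀ i, 0 ≤ (![(s1 - d1) / 1610612736, (d1 - s2) / 1610612736, (s2 - s3) / 805306368, (s3 - d2) / 536870912, (d2 - e) / 536870912, e / 536870912] : Fin 6 → ℝ) i := by
    intro i
    fin_cases i <;> simp only [Fin.zero_eta, Fin.mk_one, Fin.reduceFinMk, Matrix.cons_val] <;>
      first | exact div_nonneg (sub_nonneg.2 ‹_›) (by norm_num) | exact div_nonneg ‹_› (by norm_num)
  have he : ∑ i, (![(s1 - d1) / 1610612736, (d1 - s2) / 1610612736, (s2 - s3) / 805306368, (s3 - d2) / 536870912, (d2 - e) / 536870912, e / 536870912] : Fin 6 → ℝ) i • wv ((![⟨1610612736, 0, 0, 0, 0, 1610612736, 0⟩, ⟨3221225472, 0, 0, 0, 0, 0, 0⟩, ⟨1610612736, 805306368, 0, 0, 805306368, 0, 1014622444⟩, ⟨1073741824, 536870912, 536870912, 536870912, 536870912, 0, 1229127558⟩, ⟨1073741824, 1073741824, 536870912, 536870912, 0, 0, 1073741824⟩, ⟨1073741824, 1073741824, 0, 1073741824, 0, 0, 0⟩] : Fin 6 → W) i) =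
      ![s1 + d1, s2 + d2, s3 - e, s3 + e, s2 - d2, s1 - d1] := by
    funext k
    fin_cases k <;> simp [Fin.sum_univ_six, wv] <;> ring
  have h := hg _ hl
  rw [he] at h
  exact h hp

lemma root12 (hF : HF) (hL : HL) {s1 s2 s3 e d1 d2 : ℝ}
    (h0 : s2 ≤ s1) (h1 : d1 ≤ s2) (h2 : s3 ≤ d1) (h3 : d2 ≤ s3) (h4 : e ≤ d2) (h5 : 0 ≤ e)
    (hp : PD ![s1 + d1, s2 + d2, s3 + e, s3 - e, s2 - d2, s1 - d1]) :
    Lam Fp ≤ Lam ![s1 + d1, s2 + d2, s3 + e, s3 - e, s2 - d2, s1 - d1] := by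
  have hg := tp12_2 hF hL
  have hl : ∀ i, 0 ≤ (![(s1 - s2) / 1610612736, (s2 - d1) / 805306368, (d1 - s3) / 805306368, (s3 - d2) / 536870912, (d2 - e) / 536870912, e / 536870912] : Fin 6 → ℝ) i := by
    intro i
    fin_cases i <;> simp only [Fin.zero_eta, Fin.mk_one, Fin.reduceFinMk, Matrix.cons_val] <;>
      first | exact div_nonneg (sub_nonneg.2 ‹_›) (by norm_num) | exact div_nonneg ‹_› (by norm_num)
  have he : ∑ i, (![(s1 - s2) / 1610612736, (s2 - d1) / 805306368, (d1 - s3) / 805306368, (s3 - d2) / 536870912, (d2 - e) / 536870912, e / 536870912] : Fin 6 → ℝ) i • wv ((![⟨1610612736, 0, 0, 0, 0, 1610612736, 0⟩, ⟨805306368, 805306368, 0, 0, 805306368, 805306368, 1278344175⟩, ⟨1610612736, 805306368, 0, 0, 805306368, 0, 1014622444⟩, ⟨1073741824, 536870912, 536870912, 536870912, 536870912, 0, 1229127558⟩, ⟨1073741824, 1073741824, 536870912, 536870912, 0, 0, 1073741824⟩, ⟨1073741824, 1073741824, 1073741824, 0,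 0, 0, 1073741824⟩] : Fin 6 → W) i) =
      ![s1 + d1, s2 + d2, s3 + e, s3 - e, s2 - d2, s1 - d1] := by
    funext k
    fin_cases k <;> simp [Fin.sum_univ_six, wv] <;> ring
  have h := hg _ hl
  rw [he] at h
  exact h hp

lemma root13 (hF : HF) (hL : HL) {s1 s2 s3 e d1 d2 : ℝ}
    (h0 : s2 ≤ s1) (h1 : d1 ≤ s2) (h2 : s3 ≤ d1) (h3 : d2 ≤ s3) (h4 : e ≤ d2) (h5 : 0 ≤ e)
    (hp : PD ![s1 + d1, s2 + d2, s3 - e, s3 + e, s2 - d2, s1 - d1]) :
    Lam Fp ≤ Lam ![s1 + d1, s2 + d2, s3 - e, s3 + e, s2 - d2, s1 - d1] := by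
  have hg := tp13_2 hF hL
  have hl : ∀ i, 0 ≤ (![(s1 - s2) / 1610612736, (s2 - d1) / 805306368, (d1 - s3) / 805306368, (s3 - d2) / 536870912, (d2 - e) / 536870912, e / 536870912] : Fin 6 → ℝ) i := by
    intro i
    fin_cases i <;> simp only [Fin.zero_eta, Fin.mk_one, Fin.reduceFinMk, Matrix.cons_val] <;>
      first | exact div_nonneg (sub_nonneg.2 ‹_›) (by norm_num) | exact div_nonneg ‹_› (by norm_num)
  have he : ∑ i, (![(s1 - s2) / 1610612736, (s2 - d1) / 805306368, (d1 - s3) / 805306368, (s3 - d2) / 536870912, (d2 - e) / 536870912, e / 536870912] : Fin 6 → ℝ) i • wv ((![⟨1610612736, 0, 0, 0, 0, 1610612736, 0⟩, ⟨805306368, 805306368, 0, 0, 805306368, 805306368, 1278344175⟩, ⟨1610612736, 805306368, 0, 0, 805306368, 0, 1014622444⟩, ⟨1073741824, 536870912, 536870912, 536870912, 536870912, 0, 1229127558⟩, ⟨1073741824, 1073741824, 536870912, 536870912, 0, 0, 1073741824⟩, ⟨1073741824, 1073741824, 0, 1073741824,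 0, 0, 0⟩] : Fin 6 → W) i) =
      ![s1 + d1, s2 + d2, s3 - e, s3 + e, s2 - d2, s1 - d1] := by
    funext k
    fin_cases k <;> simp [Fin.sum_univ_six, wv] <;> ring
  have h := hg _ hl
  rw [he] at h
  exact h hp

lemma root14 (hF : HF) (hL : HL) {s1 s2 s3 e d1 d2 : ℝ}
    (h0 : s2 ≤ s1) (h1 : s3 ≤ s2) (h2 : d1 ≤ s3) (h3 : d2 ≤ d1) (h4 : e ≤ d2) (h5 : 0 ≤ e)
    (hp : PD ![s1 + d1, s2 + d2, s3 + e, s3 - e, s2 - d2, s1 - d1]) :
    Lam Fp ≤ Lam ![s1 + d1, s2 + d2, s3 + e, s3 - e, s2 - d2, s1 - d1] := by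
  have hg := tp14_23 hF hL
  have hl : ∀ i, 0 ≤ (![(s1 - s2) / 1610612736, (s2 - s3) / 805306368, (s3 - d1) / 536870912, (d1 - d2) / 536870912, (d2 - e) / 536870912, e / 536870912] : Fin 6 → ℝ) i := by
    intro i
    fin_cases i <;> simp only [Fin.zero_eta, Fin.mk_one, Fin.reduceFinMk, Matrix.cons_val] <;>
      first | exact div_nonneg (sub_nonneg.2 ‹_›) (by norm_num) | exact div_nonneg ‹_› (by norm_num)
  have he : ∑ i, (![(s1 - s2) / 1610612736, (s2 - s3) / 805306368, (s3 - d1) / 536870912, (d1 - d2) / 536870912, (d2 - e) / 536870912, e / 536870912] : Fin 6 → ℝ) i • wv ((![⟨1610612736, 0, 0, 0, 0, 1610612736, 0⟩, ⟨805306368, 805306368, 0, 0, 805306368, 805306368, 1278344175⟩, ⟨536870912, 536870912, 536870912, 536870912, 536870912, 536870912, 1352829926⟩, ⟨1073741824, 536870912, 536870912, 536870912, 536870912, 0, 1229127558⟩, ⟨1073741824, 1073741824, 536870912, 536870912, 0, 0, 1073741824⟩, ⟨1073741824, 1073741824,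 1073741824, 0, 0, 0, 1073741824⟩] : Fin 6 → W) i) =
      ![s1 + d1, s2 + d2, s3 + e, s3 - e, s2 - d2, s1 - d1] := by
    funext k
    fin_cases k <;> simp [Fin.sum_univ_six, wv] <;> ring
  have h := hg _ hl
  rw [he] at h
  exact h hp

lemma root15 (hF : HF) (hL : HL) {s1 s2 s3 e d1 d2 : ℝ}
    (h0 : s2 ≤ s1) (h1 : s3 ≤ s2) (h2 : d1 ≤ s3) (h3 : d2 ≤ d1) (h4 : e ≤ d2) (h5 : 0 ≤ e)
    (hp : PD ![s1 + d1, s2 + d2, s3 - e, s3 + e, s2 - d2, s1 - d1]) :
    Lam Fp ≤ Lam ![s1 + d1, s2 + d2, s3 - e, s3 + e, s2 - d2, s1 - d1] := by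
  have hg := tp15_19 hF hL
  have hl : ∀ i, 0 ≤ (![(s1 - s2) / 1610612736, (s2 - s3) / 805306368, (s3 - d1) / 536870912, (d1 - d2) / 536870912, (d2 - e) / 536870912, e / 536870912] : Fin 6 → ℝ) i := by
    intro i
    fin_cases i <;> simp only [Fin.zero_eta, Fin.mk_one, Fin.reduceFinMk, Matrix.cons_val] <;>
      first | exact div_nonneg (sub_nonneg.2 ‹_›) (by norm_num) | exact div_nonneg ‹_› (by norm_num)
  have he : ∑ i, (![(s1 - s2) / 1610612736, (s2 - s3) / 805306368, (s3 - d1) / 536870912, (d1 - d2) / 536870912, (d2 - e) / 536870912, e / 536870912] : Fin 6 → ℝ) i • wv ((![⟨1610612736, 0, 0, 0, 0, 1610612736, 0⟩, ⟨805306368, 805306368, 0, 0, 805306368, 805306368, 1278344175⟩, ⟨536870912, 536870912, 536870912, 536870912, 536870912, 536870912, 1352829926⟩, ⟨1073741824, 536870912, 536870912, 536870912, 536870912, 0, 1229127558⟩, ⟨1073741824, 1073741824, 536870912, 536870912, 0, 0, 1073741824⟩, ⟨1073741824, 1073741824,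 0, 1073741824, 0, 0, 0⟩] : Fin 6 → W) i) =
      ![s1 + d1, s2 + d2, s3 - e, s3 + e, s2 - d2, s1 - d1] := by
    funext k
    fin_cases k <;> simp [Fin.sum_univ_six, wv] <;> ring
  have h := hg _ hl
  rw [he] at h
  exact h hp

lemma root16 (hF : HF) (hL : HL) {s1 s2 s3 e d1 d2 : ℝ}
    (h0 : s2 ≤ s1) (h1 : s3 ≤ s2) (h2 : d2 ≤ s3) (h3 : d1 ≤ d2) (h4 : e ≤ d1) (h5 : 0 ≤ e)
    (hp : PD ![s1 + d1, s2 + d2, s3 + e, s3 - e, s2 - d2, s1 - d1]) :
    Lam Fp ≤ Lam ![s1 + d1, s2 + d2, s3 + e, s3 - e, s2 - d2, s1 - d1] := by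
  have hg := tp16_23 hF hL
  have hl : ∀ i, 0 ≤ (![(s1 - s2) / 1610612736, (s2 - s3) / 805306368, (s3 - d2) / 536870912, (d2 - d1) / 536870912, (d1 - e) / 536870912, e / 536870912] : Fin 6 → ℝ) i := by
    intro i
    fin_cases i <;> simp only [Fin.zero_eta, Fin.mk_one, Fin.reduceFinMk, Matrix.cons_val] <;>
      first | exact div_nonneg (sub_nonneg.2 ‹_›) (by norm_num) | exact div_nonneg ‹_› (by norm_num)
  have he : ∑ i, (![(s1 - s2) / 1610612736, (s2 - s3) / 805306368, (s3 - d2) / 536870912, (d2 - d1) / 536870912, (d1 - e) / 536870912, e / 536870912] : Fin 6 → ℝ) i • wv ((![⟨1610612736, 0, 0, 0, 0, 1610612736, 0⟩, ⟨805306368, 805306368, 0, 0, 805306368, 805306368, 1278344175⟩, ⟨536870912, 536870912, 536870912, 536870912, 536870912, 536870912, 1352829926⟩, ⟨536870912, 1073741824, 536870912, 536870912, 0, 536870912, 1229127558⟩, ⟨1073741824, 1073741824, 536870912, 536870912, 0, 0, 1073741824⟩, ⟨1073741824, 1073741824,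 1073741824, 0, 0, 0, 1073741824⟩] : Fin 6 → W) i) =
      ![s1 + d1, s2 + d2, s3 + e, s3 - e, s2 - d2, s1 - d1] := by
    funext k
    fin_cases k <;> simp [Fin.sum_univ_six, wv] <;> ring
  have h := hg _ hl
  rw [he] at h
  exact h hp

lemma root17 (hF : HF) (hL : HL) {s1 s2 s3 e d1 d2 : ℝ}
    (h0 : s2 ≤ s1) (h1 : s3 ≤ s2) (h2 : d2 ≤ s3) (h3 : d1 ≤ d2) (h4 : e ≤ d1) (h5 : 0 ≤ e)
    (hp : PD ![s1 + d1, s2 + d2, s3 - e, s3 + e, s2 - d2, s1 - d1]) :
    Lam Fp ≤ Lam ![s1 + d1, s2 + d2, s3 - e, s3 + e, s2 - d2, s1 - d1] := by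
  have hg := tp17_20 hF hL
  have hl : ∀ i, 0 ≤ (![(s1 - s2) / 1610612736, (s2 - s3) / 805306368, (s3 - d2) / 536870912, (d2 - d1) / 536870912, (d1 - e) / 536870912, e / 536870912] : Fin 6 → ℝ) i := by
    intro i
    fin_cases i <;> simp only [Fin.zero_eta, Fin.mk_one, Fin.reduceFinMk, Matrix.cons_val] <;>
      first | exact div_nonneg (sub_nonneg.2 ‹_›) (by norm_num) | exact div_nonneg ‹_› (by norm_num)
  have he : ∑ i, (![(s1 - s2) / 1610612736, (s2 - s3) / 805306368, (s3 - d2) / 536870912, (d2 - d1) / 536870912, (d1 - e) / 536870912, e / 536870912] : Fin 6 → ℝ) i • wv ((![⟨1610612736, 0, 0, 0, 0, 1610612736, 0⟩, ⟨805306368, 805306368, 0, 0, 805306368, 805306368, 1278344175⟩, ⟨536870912, 536870912, 536870912, 536870912, 536870912, 536870912, 1352829926⟩, ⟨536870912, 1073741824, 536870912, 536870912, 0, 536870912, 1229127558⟩, ⟨1073741824, 1073741824, 536870912, 536870912, 0, 0, 1073741824⟩, ⟨1073741824, 1073741824,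 0, 1073741824, 0, 0, 0⟩] : Fin 6 → W) i) =
      ![s1 + d1, s2 + d2, s3 - e, s3 + e, s2 - d2, s1 - d1] := by
    funext k
    fin_cases k <;> simp [Fin.sum_univ_six, wv] <;> ring
  have h := hg _ hl
  rw [he] at h
  exact h hp

lemma root18 (hF : HF) (hL : HL) {s1 s2 s3 e d1 d2 : ℝ}
    (h0 : s2 ≤ s1) (h1 : s3 ≤ s2) (h2 : d2 ≤ s3) (h3 : e ≤ d2) (h4 : d1 ≤ e) (h5 : 0 ≤ d1)
    (hp : PD ![s1 + d1, s2 + d2, s3 + e, s3 - e, s2 - d2, s1 - d1]) :
    Lam Fp ≤ Lam ![s1 + d1, s2 + d2, s3 + e, s3 - e, s2 - d2, s1 - d1] := by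
  have hg := tp18_19 hF hL
  have hl : ∀ i, 0 ≤ (![(s1 - s2) / 1610612736, (s2 - s3) / 805306368, (s3 - d2) / 536870912, (d2 - e) / 536870912, (e - d1) / 536870912, d1 / 536870912] : Fin 6 → ℝ) i := by
    intro i
    fin_cases i <;> simp only [Fin.zero_eta, Fin.mk_one, Fin.reduceFinMk, Matrix.cons_val] <;>
      first | exact div_nonneg (sub_nonneg.2 ‹_›) (by norm_num) | exact div_nonneg ‹_› (by norm_num)
  have he : ∑ i, (![(s1 - s2) / 1610612736, (s2 - s3) / 805306368, (s3 - d2) / 536870912, (d2 - e) / 536870912, (e - d1) / 536870912, d1 / 536870912] : Fin 6 → ℝ) i • wv ((![⟨1610612736, 0, 0, 0, 0, 1610612736, 0⟩, ⟨805306368, 805306368, 0, 0, 805306368, 805306368, 1278344175⟩, ⟨536870912, 536870912, 536870912, 536870912, 536870912, 536870912, 1352829926⟩, ⟨536870912, 1073741824, 536870912, 536870912, 0, 536870912, 1229127558⟩, ⟨536870912, 1073741824, 1073741824, 0, 0, 536870912, 1073741824⟩, ⟨1073741824, 1073741824,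 1073741824, 0, 0, 0, 1073741824⟩] : Fin 6 → W) i) =
      ![s1 + d1, s2 + d2, s3 + e, s3 - e, s2 - d2, s1 - d1] := by
    funext k
    fin_cases k <;> simp [Fin.sum_univ_six, wv] <;> ring
  have h := hg _ hl
  rw [he] at h
  exact h hp

lemma root19 (hF : HF) (hL : HL) {s1 s2 s3 e d1 d2 : ℝ}
    (h0 : s2 ≤ s1) (h1 : s3 ≤ s2) (h2 : d2 ≤ s3) (h3 : e ≤ d2) (h4 : d1 ≤ e) (h5 : 0 ≤ d1)
    (hp : PD ![s1 + d1, s2 + d2, s3 - e, s3 + e, s2 - d2, s1 - d1]) :
    Lam Fp ≤ Lam ![s1 + d1, s2 + d2, s3 - e, s3 + e, s2 - d2, s1 - d1] := by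
  have hg := tp19_17 hF hL
  have hl : ∀ i, 0 ≤ (![(s1 - s2) / 1610612736, (s2 - s3) / 805306368, (s3 - d2) / 536870912, (d2 - e) / 536870912, (e - d1) / 536870912, d1 / 536870912] : Fin 6 → ℝ) i := by
    intro i
    fin_cases i <;> simp only [Fin.zero_eta, Fin.mk_one, Fin.reduceFinMk, Matrix.cons_val] <;>
      first | exact div_nonneg (sub_nonneg.2 ‹_›) (by norm_num) | exact div_nonneg ‹_› (by norm_num)
  have he : ∑ i, (![(s1 - s2) / 1610612736, (s2 - s3) / 805306368, (s3 - d2) / 536870912, (d2 - e) / 536870912, (e - d1) / 536870912, d1 / 536870912] : Fin 6 → ℝ) i • wv ((![⟨1610612736, 0, 0, 0, 0, 1610612736, 0⟩, ⟨805306368, 805306368, 0, 0, 805306368, 805306368, 1278344175⟩, ⟨536870912, 536870912, 536870912, 536870912, 536870912, 536870912, 1352829926⟩, ⟨536870912, 1073741824, 536870912, 536870912, 0, 536870912, 1229127558⟩, ⟨536870912, 1073741824, 0, 1073741824, 0, 536870912, 1073741824⟩, ⟨1073741824, 1073741824,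 0, 1073741824, 0, 0, 0⟩] : Fin 6 → W) i) =
      ![s1 + d1, s2 + d2, s3 - e, s3 + e, s2 - d2, s1 - d1] := by
    funext k
    fin_cases k <;> simp [Fin.sum_univ_six, wv] <;> ring
  have h := hg _ hl
  rw [he] at h
  exact h hp

lemma root20 (hF : HF) (hL : HL) {s1 s2 s3 e d1 d2 : ℝ}
    (h0 : d1 ≤ s1) (h1 : s2 ≤ d1) (h2 : s3 ≤ s2) (h3 : e ≤ s3) (h4 : d2 ≤ e) (h5 : 0 ≤ d2)
    (hp : PD ![s1 + d1, s2 + d2, s3 + e, s3 - e, s2 - d2, s1 - d1]) :
    Lam Fp ≤ Lam ![s1 + d1, s2 + d2, s3 + e, s3 - e, s2 - d2, s1 - d1] := by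
  have hg := ch169 hF hL
  have hl : ∀ i, 0 ≤ (![(s1 - d1) / 1610612736, (d1 - s2) / 1610612736, (s2 - s3) / 805306368, (s3 - e) / 536870912, (e - d2) / 536870912, d2 / 536870912] : Fin 6 → ℝ) i := by
    intro i
    fin_cases i <;> simp only [Fin.zero_eta, Fin.mk_one, Fin.reduceFinMk, Matrix.cons_val] <;>
      first | exact div_nonneg (sub_nonneg.2 ‹_›) (by norm_num) | exact div_nonneg ‹_› (by norm_num)
  have he : ∑ i, (![(s1 - d1) / 1610612736, (d1 - s2) / 1610612736, (s2 - s3) / 805306368, (s3 - e) / 536870912, (e - d2) / 536870912, d2 / 536870912] : Fin 6 → ℝ) i • wv ((![⟨1610612736, 0, 0, 0, 0, 1610612736, 0⟩, ⟨3221225472, 0, 0, 0, 0, 0, 0⟩, ⟨1610612736, 805306368, 0, 0, 805306368, 0, 1014622444⟩, ⟨1073741824, 536870912, 536870912, 536870912, 536870912, 0, 1229127558⟩, ⟨1073741824, 536870912, 1073741824, 0, 536870912, 0, 1073741824⟩, ⟨1073741824, 1073741824, 1073741824, 0, 0, 0, 1073741824⟩] : Fin 6 →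 W) i) =
      ![s1 + d1, s2 + d2, s3 + e, s3 - e, s2 - d2, s1 - d1] := by
    funext k
    fin_cases k <;> simp [Fin.sum_univ_six, wv] <;> ring
  have h := hg _ hl
  rw [he] at h
  exact h hp

lemma root21 (hF : HF) (hL : HL) {s1 s2 s3 e d1 d2 : ℝ}
    (h0 : d1 ≤ s1) (h1 : s2 ≤ d1) (h2 : s3 ≤ s2) (h3 : e ≤ s3) (h4 : d2 ≤ e) (h5 : 0 ≤ d2)
    (hp : PD ![s1 + d1, s2 + d2, s3 - e, s3 + e, s2 - d2, s1 - d1]) :
    Lam Fp ≤ Lam ![s1 + d1, s2 + d2, s3 - e, s3 + e, s2 - d2, s1 - d1] := by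
  have hg := ch170 hF hL
  have hl : ∀ i, 0 ≤ (![(s1 - d1) / 1610612736, (d1 - s2) / 1610612736, (s2 - s3) / 805306368, (s3 - e) / 536870912, (e - d2) / 536870912, d2 / 536870912] : Fin 6 → ℝ) i := by
    intro i
    fin_cases i <;> simp only [Fin.zero_eta, Fin.mk_one, Fin.reduceFinMk, Matrix.cons_val] <;>
      first | exact div_nonneg (sub_nonneg.2 ‹_›) (by norm_num) | exact div_nonneg ‹_› (by norm_num)
  have he : ∑ i, (![(s1 - d1) / 1610612736, (d1 - s2) / 1610612736, (s2 - s3) / 805306368, (s3 - e) / 536870912, (e - d2) / 536870912, d2 / 536870912] : Fin 6 → ℝ) i • wv ((![⟨1610612736, 0, 0, 0, 0, 1610612736, 0⟩, ⟨3221225472, 0, 0, 0, 0, 0, 0⟩, ⟨1610612736, 805306368, 0, 0, 805306368, 0, 1014622444⟩, ⟨1073741824, 536870912, 536870912, 536870912, 536870912, 0, 1229127558⟩, ⟨1073741824, 536870912, 0, 1073741824, 536870912, 0, 1073741824⟩, ⟨1073741824, 1073741824, 0, 1073741824, 0, 0, 0⟩] : Fin 6 → W) i) =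
      ![s1 + d1, s2 + d2, s3 - e, s3 + e, s2 - d2, s1 - d1] := by
    funext k
    fin_cases k <;> simp [Fin.sum_univ_six, wv] <;> ring
  have h := hg _ hl
  rw [he] at h
  exact h hp

lemma root22 (hF : HF) (hL : HL) {s1 s2 s3 e d1 d2 : ℝ}
    (h0 : s2 ≤ s1) (h1 : d1 ≤ s2) (h2 : s3 ≤ d1) (h3 : e ≤ s3) (h4 : d2 ≤ e) (h5 : 0 ≤ d2)
    (hp : PD ![s1 + d1, s2 + d2, s3 + e, s3 - e, s2 - d2, s1 - d1]) :
    Lam Fp ≤ Lam ![s1 + d1, s2 + d2, s3 + e, s3 - e, s2 - d2, s1 - d1] := by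
  have hg := tp22_3 hF hL
  have hl : ∀ i, 0 ≤ (![(s1 - s2) / 1610612736, (s2 - d1) / 805306368, (d1 - s3) / 805306368, (s3 - e) / 536870912, (e - d2) / 536870912, d2 / 536870912] : Fin 6 → ℝ) i := by
    intro i
    fin_cases i <;> simp only [Fin.zero_eta, Fin.mk_one, Fin.reduceFinMk, Matrix.cons_val] <;>
      first | exact div_nonneg (sub_nonneg.2 ‹_›) (by norm_num) | exact div_nonneg ‹_› (by norm_num)
  have he : ∑ i, (![(s1 - s2) / 1610612736, (s2 - d1) / 805306368, (d1 - s3) / 805306368, (s3 - e) / 536870912, (e - d2) / 536870912, d2 / 536870912] : Fin 6 → ℝ) i • wv ((![⟨1610612736, 0, 0, 0, 0, 1610612736, 0⟩, ⟨805306368, 805306368, 0, 0, 805306368, 805306368, 1278344175⟩, ⟨1610612736, 805306368, 0, 0, 805306368, 0, 1014622444⟩, ⟨1073741824, 536870912, 536870912, 536870912, 536870912, 0, 1229127558⟩, ⟨1073741824, 536870912, 1073741824, 0, 536870912, 0, 1073741824⟩, ⟨1073741824, 1073741824, 1073741824, 0,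 0, 0, 1073741824⟩] : Fin 6 → W) i) =
      ![s1 + d1, s2 + d2, s3 + e, s3 - e, s2 - d2, s1 - d1] := by
    funext k
    fin_cases k <;> simp [Fin.sum_univ_six, wv] <;> ring
  have h := hg _ hl
  rw [he] at h
  exact h hp

lemma root23 (hF : HF) (hL : HL) {s1 s2 s3 e d1 d2 : ℝ}
    (h0 : s2 ≤ s1) (h1 : d1 ≤ s2) (h2 : s3 ≤ d1) (h3 : e ≤ s3) (h4 : d2 ≤ e) (h5 : 0 ≤ d2)
    (hp : PD ![s1 + d1, s2 + d2, s3 - e, s3 + e, s2 - d2, s1 - d1]) :
    Lam Fp ≤ Lam ![s1 + d1, s2 + d2, s3 - e, s3 + e, s2 - d2, s1 - d1] := by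
  have hg := tp23_2 hF hL
  have hl : ∀ i, 0 ≤ (![(s1 - s2) / 1610612736, (s2 - d1) / 805306368, (d1 - s3) / 805306368, (s3 - e) / 536870912, (e - d2) / 536870912, d2 / 536870912] : Fin 6 → ℝ) i := by
    intro i
    fin_cases i <;> simp only [Fin.zero_eta, Fin.mk_one, Fin.reduceFinMk, Matrix.cons_val] <;>
      first | exact div_nonneg (sub_nonneg.2 ‹_›) (by norm_num) | exact div_nonneg ‹_› (by norm_num)
  have he : ∑ i, (![(s1 - s2) / 1610612736, (s2 - d1) / 805306368, (d1 - s3) / 805306368, (s3 - e) / 536870912, (e - d2) / 536870912, d2 / 536870912] : Fin 6 → ℝ) i • wv ((![⟨1610612736, 0, 0, 0, 0, 1610612736, 0⟩, ⟨805306368, 805306368, 0, 0, 805306368, 805306368, 1278344175⟩, ⟨1610612736, 805306368, 0, 0, 805306368, 0, 1014622444⟩, ⟨1073741824, 536870912, 536870912, 536870912, 536870912, 0, 1229127558⟩, ⟨1073741824, 536870912, 0, 1073741824, 536870912, 0, 1073741824⟩, ⟨1073741824, 1073741824, 0, 1073741824,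 0, 0, 0⟩] : Fin 6 → W) i) =
      ![s1 + d1, s2 + d2, s3 - e, s3 + e, s2 - d2, s1 - d1] := by
    funext k
    fin_cases k <;> simp [Fin.sum_univ_six, wv] <;> ring
  have h := hg _ hl
  rw [he] at h
  exact h hp

lemma root24 (hF : HF) (hL : HL) {s1 s2 s3 e d1 d2 : ℝ}
    (h0 : s2 ≤ s1) (h1 : s3 ≤ s2) (h2 : d1 ≤ s3) (h3 : e ≤ d1) (h4 : d2 ≤ e) (h5 : 0 ≤ d2)
    (hp : PD ![s1 + d1, s2 + d2, s3 + e, s3 - e, s2 - d2, s1 - d1]) :
    Lam Fp ≤ Lam ![s1 + d1, s2 + d2, s3 + e, s3 - e, s2 - d2, s1 - d1] := by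
  have hg := tp24_19 hF hL
  have hl : ∀ i, 0 ≤ (![(s1 - s2) / 1610612736, (s2 - s3) / 805306368, (s3 - d1) / 536870912, (d1 - e) / 536870912, (e - d2) / 536870912, d2 / 536870912] : Fin 6 → ℝ) i := by
    intro i
    fin_cases i <;> simp only [Fin.zero_eta, Fin.mk_one, Fin.reduceFinMk, Matrix.cons_val] <;>
      first | exact div_nonneg (sub_nonneg.2 ‹_›) (by norm_num) | exact div_nonneg ‹_› (by norm_num)
  have he : ∑ i, (![(s1 - s2) / 1610612736, (s2 - s3) / 805306368, (s3 - d1) / 536870912, (d1 - e) / 536870912, (e - d2) / 536870912, d2 / 536870912] : Fin 6 → ℝ) i • wv ((![⟨1610612736, 0, 0, 0, 0, 1610612736, 0⟩, ⟨805306368, 805306368, 0, 0, 805306368, 805306368, 1278344175⟩, ⟨536870912, 536870912, 536870912, 536870912, 536870912, 536870912, 1352829926⟩, ⟨1073741824, 536870912, 536870912, 536870912, 536870912, 0, 1229127558⟩, ⟨1073741824, 536870912, 1073741824, 0, 536870912, 0, 1073741824⟩, ⟨1073741824, 1073741824,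 1073741824, 0, 0, 0, 1073741824⟩] : Fin 6 → W) i) =
      ![s1 + d1, s2 + d2, s3 + e, s3 - e, s2 - d2, s1 - d1] := by
    funext k
    fin_cases k <;> simp [Fin.sum_univ_six, wv] <;> ring
  have h := hg _ hl
  rw [he] at h
  exact h hp

lemma root25 (hF : HF) (hL : HL) {s1 s2 s3 e d1 d2 : ℝ}
    (h0 : s2 ≤ s1) (h1 : s3 ≤ s2) (h2 : d1 ≤ s3) (h3 : e ≤ d1) (h4 : d2 ≤ e) (h5 : 0 ≤ d2)
    (hp : PD ![s1 + d1, s2 + d2, s3 - e, s3 + e, s2 - d2, s1 - d1]) :
    Lam Fp ≤ Lam ![s1 + d1, s2 + d2, s3 - e, s3 + e, s2 - d2, s1 - d1] := by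
  have hg := tp25_20 hF hL
  have hl : ∀ i, 0 ≤ (![(s1 - s2) / 1610612736, (s2 - s3) / 805306368, (s3 - d1) / 536870912, (d1 - e) / 536870912, (e - d2) / 536870912, d2 / 536870912] : Fin 6 → ℝ) i := by
    intro i
    fin_cases i <;> simp only [Fin.zero_eta, Fin.mk_one, Fin.reduceFinMk, Matrix.cons_val] <;>
      first | exact div_nonneg (sub_nonneg.2 ‹_›) (by norm_num) | exact div_nonneg ‹_› (by norm_num)
  have he : ∑ i, (![(s1 - s2) / 1610612736, (s2 - s3) / 805306368, (s3 - d1) / 536870912, (d1 - e) / 536870912, (e - d2) / 536870912, d2 / 536870912] : Fin 6 → ℝ) i • wv ((![⟨1610612736, 0, 0, 0, 0, 1610612736, 0⟩, ⟨805306368, 805306368, 0, 0, 805306368, 805306368, 1278344175⟩, ⟨536870912, 536870912, 536870912, 536870912, 536870912, 536870912, 1352829926⟩, ⟨1073741824, 536870912, 536870912, 536870912, 536870912, 0, 1229127558⟩, ⟨1073741824, 536870912, 0, 1073741824, 536870912, 0, 1073741824⟩, ⟨1073741824, 1073741824,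 0, 1073741824, 0, 0, 0⟩] : Fin 6 → W) i) =
      ![s1 + d1, s2 + d2, s3 - e, s3 + e, s2 - d2, s1 - d1] := by
    funext k
    fin_cases k <;> simp [Fin.sum_univ_six, wv] <;> ring
  have h := hg _ hl
  rw [he] at h
  exact h hp

lemma root26 (hF : HF) (hL : HL) {s1 s2 s3 e d1 d2 : ℝ}
    (h0 : s2 ≤ s1) (h1 : s3 ≤ s2) (h2 : e ≤ s3) (h3 : d1 ≤ e) (h4 : d2 ≤ d1) (h5 : 0 ≤ d2)
    (hp : PD ![s1 + d1, s2 + d2, s3 + e, s3 - e, s2 - d2, s1 - d1]) :
    Lam Fp ≤ Lam ![s1 + d1, s2 + d2, s3 + e, s3 - e, s2 - d2, s1 - d1] := by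
  have hg := tp26_31 hF hL
  have hl : ∀ i, 0 ≤ (![(s1 - s2) / 1610612736, (s2 - s3) / 805306368, (s3 - e) / 536870912, (e - d1) / 536870912, (d1 - d2) / 536870912, d2 / 536870912] : Fin 6 → ℝ) i := by
    intro i
    fin_cases i <;> simp only [Fin.zero_eta, Fin.mk_one, Fin.reduceFinMk, Matrix.cons_val] <;>
      first | exact div_nonneg (sub_nonneg.2 ‹_›) (by norm_num) | exact div_nonneg ‹_› (by norm_num)
  have he : ∑ i, (![(s1 - s2) / 1610612736, (s2 - s3) / 805306368, (s3 - e) / 536870912, (e - d1) / 536870912, (d1 - d2) / 536870912, d2 / 536870912] : Fin 6 → ℝ) i • wv ((![⟨1610612736, 0, 0, 0, 0, 1610612736, 0⟩, ⟨805306368, 805306368, 0, 0, 805306368, 805306368, 1278344175⟩, ⟨536870912, 536870912, 536870912, 536870912, 536870912, 536870912, 1352829926⟩, ⟨536870912, 536870912, 1073741824, 0, 536870912, 536870912, 1229127558⟩, ⟨1073741824, 536870912, 1073741824, 0, 536870912, 0, 1073741824⟩, ⟨1073741824, 1073741824,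 1073741824, 0, 0, 0, 1073741824⟩] : Fin 6 → W) i) =
      ![s1 + d1, s2 + d2, s3 + e, s3 - e, s2 - d2, s1 - d1] := by
    funext k
    fin_cases k <;> simp [Fin.sum_univ_six, wv] <;> ring
  have h := hg _ hl
  rw [he] at h
  exact h hp

lemma root27 (hF : HF) (hL : HL) {s1 s2 s3 e d1 d2 : ℝ}
    (h0 : s2 ≤ s1) (h1 : s3 ≤ s2) (h2 : e ≤ s3) (h3 : d1 ≤ e) (h4 : d2 ≤ d1) (h5 : 0 ≤ d2)
    (hp : PD ![s1 + d1, s2 + d2, s3 - e, s3 + e, s2 - d2, s1 - d1]) :
    Lam Fp ≤ Lam ![s1 + d1, s2 + d2, s3 - e, s3 + e, s2 - d2, s1 - d1] := by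
  have hg := tp27_36 hF hL
  have hl : ∀ i, 0 ≤ (![(s1 - s2) / 1610612736, (s2 - s3) / 805306368, (s3 - e) / 536870912, (e - d1) / 536870912, (d1 - d2) / 536870912, d2 / 536870912] : Fin 6 → ℝ) i := by
    intro i
    fin_cases i <;> simp only [Fin.zero_eta, Fin.mk_one, Fin.reduceFinMk, Matrix.cons_val] <;>
      first | exact div_nonneg (sub_nonneg.2 ‹_›) (by norm_num) | exact div_nonneg ‹_› (by norm_num)
  have he : ∑ i, (![(s1 - s2) / 1610612736, (s2 - s3) / 805306368, (s3 - e) / 536870912, (e - d1) / 536870912, (d1 - d2) / 536870912, d2 / 536870912] : Fin 6 → ℝ) i • wv ((![⟨1610612736, 0, 0, 0, 0, 1610612736, 0⟩, ⟨805306368, 805306368, 0, 0, 805306368, 805306368, 1278344175⟩, ⟨536870912, 536870912, 536870912, 536870912, 536870912, 536870912, 1352829926⟩, ⟨536870912, 536870912, 0, 1073741824, 536870912, 536870912, 1229127558⟩, ⟨1073741824, 536870912, 0, 1073741824, 536870912, 0, 1073741824⟩, ⟨1073741824, 1073741824,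 0, 1073741824, 0, 0, 0⟩] : Fin 6 → W) i) =
      ![s1 + d1, s2 + d2, s3 - e, s3 + e, s2 - d2, s1 - d1] := by
    funext k
    fin_cases k <;> simp [Fin.sum_univ_six, wv] <;> ring
  have h := hg _ hl
  rw [he] at h
  exact h hp

lemma root28 (hF : HF) (hL : HL) {s1 s2 s3 e d1 d2 : ℝ}
    (h0 : s2 ≤ s1) (h1 : s3 ≤ s2) (h2 : e ≤ s3) (h3 : d2 ≤ e) (h4 : d1 ≤ d2) (h5 : 0 ≤ d1)
    (hp : PD ![s1 + d1, s2 + d2, s3 + e, s3 - e, s2 - d2, s1 - d1]) :
    Lam Fp ≤ Lam ![s1 + d1, s2 + d2, s3 + e, s3 - e, s2 - d2, s1 - d1] := by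
  have hg := tp28_29 hF hL
  have hl : ∀ i, 0 ≤ (![(s1 - s2) / 1610612736, (s2 - s3) / 805306368, (s3 - e) / 536870912, (e - d2) / 536870912, (d2 - d1) / 536870912, d1 / 536870912] : Fin 6 → ℝ) i := by
    intro i
    fin_cases i <;> simp only [Fin.zero_eta, Fin.mk_one, Fin.reduceFinMk, Matrix.cons_val] <;>
      first | exact div_nonneg (sub_nonneg.2 ‹_›) (by norm_num) | exact div_nonneg ‹_› (by norm_num)
  have he : ∑ i, (![(s1 - s2) / 1610612736, (s2 - s3) / 805306368, (s3 - e) / 536870912, (e - d2) / 536870912, (d2 - d1) / 536870912, d1 / 536870912] : Fin 6 → ℝ) i • wv ((![⟨1610612736, 0, 0, 0, 0, 1610612736, 0⟩, ⟨805306368, 805306368, 0, 0, 805306368, 805306368, 1278344175⟩, ⟨536870912, 536870912, 536870912, 536870912, 536870912, 536870912, 1352829926⟩, ⟨536870912, 536870912, 1073741824, 0, 536870912, 536870912, 1229127558⟩, ⟨536870912, 1073741824, 1073741824, 0, 0, 536870912, 1073741824⟩, ⟨1073741824, 1073741824,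 1073741824, 0, 0, 0, 1073741824⟩] : Fin 6 → W) i) =
      ![s1 + d1, s2 + d2, s3 + e, s3 - e, s2 - d2, s1 - d1] := by
    funext k
    fin_cases k <;> simp [Fin.sum_univ_six, wv] <;> ring
  have h := hg _ hl
  rw [he] at h
  exact h hp

lemma root29 (hF : HF) (hL : HL) {s1 s2 s3 e d1 d2 : ℝ}
    (h0 : s2 ≤ s1) (h1 : s3 ≤ s2) (h2 : e ≤ s3) (h3 : d2 ≤ e) (h4 : d1 ≤ d2) (h5 : 0 ≤ d1)
    (hp : PD ![s1 + d1, s2 + d2, s3 - e, s3 + e, s2 - d2, s1 - d1]) :
    Lam Fp ≤ Lam ![s1 + d1, s2 + d2, s3 - e, s3 + e, s2 - d2, s1 - d1] := by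
  have hg := tp29_33 hF hL
  have hl : ∀ i, 0 ≤ (![(s1 - s2) / 1610612736, (s2 - s3) / 805306368, (s3 - e) / 536870912, (e - d2) / 536870912, (d2 - d1) / 536870912, d1 / 536870912] : Fin 6 → ℝ) i := by
    intro i
    fin_cases i <;> simp only [Fin.zero_eta, Fin.mk_one, Fin.reduceFinMk, Matrix.cons_val] <;>
      first | exact div_nonneg (sub_nonneg.2 ‹_›) (by norm_num) | exact div_nonneg ‹_› (by norm_num)
  have he : ∑ i, (![(s1 - s2) / 1610612736, (s2 - s3) / 805306368, (s3 - e) / 536870912, (e - d2) / 536870912, (d2 - d1) / 536870912, d1 / 536870912] : Fin 6 → ℝ) i • wv ((![⟨1610612736, 0, 0, 0, 0, 1610612736, 0⟩, ⟨805306368, 805306368, 0, 0, 805306368, 805306368, 1278344175⟩, ⟨536870912, 536870912, 536870912, 536870912, 536870912, 536870912, 1352829926⟩, ⟨536870912, 536870912, 0, 1073741824, 536870912, 536870912, 1229127558⟩, ⟨536870912, 1073741824, 0, 1073741824, 0, 536870912, 1073741824⟩, ⟨1073741824, 1073741824,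 0, 1073741824, 0, 0, 0⟩] : Fin 6 → W) i) =
      ![s1 + d1, s2 + d2, s3 - e, s3 + e, s2 - d2, s1 - d1] := by
    funext k
    fin_cases k <;> simp [Fin.sum_univ_six, wv] <;> ring
  have h := hg _ hl
  rw [he] at h
  exact h hp

/-- the energy inequality on the reduced cone -/
theorem cone_all (hF : HF) (hL : HL) {s1 s2 s3 d3 d1 d2 : ℝ} (h12 : s2 ≤ s1) (h23 : s3 ≤ s2)
    (h3 : d3 ≤ s3) (h3' : -d3 ≤ s3) (p1 : 0 ≤ d1) (h1 : d1 ≤ s1) (p2 : 0 ≤ d2) (h2 : d2 ≤ s2)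
    (hp : PD ![s1 + d1, s2 + d2, s3 + d3, s3 - d3, s2 - d2, s1 - d1]) :
    Lam Fp ≤ Lam ![s1 + d1, s2 + d2, s3 + d3, s3 - d3, s2 - d2, s1 - d1] := by
  rcases le_total 0 d3 with p3 | p3
  · have pe := p3
    have h3e := h3
    rcases le_total s3 d2 with t1 | t1
    · skip
      rcases le_total s2 d1 with q1 | q1
      · skip
        exact root0 hF hL h1 q1 h2 t1 h3e pe hp
      · skip
        rcases le_total d2 d1 with q2 | q2
        · skip
          exact root2 hF hL h12 q1 q2 t1 h3e pe hp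
        · skip
          rcases le_total s3 d1 with q3 | q3
          · skip
            exact root4 hF hL h12 h2 q2 q3 h3e pe hp
          · skip
            rcases le_total d3 d1 with q4 | q4
            · skip
              exact root6 hF hL h12 h2 t1 q3 q4 pe hp
            · skip
              exact root8 hF hL h12 h2 t1 h3e q4 p1 hp
    · rcases le_total d3 d2 with t2 | t2
      · skip
        rcases le_total s2 d1 with q1 | q1
        · skip
          exact root10 hF hL h1 q1 h23 t1 t2 pe hp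
        · skip
          rcases le_total s3 d1 with q2 | q2
          · skip
            exact root12 hF hL h12 q1 q2 t1 t2 pe hp
          · skip
            rcases le_total d2 d1 with q3 | q3
            · skip
              exact root14 hF hL h12 h23 q2 q3 t2 pe hp
            · skip
              rcases le_total d3 d1 with q4 | q4
              · skip
                exact root16 hF hL h12 h23 t1 q3 q4 pe hp
              · skip
                exact root18 hF hL h12 h23 t1 t2 q4 p1 hp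
      · skip
        rcases le_total s2 d1 with q1 | q1
        · skip
          exact root20 hF hL h1 q1 h23 h3e t2 p2 hp
        · skip
          rcases le_total s3 d1 with q2 | q2
          · skip
            exact root22 hF hL h12 q1 q2 h3e t2 p2 hp
          · skip
            rcases le_total d3 d1 with q3 | q3
            · skip
              exact root24 hF hL h12 h23 q2 q3 t2 p2 hp
            · skip
              rcases le_total d2 d1 with q4 | q4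
              · skip
                exact root26 hF hL h12 h23 h3e q3 q4 p2 hp
              · skip
                exact root28 hF hL h12 h23 h3e t2 q4 p1 hp
  · obtain ⟨e, he⟩ : ∃ e, e = -d3 := ⟨_, rfl⟩
    have hd : d3 = -e := by rw [he, neg_neg]
    rw [hd] at hp ⊢
    have pe : 0 ≤ e := by rw [he]; linarith
    have h3e : e ≤ s3 := by rw [he]; exact h3'
    rw [← sub_eq_add_neg, sub_neg_eq_add] at hp ⊢
    rcases le_total s3 d2 with t1 | t1
    · skip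
      rcases le_total s2 d1 with q1 | q1
      · skip
        exact root1 hF hL h1 q1 h2 t1 h3e pe hp
      · skip
        rcases le_total d2 d1 with q2 | q2
        · skip
          exact root3 hF hL h12 q1 q2 t1 h3e pe hp
        · skip
          rcases le_total s3 d1 with q3 | q3
          · skip
            exact root5 hF hL h12 h2 q2 q3 h3e pe hp
          · skip
            rcases le_total e d1 with q4 | q4
            · skip
              exact root7 hF hL h12 h2 t1 q3 q4 pe hp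
            · skip
              exact root9 hF hL h12 h2 t1 h3e q4 p1 hp
    · rcases le_total e d2 with t2 | t2
      · skip
        rcases le_total s2 d1 with q1 | q1
        · skip
          exact root11 hF hL h1 q1 h23 t1 t2 pe hp
        · skip
          rcases le_total s3 d1 with q2 | q2
          · skip
            exact root13 hF hL h12 q1 q2 t1 t2 pe hp
          · skip
            rcases le_total d2 d1 with q3 | q3
            · skip
              exact root15 hF hL h12 h23 q2 q3 t2 pe hp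
            · skip
              rcases le_total e d1 with q4 | q4
              · skip
                exact root17 hF hL h12 h23 t1 q3 q4 pe hp
              · skip
                exact root19 hF hL h12 h23 t1 t2 q4 p1 hp
      · skip
        rcases le_total s2 d1 with q1 | q1
        · skip
          exact root21 hF hL h1 q1 h23 h3e t2 p2 hp
        · skip
          rcases le_total s3 d1 with q2 | q2
          · skip
            exact root23 hF hL h12 q1 q2 h3e t2 p2 hp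
          · skip
            rcases le_total e d1 with q3 | q3
            · skip
              exact root25 hF hL h12 h23 q2 q3 t2 p2 hp
            · skip
              rcases le_total d2 d1 with q4 | q4
              · skip
                exact root27 hF hL h12 h23 h3e q3 q4 p2 hp
              · skip
                exact root29 hF hL h12 h23 h3e t2 q4 p1 hp

end Pool.Agent.K1H99.FCC
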