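import Pool.Agent.K1H99.FCC.Sup

/-!
# Selling reduction of ternary forms
-/

set_option autoImplicit false

open Matrix

namespace Pool.Agent.K1H99.FCC

/-- real version of an integral matrix -/
def rm (U : Matrix (Fin 3) (Fin 3) ℤ) : Matrix (Fin 3) (Fin 3) ℝ := U.map (Int.cast : ℤ → ℝ)

lemma rm_mul (U V : Matrix (Fin 3) (Fin 3) ℤ) : rm (U * V) = rm U * rm V := by
  unfold rm
  exact Matrix.map_mul (f := Int.castRingHom ℝ)

lemma rm_one : rm 1 = 1 := by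
  unfold rm
  exact Matrix.map_one _ Int.cast_zero Int.cast_one

lemma rm_det (U : Matrix (Fin 3) (Fin 3) ℤ) : (rm U).det = (U.det : ℝ) := by
  unfold rm
  exact (Int.cast_det U).symm

/-- `p` is the parameter vector of a basis of the lattice of `A` -/
def Rep (A : Matrix (Fin 3) (Fin 3) ℝ) (p : Fin 6 → ℝ) : Prop :=
  ∃ U : Matrix (Fin 3) (Fin 3) ℤ, IsUnit U.det ∧ (A * rm U)ᵀ * (A * rm U) = Qm p

/-- change of basis -/
lemma Rep.trans {A : Matrix (Fin 3) (Fin 3) ℝ} {p q : Fin 6 → ℝ} (h : Rep A p)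
    (M : Matrix (Fin 3) (Fin 3) ℤ) (hM : IsUnit M.det) (hq : (rm M)ᵀ * Qm p * rm M = Qm q) :
    Rep A q := by
  obtain ⟨U, hU, e⟩ := h
  refine ⟨U * M, ?_, ?_⟩
  · rw [Matrix.det_mul]
    exact hU.mul hM
  · rw [rm_mul, ← hq, ← e, ← Matrix.mul_assoc A, Matrix.transpose_mul (A * rm U)]
    simp only [Matrix.mul_assoc]

/-- the parameters of a basis -/
def par (G : Matrix (Fin 3) (Fin 3) ℝ) : Fin 6 → ℝ :=
  ![G 0 0 + G 0 1 + G 0 2, G 1 1 + G 0 1 + G 1 2, G 2 2 + G 0 2 + G 1 2, -G 0 1, -G 0 2, -G 1 2]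

lemma Qm_par (B : Matrix (Fin 3) (Fin 3) ℝ) : Qm (par (Bᵀ * B)) = Bᵀ * B := by
  have hs : ∀ i j, (Bᵀ * B) i j = (Bᵀ * B) j i := by
    intro i j
    simp only [Matrix.mul_apply, Matrix.transpose_apply]
    exact Finset.sum_congr rfl fun k _ => mul_comm _ _
  generalize Bᵀ * B = G at hs ⊢
  unfold Qm par
  ext i j
  fin_cases i <;> fin_cases j <;> simp [hs 1 0, hs 2 0, hs 2 1] <;> ring

/-- the quantity to be minimised -/
def tot (p : Fin 6 → ℝ) : ℝ := p 0 + p 1 + p 2 + p 3 + p 4 + p 5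

lemma par_Qm (p : Fin 6 → ℝ) : par (Qm p) = p := by
  unfold par Qm
  funext i
  fin_cases i <;> simp <;> ring

lemma tot_par (A : Matrix (Fin 3) (Fin 3) ℝ) (U : Matrix (Fin 3) (Fin 3) ℤ) :
    2 * tot (par ((A * rm U)ᵀ * (A * rm U))) = (∑ j, nsq A (rv fun i => U i j)) +
      nsq A (rv fun i => U i 0 + U i 1 + U i 2) := by
  unfold tot par nsq rm rv
  simp [Matrix.mul_apply, Matrix.mulVec, dotProduct, Fin.sum_univ_three, Matrix.transpose_apply]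
  ring

lemma exists_min (A : Matrix (Fin 3) (Fin 3) ℝ) (hA : A.det ≠ 0) :
    ∃ p, Rep A p ∧ ∀ q, Rep A q → tot p ≤ tot q := by
  have hu : IsUnit A.det := isUnit_iff_ne_zero.2 hA
  have hBA : (A⁻¹ᵀ)ᵀ * A = 1 := by
    rw [Matrix.transpose_transpose, Matrix.nonsing_inv_mul _ hu]
  obtain ⟨c, hc, hlow⟩ := nsq_ge hBA
  set f : Matrix (Fin 3) (Fin 3) ℤ → ℝ := fun U => tot (par ((A * rm U)ᵀ * (A * rm U))) with hf
  set S : Set (Matrix (Fin 3) (Fin 3) ℤ) := {U | IsUnit U.det ∧ f U ≤ f 1} with hS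
  have hfin : S.Finite := by
    obtain ⟨N, hN⟩ := exists_nat_gt (2 * f 1 / c)
    have h1 : (Set.pi Set.univ fun _ : Fin 3 => Set.pi Set.univ fun _ : Fin 3 =>
        Set.Icc (-((N : ℤ) + 1)) (N + 1)).Finite :=
      Set.Finite.pi fun _ => Set.Finite.pi fun _ => Set.finite_Icc _ _
    refine Set.Finite.subset h1 fun U hU => ?_
    have h2 : ∀ i j, |U i j| ≤ (N : ℤ) + 1 := by
      intro i j
      have h3 : nsq A (rv fun i => U i j) ≤ 2 * f 1 := by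
        have h4 := tot_par A U
        have h5 : nsq A (rv fun i => U i j) ≤ ∑ j, nsq A (rv fun i => U i j) :=
          Finset.single_le_sum (f := fun j => nsq A (rv fun i => U i j))
            (fun j _ => nsq_nonneg _ _) (Finset.mem_univ j)
        have h6 := nsq_nonneg A (rv fun i => U i 0 + U i 1 + U i 2)
        have h7 := hU.2
        simp only [hf] at h7 ⊢
        linarith
      have h4 := hlow (rv fun i => U i j)
      have h5 : |(U i j : ℝ)| ≤ ‖rv fun i => U i j‖ := by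
        have := norm_le_pi_norm (rv fun i => U i j) i
        rwa [Real.norm_eq_abs] at this
      have h6 : (U i j : ℝ) ^ 2 ≤ N := by
        have h7 : (U i j : ℝ) ^ 2 ≤ ‖rv fun i => U i j‖ ^ 2 := by
          rw [← sq_abs]
          exact pow_le_pow_left₀ (abs_nonneg _) h5 2
        have h8 : c * (U i j : ℝ) ^ 2 ≤ 2 * f 1 := by nlinarith
        have h9 : (U i j : ℝ) ^ 2 ≤ 2 * f 1 / c := by
          rw [le_div_iff₀ hc]
          linarith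
        linarith
      have h10 : (|U i j|) ^ 2 ≤ (N : ℤ) := by
        rw [sq_abs]
        exact_mod_cast h6
      nlinarith [abs_nonneg (U i j)]
    rw [Set.mem_univ_pi]
    intro i
    rw [Set.mem_univ_pi]
    intro j
    rw [Set.mem_Icc, ← abs_le]
    exact h2 i j
  have hne : S.Nonempty := ⟨1, by rw [Matrix.det_one]; exact isUnit_one, le_rfl⟩
  obtain ⟨U, hU, hmin⟩ := Set.exists_min_image S f hfin hne
  refine ⟨par ((A * rm U)ᵀ * (A * rm U)), ⟨U, hU.1, (Qm_par _).symm⟩, ?_⟩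
  rintro q ⟨V, hV, e⟩
  have e2 : q = par ((A * rm V)ᵀ * (A * rm V)) := by rw [e, par_Qm]
  rw [e2]
  by_cases h : f V ≤ f 1
  · exact hmin V ⟨hV, h⟩
  · push Not at h
    exact hU.2.trans h.le

lemma rep_flip {A : Matrix (Fin 3) (Fin 3) ℝ} {p : Fin 6 → ℝ} (h : Rep A p) :
    Rep A ![-p 0, p 1 + p 0, p 2 + p 0, p 0 + p 4, p 0 + p 3, p 5 - p 0] ∧
    Rep A ![p 0 + p 1, -p 1, p 2 + p 1, p 1 + p 5, p 4 - p 1, p 1 + p 3] ∧
    Rep A ![p 0 + p 2, p 1 + p 2, -p 2, p 3 - p 2, p 2 + p 5, p 2 + p 4] ∧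
    Rep A ![p 3 + p 4, p 1 + p 3, p 2 - p 3, -p 3, p 3 + p 0, p 5 + p 3] ∧
    Rep A ![p 4 + p 3, p 1 - p 4, p 2 + p 4, p 4 + p 0, -p 4, p 5 + p 4] ∧
    Rep A ![p 0 - p 5, p 5 + p 3, p 2 + p 5, p 5 + p 1, p 4 + p 5, -p 5] := by
  refine ⟨?_, ?_, ?_, ?_, ?_, ?_⟩
  · refine h.trans !![-1, 1, 1; 0, 1, 0; 0, 0, 1] (by decide) ?_
    unfold rm Qm
    ext i j
    fin_cases i <;> fin_cases j <;>
      simp [Matrix.mul_apply, Fin.sum_univ_three] <;> ring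
  · refine h.trans !![1, 0, 0; 1, -1, 1; 0, 0, 1] (by decide) ?_
    unfold rm Qm
    ext i j
    fin_cases i <;> fin_cases j <;>
      simp [Matrix.mul_apply, Fin.sum_univ_three] <;> ring
  · refine h.trans !![1, 0, 0; 0, 1, 0; 1, 1, -1] (by decide) ?_
    unfold rm Qm
    ext i j
    fin_cases i <;> fin_cases j <;>
      simp [Matrix.mul_apply, Fin.sum_univ_three] <;> ring
  · refine h.trans !![-1, 0, 1; 0, 1, 0; 0, 0, 1] (by decide) ?_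
    unfold rm Qm
    ext i j
    fin_cases i <;> fin_cases j <;>
      simp [Matrix.mul_apply, Fin.sum_univ_three] <;> ring
  · refine h.trans !![-1, 1, 0; 0, 1, 0; 0, 0, 1] (by decide) ?_
    unfold rm Qm
    ext i j
    fin_cases i <;> fin_cases j <;>
      simp [Matrix.mul_apply, Fin.sum_univ_three] <;> ring
  · refine h.trans !![1, 0, 0; 1, -1, 0; 0, 0, 1] (by decide) ?_
    unfold rm Qm
    ext i j
    fin_cases i <;> fin_cases j <;>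
      simp [Matrix.mul_apply, Fin.sum_univ_three] <;> ring

/-- Selling reduction: there is a basis with nonnegative parameters -/
lemma exists_selling (A : Matrix (Fin 3) (Fin 3) ℝ) (hA : A.det ≠ 0) :
    ∃ p, Rep A p ∧ ∀ i, 0 ≤ p i := by
  obtain ⟨p, hp, hmin⟩ := exists_min A hA
  obtain ⟨f0, f1, f2, f3, f4, f5⟩ := rep_flip hp
  have f0 := hmin _ f0
  have f1 := hmin _ f1
  have f2 := hmin _ f2
  have f3 := hmin _ f3
  have f4 := hmin _ f4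
  have f5 := hmin _ f5
  unfold tot at f0 f1 f2 f3 f4 f5
  simp only [Matrix.cons_val] at f0 f1 f2 f3 f4 f5
  refine ⟨p, hp, fun i => ?_⟩
  fin_cases i
  · show 0 ≤ p 0
    linarith
  · show 0 ≤ p 1
    linarith
  · show 0 ≤ p 2
    linarith
  · show 0 ≤ p 3
    linarith
  · show 0 ≤ p 4
    linarith
  · show 0 ≤ p 5
    linarith

/-- parameters in terms of half sums and half differences over opposite edges -/
def sd (s1 d1 s2 d2 s3 d3 : ℝ) : Fin 6 → ℝ :=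
  ![s1 + d1, s2 + d2, s3 + d3, s3 - d3, s2 - d2, s1 - d1]

lemma rep_sw12 {A : Matrix (Fin 3) (Fin 3) ℝ} {s1 d1 s2 d2 s3 d3 : ℝ}
    (h : Rep A (sd s1 d1 s2 d2 s3 d3)) : Rep A (sd s2 d2 s1 d1 s3 d3) := by
  refine h.trans !![0, 1, 0; 1, 0, 0; 0, 0, 1] (by decide) ?_
  unfold rm Qm sd
  ext i j
  fin_cases i <;> fin_cases j <;>
    simp [Matrix.mul_apply, Fin.sum_univ_three] <;> ring

lemma rep_sw23 {A : Matrix (Fin 3) (Fin 3) ℝ} {s1 d1 s2 d2 s3 d3 : ℝ}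
    (h : Rep A (sd s1 d1 s2 d2 s3 d3)) : Rep A (sd s1 d1 s3 d3 s2 d2) := by
  refine h.trans !![1, 0, 0; 0, 0, 1; 0, 1, 0] (by decide) ?_
  unfold rm Qm sd
  ext i j
  fin_cases i <;> fin_cases j <;>
    simp [Matrix.mul_apply, Fin.sum_univ_three] <;> ring

lemma rep_sw01 {A : Matrix (Fin 3) (Fin 3) ℝ} {s1 d1 s2 d2 s3 d3 : ℝ}
    (h : Rep A (sd s1 d1 s2 d2 s3 d3)) : Rep A (sd s1 d1 s3 (-d3) s2 (-d2)) := by
  refine h.trans !![-1, 0, 0; -1, 1, 0; -1, 0, 1] (by decide) ?_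
  unfold rm Qm sd
  ext i j
  fin_cases i <;> fin_cases j <;>
    simp [Matrix.mul_apply, Fin.sum_univ_three] <;> ring

lemma rep_f23 {A : Matrix (Fin 3) (Fin 3) ℝ} {s1 d1 s2 d2 s3 d3 : ℝ}
    (h : Rep A (sd s1 d1 s2 d2 s3 d3)) : Rep A (sd s1 d1 s2 (-d2) s3 (-d3)) :=
  rep_sw23 (rep_sw01 h)

lemma rep_f13 {A : Matrix (Fin 3) (Fin 3) ℝ} {s1 d1 s2 d2 s3 d3 : ℝ}
    (h : Rep A (sd s1 d1 s2 d2 s3 d3)) : Rep A (sd s1 (-d1) s2 d2 s3 (-d3)) :=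
  rep_sw12 (rep_f23 (rep_sw12 h))

lemma exists_sorted (A : Matrix (Fin 3) (Fin 3) ℝ) (hA : A.det ≠ 0) :
    ∃ s1 d1 s2 d2 s3 d3 : ℝ, Rep A (sd s1 d1 s2 d2 s3 d3) ∧ s2 ≤ s1 ∧ s3 ≤ s2 ∧ |d1| ≤ s1 ∧
      |d2| ≤ s2 ∧ |d3| ≤ s3 := by
  obtain ⟨p, hp, h0⟩ := exists_selling A hA
  have e : p = sd ((p 0 + p 5) / 2) ((p 0 - p 5) / 2) ((p 1 + p 4) / 2) ((p 1 - p 4) / 2)
      ((p 2 + p 3) / 2) ((p 2 - p 3) / 2) := by
    unfold sd
    funext i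
    fin_cases i <;> simp <;> ring
  rw [e] at hp
  have a1 : |(p 0 - p 5) / 2| ≤ (p 0 + p 5) / 2 := by
    rw [abs_le]
    constructor <;> linarith [h0 0, h0 5]
  have a2 : |(p 1 - p 4) / 2| ≤ (p 1 + p 4) / 2 := by
    rw [abs_le]
    constructor <;> linarith [h0 1, h0 4]
  have a3 : |(p 2 - p 3) / 2| ≤ (p 2 + p 3) / 2 := by
    rw [abs_le]
    constructor <;> linarith [h0 2, h0 3]
  generalize (p 0 + p 5) / 2 = s1 at *
  generalize (p 0 - p 5) / 2 = d1 at *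
  generalize (p 1 + p 4) / 2 = s2 at *
  generalize (p 1 - p 4) / 2 = d2 at *
  generalize (p 2 + p 3) / 2 = s3 at *
  generalize (p 2 - p 3) / 2 = d3 at *
  rcases le_total s1 s2 with x | x <;> rcases le_total s2 s3 with y | y <;>
    rcases le_total s1 s3 with z | z
  · exact ⟨s3, d3, s2, d2, s1, d1, rep_sw12 (rep_sw23 (rep_sw12 hp)), y, x, a3, a2, a1⟩
  · exact ⟨s3, d3, s2, d2, s1, d1, rep_sw12 (rep_sw23 (rep_sw12 hp)), y, x, a3, a2, a1⟩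
  · exact ⟨s2, d2, s3, d3, s1, d1, rep_sw23 (rep_sw12 hp), y, z, a2, a3, a1⟩
  · exact ⟨s2, d2, s1, d1, s3, d3, rep_sw12 hp, x, z, a2, a1, a3⟩
  · exact ⟨s3, d3, s1, d1, s2, d2, rep_sw12 (rep_sw23 hp), z, x, a3, a1, a2⟩
  · exact ⟨s1, d1, s3, d3, s2, d2, rep_sw23 hp, z, y, a1, a3, a2⟩
  · exact ⟨s1, d1, s2, d2, s3, d3, hp, x, y, a1, a2, a3⟩
  · exact ⟨s1, d1, s2, d2, s3, d3, hp, x, y, a1, a2, a3⟩

lemma exists_reduced (A : Matrix (Fin 3) (Fin 3) ℝ) (hA : A.det ≠ 0) :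
    ∃ s1 d1 s2 d2 s3 d3 : ℝ, Rep A (sd s1 d1 s2 d2 s3 d3) ∧ s2 ≤ s1 ∧ s3 ≤ s2 ∧ 0 ≤ d1 ∧
      d1 ≤ s1 ∧ 0 ≤ d2 ∧ d2 ≤ s2 ∧ d3 ≤ s3 ∧ -d3 ≤ s3 := by
  obtain ⟨s1, d1, s2, d2, s3, d3, h, x, y, a1, a2, a3⟩ := exists_sorted A hA
  rw [abs_le] at a1 a2 a3
  have key : ∀ d1 d3, Rep A (sd s1 d1 s2 d2 s3 d3) → 0 ≤ d1 → d1 ≤ s1 → d3 ≤ s3 → -d3 ≤ s3 →
      ∃ s1 d1 s2 d2 s3 d3 : ℝ, Rep A (sd s1 d1 s2 d2 s3 d3) ∧ s2 ≤ s1 ∧ s3 ≤ s2 ∧ 0 ≤ d1 ∧
      d1 ≤ s1 ∧ 0 ≤ d2 ∧ d2 ≤ s2 ∧ d3 ≤ s3 ∧ -d3 ≤ s3 := by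
    intro d1 d3 h b1 b2 b3 b4
    rcases le_total 0 d2 with c | c
    · exact ⟨s1, d1, s2, d2, s3, d3, h, x, y, b1, b2, c, a2.2, b3, b4⟩
    · exact ⟨s1, d1, s2, -d2, s3, -d3, rep_f23 h, x, y, b1, b2, by linarith, by linarith [a2.1],
        b4, by linarith⟩
  rcases le_total 0 d1 with c | c
  · exact key d1 d3 h c a1.2 a3.2 (by linarith [a3.1])
  · exact key (-d1) (-d3) (rep_f13 h) (by linarith) (by linarith [a1.1]) (by linarith [a3.1])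
      (by linarith [a3.2])

end Pool.Agent.K1H99.FCC
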