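import Pool.Agent.K1H99.FCC.Num2

/-!
# Sums over shells with Gaussian tails
-/

set_option autoImplicit false

open Matrix

namespace Pool.Agent.K1H99.FCC

/-- squared length of an integral vector -/
def nz (c : ℤ × ℤ × ℤ) : ℕ := (c.1 ^ 2 + (c.2.1 ^ 2 + c.2.2 ^ 2)).toNat

lemma nz_cast (c : ℤ × ℤ × ℤ) : (nz c : ℝ) = (c.1 : ℝ) ^ 2 + ((c.2.1 : ℝ) ^ 2 + (c.2.2 : ℝ) ^ 2) := by
  have h : ((nz c : ℕ) : ℤ) = c.1 ^ 2 + (c.2.1 ^ 2 + c.2.2 ^ 2) :=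
    Int.toNat_of_nonneg (by positivity)
  exact_mod_cast h

lemma theta_nat {μ : ℝ} (hμ : 0 < μ) : (Summable fun n : ℕ => Real.exp (-μ * ((n : ℝ) + 1) ^ 2)) ∧
    ∑' n : ℕ, Real.exp (-μ * ((n : ℝ) + 1) ^ 2) ≤
      Real.exp (-μ) * (1 - Real.exp (-μ) ^ 2)⁻¹ := by
  have hx : 0 < Real.exp (-μ) := Real.exp_pos _
  have hx1 : Real.exp (-μ) ^ 2 < 1 := by
    rw [← Real.exp_nat_mul]
    have h := Real.exp_lt_exp.2 (show ((2 : ℕ) : ℝ) * -μ < 0 by push_cast; linarith)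
    rwa [Real.exp_zero] at h
  have hg : HasSum (fun n : ℕ => Real.exp (-μ) * (Real.exp (-μ) ^ 2) ^ n)
      (Real.exp (-μ) * (1 - Real.exp (-μ) ^ 2)⁻¹) :=
    (hasSum_geometric_of_lt_one (by positivity) hx1).mul_left _
  have hle : ∀ n : ℕ, Real.exp (-μ * ((n : ℝ) + 1) ^ 2) ≤
      Real.exp (-μ) * (Real.exp (-μ) ^ 2) ^ n := by
    intro n
    rw [← pow_mul, ← Real.exp_nat_mul, ← Real.exp_add, Real.exp_le_exp]
    push_cast
    nlinarith [sq_nonneg (n : ℝ), mul_nonneg hμ.le (sq_nonneg (n : ℝ))]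
  have hs : Summable fun n : ℕ => Real.exp (-μ * ((n : ℝ) + 1) ^ 2) :=
    Summable.of_nonneg_of_le (fun _ => (Real.exp_pos _).le) hle hg.summable
  refine ⟨hs, ?_⟩
  rw [← hg.tsum_eq]
  exact hs.tsum_le_tsum hle hg.summable

/-- the theta series -/
lemma theta_int {μ : ℝ} (hμ : 0 < μ) : (Summable fun k : ℤ => Real.exp (-μ * (k : ℝ) ^ 2)) ∧
    ∑' k : ℤ, Real.exp (-μ * (k : ℝ) ^ 2) ≤
      1 + 2 * (Real.exp (-μ) * (1 - Real.exp (-μ) ^ 2)⁻¹) := by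
  obtain ⟨hs, hle⟩ := theta_nat hμ
  have h1 : Summable fun n : ℕ => Real.exp (-μ * (((n : ℕ) : ℤ) : ℝ) ^ 2) := by
    rw [← summable_nat_add_iff 1]
    refine hs.congr fun n => ?_
    push_cast
    rfl
  have h2 : Summable fun n : ℕ => Real.exp (-μ * ((-((n : ℤ) + 1) : ℤ) : ℝ) ^ 2) := by
    refine hs.congr fun n => ?_
    push_cast
    congr 1
    ring
  have h3 := HasSum.of_nat_of_neg_add_one (f := fun k : ℤ => Real.exp (-μ * (k : ℝ) ^ 2))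
    h1.hasSum h2.hasSum
  refine ⟨h3.summable, ?_⟩
  rw [h3.tsum_eq, h1.tsum_eq_zero_add]
  have e1 : ∑' b : ℕ, Real.exp (-μ * (((b + 1 : ℕ) : ℤ) : ℝ) ^ 2) =
      ∑' n : ℕ, Real.exp (-μ * ((n : ℝ) + 1) ^ 2) := tsum_congr fun n => by push_cast; rfl
  have e2 : ∑' n : ℕ, Real.exp (-μ * ((-((n : ℤ) + 1) : ℤ) : ℝ) ^ 2) =
      ∑' n : ℕ, Real.exp (-μ * ((n : ℝ) + 1) ^ 2) := tsum_congr fun n => by
    push_cast
    congr 1
    ring
  have e0 : Real.exp (-μ * (((0 : ℕ) : ℤ) : ℝ) ^ 2) = 1 := by simp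
  rw [e1, e2, e0]
  linarith

lemma theta_three {μ : ℝ} (hμ : 0 < μ) :
    (Summable fun c : ℤ × ℤ × ℤ => Real.exp (-μ * (nz c : ℝ))) ∧
    ∑' c : ℤ × ℤ × ℤ, Real.exp (-μ * (nz c : ℝ)) ≤
      (1 + 2 * (Real.exp (-μ) * (1 - Real.exp (-μ) ^ 2)⁻¹)) ^ 3 := by
  obtain ⟨hs, hle⟩ := theta_int hμ
  have h0 : ∀ k : ℤ, 0 ≤ Real.exp (-μ * (k : ℝ) ^ 2) := fun _ => (Real.exp_pos _).le
  have hs2 := hs.mul_of_nonneg hs h0 h0
  have h02 : ∀ c : ℤ × ℤ, 0 ≤ Real.exp (-μ * (c.1 : ℝ) ^ 2) * Real.exp (-μ * (c.2 : ℝ) ^ 2) :=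
    fun c => mul_nonneg (h0 _) (h0 _)
  have hs3 := hs.mul_of_nonneg hs2 h0 h02
  have e : ∀ c : ℤ × ℤ × ℤ, Real.exp (-μ * (nz c : ℝ)) = Real.exp (-μ * (c.1 : ℝ) ^ 2) *
      (Real.exp (-μ * (c.2.1 : ℝ) ^ 2) * Real.exp (-μ * (c.2.2 : ℝ) ^ 2)) := by
    intro c
    rw [nz_cast, ← Real.exp_add, ← Real.exp_add]
    congr 1
    ring
  have t2 := hs.tsum_mul_tsum hs hs2
  have t3 := hs.tsum_mul_tsum hs2 hs3
  refine ⟨hs3.congr fun c => (e c).symm, ?_⟩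
  rw [tsum_congr e, ← t3, ← t2]
  have h1 : 0 ≤ ∑' k : ℤ, Real.exp (-μ * (k : ℝ) ^ 2) := tsum_nonneg h0
  calc _ = (∑' k : ℤ, Real.exp (-μ * (k : ℝ) ^ 2)) ^ 3 := by ring
    _ ≤ _ := pow_le_pow_left₀ h1 hle 3

/-- the shell lemma -/
lemma shell (J : N0 → ℤ × ℤ × ℤ) (hJ : Function.Injective J) (S : Finset (ℤ × ℤ × ℤ)) (M : ℕ)
    (hS : ∀ n, nz (J n) < M → J n ∈ S) (f : ℕ → ℝ) (hf : ∀ m, 0 ≤ f m)
    (hsum : Summable fun n : N0 => f (nz (J n))) {K μ : ℝ} (hμ : 0 < μ) (hK : 0 ≤ K)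
    (ht : ∀ m, M ≤ m → f m ≤ K * Real.exp (-μ * m)) :
    ∑' n : N0, f (nz (J n)) ≤ ∑ c ∈ S, f (nz c) +
      K * (1 + 2 * (Real.exp (-μ) * (1 - Real.exp (-μ) ^ 2)⁻¹)) ^ 3 := by
  classical
  obtain ⟨hθ, hθ'⟩ := theta_three hμ
  set g : ℤ × ℤ × ℤ → ℝ := fun c => if c ∈ S then f (nz c) else 0 with hg
  have hgs : HasSum g (∑ c ∈ S, f (nz c)) := by
    have h1 : ∑ c ∈ S, f (nz c) = ∑ c ∈ S, g c :=
      Finset.sum_congr rfl fun c hc => by simp [hg, hc]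
    rw [h1]
    exact hasSum_sum_of_ne_finset_zero fun c hc => by simp [hg, hc]
  have hh : HasSum (fun c => g c + K * Real.exp (-μ * (nz c : ℝ))) (∑ c ∈ S, f (nz c) +
      K * ∑' c : ℤ × ℤ × ℤ, Real.exp (-μ * (nz c : ℝ))) := hgs.add (hθ.hasSum.mul_left K)
  have hh0 : ∀ c, 0 ≤ g c + K * Real.exp (-μ * (nz c : ℝ)) := by
    intro c
    refine add_nonneg ?_ (mul_nonneg hK (Real.exp_pos _).le)
    simp only [hg]
    split
    · exact hf _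
    · exact le_rfl
  have h1 : ∑' n : N0, f (nz (J n)) ≤ ∑' n : N0, (g (J n) + K * Real.exp (-μ * (nz (J n) : ℝ))) := by
    refine hsum.tsum_le_tsum (fun n => ?_) (hh.summable.comp_injective hJ)
    by_cases hn : nz (J n) < M
    · have : g (J n) = f (nz (J n)) := by simp [hg, hS n hn]
      rw [this]
      have : 0 ≤ K * Real.exp (-μ * (nz (J n) : ℝ)) := mul_nonneg hK (Real.exp_pos _).le
      linarith
    · push Not at hn
      have h2 := ht _ hn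
      have h3 : 0 ≤ g (J n) := by
        simp only [hg]
        split
        · exact hf _
        · exact le_rfl
      linarith
  refine h1.trans ((tsum_comp_le_tsum_of_inj hh.summable hh0 hJ).trans ?_)
  rw [hh.tsum_eq]
  exact add_le_add le_rfl (mul_le_mul_of_nonneg_left hθ' hK)

/-- sums over a finite set by values -/
lemma sum_by_value (S : Finset (ℤ × ℤ × ℤ)) (M : ℕ) (hM : ∀ c ∈ S, nz c < M) (f : ℕ → ℝ) :
    ∑ c ∈ S, f (nz c) = ∑ m ∈ Finset.range M, ((S.filter fun c => nz c = m).card : ℝ) * f m := by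
  rw [← Finset.sum_fiberwise_of_maps_to (g := nz) (t := Finset.range M)
    (fun c hc => Finset.mem_range.2 (hM c hc))]
  refine Finset.sum_congr rfl fun m _ => ?_
  rw [Finset.sum_congr rfl (g := fun _ => f m) fun c hc => by rw [(Finset.mem_filter.1 hc).2]]
  rw [Finset.sum_const, nsmul_eq_mul]

/-- the box -/
noncomputable def box : Finset (ℤ × ℤ × ℤ) := Finset.Icc (-3) 3 ×ˢ (Finset.Icc (-3) 3 ×ˢ Finset.Icc (-3) 3)

lemma mem_box {c : ℤ × ℤ × ℤ} (h : nz c < 16) : c ∈ box := by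
  have h1 : ((nz c : ℕ) : ℤ) = c.1 ^ 2 + (c.2.1 ^ 2 + c.2.2 ^ 2) :=
    Int.toNat_of_nonneg (by positivity)
  have h2 : c.1 ^ 2 + (c.2.1 ^ 2 + c.2.2 ^ 2) < 16 := by
    rw [← h1]
    exact_mod_cast h
  have key : ∀ x y z : ℤ, x ^ 2 + (y ^ 2 + z ^ 2) < 16 → -3 ≤ x ∧ x ≤ 3 := by
    intro x y z h
    have hx : x ^ 2 < 16 := by nlinarith [sq_nonneg y, sq_nonneg z]
    constructor <;> nlinarith
  unfold box
  rw [Finset.mem_product, Finset.mem_product, Finset.mem_Icc, Finset.mem_Icc, Finset.mem_Icc]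
  refine ⟨key _ _ _ h2, key c.2.1 c.1 c.2.2 (by linarith), key c.2.2 c.1 c.2.1 (by linarith)⟩

/-- the direct shells -/
noncomputable def SG : Finset (ℤ × ℤ × ℤ) := box.filter fun c => (c.1 + c.2.1 + c.2.2) % 2 = 0 ∧ nz c ≠ 0 ∧ nz c < 10

/-- the dual shells -/
noncomputable def SH : Finset (ℤ × ℤ × ℤ) := box.filter fun c => (c.1 + c.2.1) % 2 = 0 ∧ (c.1 + c.2.2) % 2 = 0 ∧
  nz c ≠ 0 ∧ nz c < 16

lemma SG_card : ∀ m < 10, (SG.filter fun c => nz c = m).card =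
    if m = 2 then 12 else if m = 4 then 6 else if m = 6 then 24 else if m = 8 then 12 else 0 := by
  decide +kernel

lemma SH_card : ∀ m < 16, (SH.filter fun c => nz c = m).card =
    if m = 3 then 8 else if m = 4 then 6 else if m = 8 then 12 else if m = 11 then 24 else
    if m = 12 then 8 else 0 := by
  decide +kernel

end Pool.Agent.K1H99.FCC
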