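import Pool.Agent.K1H99.FCC.SndB

/-!
# Soundness of the leaves of type A
-/

set_option autoImplicit false

open Matrix

namespace Pool.Agent.K1H99.FCC

/-- validity of the tables: every line is a lower bound -/
def TabOK (T : Tab) : Prop :=
  (∀ j, ∀ a : ℝ, 0 < a → (tb T.ag j : ℝ) - tb T.bg j * a ≤ 4294967296 * I 1 a) ∧
  ∀ j, ∀ a : ℝ, 0 < a → (tb T.ah j : ℝ) - tb T.bh j * a ≤ 4294967296 * I (-(3 / 2)) a

/-- the linear form -/
def bl (B x : Fin 6 → ℝ) : ℝ := B 0 * x 0 + B 1 * x 1 + B 2 * x 2 + B 3 * x 3 + B 4 * x 4 + B 5 * x 5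

/-- the quadratic form -/
def ml (c : Fin 7 → ℝ) (x : Fin 6 → ℝ) : ℝ :=
  c 0 * (x 1 * x 2 + x 1 * x 5 + x 2 * x 5) + c 1 * (x 0 * x 2 + x 0 * x 4 + x 2 * x 4) + c 2 * (x 0 * x 1 + x 0 * x 3 + x 1 * x 3) + c 3 * (x 2 * x 3) + c 4 * (x 1 * x 4) + c 5 * (x 0 * x 5) + c 6 * (x 3 * x 4 + x 3 * x 5 + x 4 * x 5)

/-- the polar form of `ml` -/
def pl (c : Fin 7 → ℝ) (x y : Fin 6 → ℝ) : ℝ :=
  x 0 * (c 2 * y 1 + c 1 * y 2 + c 2 * y 3 + c 1 * y 4 + c 5 * y 5) +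
  x 1 * (c 2 * y 0 + c 0 * y 2 + c 2 * y 3 + c 4 * y 4 + c 0 * y 5) +
  x 2 * (c 1 * y 0 + c 0 * y 1 + c 3 * y 3 + c 1 * y 4 + c 0 * y 5) +
  x 3 * (c 2 * y 0 + c 2 * y 1 + c 3 * y 2 + c 6 * y 4 + c 6 * y 5) +
  x 4 * (c 1 * y 0 + c 4 * y 1 + c 1 * y 2 + c 6 * y 3 + c 6 * y 5) +
  x 5 * (c 5 * y 0 + c 0 * y 1 + c 0 * y 2 + c 6 * y 3 + c 6 * y 4)

lemma pl_self (c : Fin 7 → ℝ) (x : Fin 6 → ℝ) : pl c x x = 2 * ml c x := by
  unfold pl ml
  ring

lemma pl_comm (c : Fin 7 → ℝ) (x y : Fin 6 → ℝ) : pl c x y = pl c y x := by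
  unfold pl
  ring

lemma pl_add (c : Fin 7 → ℝ) (x x' y : Fin 6 → ℝ) : pl c (x + x') y = pl c x y + pl c x' y := by
  unfold pl
  simp only [Pi.add_apply]
  ring

lemma pl_smul (c : Fin 7 → ℝ) (t : ℝ) (x y : Fin 6 → ℝ) : pl c (t • x) y = t * pl c x y := by
  unfold pl
  simp only [Pi.smul_apply, smul_eq_mul]
  ring

lemma bl_add (B x x' : Fin 6 → ℝ) : bl B (x + x') = bl B x + bl B x' := by
  unfold bl
  simp only [Pi.add_apply]
  ring

lemma bl_smul (B : Fin 6 → ℝ) (t : ℝ) (x : Fin 6 → ℝ) : bl B (t • x) = t * bl B x := by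
  unfold bl
  simp only [Pi.smul_apply, smul_eq_mul]
  ring

lemma pair_sum (B : Fin 6 → ℝ) (c : Fin 7 → ℝ) (K : ℝ) (l g : Fin 6 → ℝ) (v : Fin 6 → Fin 6 → ℝ)
    (hl : ∀ i, 0 ≤ l i)
    (h : ∀ i j, 3141593 * (pl c (v i) (v j) + bl B (v i) * g j + bl B (v j) * g i) ≤
      2000000 * K * g i * g j) :
    3141593 * (ml c (∑ i, l i • v i) + bl B (∑ i, l i • v i) * ∑ i, l i * g i) ≤
      1000000 * K * (∑ i, l i * g i) ^ 2 := by
  have e1 : ∀ y, pl c (∑ i, l i • v i) y = ∑ i, l i * pl c (v i) y := fun y =>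
    sum_first (fun x => pl c x y) (fun a b => pl_add c a b y) (fun t a => pl_smul c t a y) _ l v
  have e2 : pl c (∑ i, l i • v i) (∑ i, l i • v i) = ∑ i, ∑ j, l i * l j * pl c (v i) (v j) := by
    rw [e1]
    refine Finset.sum_congr rfl fun i _ => ?_
    rw [pl_comm, e1, Finset.mul_sum]
    refine Finset.sum_congr rfl fun j _ => ?_
    rw [pl_comm]
    ring
  have e3 : bl B (∑ i, l i • v i) = ∑ i, l i * bl B (v i) :=
    sum_first (bl B) (bl_add B) (bl_smul B) _ l v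
  have e4 : (∑ i, l i * bl B (v i)) * ∑ i, l i * g i =
      ∑ i, ∑ j, l i * l j * (bl B (v i) * g j) := by
    rw [Finset.sum_mul_sum]
    refine Finset.sum_congr rfl fun i _ => Finset.sum_congr rfl fun j _ => by ring
  have e5 : (∑ i, l i * bl B (v i)) * ∑ i, l i * g i =
      ∑ i, ∑ j, l i * l j * (bl B (v j) * g i) := by
    rw [mul_comm, Finset.sum_mul_sum]
    refine Finset.sum_congr rfl fun i _ => Finset.sum_congr rfl fun j _ => by ring
  have e6 : (∑ i, l i * g i) ^ 2 = ∑ i, ∑ j, l i * l j * (g i * g j) := by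
    rw [sq, Finset.sum_mul_sum]
    refine Finset.sum_congr rfl fun i _ => Finset.sum_congr rfl fun j _ => by ring
  have e7 : ∑ i, ∑ j, l i * l j * (3141593 * (pl c (v i) (v j) + bl B (v i) * g j +
      bl B (v j) * g i)) ≤ ∑ i, ∑ j, l i * l j * (2000000 * K * g i * g j) :=
    Finset.sum_le_sum fun i _ => Finset.sum_le_sum fun j _ =>
      mul_le_mul_of_nonneg_left (h i j) (mul_nonneg (hl i) (hl j))
  have e8 : ∑ i, ∑ j, l i * l j * (3141593 * (pl c (v i) (v j) + bl B (v i) * g j +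
      bl B (v j) * g i)) = 3141593 * (∑ i, ∑ j, l i * l j * pl c (v i) (v j) +
      ∑ i, ∑ j, l i * l j * (bl B (v i) * g j) + ∑ i, ∑ j, l i * l j * (bl B (v j) * g i)) := by
    rw [← Finset.sum_add_distrib, ← Finset.sum_add_distrib, Finset.mul_sum]
    refine Finset.sum_congr rfl fun i _ => ?_
    rw [← Finset.sum_add_distrib, ← Finset.sum_add_distrib, Finset.mul_sum]
    refine Finset.sum_congr rfl fun j _ => ?_
    ring
  have e9 : ∑ i, ∑ j, l i * l j * (2000000 * K * g i * g j) =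
      2000000 * K * ∑ i, ∑ j, l i * l j * (g i * g j) := by
    rw [Finset.mul_sum]
    refine Finset.sum_congr rfl fun i _ => ?_
    rw [Finset.mul_sum]
    refine Finset.sum_congr rfl fun j _ => ?_
    ring
  rw [e8, e9, ← e4, ← e5, ← e6, ← e2, pl_self, ← e3] at e7
  linarith

lemma cen_spec (T : Tab) (v : W) (k : Nat → Nat → Nat → Nat → Nat → Nat → Nat → Nat → Nat → Nat →
    Nat → Nat → Nat → Nat → Bool) (h : cen T v k = true) :
    ∃ j0 j1 j2 j3 j4 j5 j6 j7 j8 k0 k1 k2 k3 k4 k5 k6 k7 k8 : Nat,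
      k (6442450944 + 2 * ((tb T.ag j0) + ((tb T.ag j1) + ((tb T.ag j2) + ((tb T.ag j3) + ((tb T.ag j4) + ((tb T.ag j5) + ((tb T.ag j6) + ((tb T.ag j7) + ((tb T.ag j8) + ((tb T.ah k0) + ((tb T.ah k1) + ((tb T.ah k2) + ((tb T.ah k3) + ((tb T.ah k4) + ((tb T.ah k5) + ((tb T.ah k6) + ((tb T.ah k7) + (tb T.ah k8)))))))))))))))))))
        (2 * ((tb T.bg j0) + ((tb T.bg j3) + ((tb T.bg j4) + ((tb T.bg j6) + ((tb T.bg j7) + (tb T.bg j8)))))))
        (2 * ((tb T.bg j1) + ((tb T.bg j3) + ((tb T.bg j5) + ((tb T.bg j6) + ((tb T.bg j7) + (tb T.bg j8)))))))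
        (2 * ((tb T.bg j2) + ((tb T.bg j4) + ((tb T.bg j5) + ((tb T.bg j6) + (4 * (tb T.bg j8)))))))
        (2 * ((tb T.bg j0) + ((tb T.bg j1) + ((tb T.bg j4) + ((tb T.bg j5) + (4 * (tb T.bg j7)))))))
        (2 * ((tb T.bg j0) + ((tb T.bg j2) + ((tb T.bg j3) + ((tb T.bg j5) + ((tb T.bg j7) + (tb T.bg j8)))))))
        (2 * ((tb T.bg j1) + ((tb T.bg j2) + ((tb T.bg j3) + ((tb T.bg j4) + ((tb T.bg j7) + (tb T.bg j8)))))))
        (2 * ((tb T.bh k0) + ((tb T.bh k3) + ((tb T.bh k4) + ((tb T.bh k6) + ((tb T.bh k7) + (tb T.bh k8)))))))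
        (2 * ((tb T.bh k1) + ((tb T.bh k3) + ((tb T.bh k5) + ((tb T.bh k6) + ((tb T.bh k7) + (tb T.bh k8)))))))
        (2 * ((tb T.bh k2) + ((tb T.bh k4) + ((tb T.bh k5) + ((tb T.bh k6) + ((tb T.bh k7) + (tb T.bh k8)))))))
        (2 * ((tb T.bh k0) + ((tb T.bh k1) + ((tb T.bh k4) + ((tb T.bh k5) + (4 * (tb T.bh k6)))))))
        (2 * ((tb T.bh k0) + ((tb T.bh k2) + ((tb T.bh k3) + ((tb T.bh k5) + (4 * (tb T.bh k7)))))))
        (2 * ((tb T.bh k1) + ((tb T.bh k2) + ((tb T.bh k3) + ((tb T.bh k4) + (4 * (tb T.bh k8)))))))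
        (2 * ((tb T.bh k0) + ((tb T.bh k1) + ((tb T.bh k2) + ((tb T.bh k6) + ((tb T.bh k7) + (tb T.bh k8))))))) = true := by
  unfold cen at h
  simp only [frc_eq, Nat.add_eq, Nat.mul_eq] at h
  exact ⟨_, _, _, _, _, _, _, _, _, _, _, _, _, _, _, _, _, _, h⟩

lemma pairs_spec (aa gw U0 U1 U2 U3 U4 U5 bj : Nat) (l : List W)
    (h : pairs aa gw U0 U1 U2 U3 U4 U5 bj l = true) : ∀ v ∈ l,
      3141593 * (v.a * U0 + (v.b * U1 + (v.c * U2 + (v.d * U3 + (v.e * U4 + (v.f * U5 + bj * v.g))))))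
        ≤ 2000000 * aa * v.g * gw := by
  induction l with
  | nil => intro x hx; simp at hx
  | cons a l ih =>
    unfold pairs at h
    rw [Bool.and_eq_true] at h
    intro x hx
    rcases List.mem_cons.1 hx with rfl | hx
    · exact Nat.le_of_ble_eq_true h.1
    · exact ih h.2 x hx

lemma row_spec (aa B0 B1 B2 B3 B4 B5 c0 c1 c2 c3 c4 c5 c6 : Nat) (w : W) (l : List W)
    (h : row aa B0 B1 B2 B3 B4 B5 c0 c1 c2 c3 c4 c5 c6 w l = true) : ∀ v ∈ l,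
      3141593 * (pl ![c0, c1, c2, c3, c4, c5, c6] (wv v) (wv w) +
        bl ![B0, B1, B2, B3, B4, B5] (wv v) * w.g + bl ![B0, B1, B2, B3, B4, B5] (wv w) * v.g) ≤
      2000000 * aa * v.g * w.g := by
  unfold row at h
  simp only [frc_eq, Nat.add_eq, Nat.mul_eq] at h
  intro v hv
  have h1 := pairs_spec _ _ _ _ _ _ _ _ _ _ h v hv
  rify at h1
  refine le_trans (le_of_eq ?_) h1
  unfold pl bl wv
  simp
  ring

/-- the pair tests at all vertices -/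
def PT (aa B0 B1 B2 B3 B4 B5 c0 c1 c2 c3 c4 c5 c6 : Nat) (v : Fin 6 → W) : Prop := ∀ i j,
  (3141593:ℝ) * (pl ![c0, c1, c2, c3, c4, c5, c6] (wv (v i)) (wv (v j)) +
    bl ![B0, B1, B2, B3, B4, B5] (wv (v i)) * (v j).g +
    bl ![B0, B1, B2, B3, B4, B5] (wv (v j)) * (v i).g) ≤ 2000000 * aa * (v i).g * (v j).g

lemma PT_of_rows {aa B0 B1 B2 B3 B4 B5 c0 c1 c2 c3 c4 c5 c6 : Nat} {v0 v1 v2 v3 v4 v5 : W}
    (r0 : row aa B0 B1 B2 B3 B4 B5 c0 c1 c2 c3 c4 c5 c6 v0 [v0] = true)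
    (r1 : row aa B0 B1 B2 B3 B4 B5 c0 c1 c2 c3 c4 c5 c6 v1 [v0, v1] = true)
    (r2 : row aa B0 B1 B2 B3 B4 B5 c0 c1 c2 c3 c4 c5 c6 v2 [v0, v1, v2] = true)
    (r3 : row aa B0 B1 B2 B3 B4 B5 c0 c1 c2 c3 c4 c5 c6 v3 [v0, v1, v2, v3] = true)
    (r4 : row aa B0 B1 B2 B3 B4 B5 c0 c1 c2 c3 c4 c5 c6 v4 [v0, v1, v2, v3, v4] = true)
    (r5 : row aa B0 B1 B2 B3 B4 B5 c0 c1 c2 c3 c4 c5 c6 v5 [v0, v1, v2, v3, v4, v5] = true) :
    PT aa B0 B1 B2 B3 B4 B5 c0 c1 c2 c3 c4 c5 c6 ![v0, v1, v2, v3, v4, v5] := by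
  have r0 := row_spec _ _ _ _ _ _ _ _ _ _ _ _ _ _ _ _ r0
  have r1 := row_spec _ _ _ _ _ _ _ _ _ _ _ _ _ _ _ _ r1
  have r2 := row_spec _ _ _ _ _ _ _ _ _ _ _ _ _ _ _ _ r2
  have r3 := row_spec _ _ _ _ _ _ _ _ _ _ _ _ _ _ _ _ r3
  have r4 := row_spec _ _ _ _ _ _ _ _ _ _ _ _ _ _ _ _ r4
  have r5 := row_spec _ _ _ _ _ _ _ _ _ _ _ _ _ _ _ _ r5
  have srt : ∀ i j : Fin 6, i ≤ j → (3141593:ℝ) * (pl ![c0, c1, c2, c3, c4, c5, c6]
      (wv (![v0, v1, v2, v3, v4, v5] i)) (wv (![v0, v1, v2, v3, v4, v5] j)) +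
      bl ![B0, B1, B2, B3, B4, B5] (wv (![v0, v1, v2, v3, v4, v5] i)) *
        (![v0, v1, v2, v3, v4, v5] j).g + bl ![B0, B1, B2, B3, B4, B5]
        (wv (![v0, v1, v2, v3, v4, v5] j)) * (![v0, v1, v2, v3, v4, v5] i).g) ≤
      2000000 * aa * (![v0, v1, v2, v3, v4, v5] i).g * (![v0, v1, v2, v3, v4, v5] j).g := by
    intro i j hij
    fin_cases j <;> fin_cases i
    · exact r0 _ (by simp)
    · exact absurd hij (by decide)
    · exact absurd hij (by decide)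
    · exact absurd hij (by decide)
    · exact absurd hij (by decide)
    · exact absurd hij (by decide)
    · exact r1 _ (by simp)
    · exact r1 _ (by simp)
    · exact absurd hij (by decide)
    · exact absurd hij (by decide)
    · exact absurd hij (by decide)
    · exact absurd hij (by decide)
    · exact r2 _ (by simp)
    · exact r2 _ (by simp)
    · exact r2 _ (by simp)
    · exact absurd hij (by decide)
    · exact absurd hij (by decide)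
    · exact absurd hij (by decide)
    · exact r3 _ (by simp)
    · exact r3 _ (by simp)
    · exact r3 _ (by simp)
    · exact r3 _ (by simp)
    · exact absurd hij (by decide)
    · exact absurd hij (by decide)
    · exact r4 _ (by simp)
    · exact r4 _ (by simp)
    · exact r4 _ (by simp)
    · exact r4 _ (by simp)
    · exact r4 _ (by simp)
    · exact absurd hij (by decide)
    · exact r5 _ (by simp)
    · exact r5 _ (by simp)
    · exact r5 _ (by simp)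
    · exact r5 _ (by simp)
    · exact r5 _ (by simp)
    · exact r5 _ (by simp)
  intro i j
  rcases le_total i j with a | a
  · exact srt i j a
  · have h := srt j i a
    rw [pl_comm]
    linarith

lemma leafA_spec {T : Tab} {v0 v1 v2 v3 v4 v5 : W} (h : leafA T v0 v1 v2 v3 v4 v5 = true) :
    (∀ i, 1 ≤ (![v0, v1, v2, v3, v4, v5] i).g) ∧ ∃ j0 j1 j2 j3 j4 j5 j6 j7 j8 k0 k1 k2 k3 k4 k5 k6 k7 k8 aa : Nat, 1 ≤ aa ∧ aa + 6946293558 = (6442450944 + 2 * ((tb T.ag j0) + ((tb T.ag j1) + ((tb T.ag j2) + ((tb T.ag j3) + ((tb T.ag j4) + ((tb T.ag j5) + ((tb T.ag j6) + ((tb T.ag j7) + ((tb T.ag j8) + ((tb T.ah k0) + ((tb T.ah k1) + ((tb T.ah k2) + ((tb T.ah k3) + ((tb T.ah k4) + ((tb T.ah k5) + ((tb T.ah k6) + ((tb T.ah k7) + (tb T.ah k8))))))))))))))))))) ∧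
      PT aa
        (2 * ((tb T.bg j0) + ((tb T.bg j3) + ((tb T.bg j4) + ((tb T.bg j6) + ((tb T.bg j7) + (tb T.bg j8)))))))
        (2 * ((tb T.bg j1) + ((tb T.bg j3) + ((tb T.bg j5) + ((tb T.bg j6) + ((tb T.bg j7) + (tb T.bg j8)))))))
        (2 * ((tb T.bg j2) + ((tb T.bg j4) + ((tb T.bg j5) + ((tb T.bg j6) + (4 * (tb T.bg j8)))))))
        (2 * ((tb T.bg j0) + ((tb T.bg j1) + ((tb T.bg j4) + ((tb T.bg j5) + (4 * (tb T.bg j7)))))))
        (2 * ((tb T.bg j0) + ((tb T.bg j2) + ((tb T.bg j3) + ((tb T.bg j5) + ((tb T.bg j7) + (tb T.bg j8)))))))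
        (2 * ((tb T.bg j1) + ((tb T.bg j2) + ((tb T.bg j3) + ((tb T.bg j4) + ((tb T.bg j7) + (tb T.bg j8)))))))
        (2 * ((tb T.bh k0) + ((tb T.bh k3) + ((tb T.bh k4) + ((tb T.bh k6) + ((tb T.bh k7) + (tb T.bh k8)))))))
        (2 * ((tb T.bh k1) + ((tb T.bh k3) + ((tb T.bh k5) + ((tb T.bh k6) + ((tb T.bh k7) + (tb T.bh k8)))))))
        (2 * ((tb T.bh k2) + ((tb T.bh k4) + ((tb T.bh k5) + ((tb T.bh k6) + ((tb T.bh k7) + (tb T.bh k8)))))))
        (2 * ((tb T.bh k0) + ((tb T.bh k1) + ((tb T.bh k4) + ((tb T.bh k5) + (4 * (tb T.bh k6)))))))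
        (2 * ((tb T.bh k0) + ((tb T.bh k2) + ((tb T.bh k3) + ((tb T.bh k5) + (4 * (tb T.bh k7)))))))
        (2 * ((tb T.bh k1) + ((tb T.bh k2) + ((tb T.bh k3) + ((tb T.bh k4) + (4 * (tb T.bh k8)))))))
        (2 * ((tb T.bh k0) + ((tb T.bh k1) + ((tb T.bh k2) + ((tb T.bh k6) + ((tb T.bh k7) + (tb T.bh k8))))))) ![v0, v1, v2, v3, v4, v5] := by
  unfold leafA ctr at h
  simp only [frc_eq, Bool.and_eq_true] at h
  obtain ⟨⟨⟨⟨⟨⟨g0, g1⟩, g2⟩, g3⟩, g4⟩, g5⟩, h⟩ := h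
  obtain ⟨j0, j1, j2, j3, j4, j5, j6, j7, j8, k0, k1, k2, k3, k4, k5, k6, k7, k8, h⟩ := cen_spec _ _ _ h
  simp only [Bool.and_eq_true, Nat.sub_eq] at h
  obtain ⟨⟨⟨⟨⟨⟨haa, r0⟩, r1⟩, r2⟩, r3⟩, r4⟩, r5⟩ := h
  have haa := Nat.le_of_ble_eq_true haa
  refine ⟨fun i => ?_, j0, j1, j2, j3, j4, j5, j6, j7, j8, k0, k1, k2, k3, k4, k5, k6, k7, k8, _, haa, ?_, PT_of_rows r0 r1 r2 r3 r4 r5⟩
  · fin_cases i
    · exact Nat.le_of_ble_eq_true g0
    · exact Nat.le_of_ble_eq_true g1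
    · exact Nat.le_of_ble_eq_true g2
    · exact Nat.le_of_ble_eq_true g3
    · exact Nat.le_of_ble_eq_true g4
    · exact Nat.le_of_ble_eq_true g5
  · omega

/-- coefficients of the linear form -/
def BV (u : Fin 9 → ℝ) : Fin 6 → ℝ :=
  ![2 * ((u 0) + ((u 3) + ((u 4) + ((u 6) + ((u 7) + (u 8)))))),
    2 * ((u 1) + ((u 3) + ((u 5) + ((u 6) + ((u 7) + (u 8)))))),
    2 * ((u 2) + ((u 4) + ((u 5) + ((u 6) + (4 * (u 8)))))),
    2 * ((u 0) + ((u 1) + ((u 4) + ((u 5) + (4 * (u 7)))))),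
    2 * ((u 0) + ((u 2) + ((u 3) + ((u 5) + ((u 7) + (u 8)))))),
    2 * ((u 1) + ((u 2) + ((u 3) + ((u 4) + ((u 7) + (u 8))))))]

/-- coefficients of the quadratic form -/
def CV (u : Fin 9 → ℝ) : Fin 7 → ℝ :=
  ![2 * ((u 0) + ((u 3) + ((u 4) + ((u 6) + ((u 7) + (u 8)))))),
    2 * ((u 1) + ((u 3) + ((u 5) + ((u 6) + ((u 7) + (u 8)))))),
    2 * ((u 2) + ((u 4) + ((u 5) + ((u 6) + ((u 7) + (u 8)))))),
    2 * ((u 0) + ((u 1) + ((u 4) + ((u 5) + (4 * (u 6)))))),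
    2 * ((u 0) + ((u 2) + ((u 3) + ((u 5) + (4 * (u 7)))))),
    2 * ((u 1) + ((u 2) + ((u 3) + ((u 4) + (4 * (u 8)))))),
    2 * ((u 0) + ((u 1) + ((u 2) + ((u 6) + ((u 7) + (u 8))))))]

lemma sumx9 (f : Fin 9 → ℝ) : ∑ i, f i = f 0 + f 1 + f 2 + f 3 + f 4 + f 5 + f 6 + f 7 + f 8 := by
  simp only [Fin.sum_univ_castSucc, Fin.sum_univ_zero, zero_add]
  rfl

lemma bl_BV (u : Fin 9 → ℝ) (p : Fin 6 → ℝ) :
    bl (BV u) p = 2 * ∑ i, u i * qf p (rv (Xv i)) := by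
  rw [sumx9]
  unfold bl BV qf rv Xv
  simp
  ring

lemma ml_CV (u : Fin 9 → ℝ) (p : Fin 6 → ℝ) :
    ml (CV u) p = 2 * ∑ i, u i * af p (rv (Yv i)) := by
  rw [sumx9]
  unfold ml CV af rv Yv
  simp
  ring

lemma leafA_spec' {T : Tab} {v0 v1 v2 v3 v4 v5 : W} (h : leafA T v0 v1 v2 v3 v4 v5 = true) :
    (∀ i, 1 ≤ (![v0, v1, v2, v3, v4, v5] i).g) ∧ ∃ (j k : Fin 9 → Nat) (aa : ℝ), 1 ≤ aa ∧
      aa + 6946293558 = 6442450944 + 2 * (∑ i, (tb T.ag (j i) : ℝ) + ∑ i, (tb T.ah (k i) : ℝ)) ∧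
      ∀ i i', 3141593 * (pl (CV fun i => (tb T.bh (k i) : ℝ)) (wv (![v0, v1, v2, v3, v4, v5] i))
          (wv (![v0, v1, v2, v3, v4, v5] i')) +
        bl (BV fun i => (tb T.bg (j i) : ℝ)) (wv (![v0, v1, v2, v3, v4, v5] i)) *
          (![v0, v1, v2, v3, v4, v5] i').g +
        bl (BV fun i => (tb T.bg (j i) : ℝ)) (wv (![v0, v1, v2, v3, v4, v5] i')) *
          (![v0, v1, v2, v3, v4, v5] i).g) ≤
        2000000 * aa * (![v0, v1, v2, v3, v4, v5] i).g * (![v0, v1, v2, v3, v4, v5] i').g := by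
  obtain ⟨hg, j0, j1, j2, j3, j4, j5, j6, j7, j8, k0, k1, k2, k3, k4, k5, k6, k7, k8, aa, haa, hA, hPT⟩ := leafA_spec h
  refine ⟨hg, ![j0, j1, j2, j3, j4, j5, j6, j7, j8], ![k0, k1, k2, k3, k4, k5, k6, k7, k8], aa,
    by exact_mod_cast haa, ?_, ?_⟩
  · rw [sumx9, sumx9]
    have hA' : ((aa + 6946293558 : ℕ) : ℝ) = ((6442450944 + 2 * ((tb T.ag j0) + ((tb T.ag j1) + ((tb T.ag j2) + ((tb T.ag j3) + ((tb T.ag j4) + ((tb T.ag j5) + ((tb T.ag j6) + ((tb T.ag j7) + ((tb T.ag j8) + ((tb T.ah k0) + ((tb T.ah k1) + ((tb T.ah k2) + ((tb T.ah k3) + ((tb T.ah k4) + ((tb T.ah k5) + ((tb T.ah k6) + ((tb T.ah k7) + (tb T.ah k8)))))))))))))))))) : ℕ) : ℝ) := congrArg _ hA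
    push_cast at hA'
    simp only [Matrix.cons_val]
    linarith
  · intro i i'
    have h1 := hPT i i'
    unfold BV CV
    push_cast at h1
    exact h1

lemma wv_nonneg (v : W) (k : Fin 6) : 0 ≤ wv v k := by
  unfold wv
  fin_cases k <;> exact Nat.cast_nonneg _

lemma af_nonneg {p : Fin 6 → ℝ} (hp : ∀ i, 0 ≤ p i) (x : Fin 3 → ℝ) : 0 ≤ af p x := by
  unfold af
  have := hp 0; have := hp 1; have := hp 2; have := hp 3; have := hp 4; have := hp 5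
  positivity

lemma dt_wv (v : W) : dt (wv v) = detN v.a v.b v.c v.d v.e v.f := by
  unfold dt wv detN
  simp [Nat.add_eq, Nat.mul_eq]
  ring

lemma rad_wv {v : W} (h : Val v) : (v.g : ℝ) ≤ rad (wv v) := by
  refine le_of_pow_le_pow_left₀ (three_ne_zero) (rad_nonneg (wv_nonneg v)) ?_
  rw [rad_cube (dt_nonneg (wv_nonneg v)), dt_wv]
  have h1 : ((v.g * v.g * v.g : ℕ) : ℝ) ≤ (detN v.a v.b v.c v.d v.e v.f : ℕ) := by
    exact_mod_cast h
  push_cast at h1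
  calc (v.g : ℝ) ^ 3 = v.g * v.g * v.g := by ring
    _ ≤ _ := h1

lemma leafA_sound (T : Tab) (hT : TabOK T) (hF : Lam Fp ≤ 161731 / 100000)
    (v0 v1 v2 v3 v4 v5 : W) (h0 : Val v0) (h1 : Val v1) (h2 : Val v2) (h3 : Val v3) (h4 : Val v4)
    (h5 : Val v5) (h : leafA T v0 v1 v2 v3 v4 v5 = true) : Good ![v0, v1, v2, v3, v4, v5] := by
  obtain ⟨hg0, j, k, aa, haa0, hA, hPT⟩ := leafA_spec' h
  set v : Fin 6 → W := ![v0, v1, v2, v3, v4, v5] with hv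
  have hval : ∀ i, Val (v i) := by
    intro i
    fin_cases i
    · exact h0
    · exact h1
    · exact h2
    · exact h3
    · exact h4
    · exact h5
  intro l hl hp
  set p := ∑ i, l i • wv (v i) with hpdef
  have hd := dt_pos hp
  have hr := rad_pos hd
  have hp0 : ∀ k, 0 ≤ p k := fun k => by
    rw [hpdef]
    simp only [Finset.sum_apply, Pi.smul_apply, smul_eq_mul]
    exact Finset.sum_nonneg fun i _ => mul_nonneg (hl i) (wv_nonneg _ _)
  -- the lower bound for the radius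
  set g : ℝ := ∑ i, l i * (v i).g with hg
  have hgr : g ≤ rad p := by
    refine le_trans ?_ (rad_sum Finset.univ l (fun i => wv (v i)) hl fun i => wv_nonneg _)
    exact Finset.sum_le_sum fun i _ => mul_le_mul_of_nonneg_left (rad_wv (hval i)) (hl i)
  have hgn : 0 ≤ g := Finset.sum_nonneg fun i _ => mul_nonneg (hl i) (Nat.cast_nonneg _)
  have hgpos : 0 < g := by
    rcases hgn.lt_or_eq with h | h
    · exact h
    · exfalso
      have hz : ∀ i, l i = 0 := by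
        intro i
        have h2 := (Finset.sum_eq_zero_iff_of_nonneg (fun i _ =>
          mul_nonneg (hl i) (Nat.cast_nonneg (v i).g))).1 h.symm i (Finset.mem_univ i)
        rcases mul_eq_zero.1 h2 with h3 | h3
        · exact h3
        · have := hg0 i
          rw [Nat.cast_eq_zero] at h3
          omega
      have hp0 : p = 0 := by
        rw [hpdef]
        refine Finset.sum_eq_zero fun i _ => ?_
        rw [hz, zero_smul]
      rw [hp0] at hd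
      unfold dt at hd
      simp at hd
  -- the energy
  have hge := lam_ge hp
  have E : 2 * ∑ i, ((tb T.ag (j i) : ℝ) - tb T.bg (j i) * (Real.pi * (qf p (rv (Xv i)) / rad p))) ≤
      4294967296 * (2 * ∑ i, I 1 (Real.pi * (qf p (rv (Xv i)) / rad p))) := by
    rw [mul_left_comm, Finset.mul_sum _ _ (4294967296:ℝ)]
    refine mul_le_mul_of_nonneg_left (Finset.sum_le_sum fun i _ => ?_) (by norm_num)
    exact hT.1 (j i) _ (lam_pos hp ⟨Xv i, Xv0 (i, true)⟩).1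
  have H : 2 * ∑ i, ((tb T.ah (k i) : ℝ) -
      tb T.bh (k i) * (Real.pi * (af p (rv (Yv i)) / rad p ^ 2))) ≤
      4294967296 * (2 * ∑ i, I (-(3 / 2)) (Real.pi * (af p (rv (Yv i)) / rad p ^ 2))) := by
    rw [mul_left_comm, Finset.mul_sum _ _ (4294967296:ℝ)]
    refine mul_le_mul_of_nonneg_left (Finset.sum_le_sum fun i _ => ?_) (by norm_num)
    exact hT.2 (k i) _ (lam_pos hp ⟨Yv i, Yv0 (i, true)⟩).2
  have hps := pair_sum _ _ aa l (fun i => ((v i).g : ℝ)) (fun i => wv (v i)) hl hPT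
  have hb := bl_BV (fun i => (tb T.bg (j i) : ℝ)) p
  have hm := ml_CV (fun i => (tb T.bh (k i) : ℝ)) p
  set b := bl (BV fun i => (tb T.bg (j i) : ℝ)) p with hbdef
  set m := ml (CV fun i => (tb T.bh (k i) : ℝ)) p with hmdef
  have hbn : 0 ≤ b := by
    rw [hb]
    exact mul_nonneg (by norm_num) (Finset.sum_nonneg fun i _ =>
      mul_nonneg (Nat.cast_nonneg _) (qf_nonneg hp0 _))
  have hmn : 0 ≤ m := by
    rw [hm]
    exact mul_nonneg (by norm_num) (Finset.sum_nonneg fun i _ =>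
      mul_nonneg (Nat.cast_nonneg _) (af_nonneg hp0 _))
  have hkey : Real.pi * (b / rad p) + Real.pi * (m / rad p ^ 2) ≤ aa := by
    have e1 : b / rad p ≤ b / g := div_le_div_of_nonneg_left hbn hgpos hgr
    have e2 : m / rad p ^ 2 ≤ m / g ^ 2 := div_le_div_of_nonneg_left hmn (by positivity)
      (pow_le_pow_left₀ hgpos.le hgr 2)
    have e3 : 3141593 / 1000000 * (b / g + m / g ^ 2) ≤ aa := by
      have : b / g + m / g ^ 2 = (m + b * g) / g ^ 2 := by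
        field_simp
        ring
      rw [this, ← mul_div_assoc, div_le_iff₀ (by positivity)]
      have h9 : 3141593 * (m + b * g) ≤ 1000000 * aa * g ^ 2 := hps
      linarith
    have hpi : Real.pi ≤ 3141593 / 1000000 := by
      have := Real.pi_lt_d6
      linarith
    have e4 : 0 ≤ b / g + m / g ^ 2 := by positivity
    calc Real.pi * (b / rad p) + Real.pi * (m / rad p ^ 2)
        ≤ Real.pi * (b / g) + Real.pi * (m / g ^ 2) := by
          have := Real.pi_pos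
          gcongr
      _ = Real.pi * (b / g + m / g ^ 2) := by ring
      _ ≤ 3141593 / 1000000 * (b / g + m / g ^ 2) := mul_le_mul_of_nonneg_right hpi e4
      _ ≤ aa := e3
  have hb2 : Real.pi * (b / rad p) =
      2 * ∑ i, tb T.bg (j i) * (Real.pi * (qf p (rv (Xv i)) / rad p)) := by
    rw [hb, mul_div_assoc, mul_left_comm, Finset.sum_div, Finset.mul_sum]
    congr 1
    refine Finset.sum_congr rfl fun i _ => ?_
    ring
  have hm2 : Real.pi * (m / rad p ^ 2) =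
      2 * ∑ i, tb T.bh (k i) * (Real.pi * (af p (rv (Yv i)) / rad p ^ 2)) := by
    rw [hm, mul_div_assoc, mul_left_comm, Finset.sum_div, Finset.mul_sum]
    congr 1
    refine Finset.sum_congr rfl fun i _ => ?_
    ring
  rw [Finset.sum_sub_distrib] at E H
  linarith

end Pool.Agent.K1H99.FCC
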