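import Pool.Agent.K1H99.FCC.SndC

/-!
# Soundness of the leaves of type B
-/

set_option autoImplicit false

open Matrix

namespace Pool.Agent.K1H99.FCC

/-- the polarised determinant (times six) -/
def D6 (x y z : Fin 6 → ℝ) : ℝ :=
  (x 1 * y 2 + x 2 * y 1 + x 1 * y 5 + x 5 * y 1 + x 2 * y 5 + x 5 * y 2) * (z 0 + z 3 + z 4) +
    (x 0 * y 2 + x 2 * y 0 + x 0 * y 4 + x 4 * y 0 + x 2 * y 4 + x 4 * y 2) * (z 1 + z 3 + z 5) +
    (x 0 * y 1 + x 1 * y 0 + x 0 * y 3 + x 3 * y 0 + x 1 * y 3 + x 3 * y 1) * (z 2 + z 4 + z 5) +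
    (x 2 * y 3 + x 3 * y 2) * (z 0 + z 1 + z 4 + z 5) +
    (x 1 * y 4 + x 4 * y 1) * (z 0 + z 2 + z 3 + z 5) +
    (x 0 * y 5 + x 5 * y 0) * (z 1 + z 2 + z 3 + z 4) +
    (x 3 * y 4 + x 4 * y 3 + x 3 * y 5 + x 5 * y 3 + x 4 * y 5 + x 5 * y 4) * (z 0 + z 1 + z 2)

lemma D6_swap (x y z : Fin 6 → ℝ) : D6 x y z = D6 y x z := by
  unfold D6
  ring

lemma D6_rot (x y z : Fin 6 → ℝ) : D6 x y z = D6 x z y := by
  unfold D6
  ring

lemma D6_self (x : Fin 6 → ℝ) : D6 x x x = 6 * dt x := by
  unfold D6 dt
  ring

lemma D6_add (x x' y z : Fin 6 → ℝ) : D6 (x + x') y z = D6 x y z + D6 x' y z := by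
  unfold D6
  simp only [Pi.add_apply]
  ring

lemma D6_smul (c : ℝ) (x y z : Fin 6 → ℝ) : D6 (c • x) y z = c * D6 x y z := by
  unfold D6
  simp only [Pi.smul_apply, smul_eq_mul]
  ring

/-- the cut values -/
def cq (s : Nat) (x : Fin 6 → ℝ) : ℝ :=
  match s with

  | 0 => x 0 + x 3 + x 4
  | 1 => x 1 + x 3 + x 5
  | 2 => x 2 + x 4 + x 5
  | 3 => x 0 + x 1 + x 4 + x 5
  | 4 => x 0 + x 2 + x 3 + x 5
  | 5 => x 1 + x 2 + x 3 + x 4
  | _ => x 0 + x 1 + x 2

lemma cq_add (s : Nat) (x x' : Fin 6 → ℝ) : cq s (x + x') = cq s x + cq s x' := by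
  unfold cq
  split <;> simp only [Pi.add_apply] <;> ring

lemma cq_smul (s : Nat) (c : ℝ) (x : Fin 6 → ℝ) : cq s (c • x) = c * cq s x := by
  unfold cq
  split <;> simp only [Pi.smul_apply, smul_eq_mul] <;> ring

/-- the trilinear form tested by the leaves of type B -/
def E3 (s : Nat) (x y z : Fin 6 → ℝ) : ℝ := 4134 * D6 x y z - 60000 * (cq s x * cq s y * cq s z)

lemma E3_swap (s : Nat) (x y z : Fin 6 → ℝ) : E3 s x y z = E3 s y x z := by
  unfold E3
  rw [D6_swap]
  ring

lemma E3_rot (s : Nat) (x y z : Fin 6 → ℝ) : E3 s x y z = E3 s x z y := by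
  unfold E3
  rw [D6_rot]
  ring

/-- a form which is additive and homogeneous in its first argument, at a sum -/
lemma sum_first {ι V : Type*} [AddCommMonoid V] [Module ℝ V] (f : V → ℝ)
    (hadd : ∀ x y, f (x + y) = f x + f y) (hsm : ∀ (c : ℝ) x, f (c • x) = c * f x)
    (s : Finset ι) (l : ι → ℝ) (v : ι → V) :
    f (∑ i ∈ s, l i • v i) = ∑ i ∈ s, l i * f (v i) := by
  let F : V →ₗ[ℝ] ℝ :=
    { toFun := f, map_add' := hadd, map_smul' := fun c x => by rw [hsm]; rfl }
  have h : F (∑ i ∈ s, l i • v i) = ∑ i ∈ s, l i * F (v i) := by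
    rw [map_sum]
    refine Finset.sum_congr rfl fun i _ => ?_
    rw [map_smul, smul_eq_mul]
  exact h

lemma E3_sum (s : Nat) (l : Fin 6 → ℝ) (v : Fin 6 → Fin 6 → ℝ) (hl : ∀ i, 0 ≤ l i)
    (h : ∀ i j k, 0 ≤ E3 s (v i) (v j) (v k)) :
    0 ≤ E3 s (∑ i, l i • v i) (∑ i, l i • v i) (∑ i, l i • v i) := by
  have f1 : ∀ y z, E3 s (∑ i, l i • v i) y z = ∑ i, l i * E3 s (v i) y z := fun y z =>
    sum_first (fun x => E3 s x y z) (fun a b => by
      simp only [E3, D6_add, cq_add]; ring) (fun c a => by
      simp only [E3, D6_smul, cq_smul]; ring) Finset.univ l v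
  rw [f1]
  refine Finset.sum_nonneg fun i _ => mul_nonneg (hl i) ?_
  rw [E3_swap, f1]
  refine Finset.sum_nonneg fun j _ => mul_nonneg (hl j) ?_
  rw [E3_rot, E3_swap, f1]
  refine Finset.sum_nonneg fun k _ => mul_nonneg (hl k) ?_
  exact h _ _ _

lemma cutv_cast (s : Nat) (v : W) : (cutv s v : ℝ) = cq s (wv v) := by
  unfold cutv cq
  split <;> simp only [Nat.add_eq, Nat.cast_add] <;> (unfold wv; simp; try ring)

lemma trip_spec (s n0 n1 n2 n3 n4 n5 n6 qq : Nat) (l : List W)
    (h : trip s n0 n1 n2 n3 n4 n5 n6 qq l = true) : ∀ x ∈ l,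
      60000 * qq * cutv s x ≤ 4134 * (n0 * cutv 0 x + (n1 * cutv 1 x + (n2 * cutv 2 x +
        (n3 * cutv 3 x + (n4 * cutv 4 x + (n5 * cutv 5 x + n6 * cutv 6 x)))))) := by
  induction l with
  | nil => intro x hx; simp at hx
  | cons a l ih =>
    unfold trip at h
    rw [Bool.and_eq_true] at h
    intro x hx
    rcases List.mem_cons.1 hx with rfl | hx
    · exact Nat.le_of_ble_eq_true h.1
    · exact ih h.2 x hx

lemma trow_spec (s : Nat) (v w : W) (l : List W) (h : trow s v w l = true) : ∀ x ∈ l,
    0 ≤ E3 s (wv v) (wv w) (wv x) := by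
  unfold trow at h
  simp only [frc_eq] at h
  intro x hx
  have h1 := trip_spec _ _ _ _ _ _ _ _ _ _ h x hx
  simp only [Nat.add_eq, Nat.mul_eq] at h1
  rify at h1
  simp only [cutv_cast] at h1
  unfold E3
  have e : D6 (wv v) (wv w) (wv x) = (v.b * w.c + (v.c * w.b + (v.b * w.f + (v.f * w.b +
      (v.c * w.f + v.f * w.c))))) * cq 0 (wv x) + ((v.a * w.c + (v.c * w.a + (v.a * w.e +
      (v.e * w.a + (v.c * w.e + v.e * w.c))))) * cq 1 (wv x) + ((v.a * w.b + (v.b * w.a +
      (v.a * w.d + (v.d * w.a + (v.b * w.d + v.d * w.b))))) * cq 2 (wv x) +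
      ((v.c * w.d + v.d * w.c) * cq 3 (wv x) + ((v.b * w.e + v.e * w.b) * cq 4 (wv x) +
      ((v.a * w.f + v.f * w.a) * cq 5 (wv x) + (v.d * w.e + (v.e * w.d + (v.d * w.f +
      (v.f * w.d + (v.e * w.f + v.f * w.e))))) * cq 6 (wv x)))))) := by
    unfold D6 cq wv
    simp
    ring
  rw [e]
  linarith

lemma leafB_spec (s : Nat) (v0 v1 v2 v3 v4 v5 : W) (h : leafB s v0 v1 v2 v3 v4 v5 = true) :
    ∀ i j k, 0 ≤ E3 s (wv (![v0, v1, v2, v3, v4, v5] i)) (wv (![v0, v1, v2, v3, v4, v5] j))
      (wv (![v0, v1, v2, v3, v4, v5] k)) := by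
  unfold leafB at h
  simp only [Bool.and_eq_true] at h
  obtain ⟨⟨⟨⟨⟨⟨⟨⟨⟨⟨⟨⟨⟨⟨⟨⟨⟨⟨⟨⟨h00, h01⟩, h02⟩, h03⟩, h04⟩, h05⟩, h11⟩, h12⟩, h13⟩, h14⟩, h15⟩, h22⟩, h23⟩, h24⟩, h25⟩, h33⟩, h34⟩, h35⟩, h44⟩, h45⟩, h55⟩ := h
  have h00 := trow_spec _ _ _ _ h00
  have h01 := trow_spec _ _ _ _ h01
  have h02 := trow_spec _ _ _ _ h02
  have h03 := trow_spec _ _ _ _ h03
  have h04 := trow_spec _ _ _ _ h04
  have h05 := trow_spec _ _ _ _ h05
  have h11 := trow_spec _ _ _ _ h11
  have h12 := trow_spec _ _ _ _ h12
  have h13 := trow_spec _ _ _ _ h13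
  have h14 := trow_spec _ _ _ _ h14
  have h15 := trow_spec _ _ _ _ h15
  have h22 := trow_spec _ _ _ _ h22
  have h23 := trow_spec _ _ _ _ h23
  have h24 := trow_spec _ _ _ _ h24
  have h25 := trow_spec _ _ _ _ h25
  have h33 := trow_spec _ _ _ _ h33
  have h34 := trow_spec _ _ _ _ h34
  have h35 := trow_spec _ _ _ _ h35
  have h44 := trow_spec _ _ _ _ h44
  have h45 := trow_spec _ _ _ _ h45
  have h55 := trow_spec _ _ _ _ h55
  have srt : ∀ i j k : Fin 6, i ≤ j → j ≤ k → 0 ≤ E3 s (wv (![v0, v1, v2, v3, v4, v5] i))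
      (wv (![v0, v1, v2, v3, v4, v5] j)) (wv (![v0, v1, v2, v3, v4, v5] k)) := by
    intro i j k hij hjk
    fin_cases i <;> fin_cases j
    · fin_cases k
      · exact h00 _ (by simp)
      · exact h00 _ (by simp)
      · exact h00 _ (by simp)
      · exact h00 _ (by simp)
      · exact h00 _ (by simp)
      · exact h00 _ (by simp)
    · fin_cases k
      · exact absurd hjk (by decide)
      · exact h01 _ (by simp)
      · exact h01 _ (by simp)
      · exact h01 _ (by simp)
      · exact h01 _ (by simp)
      · exact h01 _ (by simp)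
    · fin_cases k
      · exact absurd hjk (by decide)
      · exact absurd hjk (by decide)
      · exact h02 _ (by simp)
      · exact h02 _ (by simp)
      · exact h02 _ (by simp)
      · exact h02 _ (by simp)
    · fin_cases k
      · exact absurd hjk (by decide)
      · exact absurd hjk (by decide)
      · exact absurd hjk (by decide)
      · exact h03 _ (by simp)
      · exact h03 _ (by simp)
      · exact h03 _ (by simp)
    · fin_cases k
      · exact absurd hjk (by decide)
      · exact absurd hjk (by decide)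
      · exact absurd hjk (by decide)
      · exact absurd hjk (by decide)
      · exact h04 _ (by simp)
      · exact h04 _ (by simp)
    · fin_cases k
      · exact absurd hjk (by decide)
      · exact absurd hjk (by decide)
      · exact absurd hjk (by decide)
      · exact absurd hjk (by decide)
      · exact absurd hjk (by decide)
      · exact h05 _ (by simp)
    · exact absurd hij (by decide)
    · fin_cases k
      · exact absurd hjk (by decide)
      · exact h11 _ (by simp)
      · exact h11 _ (by simp)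
      · exact h11 _ (by simp)
      · exact h11 _ (by simp)
      · exact h11 _ (by simp)
    · fin_cases k
      · exact absurd hjk (by decide)
      · exact absurd hjk (by decide)
      · exact h12 _ (by simp)
      · exact h12 _ (by simp)
      · exact h12 _ (by simp)
      · exact h12 _ (by simp)
    · fin_cases k
      · exact absurd hjk (by decide)
      · exact absurd hjk (by decide)
      · exact absurd hjk (by decide)
      · exact h13 _ (by simp)
      · exact h13 _ (by simp)
      · exact h13 _ (by simp)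
    · fin_cases k
      · exact absurd hjk (by decide)
      · exact absurd hjk (by decide)
      · exact absurd hjk (by decide)
      · exact absurd hjk (by decide)
      · exact h14 _ (by simp)
      · exact h14 _ (by simp)
    · fin_cases k
      · exact absurd hjk (by decide)
      · exact absurd hjk (by decide)
      · exact absurd hjk (by decide)
      · exact absurd hjk (by decide)
      · exact absurd hjk (by decide)
      · exact h15 _ (by simp)
    · exact absurd hij (by decide)
    · exact absurd hij (by decide)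
    · fin_cases k
      · exact absurd hjk (by decide)
      · exact absurd hjk (by decide)
      · exact h22 _ (by simp)
      · exact h22 _ (by simp)
      · exact h22 _ (by simp)
      · exact h22 _ (by simp)
    · fin_cases k
      · exact absurd hjk (by decide)
      · exact absurd hjk (by decide)
      · exact absurd hjk (by decide)
      · exact h23 _ (by simp)
      · exact h23 _ (by simp)
      · exact h23 _ (by simp)
    · fin_cases k
      · exact absurd hjk (by decide)
      · exact absurd hjk (by decide)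
      · exact absurd hjk (by decide)
      · exact absurd hjk (by decide)
      · exact h24 _ (by simp)
      · exact h24 _ (by simp)
    · fin_cases k
      · exact absurd hjk (by decide)
      · exact absurd hjk (by decide)
      · exact absurd hjk (by decide)
      · exact absurd hjk (by decide)
      · exact absurd hjk (by decide)
      · exact h25 _ (by simp)
    · exact absurd hij (by decide)
    · exact absurd hij (by decide)
    · exact absurd hij (by decide)
    · fin_cases k
      · exact absurd hjk (by decide)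
      · exact absurd hjk (by decide)
      · exact absurd hjk (by decide)
      · exact h33 _ (by simp)
      · exact h33 _ (by simp)
      · exact h33 _ (by simp)
    · fin_cases k
      · exact absurd hjk (by decide)
      · exact absurd hjk (by decide)
      · exact absurd hjk (by decide)
      · exact absurd hjk (by decide)
      · exact h34 _ (by simp)
      · exact h34 _ (by simp)
    · fin_cases k
      · exact absurd hjk (by decide)
      · exact absurd hjk (by decide)
      · exact absurd hjk (by decide)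
      · exact absurd hjk (by decide)
      · exact absurd hjk (by decide)
      · exact h35 _ (by simp)
    · exact absurd hij (by decide)
    · exact absurd hij (by decide)
    · exact absurd hij (by decide)
    · exact absurd hij (by decide)
    · fin_cases k
      · exact absurd hjk (by decide)
      · exact absurd hjk (by decide)
      · exact absurd hjk (by decide)
      · exact absurd hjk (by decide)
      · exact h44 _ (by simp)
      · exact h44 _ (by simp)
    · fin_cases k
      · exact absurd hjk (by decide)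
      · exact absurd hjk (by decide)
      · exact absurd hjk (by decide)
      · exact absurd hjk (by decide)
      · exact absurd hjk (by decide)
      · exact h45 _ (by simp)
    · exact absurd hij (by decide)
    · exact absurd hij (by decide)
    · exact absurd hij (by decide)
    · exact absurd hij (by decide)
    · exact absurd hij (by decide)
    · fin_cases k
      · exact absurd hjk (by decide)
      · exact absurd hjk (by decide)
      · exact absurd hjk (by decide)
      · exact absurd hjk (by decide)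
      · exact absurd hjk (by decide)
      · exact h55 _ (by simp)
  intro i j k
  rcases le_total i j with a | a <;> rcases le_total j k with b | b <;>
    rcases le_total i k with c | c
  · exact srt i j k a b
  · exact srt i j k a b
  · rw [E3_rot]; exact srt i k j c b
  · rw [E3_rot, E3_swap]; exact srt k i j c a
  · rw [E3_swap]; exact srt j i k a c
  · rw [E3_swap, E3_rot]; exact srt j k i b c
  · rw [E3_rot, E3_swap, E3_rot]; exact srt k j i b a
  · rw [E3_rot, E3_swap, E3_rot]; exact srt k j i b a

/-- the numerical bound used by the leaves of type B -/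
lemma I_one_short : 58655 / 1000000 ≤ I 1 (2341 / 1000) := by
  rw [I_one (by norm_num)]
  have h1 : (2341 / 1000 : ℝ) = 2 + 341 / 1000 := by norm_num
  have h2 : Real.exp (341 / 1000) ≤ 14064 / 10000 := by
    refine (Real.exp_bound' (by norm_num) (by norm_num) (n := 6) (by norm_num)).trans ?_
    norm_num [Finset.sum_range_succ, Nat.factorial]
  have h3 : Real.exp 2 ≤ 738906 / 100000 := by
    have : Real.exp 2 = Real.exp 1 ^ 2 := by
      rw [← Real.exp_nat_mul]
      norm_num
    rw [this]
    have h := Real.exp_one_lt_d9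
    have h0 := Real.exp_pos 1
    nlinarith
  have h4 : Real.exp (2341 / 1000) ≤ 14064 / 10000 * (738906 / 100000) := by
    rw [h1, Real.exp_add, mul_comm]
    exact mul_le_mul h2 h3 (Real.exp_pos _).le (by norm_num)
  have h5 : 1 / (14064 / 10000 * (738906 / 100000)) ≤ Real.exp (-(2341 / 1000)) := by
    rw [Real.exp_neg, ← one_div]
    exact one_div_le_one_div_of_le (Real.exp_pos _) h4
  refine le_trans ?_ (mul_le_mul_of_nonneg_right h5 (by norm_num))
  norm_num

lemma cq_qf (s : Nat) (hs : s ≤ 6) : ∃ i : Fin 9, ∀ p, cq s p = qf p (rv (Xv i)) := by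
  interval_cases s
  · exact ⟨0, fun p => by unfold cq qf rv Xv; simp⟩
  · exact ⟨1, fun p => by unfold cq qf rv Xv; simp⟩
  · exact ⟨2, fun p => by unfold cq qf rv Xv; simp⟩
  · exact ⟨3, fun p => by unfold cq qf rv Xv; simp⟩
  · exact ⟨4, fun p => by unfold cq qf rv Xv; simp⟩
  · exact ⟨5, fun p => by unfold cq qf rv Xv; simp⟩
  · exact ⟨6, fun p => by unfold cq qf rv Xv; simp⟩

lemma leafB_sound (hF : Lam Fp ≤ 161731 / 100000) (s : Nat) (v0 v1 v2 v3 v4 v5 : W) (hs : s ≤ 6)
    (h : leafB s v0 v1 v2 v3 v4 v5 = true) : Good ![v0, v1, v2, v3, v4, v5] := by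
  intro l hl hp
  set p := ∑ i, l i • wv (![v0, v1, v2, v3, v4, v5] i) with hpdef
  have h1 : 0 ≤ E3 s p p p := E3_sum s l _ hl (leafB_spec s v0 v1 v2 v3 v4 v5 h)
  unfold E3 at h1
  rw [D6_self] at h1
  have hd := dt_pos hp
  have hr := rad_pos hd
  have hr3 := rad_cube hd.le
  obtain ⟨i, hi⟩ := cq_qf s hs
  have hq : qf p (rv (Xv i)) / rad p ≤ 745 / 1000 := by
    rw [div_le_iff₀ hr]
    refine le_of_pow_le_pow_left₀ (three_ne_zero) (by positivity) ?_
    rw [mul_pow, hr3, ← hi]
    nlinarith
  have hn : Xv i ≠ 0 := Xv0 (i, true)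
  have hpos := (lam_pos hp ⟨Xv i, hn⟩).1
  have hpi : Real.pi ≤ 3141593 / 1000000 := by
    have := Real.pi_lt_d6
    linarith
  have ha : Real.pi * (qf p (rv (Xv i)) / rad p) ≤ 2341 / 1000 := by
    have h0 : 0 ≤ qf p (rv (Xv i)) / rad p := by
      by_contra hc
      push Not at hc
      have := mul_neg_of_pos_of_neg Real.pi_pos hc
      linarith
    nlinarith [Real.pi_pos]
  have hI := I_one_short.trans (I_anti 1 hpos ha)
  have hge := lam_ge hp
  have s1 : 0 ≤ ∑ i, I (-(3 / 2)) (Real.pi * (af p (rv (Yv i)) / rad p ^ 2)) :=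
    Finset.sum_nonneg fun i _ => I_nonneg _ _
  have s2 : I 1 (Real.pi * (qf p (rv (Xv i)) / rad p)) ≤
      ∑ i, I 1 (Real.pi * (qf p (rv (Xv i)) / rad p)) :=
    Finset.single_le_sum (f := fun i => I 1 (Real.pi * (qf p (rv (Xv i)) / rad p)))
      (fun i _ => I_nonneg _ _) (Finset.mem_univ i)
  linarith

end Pool.Agent.K1H99.FCC
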