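import Pool.Agent.K1H99.FCC.Form

/-!
# Square roots and superadditivity of the cube root of the determinant
-/

set_option autoImplicit false

open Matrix

namespace Pool.Agent.K1H99.FCC

lemma qf_nonneg {p : Fin 6 → ℝ} (hp : ∀ i, 0 ≤ p i) (x : Fin 3 → ℝ) : 0 ≤ qf p x := by
  unfold qf
  have := hp 0; have := hp 1; have := hp 2; have := hp 3; have := hp 4; have := hp 5
  positivity

lemma qm_dot (p : Fin 6 → ℝ) (x : Fin 3 → ℝ) : x ⬝ᵥ ((Qm p).mulVec x) = qf p x := by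
  unfold Qm qf
  simp [Matrix.mulVec, dotProduct, Fin.sum_univ_three]
  ring

open scoped MatrixOrder in
lemma exists_sqrt {p : Fin 6 → ℝ} (hp : ∀ i, 0 ≤ p i) :
    ∃ A : Matrix (Fin 3) (Fin 3) ℝ, Aᵀ * A = Qm p := by
  have h : (Qm p).PosSemidef := by
    refine Matrix.PosSemidef.of_dotProduct_mulVec_nonneg ?_ fun x => ?_
    · unfold Qm
      ext i j
      fin_cases i <;> fin_cases j <;> simp [Matrix.conjTranspose_apply]
    · rw [star_trivial, qm_dot]
      exact qf_nonneg hp x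
  obtain ⟨B, hB⟩ := CStarAlgebra.nonneg_iff_eq_star_mul_self.mp h.nonneg
  refine ⟨B, ?_⟩
  rw [hB, Matrix.star_eq_conjTranspose, Matrix.conjTranspose_eq_transpose_of_trivial]

lemma dt_nonneg {p : Fin 6 → ℝ} (hp : ∀ i, 0 ≤ p i) : 0 ≤ dt p := by
  unfold dt
  have := hp 0; have := hp 1; have := hp 2; have := hp 3; have := hp 4; have := hp 5
  positivity

lemma pd_of_dt {p : Fin 6 → ℝ} (hp : ∀ i, 0 ≤ p i) (h : 0 < dt p) : PD p := by
  obtain ⟨A, hA⟩ := exists_sqrt hp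
  refine ⟨A, hA, fun h0 => ?_⟩
  have := det_sq hA
  rw [h0] at this
  norm_num at this
  linarith

/-- arithmetic-geometric mean inequality for three numbers -/
lemma amgm3 {a b c : ℝ} (ha : 0 ≤ a) (hb : 0 ≤ b) (hc : 0 ≤ c) :
    27 * (a * b * c) ≤ (a + b + c) ^ 3 := by
  nlinarith [mul_nonneg ha (sq_nonneg (b - c)), mul_nonneg hb (sq_nonneg (a - c)),
    mul_nonneg hc (sq_nonneg (a - b)), mul_nonneg (add_nonneg (add_nonneg ha hb) hc)
    (add_nonneg (add_nonneg (sq_nonneg (a - b)) (sq_nonneg (b - c))) (sq_nonneg (a - c)))]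

/-- `(tr M Mᵀ)³ ≥ 27 det(M)²` -/
lemma trace_det (M : Matrix (Fin 3) (Fin 3) ℝ) :
    27 * M.det ^ 2 ≤ (M * Mᵀ).trace ^ 3 := by
  have hps : (M * Mᴴ).PosSemidef := Matrix.posSemidef_self_mul_conjTranspose M
  rw [Matrix.conjTranspose_eq_transpose_of_trivial] at hps
  have h1 := hps.1.det_eq_prod_eigenvalues
  have h2 := hps.1.trace_eq_sum_eigenvalues
  rw [Matrix.det_mul, Matrix.det_transpose] at h1
  simp only [RCLike.ofReal_real_eq_id, id_eq, Fin.prod_univ_three, Fin.sum_univ_three] at h1 h2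
  rw [sq, h1, h2]
  exact amgm3 (hps.eigenvalues_nonneg 0) (hps.eigenvalues_nonneg 1) (hps.eigenvalues_nonneg 2)

/-- the mixed discriminant (times three) -/
def mx (p q : Fin 6 → ℝ) : ℝ := ((Qm p).adjugate * Qm q).trace

lemma dt_add (p q : Fin 6 → ℝ) : dt (p + q) = dt p + mx p q + mx q p + dt q := by
  unfold mx
  unfold Qm dt
  rw [Matrix.adjugate_fin_three_of, Matrix.adjugate_fin_three_of]
  simp [Matrix.trace, Fin.sum_univ_three, Pi.add_apply]
  ring

lemma mx_ge {p q : Fin 6 → ℝ} (hp : ∀ i, 0 ≤ p i) (hq : ∀ i, 0 ≤ q i) :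
    27 * (dt p ^ 2 * dt q) ≤ mx p q ^ 3 := by
  obtain ⟨A, hA⟩ := exists_sqrt hp
  obtain ⟨B, hB⟩ := exists_sqrt hq
  have h := trace_det (B * A.adjugate)
  have e1 : (B * A.adjugate).det ^ 2 = dt p ^ 2 * dt q := by
    rw [Matrix.det_mul, Matrix.det_adjugate, Fintype.card_fin, ← det_sq hA, ← det_sq hB]
    ring
  have e2 : (B * A.adjugate * (B * A.adjugate)ᵀ).trace = mx p q := by
    unfold mx
    rw [← hA, ← hB, Matrix.adjugate_mul_distrib, Matrix.transpose_mul, ← Matrix.adjugate_transpose,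
      Matrix.mul_assoc, Matrix.trace_mul_comm]
    simp only [Matrix.mul_assoc]
  rw [e1, e2] at h
  exact h

lemma mx_nonneg {p q : Fin 6 → ℝ} (hp : ∀ i, 0 ≤ p i) (hq : ∀ i, 0 ≤ q i) : 0 ≤ mx p q := by
  have h := mx_ge hp hq
  have h1 : 0 ≤ mx p q ^ 3 := le_trans (mul_nonneg (by norm_num)
    (mul_nonneg (sq_nonneg _) (dt_nonneg hq))) h
  by_contra hn
  push Not at hn
  have : mx p q ^ 3 < 0 := Odd.pow_neg (by decide) hn
  linarith

lemma rad_nonneg {p : Fin 6 → ℝ} (hp : ∀ i, 0 ≤ p i) : 0 ≤ rad p := by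
  unfold rad
  exact Real.rpow_nonneg (dt_nonneg hp) _

lemma rad_add {p q : Fin 6 → ℝ} (hp : ∀ i, 0 ≤ p i) (hq : ∀ i, 0 ≤ q i) :
    rad p + rad q ≤ rad (p + q) := by
  have hpq : ∀ i, 0 ≤ (p + q) i := fun i => add_nonneg (hp i) (hq i)
  have a1 := rad_cube (dt_nonneg hp)
  have a2 := rad_cube (dt_nonneg hq)
  have a3 := rad_cube (dt_nonneg hpq)
  have r1 := rad_nonneg hp
  have r2 := rad_nonneg hq
  have r3 := rad_nonneg hpq
  have m1 : 3 * (rad p ^ 2 * rad q) ≤ mx p q := by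
    refine (pow_le_pow_iff_left₀ (by positivity) (mx_nonneg hp hq) (three_ne_zero)).1 ?_
    refine le_trans (le_of_eq ?_) (mx_ge hp hq)
    rw [← a1, ← a2]
    ring
  have m2 : 3 * (rad q ^ 2 * rad p) ≤ mx q p := by
    refine (pow_le_pow_iff_left₀ (by positivity) (mx_nonneg hq hp) (three_ne_zero)).1 ?_
    refine le_trans (le_of_eq ?_) (mx_ge hq hp)
    rw [← a1, ← a2]
    ring
  refine (pow_le_pow_iff_left₀ (by positivity) r3 (three_ne_zero)).1 ?_
  rw [a3, dt_add, ← a1, ← a2]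
  nlinarith

lemma dt_smul (c : ℝ) (p : Fin 6 → ℝ) : dt (c • p) = c ^ 3 * dt p := by
  unfold dt
  simp only [Pi.smul_apply, smul_eq_mul]
  ring

lemma rad_smul {c : ℝ} (hc : 0 ≤ c) {p : Fin 6 → ℝ} (hp : ∀ i, 0 ≤ p i) :
    rad (c • p) = c * rad p := by
  have hcp : ∀ i, 0 ≤ (c • p) i := fun i => by
    simp only [Pi.smul_apply, smul_eq_mul]
    exact mul_nonneg hc (hp i)
  have a1 := rad_cube (dt_nonneg hp)
  have a3 := rad_cube (dt_nonneg hcp)
  have r1 := rad_nonneg hp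
  have r3 := rad_nonneg hcp
  refine (pow_left_inj₀ r3 (by positivity) (three_ne_zero)).1 ?_
  rw [a3, dt_smul, mul_pow, a1]

lemma rad_zero : rad 0 = 0 := by
  have h : dt 0 = 0 := by
    unfold dt
    simp
  unfold rad
  rw [h]
  exact Real.zero_rpow (by norm_num)

/-- superadditivity over sums -/
lemma rad_sum {ι : Type*} (s : Finset ι) (l : ι → ℝ) (v : ι → Fin 6 → ℝ) (hl : ∀ i, 0 ≤ l i)
    (hv : ∀ i k, 0 ≤ v i k) : ∑ i ∈ s, l i * rad (v i) ≤ rad (∑ i ∈ s, l i • v i) := by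
  classical
  induction s using Finset.induction_on with
  | empty => simp [rad_zero]
  | insert a s ha ih =>
    rw [Finset.sum_insert ha, Finset.sum_insert ha]
    have h1 : ∀ k, 0 ≤ (l a • v a) k := fun k => by
      simp only [Pi.smul_apply, smul_eq_mul]
      exact mul_nonneg (hl a) (hv a k)
    have h2 : ∀ k, 0 ≤ (∑ i ∈ s, l i • v i) k := fun k => by
      simp only [Finset.sum_apply, Pi.smul_apply, smul_eq_mul]
      exact Finset.sum_nonneg fun i _ => mul_nonneg (hl i) (hv i k)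
    refine le_trans ?_ (rad_add h1 h2)
    rw [rad_smul (hl a) (hv a)]
    linarith

end Pool.Agent.K1H99.FCC
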