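import Pool.Agent.K1H99.FCC.Asm
import Pool.Agent.K1H99.FCC.CF

/-!
# Symmetric sums over the face-centred cubic lattice and its dual
-/

set_option autoImplicit false

open Matrix

namespace Pool.Agent.K1H99.FCC

lemma exp_summable {p : Fin 6 → ℝ} (h : PD p) :
    (Summable fun k : N0 => Real.exp (-(Real.pi * (af p (rv k.1) / rad p ^ 2)))) ∧
    Summable fun n : N0 => Real.exp (-(Real.pi * (qf p (rv n.1) / rad p))) := by
  obtain ⟨A, hA, hd⟩ := h
  obtain ⟨A', B', h1, h2, h3, h4⟩ := normalise hA hd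
  have h5 : A'ᵀ * B' = 1 := by
    have := congrArg Matrix.transpose h1
    rwa [Matrix.transpose_mul, Matrix.transpose_transpose, Matrix.transpose_one] at this
  refine ⟨?_, ?_⟩
  · refine ((summable_gauss h5 (c := Real.pi) Real.pi_pos).subtype {n : Fin 3 → ℤ | n ≠ 0}).congr
      fun k => ?_
    show Real.exp (-Real.pi * nsq B' (rv k.1)) = _
    rw [h4]
    congr 1
    ring
  · refine ((summable_gauss h1 (c := Real.pi) Real.pi_pos).subtype {n : Fin 3 → ℤ | n ≠ 0}).congr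
      fun k => ?_
    show Real.exp (-Real.pi * nsq A' (rv k.1)) = _
    rw [h3]
    congr 1
    ring

/-- sums with cubic symmetry -/
lemma sym_sum {c : N0 → Fin 3 → ℝ} {φ : ℝ → ℝ} (s1 s2 s3 : N0 ≃ N0)
    (h1 : ∀ n, c (s1 n) = ![c n 0, c n 1, -c n 2]) (h2 : ∀ n, c (s2 n) = ![-c n 0, c n 1, c n 2])
    (h3 : ∀ n, c (s3 n) = ![c n 1, c n 2, c n 0])
    (hφ : ∀ n, 0 ≤ φ (c n 0 ^ 2 + c n 1 ^ 2 + c n 2 ^ 2))
    (hs : Summable fun n => φ (c n 0 ^ 2 + c n 1 ^ 2 + c n 2 ^ 2) *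
      (c n 0 ^ 2 + c n 1 ^ 2 + c n 2 ^ 2)) (a11 a22 a33 a12 a13 a23 : ℝ) :
    (Summable fun n => φ (c n 0 ^ 2 + c n 1 ^ 2 + c n 2 ^ 2) * (a11 * c n 0 ^ 2 + a22 * c n 1 ^ 2 +
      a33 * c n 2 ^ 2 + 2 * a12 * c n 0 * c n 1 + 2 * a13 * c n 0 * c n 2 +
      2 * a23 * c n 1 * c n 2)) ∧
    ∑' n, φ (c n 0 ^ 2 + c n 1 ^ 2 + c n 2 ^ 2) * (a11 * c n 0 ^ 2 + a22 * c n 1 ^ 2 +
      a33 * c n 2 ^ 2 + 2 * a12 * c n 0 * c n 1 + 2 * a13 * c n 0 * c n 2 +
      2 * a23 * c n 1 * c n 2) = (a11 + a22 + a33) / 3 *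
      ∑' n, φ (c n 0 ^ 2 + c n 1 ^ 2 + c n 2 ^ 2) * (c n 0 ^ 2 + c n 1 ^ 2 + c n 2 ^ 2) := by
  set w : N0 → ℝ := fun n => φ (c n 0 ^ 2 + c n 1 ^ 2 + c n 2 ^ 2) with hw
  have w1 : ∀ n, w (s1 n) = w n := by
    intro n
    simp only [hw, h1]
    simp
  have w2 : ∀ n, w (s2 n) = w n := by
    intro n
    simp only [hw, h2]
    simp
  have w3 : ∀ n, w (s3 n) = w n := by
    intro n
    simp only [hw, h3]
    simp only [Matrix.cons_val]
    congr 1
    ring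
  have sm : ∀ i j : Fin 3, Summable fun n => w n * (c n i * c n j) := by
    intro i j
    refine Summable.of_norm_bounded hs fun n => ?_
    rw [Real.norm_eq_abs, abs_mul, abs_of_nonneg (hφ n)]
    refine mul_le_mul_of_nonneg_left ?_ (hφ n)
    have e : ∀ x y z : ℝ, |x * y| ≤ x ^ 2 + y ^ 2 + z ^ 2 := by
      intro x y z
      rw [abs_le]
      constructor <;> nlinarith [sq_nonneg (x - y), sq_nonneg (x + y), sq_nonneg z]
    have e0 : ∀ x y z : ℝ, |x * x| ≤ x ^ 2 + y ^ 2 + z ^ 2 := by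
      intro x y z
      rw [abs_le]
      constructor <;> nlinarith [sq_nonneg x, sq_nonneg y, sq_nonneg z]
    have b1 := e (c n 0) (c n 1) (c n 2)
    have b2 := e (c n 0) (c n 2) (c n 1)
    have b3 := e (c n 1) (c n 2) (c n 0)
    have b4 := e0 (c n 0) (c n 1) (c n 2)
    have b5 := e0 (c n 1) (c n 0) (c n 2)
    have b6 := e0 (c n 2) (c n 0) (c n 1)
    fin_cases i <;> fin_cases j <;> simp only [Fin.zero_eta, Fin.mk_one, Fin.reduceFinMk] <;>
      first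
        | linarith
        | (rw [mul_comm]; linarith)
  have z1 : ∑' n, w n * (c n 0 * c n 2) = 0 := by
    have e := s1.tsum_eq fun n => w n * (c n 0 * c n 2)
    have e2 : ∀ n, w (s1 n) * (c (s1 n) 0 * c (s1 n) 2) = -(w n * (c n 0 * c n 2)) := by
      intro n
      rw [w1, h1]
      simp
    simp_rw [e2] at e
    rw [tsum_neg] at e
    linarith
  have z2 : ∑' n, w n * (c n 1 * c n 2) = 0 := by
    have e := s1.tsum_eq fun n => w n * (c n 1 * c n 2)
    have e2 : ∀ n, w (s1 n) * (c (s1 n) 1 * c (s1 n) 2) = -(w n * (c n 1 * c n 2)) := by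
      intro n
      rw [w1, h1]
      simp
    simp_rw [e2] at e
    rw [tsum_neg] at e
    linarith
  have z3 : ∑' n, w n * (c n 0 * c n 1) = 0 := by
    have e := s2.tsum_eq fun n => w n * (c n 0 * c n 1)
    have e2 : ∀ n, w (s2 n) * (c (s2 n) 0 * c (s2 n) 1) = -(w n * (c n 0 * c n 1)) := by
      intro n
      rw [w2, h2]
      simp
    simp_rw [e2] at e
    rw [tsum_neg] at e
    linarith
  have z4 : ∑' n, w n * (c n 1 * c n 1) = ∑' n, w n * (c n 0 * c n 0) := by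
    rw [← s3.tsum_eq fun n => w n * (c n 0 * c n 0)]
    refine tsum_congr fun n => ?_
    rw [w3, h3]
    simp
  have z5 : ∑' n, w n * (c n 2 * c n 2) = ∑' n, w n * (c n 1 * c n 1) := by
    rw [← s3.tsum_eq fun n => w n * (c n 1 * c n 1)]
    refine tsum_congr fun n => ?_
    rw [w3, h3]
    simp
  have hsum : HasSum (fun n => w n * (a11 * c n 0 ^ 2 + a22 * c n 1 ^ 2 +
      a33 * c n 2 ^ 2 + 2 * a12 * c n 0 * c n 1 + 2 * a13 * c n 0 * c n 2 +
      2 * a23 * c n 1 * c n 2)) (a11 * ∑' n, w n * (c n 0 * c n 0) +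
      a22 * ∑' n, w n * (c n 1 * c n 1) + a33 * ∑' n, w n * (c n 2 * c n 2) +
      2 * a12 * ∑' n, w n * (c n 0 * c n 1) + 2 * a13 * ∑' n, w n * (c n 0 * c n 2) +
      2 * a23 * ∑' n, w n * (c n 1 * c n 2)) := by
    refine (((((((sm 0 0).hasSum.mul_left a11).add ((sm 1 1).hasSum.mul_left a22)).add
      ((sm 2 2).hasSum.mul_left a33)).add ((sm 0 1).hasSum.mul_left (2 * a12))).add
      ((sm 0 2).hasSum.mul_left (2 * a13))).add ((sm 1 2).hasSum.mul_left (2 * a23))).congr_fun ?_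
    intro n
    ring
  have htot : ∑' n, w n * (c n 0 ^ 2 + c n 1 ^ 2 + c n 2 ^ 2) =
      3 * ∑' n, w n * (c n 0 * c n 0) := by
    have h : HasSum (fun n => w n * (c n 0 ^ 2 + c n 1 ^ 2 + c n 2 ^ 2))
        (∑' n, w n * (c n 0 * c n 0) + ∑' n, w n * (c n 1 * c n 1) +
          ∑' n, w n * (c n 2 * c n 2)) := by
      refine (((sm 0 0).hasSum.add (sm 1 1).hasSum).add (sm 2 2).hasSum).congr_fun ?_
      intro n
      ring
    rw [h.tsum_eq, z5, z4]
    ring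
  refine ⟨hsum.summable, ?_⟩
  rw [hsum.tsum_eq, htot, z1, z2, z3, z5, z4]
  ring

end Pool.Agent.K1H99.FCC
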